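import Pool.Agent.Lib.TourE.Defs

/-!
# Gd: degrees in a tournament (about 90 lines)

`n = |V|`.  `|Nb R true v| + |Nb R false v| = n - 1`, so one of them is at least `(n-1)/2 ≥ n/8`.
Let `X` be the set of the vertices with fewer than `n/8` outneighbours (`Nb R true`), `x = |X|`:
the arcs inside `X`: `x (x-1)/2 ≤ x n/8`, so `x ≤ n/4 + 1`.  The same for inneighbours.  So at least
`n - 2 (n/4 + 1) = n/2 - 2 ≥ (9/20) n` vertices have both degrees at least `n/8` (`n ≥ 80`).
-/

namespace Pool.Agent.Lib.TourE

open Finset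
open Pool.Agent.Lib.RobT (IsTour Arc eN Nb RT)

open Classical in
private theorem gd_nb {V : Type} [Fintype V] {R : V → V → Prop} (hR : IsTour R) (v : V) :
    (Nb R true v).card + (Nb R false v).card + 1 = Fintype.card V := by
  have e1 : Nb R true v = univ.filter fun w => R v w := by
    ext w
    unfold Nb
    rw [mem_filter, mem_filter]
    unfold Arc
    simp
  have e2 : Nb R false v = univ.filter fun w => R w v := by
    ext w
    unfold Nb
    rw [mem_filter, mem_filter]
    unfold Arc
    simp
  rw [e1, e2, ← card_union_of_disjoint]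
  · have e3 : ((univ.filter fun w => R v w) ∪ (univ.filter fun w => R w v)) = univ.erase v := by
      ext w
      rw [mem_union, mem_filter, mem_filter, mem_erase]
      constructor
      · rintro (h | h)
        · exact ⟨fun hw => hR.irr v (hw ▸ h.2), mem_univ _⟩
        · exact ⟨fun hw => hR.irr v (hw ▸ h.2), mem_univ _⟩
      · rintro ⟨h, _⟩
        rcases hR.tot v w (Ne.symm h) with h' | h'
        · exact Or.inl ⟨mem_univ _, h'⟩
        · exact Or.inr ⟨mem_univ _, h'⟩
    rw [e3, card_erase_of_mem (mem_univ v), card_univ]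
    have : 0 < Fintype.card V := Fintype.card_pos_iff.2 ⟨v⟩
    omega
  · rw [disjoint_left]
    intro w h h'
    exact hR.asym _ _ (mem_filter.1 h).2 (mem_filter.1 h').2

open Classical in
/-- A set of vertices, each of which has at most `d` neighbours of the direction `s`, has at most
`2 d + 1` elements. -/
private theorem gd_set {V : Type} [Fintype V] {R : V → V → Prop} (hR : IsTour R) (s : Bool)
    (X : Finset V) (d : ℝ) (hX : ∀ v ∈ X, ((Nb R s v).card : ℝ) ≤ d) :
    (X.card : ℝ) * (X.card - 1) ≤ 2 * (X.card * d) := by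
  have h1 : ((X ×ˢ X).filter fun p => Arc R s p.1 p.2).card =
      ((X ×ˢ X).filter fun p => Arc R s p.2 p.1).card := by
    refine card_bij (fun p _ => p.swap) ?_ ?_ ?_
    · rintro ⟨x, y⟩ h
      rw [mem_filter, mem_product] at h ⊢
      exact ⟨⟨h.1.2, h.1.1⟩, h.2⟩
    · intro p _ q _ h
      exact Prod.swap_injective h
    · rintro ⟨x, y⟩ h
      rw [mem_filter, mem_product] at h
      refine ⟨(y, x), ?_, rfl⟩
      rw [mem_filter, mem_product]
      exact ⟨⟨h.1.2, h.1.1⟩, h.2⟩
  have h2 : X.offDiag.card ≤ ((X ×ˢ X).filter fun p => Arc R s p.1 p.2).card +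
      ((X ×ˢ X).filter fun p => Arc R s p.2 p.1).card := by
    refine (card_le_card ?_).trans (card_union_le _ _)
    rintro ⟨x, y⟩ h
    rw [mem_offDiag] at h
    rw [mem_union, mem_filter, mem_filter, mem_product]
    rcases hR.tot x y h.2.2 with h' | h'
    · cases s
      · exact Or.inr ⟨⟨h.1, h.2.1⟩, Or.inr ⟨rfl, h'⟩⟩
      · exact Or.inl ⟨⟨h.1, h.2.1⟩, Or.inl ⟨rfl, h'⟩⟩
    · cases s
      · exact Or.inl ⟨⟨h.1, h.2.1⟩, Or.inr ⟨rfl, h'⟩⟩
      · exact Or.inr ⟨⟨h.1, h.2.1⟩, Or.inl ⟨rfl, h'⟩⟩
  have h3 : (((X ×ˢ X).filter fun p => Arc R s p.1 p.2).card : ℝ) ≤ X.card * d := by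
    have e : ((X ×ˢ X).filter fun p => Arc R s p.1 p.2).card =
        ∑ v ∈ X, (X.filter fun w => Arc R s v w).card := by
      rw [card_filter, sum_product]
      exact sum_congr rfl fun v _ => (card_filter _ _).symm
    rw [e, Nat.cast_sum, ← nsmul_eq_mul, ← sum_const]
    refine sum_le_sum fun v hv => ?_
    refine le_trans ?_ (hX v hv)
    have e' : (X.filter fun w => Arc R s v w).card ≤ (Nb R s v).card := by
      refine card_le_card fun w hw => ?_
      unfold Nb
      rw [mem_filter] at hw ⊢
      exact ⟨mem_univ _, hw.2⟩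
    exact_mod_cast e'
  rw [offDiag_card] at h2
  have h4 : X.card * X.card ≤ X.card +
      2 * ((X ×ˢ X).filter fun p => Arc R s p.1 p.2).card := by omega
  have h5 : (X.card : ℝ) * X.card ≤ X.card +
      2 * ((X ×ˢ X).filter fun p => Arc R s p.1 p.2).card := by exact_mod_cast h4
  nlinarith

open Classical in
theorem degrees {V : Type} [Fintype V] [DecidableEq V] {R : V → V → Prop} (hR : IsTour R)
    (hn : 80 ≤ Fintype.card V) :
    (∀ v, (Fintype.card V : ℝ) / 8 ≤ (Nb R true v).card ∨
      (Fintype.card V : ℝ) / 8 ≤ (Nb R false v).card) ∧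
    9 / 20 * (Fintype.card V : ℝ) ≤ ((univ.filter fun v =>
      (Fintype.card V : ℝ) / 8 ≤ (Nb R true v).card ∧
      (Fintype.card V : ℝ) / 8 ≤ (Nb R false v).card).card : ℝ) := by
  have hn' : (80 : ℝ) ≤ Fintype.card V := by exact_mod_cast hn
  constructor
  · intro v
    have h := gd_nb hR v
    have h' : ((Nb R true v).card : ℝ) + (Nb R false v).card + 1 = Fintype.card V := by
      exact_mod_cast h
    by_contra hc
    push Not at hc
    linarith [hc.1, hc.2]
  · have key : ∀ s : Bool, ((univ.filter fun v =>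
        ¬ ((Fintype.card V : ℝ) / 8 ≤ (Nb R s v).card)).card : ℝ) ≤ Fintype.card V / 4 + 1 := by
      intro s
      by_contra hc
      have hc' := not_le.1 hc
      have h1 := gd_set hR s (univ.filter fun v => ¬ ((Fintype.card V : ℝ) / 8 ≤ (Nb R s v).card))
        (Fintype.card V / 8) (fun v hv => (not_le.1 (mem_filter.1 hv).2).le)
      have h2 : (0 : ℝ) < ((univ.filter fun v =>
        ¬ ((Fintype.card V : ℝ) / 8 ≤ (Nb R s v).card)).card : ℝ) := by linarith
      have h3 := mul_pos h2 (sub_pos.2 hc')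
      linarith
    have h1 : (univ : Finset V).card ≤ (univ.filter fun v =>
        (Fintype.card V : ℝ) / 8 ≤ (Nb R true v).card ∧
        (Fintype.card V : ℝ) / 8 ≤ (Nb R false v).card).card +
        ((univ.filter fun v => ¬ ((Fintype.card V : ℝ) / 8 ≤ (Nb R true v).card)).card +
        (univ.filter fun v => ¬ ((Fintype.card V : ℝ) / 8 ≤ (Nb R false v).card)).card) := by
      refine (card_le_card ?_).trans ((card_union_le _ _).trans
        (Nat.add_le_add_left (card_union_le _ _) _))
      intro v _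
      rw [mem_union, mem_union, mem_filter, mem_filter, mem_filter]
      by_cases a : (Fintype.card V : ℝ) / 8 ≤ (Nb R true v).card
      · by_cases b : (Fintype.card V : ℝ) / 8 ≤ (Nb R false v).card
        · exact Or.inl ⟨mem_univ _, a, b⟩
        · exact Or.inr (Or.inr ⟨mem_univ _, b⟩)
      · exact Or.inr (Or.inl ⟨mem_univ _, a⟩)
    rw [card_univ] at h1
    have h2 : (Fintype.card V : ℝ) ≤ ((univ.filter fun v =>
        (Fintype.card V : ℝ) / 8 ≤ (Nb R true v).card ∧
        (Fintype.card V : ℝ) / 8 ≤ (Nb R false v).card).card : ℝ) +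
        (((univ.filter fun v => ¬ ((Fintype.card V : ℝ) / 8 ≤ (Nb R true v).card)).card : ℝ) +
        ((univ.filter fun v => ¬ ((Fintype.card V : ℝ) / 8 ≤ (Nb R false v).card)).card : ℝ)) := by
      exact_mod_cast h1
    have k1 := key true
    have k2 := key false
    linarith

end Pool.Agent.Lib.TourE
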