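import Pool.Agent.Lib.RobT.Gs

/-!
# Gr: the reservoir for two types of gadgets (about 220 lines)

Compare RobT/Gr.lean.  `n = |V|`, `f = 2 f₁ ≥ 1000`, `r = f - f/10 ≥ (9/10) f`, the vertices `v`
with
`P true v` and `P false v` are called good, there are at least `(9/20) n`.
SELECTION: `select` (RobT.Gs) with `G = V`, `vs v = {v}`, `Ok v` = (`v` good and `v ∉ U`),
`I = Bool × Fin f₁`, `Bad v (σ, i)` = `¬ Acc σ i v`, `f := r`, `D = 1`, `p = 1/20`.  Its hypothesis:
for `|Z| ≤ r ≤ f ≤ n/40` the set `B` of the good vertices outside `U ∪ Z` has at least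
`(9/20 - 1/40 - 1/40) n = (2/5) n` elements; `∑_{v ∈ B} ∑_{(σ,i) Bad} w (σ, i)
= ∑_{(σ,i)} w (σ, i) #{v ∈ B | ¬ Acc σ i v} ≤ (n/50) ∑ w` by `h2` (good `v` have `P σ v`), so some
`v ∈ B` has `∑_{Bad} w ≤ (n/50)/((2/5) n) ∑ w = (1/20) ∑ w`.
Get `R₀` with `|R₀| = r`, and every `(σ, i)` rejects at most `log f + r/10 ≤ f/50 + f/10` of its
elements (`log f = log (f/1000) + log 1000 ≤ f/1000 - 1 + 7 ≤ f/50` for `f ≥ 1000`, by
`Real.log_le_sub_one_of_pos` and `1000 ≤ exp 7`).  So every `(σ, i)` accepts at least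
`(9/10 - 1/50 - 1/10) f ≥ (3/4) f` elements of `R₀`.
HALL (`Finset.all_card_le_biUnion_card_iff_exists_injective`) for the sets `L.filter (Acc σ i)`:
let `A` be a set of gadgets `(σ, i)`, nonempty.  If `|A| ≤ (3/4) f`: one gadget suffices.  If
`|A| > (3/4) f`: every `v ∈ L` has `P σ v` for some `σ`; so at most `f₁/10` gadgets of type `σ` and
at most `f₁` gadgets of the other type reject it, together at most `(11/20) f < |A|`; so the union
is `L`, `|L| = f ≥ |A|`.
The injection has image `L` by cardinality.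
-/

namespace Pool.Agent.Lib.TourE

open Finset

private theorem gr_log_bd (f : ℕ) (hf : 1000 ≤ f) : Real.log f ≤ (f : ℝ) / 50 := by
  have hf' : (1000 : ℝ) ≤ f := by exact_mod_cast hf
  have h0 : (0 : ℝ) < f := by linarith
  have h1 : Real.log ((f : ℝ) / 1000) ≤ (f : ℝ) / 1000 - 1 :=
    Real.log_le_sub_one_of_pos (by positivity)
  have h2 : Real.log f = Real.log ((f : ℝ) / 1000) + Real.log 1000 := by
    rw [← Real.log_mul (by positivity) (by norm_num)]
    congr 1
    field_simp
  have h3 : Real.log 1000 ≤ 10 * Real.log 2 := by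
    have : (10 : ℝ) * Real.log 2 = Real.log (2 ^ 10) := by
      rw [Real.log_pow]
      norm_num
    rw [this]
    exact Real.log_le_log (by norm_num) (by norm_num)
  have h4 := Real.log_two_lt_d9
  linarith

open Classical in
private theorem gr_rej {V : Type} (f₁ : ℕ) (Acc : Bool → Fin f₁ → V → Prop) (P : Bool → V → Prop)
    (h1 : ∀ σ v, P σ v → ((univ.filter fun i => ¬ Acc σ i v).card : ℝ) ≤ f₁ / 10)
    (h3 : ∀ v, P true v ∨ P false v) (v : V) :
    ((univ.filter fun p : Bool × Fin f₁ => ¬ Acc p.1 p.2 v).card : ℝ) ≤ 11 / 10 * f₁ := by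
  have hc : (univ.filter fun p : Bool × Fin f₁ => ¬ Acc p.1 p.2 v).card =
      (univ.filter fun i => ¬ Acc true i v).card + (univ.filter fun i => ¬ Acc false i v).card := by
    rw [Finset.card_filter, Finset.card_filter, Finset.card_filter, Fintype.sum_prod_type,
      Fintype.sum_bool]
  rw [hc]
  push_cast
  have hle : ∀ σ : Bool, ((univ.filter fun i => ¬ Acc σ i v).card : ℝ) ≤ f₁ := by
    intro σ
    have := Finset.card_le_univ (univ.filter fun i => ¬ Acc σ i v)
    rw [Fintype.card_fin] at this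
    exact_mod_cast this
  rcases h3 v with h | h
  · have := h1 true v h
    have := hle false
    linarith
  · have := h1 false v h
    have := hle true
    linarith

open Classical in
theorem reserve {V : Type} [Fintype V] [DecidableEq V] (f₁ : ℕ)
    (Acc : Bool → Fin f₁ → V → Prop) (P : Bool → V → Prop) (U : Finset V) (hf : 500 ≤ f₁)
    (hfn : (f₁ : ℝ) ≤ Fintype.card V / 80) (hU : (U.card : ℝ) ≤ Fintype.card V / 40)
    (h1 : ∀ σ v, P σ v → ((univ.filter fun i => ¬ Acc σ i v).card : ℝ) ≤ f₁ / 10)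
    (h2 : ∀ σ i, ((univ.filter fun v => P σ v ∧ ¬ Acc σ i v).card : ℝ) ≤ Fintype.card V / 50)
    (h3 : ∀ v, P true v ∨ P false v)
    (h4 : 9 / 20 * (Fintype.card V : ℝ) ≤ ((univ.filter fun v => P true v ∧ P false v).card : ℝ)) :
    ∃ R₀ : Finset V, Disjoint R₀ U ∧ R₀.card = 2 * f₁ - 2 * f₁ / 10 ∧
      ∀ L : Finset V, R₀ ⊆ L → L.card = 2 * f₁ →
        ∃ σ : Bool × Fin f₁ → V, Function.Injective σ ∧ univ.image σ = L ∧
          ∀ p, Acc p.1 p.2 (σ p) := by
  have hf' : (500 : ℝ) ≤ f₁ := by exact_mod_cast hf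
  set r : ℕ := 2 * f₁ - 2 * f₁ / 10 with hr
  have hr1 : r ≤ 2 * f₁ := by omega
  have hr2 : (9 / 10 : ℝ) * (2 * f₁) ≤ r := by
    have : 9 * (2 * f₁) ≤ 10 * r := by omega
    have : (9 : ℝ) * (2 * f₁) ≤ 10 * r := by exact_mod_cast this
    linarith
  have hr1' : (r : ℝ) ≤ 2 * f₁ := by exact_mod_cast hr1
  obtain ⟨g, hg1, hg2, hg3⟩ := RobT.select (G := V) (V := V) (I := Bool × Fin f₁) (fun v => {v})
    (fun v => v ∉ U) (fun v p => ¬ Acc p.1 p.2 v) r 1 (1 / 20) (by norm_num) (by
      intro Z hZ w hw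
      have hZ' : (Z.card : ℝ) ≤ r := by
        have : Z.card ≤ r := by simpa using hZ
        exact_mod_cast this
      set Gd : Finset V := univ.filter fun v => P true v ∧ P false v with hGd
      have hS : (2 / 5 : ℝ) * Fintype.card V ≤ ((Gd \ (U ∪ Z)).card : ℝ) := by
        have h5 : (U ∪ Z).card ≤ U.card + Z.card := card_union_le _ _
        have h6 : Gd.card ≤ (Gd \ (U ∪ Z)).card + (U ∪ Z).card := by
          have h7 := Finset.le_card_sdiff (U ∪ Z) Gd
          omega
        have h5' : ((U ∪ Z).card : ℝ) ≤ U.card + Z.card := by exact_mod_cast h5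
        have h6' : (Gd.card : ℝ) ≤ ((Gd \ (U ∪ Z)).card : ℝ) + (U ∪ Z).card := by
          exact_mod_cast h6
        linarith
      have hne : (Gd \ (U ∪ Z)).Nonempty := by
        rw [← card_pos]
        have : (0 : ℝ) < ((Gd \ (U ∪ Z)).card : ℝ) := by linarith
        exact_mod_cast this
      have hw0 : 0 ≤ ∑ i, w i := sum_nonneg fun i _ => hw i
      have hsum : ∑ v ∈ Gd \ (U ∪ Z), ∑ p ∈ univ.filter (fun p : Bool × Fin f₁ => ¬ Acc p.1 p.2 v),
          w p ≤ ∑ v ∈ Gd \ (U ∪ Z), (1 / 20 * ∑ i, w i) := by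
        calc ∑ v ∈ Gd \ (U ∪ Z), ∑ p ∈ univ.filter (fun p : Bool × Fin f₁ => ¬ Acc p.1 p.2 v), w p
            ≤ ∑ v ∈ Gd, ∑ p ∈ univ.filter (fun p : Bool × Fin f₁ => ¬ Acc p.1 p.2 v), w p :=
              sum_le_sum_of_subset_of_nonneg sdiff_subset
                (fun v _ _ => sum_nonneg fun i _ => hw i)
          _ = ∑ p : Bool × Fin f₁, ∑ v ∈ Gd, (if ¬ Acc p.1 p.2 v then w p else 0) := by
              simp only [sum_filter]
              rw [sum_comm]
          _ = ∑ p : Bool × Fin f₁, ((Gd.filter fun v => ¬ Acc p.1 p.2 v).card : ℝ) * w p := by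
              refine sum_congr rfl fun i _ => ?_
              rw [← sum_filter, sum_const, nsmul_eq_mul]
          _ ≤ ∑ p : Bool × Fin f₁, ((Fintype.card V : ℝ) / 50) * w p := by
              refine sum_le_sum fun p _ => mul_le_mul_of_nonneg_right ?_ (hw p)
              refine le_trans ?_ (h2 p.1 p.2)
              have h8 : (Gd.filter fun v => ¬ Acc p.1 p.2 v) ⊆
                  univ.filter fun v => P p.1 v ∧ ¬ Acc p.1 p.2 v := by
                intro v hv
                rw [mem_filter, hGd, mem_filter] at hv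
                refine mem_filter.2 ⟨mem_univ _, ?_, hv.2⟩
                cases p.1
                · exact hv.1.2.2
                · exact hv.1.2.1
              exact_mod_cast card_le_card h8
          _ = (Fintype.card V : ℝ) / 50 * ∑ i, w i := by rw [mul_sum]
          _ ≤ ((Gd \ (U ∪ Z)).card : ℝ) * (1 / 20 * ∑ i, w i) := by
              nlinarith
          _ = _ := by rw [sum_const, nsmul_eq_mul]
      obtain ⟨v, hv, hv2⟩ := exists_le_of_sum_le hne hsum
      rw [mem_sdiff, mem_union, not_or] at hv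
      refine ⟨v, hv.2.1, by simp, by simpa using hv.2.2, le_trans (le_of_eq ?_) hv2⟩
      exact sum_congr (by ext i; simp) fun _ _ => rfl)
  have hginj : Function.Injective g := by
    intro a b hab
    by_contra hne
    have := hg2 a b hne
    rw [hab] at this
    simp at this
  have hcard : (univ.image g).card = r := by
    rw [card_image_of_injective _ hginj]
    simp
  refine ⟨univ.image g, ?_, hcard, ?_⟩
  · rw [disjoint_left]
    intro v hv
    obtain ⟨t, -, rfl⟩ := mem_image.1 hv
    exact hg1 t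
  intro L hRL hLf
  have hacc : ∀ p : Bool × Fin f₁,
      (3 : ℝ) / 4 * (2 * f₁) ≤ ((L.filter (Acc p.1 p.2)).card : ℝ) := by
    intro p
    have h5 := hg3 p
    have hI : Fintype.card (Bool × Fin f₁) = 2 * f₁ := by simp
    rw [hI] at h5
    have h6 := gr_log_bd (2 * f₁) (by omega)
    have h7 : (univ.filter fun t => ¬ Acc p.1 p.2 (g t)).card +
        (univ.filter fun t => Acc p.1 p.2 (g t)).card = r := by
      rw [add_comm, Finset.card_filter_add_card_filter_not]
      simp
    have h8 : (univ.filter fun t => Acc p.1 p.2 (g t)).card ≤ (L.filter (Acc p.1 p.2)).card := by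
      rw [← card_image_of_injective _ hginj]
      refine card_le_card ?_
      intro v hv
      obtain ⟨t, ht, rfl⟩ := mem_image.1 hv
      exact mem_filter.2 ⟨hRL (mem_image_of_mem _ (mem_univ _)), (mem_filter.1 ht).2⟩
    have h7' : ((univ.filter fun t => ¬ Acc p.1 p.2 (g t)).card : ℝ) +
        ((univ.filter fun t => Acc p.1 p.2 (g t)).card : ℝ) = r := by exact_mod_cast h7
    have h8' : ((univ.filter fun t => Acc p.1 p.2 (g t)).card : ℝ) ≤
        ((L.filter (Acc p.1 p.2)).card : ℝ) := by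
      exact_mod_cast h8
    have h5' : ((univ.filter fun t => ¬ Acc p.1 p.2 (g t)).card : ℝ) ≤
        Real.log ((2 * f₁ : ℕ) : ℝ) + 2 * (1 / 20) * r := by
      convert h5
    push_cast at h5' h6
    linarith
  have hall : ∀ S : Finset (Bool × Fin f₁),
      S.card ≤ (S.biUnion fun p => L.filter (Acc p.1 p.2)).card := by
    intro S
    rcases S.eq_empty_or_nonempty with rfl | ⟨i, hi⟩
    · simp
    by_cases hS : (S.card : ℝ) ≤ 3 / 4 * (2 * f₁)
    · have h5 : (L.filter (Acc i.1 i.2)).card ≤ (S.biUnion fun p => L.filter (Acc p.1 p.2)).card :=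
        card_le_card (subset_biUnion_of_mem (fun p : Bool × Fin f₁ => L.filter (Acc p.1 p.2)) hi)
      have h6 : ((L.filter (Acc i.1 i.2)).card : ℝ) ≤
          ((S.biUnion fun p => L.filter (Acc p.1 p.2)).card : ℝ) := by exact_mod_cast h5
      have h7 := hacc i
      have h8 : (S.card : ℝ) ≤ ((S.biUnion fun p => L.filter (Acc p.1 p.2)).card : ℝ) := by
        linarith
      exact_mod_cast h8
    · rw [not_le] at hS
      have h5 : L ⊆ S.biUnion fun p => L.filter (Acc p.1 p.2) := by
        intro v hv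
        by_contra hcon
        have h6 : S ⊆ univ.filter fun p : Bool × Fin f₁ => ¬ Acc p.1 p.2 v := by
          intro j hj
          refine mem_filter.2 ⟨mem_univ _, fun hA => hcon ?_⟩
          exact mem_biUnion.2 ⟨j, hj, mem_filter.2 ⟨hv, hA⟩⟩
        have h7 : (S.card : ℝ) ≤
            ((univ.filter fun p : Bool × Fin f₁ => ¬ Acc p.1 p.2 v).card : ℝ) := by
          exact_mod_cast card_le_card h6
        have h8 := gr_rej f₁ Acc P h1 h3 v
        linarith
      have h6 := card_le_card h5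
      have h7 := Finset.card_le_univ S
      have hI : Fintype.card (Bool × Fin f₁) = 2 * f₁ := by simp
      rw [hI] at h7
      omega
  obtain ⟨σ, hσ, hσ2⟩ := (Finset.all_card_le_biUnion_card_iff_exists_injective _).1 hall
  refine ⟨σ, hσ, ?_, fun i => (mem_filter.1 (hσ2 i)).2⟩
  refine Finset.eq_of_subset_of_card_le ?_ ?_
  · intro v hv
    obtain ⟨i, -, rfl⟩ := mem_image.1 hv
    exact (mem_filter.1 (hσ2 i)).1
  · rw [card_image_of_injective _ hσ, hLf]
    simp

end Pool.Agent.Lib.TourE
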