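import Pool.Agent.Lib.TourE.Gc

/-!
# Te: embedding a small graded forest with prescribed vertices (about 400 lines)

The proof of `embed_forest` in RobT/Te.lean (copy it) with these changes.  The sign of `i` is
`decide (a (par i) < a i)`.  The claim for `i ≤ m` has in addition: `φ k ∈ S (a k)` for all `k ∈
B_i`
(`k ∉ Lt`), and `φ 0 = r` if `0 < i`.
* Prescribed vertices: `ψ p ∈ K ⊆ S (a p)`.
* Case (5) with `i = 0`: `φ 0 = r`, `r ∈ K ⊆ S (a 0)` (`Lay.root`), `r ∉ Z`, and `r ∉ φ(B_0)`,
  `B_0 = Pr` (note that `B_0 = Pr`: chain vertices with `par^[l-1] a < 0` do not exist).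
* Case (2): `ConE` for the types `b t = a (par^[l-t] x₀)` (`x₀ ∈ X` the end of the chain; `b 0` is
  the type of `par^[l] x₀`, `b l` that of `x₀`), `u = φ (par^[l] x₀) ∈ S (b 0)`,
  `v = ψ x₀ ∈ K ⊆ S (b l)`; consecutive types are different (`hne`, the vertices `par^[j] x₀`,
  `j < l`, are `> 0`).  The new vertices are in the right layers.
* Case (5) with `i > 0`: choose `φ i` in the set of the `v ∈ S (a i)` with
  `Arc R (decide (a (par i) < a i)) (φ (par i)) v`, which has at least `4 δ n > m + |Z|` elements
  (`Lay.deg`), outside `Z ∪ φ(B_i)`.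
-/

namespace Pool.Agent.Lib.TourE

open Finset
open Pool.Agent.Lib.RobT (IsTour Arc eN Nb RT)

/-- the vertices treated before step `i` -/
private def tB (m l : ℕ) (par : ℕ → ℕ) (Lt Pr X : Finset ℕ) (i k : ℕ) : Prop :=
  k < m ∧ k ∉ Lt ∧ (k < i ∨ k ∈ Pr ∨ ∃ a ∈ X, ∃ j, 0 < j ∧ j < l ∧ par^[j] a = k ∧
    par^[l - 1] a < i)

/-- the vertices whose upper edge is treated before step `i` -/
private def tK (l : ℕ) (par : ℕ → ℕ) (X : Finset ℕ) (i k : ℕ) : Prop :=
  k < i ∨ ∃ a ∈ X, ∃ j, j < l ∧ par^[j] a = k ∧ par^[l - 1] a < i

private theorem te_lt {m l : ℕ} {par : ℕ → ℕ} (hpar : ∀ i, 0 < i → i < m → par i < i) {a : ℕ}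
    (ha : a < m) (h0 : ∀ j < l, par^[j] a ≠ 0) :
    ∀ j ≤ l, par^[j] a < m ∧ ∀ i < j, par^[j] a < par^[i] a := by
  intro j
  induction j with
  | zero => exact fun _ => ⟨ha, fun i hi => absurd hi (Nat.not_lt_zero i)⟩
  | succ j ih =>
    intro hj
    obtain ⟨h1, h2⟩ := ih (by omega)
    have h3 : par^[j + 1] a < par^[j] a := by
      rw [Function.iterate_succ_apply']
      exact hpar _ (Nat.pos_of_ne_zero (h0 j (by omega))) h1
    refine ⟨h3.trans h1, fun i hi => ?_⟩
    rcases Nat.lt_succ_iff_lt_or_eq.1 hi with h | h
    · exact h3.trans (h2 i h)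
    · rw [h]; exact h3

theorem embed_forest {V : Type} [Fintype V] [DecidableEq V] {R : V → V → Prop} {ℓ : ℕ}
    {δ η ε : ℝ} {S : ℕ → Finset V} {K : Finset V} {r : V} {l : ℕ} (hl : 2 ≤ l)
    (hL : Lay R ℓ δ η S K r) (hcon : ConE l ε R ℓ S)
    (m : ℕ) (par a : ℕ → ℕ) (hpar : ∀ i, 0 < i → i < m → par i < i)
    (ha : ∀ i, i < m → a i ≤ ℓ) (hne : ∀ i, 0 < i → i < m → a (par i) ≠ a i)
    (Lt Pr X : Finset ℕ) (ψ : ℕ → V) (Z : Finset V)
    (hψ : Set.InjOn ψ Pr) (hψZ : ∀ p ∈ Pr, ψ p ∉ Z) (hψK : ∀ p ∈ Pr, ψ p ∈ K)
    (hr : r ∉ Z) (hψr : ∀ p ∈ Pr, ψ p ≠ r) (h0P : 0 ∉ Pr) (h0L : 0 ∉ Lt)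
    (hPL : Disjoint Pr Lt) (hPm : ∀ p ∈ Pr, p < m) (hXP : X ⊆ Pr)
    (hc0 : ∀ x ∈ X, ∀ j < l, par^[j] x ≠ 0)
    (hc1 : ∀ x ∈ X, ∀ j, 0 < j → j < l → par^[j] x ∉ Pr ∧ par^[j] x ∉ Lt)
    (hc2 : ∀ x ∈ X, par^[l] x ∉ Lt)
    (hdis : ∀ x ∈ X, ∀ y ∈ X, x ≠ y → ∀ i j, 0 < i → i < l → 0 < j → j < l →
      par^[i] x ≠ par^[j] y)
    (hPX : ∀ p ∈ Pr, p ∉ X → par p ∈ Lt)
    (hLt : ∀ i, 0 < i → i < m → i ∉ Pr → i ∉ Lt → par i ∉ Lt)
    (hs1 : (m : ℝ) + Z.card ≤ ε * Fintype.card V)
    (hs2 : (m : ℝ) + Z.card < 4 * δ * Fintype.card V) (hm : 0 < m) :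
    ∃ φ : ℕ → V, φ 0 = r ∧ (∀ p ∈ Pr, φ p = ψ p) ∧ Set.InjOn φ {i | i < m ∧ i ∉ Lt} ∧
      (∀ i < m, i ∉ Lt → i ∉ Pr → φ i ∉ Z) ∧
      ∀ i, 0 < i → i < m → i ∉ Lt → par i ∉ Lt →
        Arc R (decide (a (par i) < a i)) (φ (par i)) (φ i) := by
  classical
  have hXm : ∀ e ∈ X, e < m := fun e he => hPm e (hXP he)
  have hit : ∀ e ∈ X, ∀ j ≤ l, par^[j] e < m ∧ ∀ i < j, par^[j] e < par^[i] e :=
    fun e he => te_lt hpar (hXm e he) (hc0 e he)
  have hinj : ∀ e ∈ X, ∀ i j, i ≤ l → j ≤ l → par^[i] e = par^[j] e → i = j := by
    intro e he i j hi hj h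
    rcases lt_trichotomy i j with h1 | h1 | h1
    · exact absurd h (ne_of_gt ((hit e he j hj).2 i h1))
    · exact h1
    · exact absurd h (ne_of_lt ((hit e he i hi).2 j h1))
  have huniq : ∀ e ∈ X, ∀ b ∈ X, ∀ i j, 0 < i → i < l → 0 < j → j < l →
      par^[i] e = par^[j] b → e = b := by
    intro e he b hb i j h1 h2 h3 h4 h5
    by_contra hab
    exact hdis e he b hb hab i j h1 h2 h3 h4 h5
  have hPLt : ∀ p ∈ Pr, p ∉ Lt := fun p hp => Finset.disjoint_left.1 hPL hp
  have main : ∀ i, i ≤ m → ∃ φ : ℕ → V, (∀ p ∈ Pr, φ p = ψ p) ∧
      Set.InjOn φ {k | tB m l par Lt Pr X i k} ∧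
      (∀ k, tB m l par Lt Pr X i k → k ∉ Pr → φ k ∉ Z) ∧
      (∀ k, 0 < k → tB m l par Lt Pr X i k → tB m l par Lt Pr X i (par k) →
        tK l par X i k → Arc R (decide (a (par k) < a k)) (φ (par k)) (φ k)) ∧
      (∀ k, tB m l par Lt Pr X i k → φ k ∈ S (a k)) ∧ (0 < i → φ 0 = r) := by
    intro i
    induction i with
    | zero =>
      intro _
      have hB0 : ∀ k, tB m l par Lt Pr X 0 k → k ∈ Pr := by
        rintro k ⟨-, -, h | h | ⟨e, -, j, -, -, -, h⟩⟩
        · exact absurd h (Nat.not_lt_zero k)
        · exact h
        · exact absurd h (Nat.not_lt_zero _)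
      refine ⟨ψ, fun p _ => rfl, ?_, fun k hk hkP => absurd (hB0 k hk) hkP, ?_, ?_, ?_⟩
      · intro x hx y hy hxy
        exact hψ (hB0 x hx) (hB0 y hy) hxy
      · rintro k - - - (h | ⟨e, -, j, -, -, h⟩)
        · exact absurd h (Nat.not_lt_zero k)
        · exact absurd h (Nat.not_lt_zero _)
      · intro k hk
        exact hL.core (a k) (ha k hk.1) (hψK k (hB0 k hk))
      · exact fun h => absurd h (lt_irrefl 0)
    | succ i ih =>
      intro him
      obtain ⟨φ, hφ1, hφ2, hφ3, hφ4, hφ5, hφ6⟩ := ih (by omega)
      have him' : i < m := by omega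
      -- the set of used images
      obtain ⟨U, hU⟩ : ∃ U : Finset V,
          U = Z ∪ ((range m).filter (fun k => tB m l par Lt Pr X i k)).image φ := ⟨_, rfl⟩
      have hUc : (U.card : ℝ) ≤ m + Z.card := by
        have h1 : U.card ≤ Z.card + m := by
          rw [hU]
          refine (Finset.card_union_le _ _).trans ?_
          have h2 := (Finset.card_image_le
            (s := (range m).filter (fun k => tB m l par Lt Pr X i k)) (f := φ)).trans
            (Finset.card_filter_le _ _)
          rw [Finset.card_range] at h2
          omega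
        have h3 : ((U.card : ℕ) : ℝ) ≤ ((Z.card + m : ℕ) : ℝ) := by exact_mod_cast h1
        push_cast at h3
        linarith
      have hUZ : ∀ v, v ∉ U → v ∉ Z := fun v hv h => hv (by rw [hU]; exact mem_union_left _ h)
      have hUφ : ∀ v, v ∉ U → ∀ k, tB m l par Lt Pr X i k → φ k ≠ v := by
        intro v hv k hk h
        apply hv
        rw [hU]
        refine mem_union_right _ (mem_image.2 ⟨k, ?_, h⟩)
        rw [mem_filter, mem_range]
        exact ⟨hk.1, hk⟩
      by_cases hcase : ∃ e ∈ X, par^[l - 1] e = i
      · -- case 2: e chain is embedded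
        obtain ⟨e, he, hei⟩ := hcase
        have heP := hXP he
        have hpar_i : par^[l] e = par i := by
          have h1 : l = (l - 1) + 1 := by omega
          conv_lhs => rw [h1]
          rw [Function.iterate_succ_apply', hei]
        have hp_lt : par i < i := by
          have h1 := (hit e he l le_rfl).2 (l - 1) (by omega)
          rwa [hpar_i, hei] at h1
        have hpB : tB m l par Lt Pr X i (par i) :=
          ⟨by omega, by rw [← hpar_i]; exact hc2 e he, Or.inl hp_lt⟩
        have heB : tB m l par Lt Pr X i e := ⟨hXm e he, hPLt e heP, Or.inr (Or.inl heP)⟩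
        have hia : i < e := by
          have h1 := (hit e he (l - 1) (by omega)).2 0 (by omega)
          rwa [hei] at h1
        have hne' : φ (par i) ≠ ψ e := by
          intro h
          have h1 : par i = e := hφ2 hpB heB (by rw [h, hφ1 e heP])
          omega
        have hi0 : 0 < i := Nat.pos_of_ne_zero (by rw [← hei]; exact hc0 e he (l - 1) (by omega))
        obtain ⟨z, hz0, hzl, hzarc, hzS, hzout, hzinj⟩ := hcon (fun t => a (par^[l - t] e))
          (φ (par i)) (ψ e) (fun t _ => ha _ ((hit e he (l - t) (by omega)).1))
          (by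
            intro t ht
            have h1 : par^[l - t] e = par (par^[l - (t + 1)] e) := by
              rw [← Function.iterate_succ_apply' par (l - (t + 1)) e]
              congr 1
              omega
            show a (par^[l - t] e) ≠ a (par^[l - (t + 1)] e)
            rw [h1]
            exact hne _ (Nat.pos_of_ne_zero (hc0 e he _ (by omega)))
              ((hit e he (l - (t + 1)) (by omega)).1))
          (by
            show φ (par i) ∈ S (a (par^[l - 0] e))
            rw [Nat.sub_zero, hpar_i]
            exact hφ5 _ hpB)
          (by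
            show ψ e ∈ S (a (par^[l - l] e))
            rw [Nat.sub_self]
            exact hL.core (a e) (ha e (hXm e he)) (hψK e heP))
          hne' U (hUc.trans hs1)
        -- chain vertices are above `i`
        have hch_ge : ∀ j, j < l → i ≤ par^[j] e := by
          intro j hj
          rcases Nat.lt_or_ge j (l - 1) with h | h
          · have h1 := (hit e he (l - 1) (by omega)).2 j h
            omega
          · have h1 : j = l - 1 := by omega
            rw [h1, hei]
        have hch_nB : ∀ j, 0 < j → j < l → ¬ tB m l par Lt Pr X i (par^[j] e) := by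
          rintro j hj0 hjl ⟨-, -, h | h | ⟨b, hb, j', h1, h2, h3, h4⟩⟩
          · have := hch_ge j hjl
            omega
          · exact (hc1 e he j hj0 hjl).1 h
          · have hba : b = e := huniq b hb e he j' j h1 h2 hj0 hjl h3
            rw [hba, hei] at h4
            omega
        obtain ⟨φ', hφ'⟩ : ∃ φ' : ℕ → V, φ' = fun k =>
            if h : ∃ j, 0 < j ∧ j < l ∧ par^[j] e = k then z (l - h.choose) else φ k := ⟨_, rfl⟩
        have hφ'c : ∀ j, 0 < j → j < l → φ' (par^[j] e) = z (l - j) := by
          intro j hj0 hjl
          have hex : ∃ j', 0 < j' ∧ j' < l ∧ par^[j'] e = par^[j] e := ⟨j, hj0, hjl, rfl⟩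
          have h1 := hex.choose_spec
          have h2 : hex.choose = j := hinj e he _ _ (by omega) (by omega) h1.2.2
          rw [hφ']
          simp only [dif_pos hex, h2]
        have hφ'n : ∀ k, (∀ j, 0 < j → j < l → par^[j] e ≠ k) → φ' k = φ k := by
          intro k hk
          rw [hφ']
          have : ¬ ∃ j, 0 < j ∧ j < l ∧ par^[j] e = k := by
            rintro ⟨j, h1, h2, h3⟩
            exact hk j h1 h2 h3
          simp only [dif_neg this]
        have hφ'B : ∀ k, tB m l par Lt Pr X i k → φ' k = φ k := by
          intro k hk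
          apply hφ'n
          rintro j h1 h2 rfl
          exact hch_nB j h1 h2 hk
        -- the new set
        have hBs : ∀ k, tB m l par Lt Pr X (i + 1) k → tB m l par Lt Pr X i k ∨
            ∃ j, 0 < j ∧ j < l ∧ par^[j] e = k := by
          rintro k ⟨h1, h2, h | h | ⟨b, hb, j', h3, h4, h5, h6⟩⟩
          · rcases Nat.lt_succ_iff_lt_or_eq.1 h with h' | h'
            · exact Or.inl ⟨h1, h2, Or.inl h'⟩
            · exact Or.inr ⟨l - 1, by omega, by omega, by rw [hei, h']⟩
          · exact Or.inl ⟨h1, h2, Or.inr (Or.inl h)⟩
          · rcases Nat.lt_succ_iff_lt_or_eq.1 h6 with h' | h'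
            · exact Or.inl ⟨h1, h2, Or.inr (Or.inr ⟨b, hb, j', h3, h4, h5, h'⟩)⟩
            · have hba : b = e := huniq b hb e he (l - 1) (l - 1) (by omega) (by omega)
                (by omega) (by omega) (by rw [h', hei])
              rw [hba] at h5
              exact Or.inr ⟨j', h3, h4, h5⟩
        have hzt : ∀ j, 0 < j → j < l → z (l - j) ∉ U := fun j h1 h2 =>
          (hzout (l - j) (by omega) (by omega)).1
        refine ⟨φ', ?_, ?_, ?_, ?_, ?_, ?_⟩
        · intro p hp
          rw [← hφ1 p hp]
          apply hφ'n
          rintro j h1 h2 rfl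
          exact (hc1 e he j h1 h2).1 hp
        · intro x hx y hy hxy
          rcases hBs x hx with hx' | ⟨jx, hx1, hx2, rfl⟩
          · rcases hBs y hy with hy' | ⟨jy, hy1, hy2, rfl⟩
            · rw [hφ'B x hx', hφ'B y hy'] at hxy
              exact hφ2 hx' hy' hxy
            · rw [hφ'B x hx', hφ'c jy hy1 hy2] at hxy
              exact absurd hxy (hUφ _ (hzt jy hy1 hy2) x hx')
          · rcases hBs y hy with hy' | ⟨jy, hy1, hy2, rfl⟩
            · rw [hφ'B y hy', hφ'c jx hx1 hx2] at hxy
              exact absurd hxy.symm (hUφ _ (hzt jx hx1 hx2) y hy')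
            · rw [hφ'c jx hx1 hx2, hφ'c jy hy1 hy2] at hxy
              have h1 : l - jx = l - jy := hzinj (by simp) (by simp) hxy
              have h2 : jx = jy := by omega
              rw [h2]
        · intro k hk hkP
          rcases hBs k hk with hk' | ⟨j, h1, h2, rfl⟩
          · rw [hφ'B k hk']
            exact hφ3 k hk' hkP
          · rw [hφ'c j h1 h2]
            exact hUZ _ (hzt j h1 h2)
        · intro k hk0 hk hkp hkK
          by_cases hkc : ∃ j, j < l ∧ par^[j] e = k
          · obtain ⟨j, hj, rfl⟩ := hkc
            have e1 : φ' (par^[j] e) = z (l - j) := by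
              rcases Nat.eq_zero_or_pos j with rfl | hj0
              · have h1 : φ' (par^[0] e) = φ e := hφ'B e heB
                rw [h1, hφ1 e heP, Nat.sub_zero, hzl]
              · exact hφ'c j hj0 hj
            have e2 : φ' (par (par^[j] e)) = z (l - (j + 1)) := by
              have e0 : par (par^[j] e) = par^[j + 1] e :=
                (Function.iterate_succ_apply' par j e).symm
              rw [e0]
              rcases Nat.lt_or_ge (j + 1) l with h | h
              · exact hφ'c (j + 1) (by omega) h
              · have h1 : j + 1 = l := by omega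
                rw [h1, hpar_i, hφ'B _ hpB, Nat.sub_self, hz0]
            have h3 := hzarc (l - (j + 1)) (by omega)
            have h4 : l - (j + 1) + 1 = l - j := by omega
            have h5 : l - (l - (j + 1)) = j + 1 := by omega
            have h6 : l - (l - j) = j := by omega
            have h7 : par^[j + 1] e = par (par^[j] e) := Function.iterate_succ_apply' par j e
            simp only [h4, h5, h6] at h3
            rw [h7] at h3
            rw [e1, e2]
            exact h3
          · have hkn : ∀ j, j < l → par^[j] e ≠ k := fun j h1 h2 => hkc ⟨j, h1, h2⟩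
            have hkB : tB m l par Lt Pr X i k := by
              rcases hBs k hk with h | ⟨j, h1, h2, h3⟩
              · exact h
              · exact absurd h3 (hkn j h2)
            have hkK' : tK l par X i k := by
              rcases hkK with h | ⟨b, hb, j, h1, h2, h3⟩
              · rcases Nat.lt_succ_iff_lt_or_eq.1 h with h' | h'
                · exact Or.inl h'
                · exact absurd (by rw [hei, h']) (hkn (l - 1) (by omega))
              · rcases Nat.lt_succ_iff_lt_or_eq.1 h3 with h' | h'
                · exact Or.inr ⟨b, hb, j, h1, h2, h'⟩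
                · have hba : b = e := huniq b hb e he (l - 1) (l - 1) (by omega) (by omega)
                    (by omega) (by omega) (by rw [h', hei])
                  rw [hba] at h2
                  exact absurd h2 (hkn j h1)
            have hpk_lt : par k < k := hpar k hk0 hk.1
            have hpkB : tB m l par Lt Pr X i (par k) := by
              rcases hBs _ hkp with h | ⟨j, h1, h2, h3⟩
              · exact h
              · exfalso
                have hge := hch_ge j h2
                rcases hkK' with h | ⟨b, hb, j', h4, h5, h6⟩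
                · omega
                · have hba : b ≠ e := by
                    rintro rfl
                    exact hkn j' h4 h5
                  rcases Nat.lt_or_ge (j' + 1) l with h | h
                  · apply hba
                    apply huniq b hb e he (j' + 1) j (by omega) h h1 h2
                    rw [Function.iterate_succ_apply', h5, h3]
                  · have h7 : j' = l - 1 := by omega
                    rw [h7] at h5
                    omega
            rw [hφ'B k hkB, hφ'B _ hpkB]
            exact hφ4 k hk0 hkB hpkB hkK'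
        · intro k hk
          rcases hBs k hk with hk' | ⟨j, h1, h2, rfl⟩
          · rw [hφ'B k hk']
            exact hφ5 k hk'
          · rw [hφ'c j h1 h2]
            have h3 := hzS (l - j) (by omega)
            have h6 : l - (l - j) = j := by omega
            simp only [h6] at h3
            exact h3
        · intro _
          rw [hφ'B 0 ⟨hm, h0L, Or.inl hi0⟩]
          exact hφ6 hi0
      · -- no chain has its top at `i`
        have hnt : ∀ e ∈ X, par^[l - 1] e ≠ i := fun e he h => hcase ⟨e, he, h⟩
        have hBs : ∀ k, tB m l par Lt Pr X (i + 1) k → tB m l par Lt Pr X i k ∨ k = i := by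
          rintro k ⟨h1, h2, h | h | ⟨b, hb, j', h3, h4, h5, h6⟩⟩
          · rcases Nat.lt_succ_iff_lt_or_eq.1 h with h' | h'
            · exact Or.inl ⟨h1, h2, Or.inl h'⟩
            · exact Or.inr h'
          · exact Or.inl ⟨h1, h2, Or.inr (Or.inl h)⟩
          · rcases Nat.lt_succ_iff_lt_or_eq.1 h6 with h' | h'
            · exact Or.inl ⟨h1, h2, Or.inr (Or.inr ⟨b, hb, j', h3, h4, h5, h'⟩)⟩
            · exact absurd h' (hnt b hb)
        have hKs : ∀ k, tK l par X (i + 1) k → tK l par X i k ∨ k = i := by
          rintro k (h | ⟨b, hb, j, h1, h2, h3⟩)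
          · rcases Nat.lt_succ_iff_lt_or_eq.1 h with h' | h'
            · exact Or.inl (Or.inl h')
            · exact Or.inr h'
          · rcases Nat.lt_succ_iff_lt_or_eq.1 h3 with h' | h'
            · exact Or.inl (Or.inr ⟨b, hb, j, h1, h2, h'⟩)
            · exact absurd h' (hnt b hb)
        by_cases hiB : i ∈ Lt ∨ tB m l par Lt Pr X i i
        · -- nothing to do
          have hBs' : ∀ k, tB m l par Lt Pr X (i + 1) k → tB m l par Lt Pr X i k := by
            intro k hk
            rcases hBs k hk with h | h
            · exact h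
            · rcases hiB with h' | h'
              · exact absurd h' (by rw [← h]; exact hk.2.1)
              · rw [h]; exact h'
          have hi0 : 0 < i := by
            rcases Nat.eq_zero_or_pos i with h0 | h0
            · exfalso
              rw [h0] at hiB
              rcases hiB with h | ⟨-, -, h | h | ⟨b, hb, j', -, -, -, h6⟩⟩
              · exact h0L h
              · exact absurd h (lt_irrefl 0)
              · exact h0P h
              · exact absurd h6 (Nat.not_lt_zero _)
            · exact h0
          refine ⟨φ, hφ1, fun x hx y hy hxy => hφ2 (hBs' x hx) (hBs' y hy) hxy,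
            fun k hk => hφ3 k (hBs' k hk), ?_, fun k hk => hφ5 k (hBs' k hk), fun _ => hφ6 hi0⟩
          intro k hk0 hk hkp hkK
          refine hφ4 k hk0 (hBs' k hk) (hBs' _ hkp) ?_
          rcases hKs k hkK with h | h
          · exact h
          · rw [h] at hk hkp ⊢
            rcases (hBs' i hk).2.2 with h' | h' | ⟨b, hb, j', h3, h4, h5, h6⟩
            · exact absurd h' (lt_irrefl i)
            · by_cases hiX : i ∈ X
              · right
                refine ⟨i, hiX, 0, by omega, rfl, ?_⟩
                exact (hit i hiX (l - 1) (by omega)).2 0 (by omega)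
              · exact absurd (hPX i h' hiX) hkp.2.1
            · exact Or.inr ⟨b, hb, j', h4, h5, h6⟩
        · -- e new vertex
          rw [not_or] at hiB
          obtain ⟨hiL, hiB⟩ := hiB
          have hnch : ∀ b ∈ X, ∀ j, 0 < j → j < l → par^[j] b ≠ i := by
            intro b hb j h1 h2 h3
            apply hiB
            refine ⟨him', hiL, Or.inr (Or.inr ⟨b, hb, j, h1, h2, h3, ?_⟩)⟩
            rcases Nat.lt_or_ge j (l - 1) with h | h
            · have h4 := (hit b hb (l - 1) (by omega)).2 j h
              omega
            · exact absurd (by rw [← h3]; congr 1; omega) (hnt b hb)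
          have hiP : i ∉ Pr := fun h => hiB ⟨him', hiL, Or.inr (Or.inl h)⟩
          have hx : ∃ x, x ∉ U ∧ x ∈ S (a i) ∧ (i = 0 → x = r) ∧
              (0 < i → Arc R (decide (a (par i) < a i)) (φ (par i)) x) := by
            rcases Nat.eq_zero_or_pos i with h0 | h0
            · refine ⟨r, ?_, hL.core (a i) (ha i him') hL.root.1, fun _ => rfl,
                fun h => absurd h (by omega)⟩
              intro hrU
              rw [hU] at hrU
              rcases mem_union.1 hrU with h | h
              · exact hr h
              · obtain ⟨k, hk, hkr⟩ := mem_image.1 h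
                have hkB := (mem_filter.1 hk).2
                have hkP : k ∈ Pr := by
                  rw [h0] at hkB
                  rcases hkB.2.2 with h | h | ⟨b, hb, j', -, -, -, h6⟩
                  · exact absurd h (Nat.not_lt_zero k)
                  · exact h
                  · exact absurd h6 (Nat.not_lt_zero _)
                exact hψr k hkP (by rw [← hφ1 k hkP]; exact hkr)
            · have hpi := hpar i h0 him'
              have hpB : tB m l par Lt Pr X i (par i) :=
                ⟨by omega, hLt i h0 him' hiP hiL, Or.inl hpi⟩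
              have h2 := hL.deg (a (par i)) (a i) (ha _ (by omega)) (ha i him')
                (hne i h0 him') (φ (par i)) (hφ5 _ hpB)
              by_contra hno
              push Not at hno
              have h1 : (((S (a i)).filter fun v =>
                  Arc R (decide (a (par i) < a i)) (φ (par i)) v).card : ℝ) ≤ (U.card : ℝ) := by
                have h4 : ((S (a i)).filter fun v =>
                    Arc R (decide (a (par i) < a i)) (φ (par i)) v).card ≤ U.card := by
                  apply Finset.card_le_card
                  intro x hx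
                  rw [mem_filter] at hx
                  by_contra hxU
                  obtain ⟨-, hxn⟩ := hno x hxU hx.1 (fun h => absurd h (by omega))
                  exact hxn hx.2
                exact_mod_cast h4
              linarith
          obtain ⟨x, hxU, hxS, hxr, hxarc⟩ := hx
          have hupd : ∀ k, tB m l par Lt Pr X i k → Function.update φ i x k = φ k := by
            intro k hk
            apply Function.update_of_ne
            rintro rfl
            exact hiB hk
          have hupi : Function.update φ i x i = x := Function.update_self _ _ _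
          refine ⟨Function.update φ i x, ?_, ?_, ?_, ?_, ?_, ?_⟩
          · intro p hp
            rw [hupd p ⟨hPm p hp, hPLt p hp, Or.inr (Or.inl hp)⟩, hφ1 p hp]
          · intro u hu v hv huv
            rcases hBs u hu with hu' | rfl
            · rcases hBs v hv with hv' | rfl
              · rw [hupd u hu', hupd v hv'] at huv
                exact hφ2 hu' hv' huv
              · rw [hupd u hu', hupi] at huv
                exact absurd huv (hUφ x hxU u hu')
            · rcases hBs v hv with hv' | rfl
              · rw [hupd v hv', hupi] at huv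
                exact absurd huv.symm (hUφ x hxU v hv')
              · rfl
          · intro k hk hkP
            rcases hBs k hk with hk' | rfl
            · rw [hupd k hk']
              exact hφ3 k hk' hkP
            · rw [hupi]
              exact hUZ x hxU
          · intro k hk0 hk hkp hkK
            have hpk_lt : par k < k := hpar k hk0 hk.1
            rcases eq_or_ne k i with hki | hki
            · rw [hki] at hpk_lt ⊢
              rw [hupi, Function.update_of_ne (by omega)]
              exact hxarc (by omega)
            · have hkB : tB m l par Lt Pr X i k := (hBs k hk).resolve_right hki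
              have hkK' : tK l par X i k := (hKs k hkK).resolve_right hki
              have hpki : par k ≠ i := by
                intro h
                rcases hkK' with h' | ⟨b, hb, j, h1, h2, h3⟩
                · omega
                · rcases Nat.lt_or_ge (j + 1) l with h4 | h4
                  · apply hnch b hb (j + 1) (by omega) h4
                    rw [Function.iterate_succ_apply', h2, h]
                  · have h5 : j = l - 1 := by omega
                    rw [h5] at h2
                    omega
              have hpkB : tB m l par Lt Pr X i (par k) := (hBs _ hkp).resolve_right hpki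
              rw [hupd k hkB, hupd _ hpkB]
              exact hφ4 k hk0 hkB hpkB hkK'
          · intro k hk
            rcases hBs k hk with hk' | rfl
            · rw [hupd k hk']
              exact hφ5 k hk'
            · rw [hupi]
              exact hxS
          · intro _
            rcases Nat.eq_zero_or_pos i with h0 | h0
            · have h1 : Function.update φ i x 0 = x := by
                conv_lhs => rw [← h0]
                exact hupi
              rw [h1]
              exact hxr h0
            · rw [hupd 0 ⟨hm, h0L, Or.inl h0⟩]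
              exact hφ6 h0
  obtain ⟨φ, h1, h2, h3, h4, -, h6⟩ := main m le_rfl
  have hB : ∀ k, k < m → k ∉ Lt → tB m l par Lt Pr X m k := fun k hk hk' =>
    ⟨hk, hk', Or.inl hk⟩
  refine ⟨φ, h6 hm, h1, ?_, fun i hi hi' => h3 i (hB i hi hi'), ?_⟩
  · rintro x ⟨hx1, hx2⟩ y ⟨hy1, hy2⟩ hxy
    exact h2 (hB x hx1 hx2) (hB y hy1 hy2) hxy
  · intro i hi0 him hiL hpL
    exact h4 i hi0 (hB i him hiL) (hB _ ((hpar i hi0 him).trans him) hpL) (Or.inl him)

end Pool.Agent.Lib.TourE
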