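import Pool.Agent.Lib.TourE.Defs
import Pool.Agent.Lib.RobT.Ts

/-!
# Ts: many disjoint sinks and sources (about 280 lines)

`s = sg par a`, so for `0 < i < m`: `s i = true` if `a (par i) < a i`, `false` if `a i < a (par i)`.
SINKS (`σ = true`).  Call `x < m` TOP if no neighbour of `x` (its parent if `x > 0`, its children)
has a larger grade.  `t` = number of tops.  `C k` = number of the `i < m` with `k ≤ a i`.  A
vertex of
grade `k` which is not top has a neighbour in the set counted by `C (k+1)`, and each vertex `y` is a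
neighbour of at most `Δ + 1` vertices (its parent and its children).  So
`#{i < m | a i = k} ≤ t + (Δ+1) C (k+1)`, `C k ≤ t + (Δ+2) C (k+1)`, `C (ℓ+1) = 0`; by downward
induction `C k ≤ t (Δ+2)^(ℓ+1-k)` (`1 + (Δ+2) + … ≤ (Δ+2)^…`), `k ≤ ℓ + 1`; `m = C 0 ≤ t
(Δ+2)^(ℓ+1)`.
A top `x > 0` satisfies `Snk m par s true x`: `a (par x) < a x` (`≠` by `GT.ne`), and a child `y`
has
`a y < a x`, so `s y = false`.
SOURCES (`σ = false`): the same for the grading `ℓ - a i` (or the same argument with reversed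
inequalities and `C k` = number of the `i` with `a i ≤ k`); a bottom `x > 0` has
`s x = false` and `s y = true` for its children.
EXCLUSION: at most `(Δ+1)^(l+1)` vertices have `par^[j] x = 0` for some `j ≤ l` (descendants of `0`
within `l` levels; see RobT/Ts.lean).  For large `m` at least `β' m` vertices remain for both signs,
`β' = 1/(2 (Δ+2)^(ℓ+1))`.
DISJOINT: `US m par l x` has at most `Δ + l + 1 =: u` elements and every `z` is in `US m par l x`
for
at most `1 + (Δ+1)^(l+1) =: w` of the remaining `x` (RobT/Ts.lean).  Choose one after the other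
`2 t'` vertices, `t' = ⌊β' m/(2 u w)⌋`-like, first sinks, then sources (or alternately): a
chosen vertex excludes at most `u w` others, and `2 t' u w < β' m`.  So `β` e.g. `β'/(4 u w)`, `m₀`
large.  (Sinks and sources are different vertices, as `s x = σ`.)
-/

namespace Pool.Agent.Lib.TourE

open Finset
open Pool.Agent.Lib.RobT (IsTour Arc eN Nb RT Snk US CH)

open Classical in
private theorem ts_greedy (Y : Finset ℕ) (U : ℕ → Finset ℕ) (a b : ℕ) (hself : ∀ x ∈ Y, x ∈ U x)
    (ha : ∀ x ∈ Y, (U x).card ≤ a) (hb : ∀ z, (Y.filter fun x => z ∈ U x).card ≤ b) :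
    ∃ X ⊆ Y, (∀ x ∈ X, ∀ y ∈ X, x ≠ y → Disjoint (U x) (U y)) ∧
      Y.card ≤ X.card * (a * b) := by
  obtain ⟨Q, hQ⟩ : ∃ Q : Finset ℕ → Prop, ∀ X, Q X ↔
      ∀ x ∈ X, ∀ y ∈ X, x ≠ y → Disjoint (U x) (U y) := ⟨_, fun _ => Iff.rfl⟩
  obtain ⟨X, hX, hmax⟩ := Finset.exists_max_image (Y.powerset.filter Q) Finset.card
    ⟨∅, by rw [mem_filter, hQ]; simp⟩
  rw [mem_filter, mem_powerset, hQ] at hX
  refine ⟨X, hX.1, hX.2, ?_⟩
  have hsub : Y ⊆ X.biUnion fun y => (U y).biUnion fun z => Y.filter fun x => z ∈ U x := by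
    intro x hx
    by_contra hcon0
    have hcon : ∀ y ∈ X, x ∉ (U y).biUnion fun z => Y.filter fun x => z ∈ U x := by
      intro y hy hxy
      exact hcon0 (mem_biUnion.2 ⟨y, hy, hxy⟩)
    have hxX : x ∉ X := by
      intro h
      exact hcon x h (mem_biUnion.2 ⟨x, hself x hx, mem_filter.2 ⟨hx, hself x hx⟩⟩)
    have hdis : ∀ y ∈ X, Disjoint (U x) (U y) := by
      intro y hy
      rw [Finset.disjoint_left]
      intro z hz1 hz2
      exact hcon y hy (mem_biUnion.2 ⟨z, hz2, mem_filter.2 ⟨hx, hz1⟩⟩)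
    have := hmax (insert x X) (by
      rw [mem_filter, mem_powerset, hQ]
      refine ⟨insert_subset hx hX.1, ?_⟩
      intro u hu v hv huv
      rw [mem_insert] at hu hv
      rcases hu with rfl | hu <;> rcases hv with rfl | hv
      · exact absurd rfl huv
      · exact hdis v hv
      · exact (hdis u hu).symm
      · exact hX.2 u hu v hv huv)
    rw [card_insert_of_notMem hxX] at this
    omega
  calc Y.card ≤ _ := card_le_card hsub
    _ ≤ X.card * (a * b) := by
      refine card_biUnion_le_card_mul _ _ _ fun y hy => ?_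
      refine (card_biUnion_le_card_mul _ _ b fun z _ => hb z).trans ?_
      exact Nat.mul_le_mul_right b (ha y (hX.1 hy))

open Classical in
private theorem ts_desc {m Δ : ℕ} {par : ℕ → ℕ} (h : RT m Δ par) (z : ℕ) : ∀ j : ℕ,
    ((range m).filter fun x => par^[j] x = z ∧ ∀ i < j, par^[i] x ≠ 0).card ≤ Δ ^ j := by
  intro j
  induction j with
  | zero =>
    rw [pow_zero]
    refine (card_le_card (t := {z}) ?_).trans (by simp)
    intro x hx
    rw [mem_filter] at hx
    rw [mem_singleton]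
    exact hx.2.1
  | succ j ih =>
    have hsub : ((range m).filter fun x => par^[j + 1] x = z ∧ ∀ i < j + 1, par^[i] x ≠ 0) ⊆
        ((range m).filter fun x => par^[j] x = z ∧ ∀ i < j, par^[i] x ≠ 0).biUnion
          fun y => (range m).filter fun x => 0 < x ∧ par x = y := by
      intro x hx
      rw [mem_filter, mem_range] at hx
      obtain ⟨hxm, hx1, hx2⟩ := hx
      have hx0 : 0 < x := Nat.pos_of_ne_zero (hx2 0 (Nat.succ_pos j))
      rw [mem_biUnion]
      refine ⟨par x, ?_, ?_⟩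
      · rw [mem_filter, mem_range]
        refine ⟨(h.lt x hx0 hxm).trans hxm, hx1, ?_⟩
        intro i hi
        exact hx2 (i + 1) (by omega)
      · rw [mem_filter, mem_range]
        exact ⟨hxm, hx0, rfl⟩
    refine (card_le_card hsub).trans ?_
    refine (card_biUnion_le_card_mul _ _ Δ fun y _ => ?_).trans ?_
    · convert h.deg y
    · rw [pow_succ]
      exact Nat.mul_le_mul_right Δ ih

open Classical in
private theorem ts_hit {m Δ : ℕ} {par : ℕ → ℕ} (h : RT m Δ par) (B : Finset ℕ) (h0 : 0 ∈ B)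
    (n : ℕ) : ((range m).filter fun x => ∃ j < n, par^[j] x ∈ B).card ≤
      B.card * ∑ j ∈ range n, Δ ^ j := by
  have hsub : ((range m).filter fun x => ∃ j < n, par^[j] x ∈ B) ⊆
      B.biUnion fun z => (range n).biUnion fun j =>
        (range m).filter fun x => par^[j] x = z ∧ ∀ i < j, par^[i] x ≠ 0 := by
    intro x hx
    rw [mem_filter] at hx
    obtain ⟨hxm, hx1⟩ := hx
    have hex : ∃ j, j < n ∧ par^[j] x ∈ B := hx1
    obtain ⟨hj1, hj2⟩ := Nat.find_spec hex
    refine mem_biUnion.2 ⟨par^[Nat.find hex] x, hj2, mem_biUnion.2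
      ⟨Nat.find hex, mem_range.2 hj1, mem_filter.2 ⟨hxm, rfl, ?_⟩⟩⟩
    intro i hi hi0
    exact Nat.find_min hex hi ⟨hi.trans hj1, by rw [hi0]; exact h0⟩
  refine (card_le_card hsub).trans (card_biUnion_le_card_mul _ _ _ fun z _ => ?_)
  exact card_biUnion_le.trans (sum_le_sum fun j _ => ts_desc h z j)

open Classical in
private theorem ts_hit1 {m Δ : ℕ} {par : ℕ → ℕ} (h : RT m Δ par) (z n : ℕ) :
    ((range m).filter fun x => (∃ j < n, par^[j] x = z) ∧ ∀ i < n, par^[i] x ≠ 0).card ≤
      ∑ j ∈ range n, Δ ^ j := by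
  have hsub : ((range m).filter fun x => (∃ j < n, par^[j] x = z) ∧ ∀ i < n, par^[i] x ≠ 0) ⊆
      (range n).biUnion fun j =>
        (range m).filter fun x => par^[j] x = z ∧ ∀ i < j, par^[i] x ≠ 0 := by
    intro x hx
    rw [mem_filter] at hx
    obtain ⟨hxm, ⟨j, hj, hjz⟩, hx1⟩ := hx
    exact mem_biUnion.2 ⟨j, mem_range.2 hj, mem_filter.2 ⟨hxm, hjz, fun i hi => hx1 i
      (hi.trans hj)⟩⟩
  refine (card_le_card hsub).trans ?_
  exact card_biUnion_le.trans (sum_le_sum fun j _ => ts_desc h z j)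

open Classical in
private theorem ts_tops {m Δ ℓ : ℕ} {par : ℕ → ℕ} (h : RT m Δ par) (g : ℕ → ℕ)
    (hg : ∀ i, i < m → g i ≤ ℓ) (T : Finset ℕ)
    (hT : ∀ x, x < m → (0 < x → g (par x) ≤ g x) → (∀ y, 0 < y → y < m → par y = x → g y ≤ g x) →
      x ∈ T) : m ≤ T.card * (Δ + 2) ^ (ℓ + 1) := by
  set C : ℕ → Finset ℕ := fun k => (range m).filter fun i => k ≤ g i with hC
  have hstep : ∀ k, (C k).card ≤ T.card + (Δ + 2) * (C (k + 1)).card := by
    intro k
    have hsub : C k ⊆ C (k + 1) ∪ (T ∪ (C (k + 1)).biUnion fun y => CH m par y ∪ {par y}) := by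
      intro x hx
      rw [hC, mem_filter, mem_range] at hx
      obtain ⟨hxm, hkx⟩ := hx
      by_cases hk1 : k + 1 ≤ g x
      · exact mem_union_left _ (mem_filter.2 ⟨mem_range.2 hxm, hk1⟩)
      · refine mem_union_right _ ?_
        by_cases hp : 0 < x → g (par x) ≤ g x
        · by_cases hc : ∀ y, 0 < y → y < m → par y = x → g y ≤ g x
          · exact mem_union_left _ (hT x hxm hp hc)
          · refine mem_union_right _ ?_
            push Not at hc
            obtain ⟨y, hy1, hy2, hy3, hy4⟩ := hc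
            refine mem_biUnion.2 ⟨y, mem_filter.2 ⟨mem_range.2 hy2, by omega⟩, ?_⟩
            exact mem_union_right _ (mem_singleton.2 hy3.symm)
        · refine mem_union_right _ ?_
          push Not at hp
          obtain ⟨hx0, hpx⟩ := hp
          refine mem_biUnion.2 ⟨par x, mem_filter.2 ⟨mem_range.2 ((h.lt x hx0 hxm).trans hxm),
            by omega⟩, ?_⟩
          exact mem_union_left _ (mem_filter.2 ⟨mem_range.2 hxm, hx0, rfl⟩)
    have h1 := (card_le_card hsub).trans (card_union_le _ _)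
    have h2 := card_union_le T ((C (k + 1)).biUnion fun y => CH m par y ∪ {par y})
    have h3 : ((C (k + 1)).biUnion fun y => CH m par y ∪ {par y}).card ≤
        (C (k + 1)).card * (Δ + 1) := by
      refine card_biUnion_le_card_mul _ _ _ fun y _ => ?_
      refine (card_union_le _ _).trans ?_
      have e1 : (CH m par y).card ≤ Δ := h.deg y
      rw [card_singleton]
      omega
    nlinarith
  have hind : ∀ j, j ≤ ℓ + 1 → (C (ℓ + 1 - j)).card + T.card ≤ T.card * (Δ + 2) ^ j := by
    intro j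
    induction j with
    | zero =>
      intro _
      have h0 : C (ℓ + 1 - 0) = ∅ := by
        rw [hC, Finset.filter_eq_empty_iff]
        intro i hi
        have := hg i (mem_range.1 hi)
        omega
      rw [h0]
      simp
    | succ j ih =>
      intro hj
      have h1 := ih (by omega)
      have h2 := hstep (ℓ + 1 - (j + 1))
      have h3 : ℓ + 1 - (j + 1) + 1 = ℓ + 1 - j := by omega
      rw [h3] at h2
      calc (C (ℓ + 1 - (j + 1))).card + T.card
          ≤ T.card + (Δ + 2) * (C (ℓ + 1 - j)).card + T.card := by omega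
        _ ≤ (Δ + 2) * ((C (ℓ + 1 - j)).card + T.card) := by nlinarith
        _ ≤ (Δ + 2) * (T.card * (Δ + 2) ^ j) := Nat.mul_le_mul_left _ h1
        _ = T.card * (Δ + 2) ^ (j + 1) := by ring
  have h1 := hind (ℓ + 1) le_rfl
  have h2 : C (ℓ + 1 - (ℓ + 1)) = range m := by
    rw [hC]
    ext i
    simp
  rw [h2, card_range] at h1
  omega

private theorem ts_snk {m Δ ℓ : ℕ} {par a : ℕ → ℕ} (h : GT ℓ m Δ par a) (σ : Bool) {x : ℕ}
    (hx : x < m) (hx0 : 0 < x)
    (h1 : (if σ then a (par x) else ℓ - a (par x)) ≤ if σ then a x else ℓ - a x)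
    (h2 : ∀ y, 0 < y → y < m → par y = x →
      (if σ then a y else ℓ - a y) ≤ if σ then a x else ℓ - a x) :
    Snk m par (sg par a) σ x := by
  have hpx := (h.rt.lt x hx0 hx).trans hx
  have l1 := h.le x hx
  have l2 := h.le (par x) hpx
  have n1 := h.ne x hx0 hx
  cases σ
  · simp only [Bool.false_eq_true, if_false] at h1 h2
    refine ⟨?_, fun y hy0 hy hyx => ?_⟩
    · rw [sg, decide_eq_false_iff_not]
      omega
    · have h3 := h2 y hy0 hy hyx
      have l3 := h.le y hy
      have n3 := h.ne y hy0 hy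
      rw [sg, Bool.not_false, decide_eq_true_iff]
      rw [hyx] at n3 ⊢
      omega
  · simp only [if_true] at h1 h2
    refine ⟨?_, fun y hy0 hy hyx => ?_⟩
    · rw [sg, decide_eq_true_iff]
      omega
    · have h3 := h2 y hy0 hy hyx
      rw [sg, Bool.not_true, decide_eq_false_iff_not, hyx]
      omega

open Classical in
private theorem ts_count {m Δ ℓ : ℕ} {par a : ℕ → ℕ} (h : GT ℓ m Δ par a) (l : ℕ) (σ : Bool) :
    m ≤ (((range m).filter fun x => Snk m par (sg par a) σ x ∧ ∀ j ≤ l, par^[j] x ≠ 0).card +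
      ∑ j ∈ range (l + 1), Δ ^ j) * (Δ + 2) ^ (ℓ + 1) := by
  set Y := (range m).filter fun x => Snk m par (sg par a) σ x ∧ ∀ j ≤ l, par^[j] x ≠ 0 with hY
  set B := (range m).filter fun x => ∃ j < l + 1, par^[j] x ∈ ({0} : Finset ℕ) with hB
  have h1 := ts_tops h.rt (fun i => if σ then a i else ℓ - a i) (ℓ := ℓ) (by
    intro i hi
    have := h.le i hi
    cases σ <;> simp <;> omega) (Y ∪ B) (by
    intro x hx hp hc
    by_cases hb : ∀ j ≤ l, par^[j] x ≠ 0
    · have hx0 : 0 < x := Nat.pos_of_ne_zero (hb 0 (Nat.zero_le l))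
      exact mem_union_left _ (mem_filter.2 ⟨mem_range.2 hx, ts_snk h σ hx hx0 (hp hx0) hc, hb⟩)
    · refine mem_union_right _ (mem_filter.2 ⟨mem_range.2 hx, ?_⟩)
      push Not at hb
      obtain ⟨j, hj, hj0⟩ := hb
      exact ⟨j, by omega, by rw [hj0]; exact mem_singleton_self 0⟩)
  have h2 := card_union_le Y B
  have h3 := ts_hit h.rt {0} (mem_singleton_self 0) (l + 1)
  rw [card_singleton, one_mul] at h3
  refine h1.trans (Nat.mul_le_mul_right _ ?_)
  exact h2.trans (Nat.add_le_add_left h3 _)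

open Classical in
private theorem ts_core (Δ ℓ l K D : ℕ) (hK : K = ∑ j ∈ range (l + 1), Δ ^ j)
    (hD : D = (Δ + 2) ^ (ℓ + 1)) (m : ℕ) (par a : ℕ → ℕ) (hm : 2 * (K * D) ≤ m)
    (h : GT ℓ m Δ par a) :
      ∃ X : Bool → Finset ℕ, (∀ σ, ∀ x ∈ X σ, x < m) ∧
        (∀ σ, m / (4 * D * ((Δ + l + 1) * (1 + K))) ≤ (X σ).card) ∧
        (∀ σ, ∀ x ∈ X σ, Snk m par (sg par a) σ x ∧ ∀ j, j ≤ l → par^[j] x ≠ 0) ∧
        ∀ σ, ∀ x ∈ X σ, ∀ σ', ∀ y ∈ X σ', x ≠ y →
          Disjoint (US m par l x) (US m par l y) := by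
  set Y : Bool → Finset ℕ := fun σ => (range m).filter fun x => Snk m par (sg par a) σ x ∧
    ∀ j ≤ l, par^[j] x ≠ 0 with hY
  have hDpos : 0 < D := by rw [hD]; positivity
  have hcnt : ∀ σ, m ≤ 2 * D * (Y σ).card := by
    intro σ
    have h1 := ts_count h l σ
    rw [← hK, ← hD] at h1
    have h2 : m ≤ ((Y σ).card + K) * D := h1
    nlinarith
  have hself : ∀ x, x ∈ US m par l x := fun x =>
    mem_union_right _ (mem_image.2 ⟨0, mem_range.2 (Nat.succ_pos l), rfl⟩)
  have hca : ∀ x, (US m par l x).card ≤ Δ + l + 1 := by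
    intro x
    refine (card_union_le _ _).trans ?_
    have e1 : (CH m par x).card ≤ Δ := h.rt.deg x
    have e2 : ((range (l + 1)).image fun j => par^[j] x).card ≤ l + 1 :=
      card_image_le.trans (by rw [card_range])
    omega
  have hcb : ∀ σ z, ((Y σ).filter fun x => z ∈ US m par l x).card ≤ 1 + K := by
    intro σ z
    have hs : ((Y σ).filter fun x => z ∈ US m par l x) ⊆ {par z} ∪
        ((range m).filter fun x => (∃ j < l + 1, par^[j] x = z) ∧
          ∀ i < l + 1, par^[i] x ≠ 0) := by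
      intro x hx
      rw [mem_filter] at hx
      obtain ⟨hxY, hxz⟩ := hx
      rw [hY, mem_filter] at hxY
      rcases mem_union.1 hxz with h1 | h1
      · refine mem_union_left _ (mem_singleton.2 ?_)
        exact (mem_filter.1 h1).2.2.symm
      · refine mem_union_right _ (mem_filter.2 ⟨hxY.1, ?_, ?_⟩)
        · obtain ⟨j, hj, hjz⟩ := mem_image.1 h1
          exact ⟨j, mem_range.1 hj, hjz⟩
        · intro i hi
          exact hxY.2.2 i (by omega)
    refine (card_le_card hs).trans ((card_union_le _ _).trans ?_)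
    have e1 := ts_hit1 h.rt z (l + 1)
    rw [card_singleton]
    omega
  set A := (Δ + l + 1) * (1 + K) with hA
  have hApos : 0 < A := by rw [hA]; positivity
  set t := m / (4 * D * A) with ht
  have htm : t * (4 * D * A) ≤ m := Nat.div_mul_le_self m _
  -- the sinks
  obtain ⟨X1, hX1Y, hdis1, hcard1⟩ := ts_greedy (Y true) (US m par l) (Δ + l + 1) (1 + K)
    (fun x _ => hself x) (fun x _ => hca x) (fun z => hcb true z)
  rw [← hA] at hcard1
  have ht1 : t ≤ X1.card := by
    have e1 := hcnt true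
    have e2 : t * (4 * D * A) ≤ 2 * D * (X1.card * A) :=
      htm.trans (e1.trans (Nat.mul_le_mul_left _ hcard1))
    have e3 : (2 * D * A) * (2 * t) ≤ (2 * D * A) * X1.card := by nlinarith
    have e4 := Nat.le_of_mul_le_mul_left e3 (by positivity)
    omega
  obtain ⟨X1', hX1', hX1c⟩ := Finset.exists_subset_card_eq ht1
  -- the sources
  set W := (Y false).filter fun x => ∀ y ∈ X1', Disjoint (US m par l x) (US m par l y) with hW
  have hWc : (Y false).card ≤ W.card + t * A := by
    have hsub : Y false ⊆ W ∪ X1'.biUnion fun y => (US m par l y).biUnion fun z =>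
        (Y false).filter fun x => z ∈ US m par l x := by
      intro x hx
      by_cases hd : ∀ y ∈ X1', Disjoint (US m par l x) (US m par l y)
      · exact mem_union_left _ (mem_filter.2 ⟨hx, hd⟩)
      · refine mem_union_right _ ?_
        push Not at hd
        obtain ⟨y, hy, hyd⟩ := hd
        rw [Finset.not_disjoint_iff] at hyd
        obtain ⟨z, hz1, hz2⟩ := hyd
        exact mem_biUnion.2 ⟨y, hy, mem_biUnion.2 ⟨z, hz2, mem_filter.2 ⟨hx, hz1⟩⟩⟩
    refine (card_le_card hsub).trans ((card_union_le _ _).trans (Nat.add_le_add_left ?_ _))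
    rw [← hX1c]
    refine card_biUnion_le_card_mul _ _ _ fun y hy => ?_
    refine (card_biUnion_le_card_mul _ _ (1 + K) fun z _ => hcb false z).trans ?_
    rw [hA]
    exact Nat.mul_le_mul_right _ (hca y)
  obtain ⟨X2, hX2W, hdis2, hcard2⟩ := ts_greedy W (US m par l) (Δ + l + 1) (1 + K)
    (fun x _ => hself x) (fun x _ => hca x) (fun z => (card_le_card
      (filter_subset_filter _ (filter_subset _ _))).trans (hcb false z))
  rw [← hA] at hcard2
  have ht2 : t ≤ X2.card := by
    have e1 := hcnt false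
    have e2 : m ≤ 2 * D * (X2.card * A + t * A) :=
      e1.trans (Nat.mul_le_mul_left _ (hWc.trans (Nat.add_le_add_right hcard2 _)))
    have e3 : (2 * D * A) * (2 * t) ≤ (2 * D * A) * (X2.card + t) := by nlinarith
    have e4 := Nat.le_of_mul_le_mul_left e3 (by positivity)
    omega
  have hcross : ∀ x ∈ X2, ∀ y ∈ X1', Disjoint (US m par l x) (US m par l y) := fun x hx =>
    (mem_filter.1 (hX2W hx)).2
  have hY1 : ∀ x ∈ X1', x ∈ Y true := fun x hx => hX1Y (hX1' hx)
  have hY2 : ∀ x ∈ X2, x ∈ Y false := fun x hx => (mem_filter.1 (hX2W hx)).1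
  refine ⟨fun σ => if σ then X1' else X2, ?_, ?_, ?_, ?_⟩
  · intro σ x hx
    cases σ
    · exact mem_range.1 (mem_filter.1 (hY2 x (by simpa using hx))).1
    · exact mem_range.1 (mem_filter.1 (hY1 x (by simpa using hx))).1
  · intro σ
    cases σ
    · simpa using ht2
    · simp only [if_true]
      rw [hX1c]
  · intro σ x hx
    cases σ
    · exact (mem_filter.1 (hY2 x (by simpa using hx))).2
    · exact (mem_filter.1 (hY1 x (by simpa using hx))).2
  · intro σ x hx σ' y hy hxy
    cases σ <;> cases σ'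
    · exact hdis2 x (by simpa using hx) y (by simpa using hy) hxy
    · exact hcross x (by simpa using hx) y (by simpa using hy)
    · exact (hcross y (by simpa using hy) x (by simpa using hx)).symm
    · exact hdis1 x (hX1' (by simpa using hx)) y (hX1' (by simpa using hy)) hxy

theorem tree_structure (Δ ℓ l : ℕ) :
    ∃ (β : ℝ) (m₀ : ℕ), 0 < β ∧ ∀ (m : ℕ) (par a : ℕ → ℕ), m₀ ≤ m → GT ℓ m Δ par a →
      ∃ X : Bool → Finset ℕ, (∀ σ, ∀ x ∈ X σ, x < m) ∧ (∀ σ, β * m ≤ (X σ).card) ∧
        (∀ σ, ∀ x ∈ X σ, Snk m par (sg par a) σ x ∧ ∀ j, j ≤ l → par^[j] x ≠ 0) ∧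
        ∀ σ, ∀ x ∈ X σ, ∀ σ', ∀ y ∈ X σ', x ≠ y →
          Disjoint (US m par l x) (US m par l y) := by
  classical
  obtain ⟨K, hK⟩ : ∃ K, K = ∑ j ∈ range (l + 1), Δ ^ j := ⟨_, rfl⟩
  obtain ⟨D, hD⟩ : ∃ D, D = (Δ + 2) ^ (ℓ + 1) := ⟨_, rfl⟩
  obtain ⟨M, hM⟩ : ∃ M, M = 4 * D * ((Δ + l + 1) * (1 + K)) := ⟨_, rfl⟩
  have hDpos : 0 < D := by rw [hD]; positivity
  have hMpos : 0 < M := by rw [hM]; positivity
  refine ⟨1 / (2 * M), 2 * (K * D) + 2 * M, by positivity, ?_⟩
  intro m par a hm h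
  obtain ⟨X, h1, h2, h3, h4⟩ := ts_core Δ ℓ l K D hK hD m par a (by omega) h
  refine ⟨X, h1, fun σ => ?_, h3, h4⟩
  have h5 := h2 σ
  rw [← hM] at h5
  have h6 : m ≤ 2 * M * (X σ).card := by
    have h7 : m < M * (m / M + 1) := Nat.lt_mul_div_succ m hMpos
    have h8 : M * (m / M) ≤ M * (X σ).card := Nat.mul_le_mul_left _ h5
    nlinarith
  have h7 : (m : ℝ) ≤ 2 * M * (X σ).card := by exact_mod_cast h6
  have hM' : (0 : ℝ) < M := by exact_mod_cast hMpos
  rw [div_mul_eq_mul_div, one_mul, div_le_iff₀ (by positivity)]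
  linarith

end Pool.Agent.Lib.TourE
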