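import Pool.Agent.Lib.TourE.Gj
import Pool.Agent.Lib.TourE.Gr
import Pool.Agent.Lib.TourE.Gd
import Pool.Agent.Lib.TourE.Ts
import Pool.Agent.Lib.TourE.Te
import Pool.Agent.Lib.RobT.Gz

/-!
# Ai: absorbing with sinks and sources (about 550 lines)

The proof follows `absI` in RobT/Ai.lean (copy and adapt).
CONSTANTS.  `T = Δ + 1`; `M, β₁, θ₁` from `gads T`; `η = min β₁ (1/100)`.  Given `ℓ`, `δ`: `l, ε,
n₁`
from `connect`; `βt, m₀` from `tree_structure Δ ℓ l` (`US m par l x`, `par^[j] x ≠ 0` for `j ≤ l`,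
as in
`absI`).
`γ₁ = min (ε/4) (min (δ/2) (1/40))`.  Given `γ`: `θ' = min θ₁ (min (βt γ/(M+1)) (1/100))`, `θ = θ'`,
`n₂` from `gads` for `θ'`.  `n = |V|` large, `f₁ = ⌊θ' n⌋` (`θ'/2 n ≤ f₁ ≤ θ' n`, `f₁ ≥ 500`),
`f = 2 f₁ ≥ θ n`.  `f₁ (M+1) ≤ βt γ n ≤ βt m ≤ |X σ|`.
GADGETS `g σ i` from `gads` (avoiding `r`).
SLOTS.  Injective maps `xx σ : Fin f₁ × Fin (M+1) → X σ`; together an injective map
`xx : Bool × Fin f₁ × Fin (M+1) → ℕ` (sinks and sources are different: `s x = σ`).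
`Lt = range xx`, `Pr = ⋃_{x ∈ Lt} ({par x} ∪ CH x)`, `Xe = {par x | x ∈ Lt}`.
`ψ (par x) = env_{σ,i} j 0` and `ψ y = env_{σ,i} j (1 + rank of y in CH x)` for `y ∈ CH x`,
`x = xx (σ, i, j)` (`|CH x| ≤ Δ`).  `Z` = the set of all fillers, `|Z| = f M`; `|Z| ≤ m` (`f (M+1)`
`= 2 f₁ (M+1) ≤ |X true| + |X false| ≤ m`).
`embed_forest` for `X := Xe`: the conditions as in RobT/Ai.lean (all `US` sets are disjoint, also
between sinks and sources); `ψ p ∈ K` as the environments are in `K`; `r` is not in any gadget, so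
`r ∉ Z`, `ψ p ≠ r`; `m + |Z| ≤ 2 m ≤ 2 γ₁ n ≤ ε n` and `< 4 δ n`.
Get `φ`, `φ 0 = r`; `U = φ([0,m) \ Lt) ∪ Z`, `|U| = m - f (M+1) + f M = m - f`, `r ∈ U`.
`reserve` with `Acc σ i v = (g σ i).Acc (Arc R σ) v`, `P σ v` = `n/8 ≤ |Nb R (!σ) v|` (`h1`, `h2`
from
`gads`; `h3`, `h4` from `degrees`; `f₁ ≤ n/80`, `|U| ≤ m ≤ n/40`): `R₀`.
ABSORPTION.  `L` given, `|L| = f`, `L ∩ U = ∅`: `τ : Bool × Fin f₁ → V` with image `L`;
`absorb_chain` (RobT.Gz) for the relation `Arc R σ`, the gadget `g σ i` and `v = τ (σ, i)` (not a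
filler, as `L ∩ U = ∅`): an injective `ρ_{σ,i} : Fin (M+1) → V` with image
`{v} ∪ fillers` and `Arc R σ (env j t) (ρ j)`.  `φ' = φ` outside `Lt`, `φ' (xx (σ, i, j)) =
ρ_{σ,i} j`.
Injective, image `U ∪ L` as in RobT/Ai.lean.  Arcs at `x = xx (σ, i, j)`, `Snk m par (sg par a) σ
x`:
`sg par a x = σ` and `Arc R σ (φ (par x)) (φ' x)`: this is the arc condition of `x`.  For
`y ∈ CH x`: `sg par a y = !σ` and `Arc R σ (ψ y) (φ' x)`, i.e. `Arc R (!σ) (φ' x) (ψ y)`: the arc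
condition of `y`.  (`sg par a i = decide (a (par i) < a i)`.)
-/

namespace Pool.Agent.Lib.TourE

open Finset
open Pool.Agent.Lib.RobT (IsTour Arc eN Nb RT Snk US CH Gad)

private theorem iter_step {m l : ℕ} {par : ℕ → ℕ} (hpar : ∀ i, 0 < i → i < m → par i < i)
    {x : ℕ} (hx : x < m) (h0 : ∀ j ≤ l, par^[j] x ≠ 0) :
    ∀ j ≤ l, par^[j] x < m ∧ par^[j + 1] x < par^[j] x := by
  intro j
  induction j with
  | zero =>
    intro _
    have h1 : x ≠ 0 := h0 0 (Nat.zero_le _)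
    exact ⟨hx, hpar x (Nat.pos_of_ne_zero h1) hx⟩
  | succ j ih =>
    intro hj
    have h1 := ih (by omega)
    have h2 : par^[j + 1] x < m := lt_trans h1.2 h1.1
    refine ⟨h2, ?_⟩
    rw [Function.iterate_succ_apply' par (j + 1) x]
    exact hpar _ (Nat.pos_of_ne_zero (h0 (j + 1) hj)) h2

private theorem iter_le {m l : ℕ} {par : ℕ → ℕ} (hpar : ∀ i, 0 < i → i < m → par i < i)
    {x : ℕ} (hx : x < m) (h0 : ∀ j ≤ l, par^[j] x ≠ 0) :
    ∀ j, j ≤ l → par^[j + 1] x ≤ par x := by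
  intro j
  induction j with
  | zero => intro _; exact le_refl _
  | succ j ih =>
    intro hj
    have h1 := ih (by omega)
    have h2 := (iter_step hpar hx h0 (j + 1) hj).2
    omega

private theorem exists_rank (T : ℕ) (hT : 1 ≤ T) (S : Finset ℕ) (hS : S.card ≤ T) :
    ∃ ρ : ℕ → Fin T, Set.InjOn ρ S := by
  classical
  have h1 : Fintype.card S ≤ Fintype.card (Fin T) := by simpa using hS
  obtain ⟨e⟩ := Function.Embedding.nonempty_of_card_le h1
  refine ⟨fun y => if h : y ∈ S then e ⟨y, h⟩ else ⟨0, hT⟩, ?_⟩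
  intro a ha b hb hab
  have ha' : a ∈ S := ha
  have hb' : b ∈ S := hb
  simp only [ha', hb', dif_pos] at hab
  have := e.injective hab
  simpa using this

/-- The vertices with prescribed images at the slot `x`. -/
private def NN (m : ℕ) (par : ℕ → ℕ) (x : ℕ) : Finset ℕ := insert (par x) (CH m par x)

private theorem NN_card {m Δ : ℕ} {par : ℕ → ℕ} (h : RT m Δ par) (x : ℕ) :
    (NN m par x).card ≤ Δ + 1 := by
  unfold NN
  refine (Finset.card_insert_le _ _).trans ?_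
  have := h.deg x
  unfold CH
  omega

private theorem mem_CH {m : ℕ} {par : ℕ → ℕ} {x y : ℕ} :
    y ∈ CH m par x ↔ y < m ∧ 0 < y ∧ par y = x := by
  unfold CH
  simp

private theorem mem_US_iter {m l : ℕ} {par : ℕ → ℕ} {x : ℕ} (j : ℕ) (hj : j ≤ l) :
    par^[j] x ∈ US m par l x := by
  unfold US
  refine Finset.mem_union_right _ (Finset.mem_image.2 ⟨j, ?_, rfl⟩)
  simp only [Finset.mem_range]
  omega

private theorem mem_US_ch {m l : ℕ} {par : ℕ → ℕ} {x y : ℕ} (h : y ∈ CH m par x) :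
    y ∈ US m par l x := by
  unfold US
  exact Finset.mem_union_left _ h

private theorem NN_sub {m l : ℕ} {par : ℕ → ℕ} (hl : 1 ≤ l) {x y : ℕ} (h : y ∈ NN m par x) :
    y ∈ US m par l x := by
  unfold NN at h
  rcases Finset.mem_insert.1 h with h | h
  · rw [h]
    exact mem_US_iter (m := m) (par := par) (x := x) 1 hl
  · exact mem_US_ch h

open Classical in
/-- The combinatorial part: gadgets in slots, forest, reservoir, absorption. -/
private theorem core {V : Type} [Fintype V] [DecidableEq V] {R : V → V → Prop} {ℓ : ℕ}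
    {δ η ε : ℝ} {S : ℕ → Finset V} {K : Finset V} {r : V}
    {l Δ M f m : ℕ} (hl : 2 ≤ l) (hL : Lay R ℓ δ η S K r) (hcon : ConE l ε R ℓ S)
    (par a : ℕ → ℕ) (hGT : GT ℓ m Δ par a) (X : Bool → Finset ℕ) (hXm : ∀ σ, ∀ x ∈ X σ, x < m)
    (hX : ∀ σ, ∀ x ∈ X σ, Snk m par (sg par a) σ x ∧ ∀ j, j ≤ l → par^[j] x ≠ 0)
    (hdis : ∀ σ, ∀ x ∈ X σ, ∀ σ', ∀ y ∈ X σ', x ≠ y →
      Disjoint (US m par l x) (US m par l y))
    (g : Bool → Fin f → Gad V (Δ + 1) M) (hg : ∀ σ i, (g σ i).Ok fun u v => Arc R σ u v)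
    (hgd : ∀ σ i σ' i', (σ, i) ≠ (σ', i') → Disjoint (g σ i).vs (g σ' i').vs)
    (hgr : ∀ σ i, r ∉ (g σ i).vs) (hgK : ∀ σ i j t, (g σ i).env j t ∈ K)
    (h1 : ∀ σ v, (Fintype.card V : ℝ) / 8 ≤ (Nb R (!σ) v).card →
      ((univ.filter fun i => ¬ (g σ i).Acc (fun u v => Arc R σ u v) v).card : ℝ) ≤ f / 10)
    (h2 : ∀ σ i, ((univ.filter fun v => (Fintype.card V : ℝ) / 8 ≤ (Nb R (!σ) v).card ∧
      ¬ (g σ i).Acc (fun u v => Arc R σ u v) v).card : ℝ) ≤ Fintype.card V / 50)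
    (h3 : ∀ v, (Fintype.card V : ℝ) / 8 ≤ (Nb R true v).card ∨
      (Fintype.card V : ℝ) / 8 ≤ (Nb R false v).card)
    (h4 : 9 / 20 * (Fintype.card V : ℝ) ≤ ((univ.filter fun v =>
      (Fintype.card V : ℝ) / 8 ≤ (Nb R true v).card ∧
      (Fintype.card V : ℝ) / 8 ≤ (Nb R false v).card).card : ℝ))
    (hf : 500 ≤ f) (hfX : ∀ σ, f * (M + 1) ≤ (X σ).card)
    (hfn : (f : ℝ) ≤ Fintype.card V / 80)
    (hm1 : 2 * (m : ℝ) ≤ ε * Fintype.card V)
    (hm2 : 2 * (m : ℝ) < 4 * δ * Fintype.card V)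
    (hm3 : (m : ℝ) ≤ Fintype.card V / 40) :
    ∃ (U R₀ : Finset V), U.card + 2 * f = m ∧
      R₀.card = 2 * f - 2 * f / 10 ∧ Disjoint R₀ U ∧ r ∈ U ∧
      ∀ L : Finset V, R₀ ⊆ L → Disjoint L U → L.card = 2 * f →
        ∃ φ : ℕ → V, φ 0 = r ∧ Set.InjOn φ (Set.Iio m) ∧ (range m).image φ = U ∪ L ∧
          ∀ i, 0 < i → i < m → Arc R (decide (a (par i) < a i)) (φ (par i)) (φ i) := by
  have hRT := hGT.rt
  have hpar := hRT.lt
  -- the slots
  have hcard : ∀ σ, Fintype.card (Fin f × Fin (M + 1)) ≤ Fintype.card (X σ) := fun σ => by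
    simpa using hfX σ
  have he' := fun σ => Function.Embedding.nonempty_of_card_le (hcard σ)
  obtain ⟨e⟩ : Nonempty (∀ σ, Fin f × Fin (M + 1) ↪ X σ) := ⟨fun σ => (he' σ).some⟩
  obtain ⟨xx, hxx⟩ : ∃ xx : (Bool × Fin f) × Fin (M + 1) → ℕ,
      xx = fun p => (e p.1.1 (p.1.2, p.2) : ℕ) := ⟨_, rfl⟩
  have hxxX : ∀ p, xx p ∈ X p.1.1 := fun p => by rw [hxx]; exact (e p.1.1 (p.1.2, p.2)).2
  have hxxs : ∀ p, sg par a (xx p) = p.1.1 := fun p => (hX _ _ (hxxX p)).1.1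
  have hxxi : Function.Injective xx := by
    intro p q hpq
    have h5 : p.1.1 = q.1.1 := by rw [← hxxs p, ← hxxs q, hpq]
    obtain ⟨⟨p1, p2⟩, p3⟩ := p
    obtain ⟨⟨q1, q2⟩, q3⟩ := q
    simp only at h5
    subst h5
    rw [hxx] at hpq
    simp only at hpq
    have h6 := (e p1).injective (Subtype.ext hpq)
    simp only [Prod.mk.injEq] at h6
    obtain ⟨h7, h8⟩ := h6
    subst h7
    subst h8
    rfl
  -- basic facts on the slots
  have hx0 : ∀ p, 0 < xx p := fun p =>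
    Nat.pos_of_ne_zero ((hX _ _ (hxxX p)).2 0 (Nat.zero_le _))
  have hxm : ∀ p, xx p < m := fun p => hXm _ _ (hxxX p)
  have hUS : ∀ p q y, y ∈ US m par l (xx p) → y ∈ US m par l (xx q) → p = q := by
    intro p q y hy hy'
    by_contra hpq
    exact Finset.disjoint_left.1 (hdis _ _ (hxxX p) _ _ (hxxX q) fun h => hpq (hxxi h)) hy hy'
  have hNN : ∀ p y, y ∈ NN m par (xx p) → y ∈ US m par l (xx p) := fun p y hy =>
    NN_sub (by omega) hy
  have hself : ∀ p, xx p ∈ US m par l (xx p) := fun p =>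
    mem_US_iter (m := m) (par := par) (x := xx p) 0 (Nat.zero_le _)
  have hNlt : ∀ p, xx p ∉ NN m par (xx p) := by
    intro p hp
    rcases Finset.mem_insert.1 hp with h | h
    · have := hpar _ (hx0 p) (hxm p)
      omega
    · have h3 := (mem_CH.1 h).2.2
      have := hpar _ (hx0 p) (hxm p)
      omega
  have hst := fun p => iter_step hpar (hxm p) (hX _ _ (hxxX p)).2
  have hle := fun p => iter_le hpar (hxm p) (hX _ _ (hxxX p)).2
  -- the local numbering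
  choose ρ hρ using fun x => exists_rank (Δ + 1) (by omega) (NN m par x) (NN_card hRT x)
  obtain ⟨Lt, hLt⟩ : ∃ Lt : Finset ℕ, Lt = univ.image xx := ⟨_, rfl⟩
  obtain ⟨Pr, hPr⟩ : ∃ Pr : Finset ℕ, Pr = univ.biUnion fun p => NN m par (xx p) := ⟨_, rfl⟩
  obtain ⟨Xe, hXe⟩ : ∃ Xe : Finset ℕ, Xe = univ.image fun p => par (xx p) := ⟨_, rfl⟩
  have mLt : ∀ y, y ∈ Lt ↔ ∃ p, xx p = y := by
    intro y; rw [hLt, Finset.mem_image]; simp only [Finset.mem_univ, true_and]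
  have mPr : ∀ y, y ∈ Pr ↔ ∃ p, y ∈ NN m par (xx p) := by
    intro y; rw [hPr, Finset.mem_biUnion]; simp only [Finset.mem_univ, true_and]
  have mXe : ∀ y, y ∈ Xe ↔ ∃ p, par (xx p) = y := by
    intro y; rw [hXe, Finset.mem_image]; simp only [Finset.mem_univ, true_and]
  -- the gadgets
  obtain ⟨G, hG⟩ : ∃ G : Bool × Fin f → Gad V (Δ + 1) M, G = fun p => g p.1 p.2 := ⟨_, rfl⟩
  have hGok : ∀ p, (G p).Ok fun u v => Arc R p.1 u v := fun p => by rw [hG]; exact hg p.1 p.2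
  have hGr : ∀ p, r ∉ (G p).vs := fun p => by rw [hG]; exact hgr p.1 p.2
  have hGK : ∀ p j t, (G p).env j t ∈ K := fun p j t => by rw [hG]; exact hgK p.1 p.2 j t
  have hf0 : 0 < f := by omega
  obtain ⟨ψ, hψ⟩ : ∃ ψ : ℕ → V, ∀ p y, y ∈ NN m par (xx p) →
      ψ y = (G p.1).env p.2 (ρ (xx p) y) := by
    refine ⟨fun y => if h : ∃ p, y ∈ NN m par (xx p) then
      (G h.choose.1).env h.choose.2 (ρ (xx h.choose) y) else r, ?_⟩
    intro p y hy
    have h : ∃ p, y ∈ NN m par (xx p) := ⟨p, hy⟩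
    have hp : h.choose = p := hUS _ _ _ (hNN _ _ h.choose_spec) (hNN _ _ hy)
    simp only [dif_pos h]
    rw [hp]
  have envvs : ∀ i b t, (G i).env b t ∈ (G i).vs := by
    intro i b t
    unfold Gad.vs
    exact Finset.mem_union_left _ (Finset.mem_image.2 ⟨(b, t), Finset.mem_univ _, rfl⟩)
  have filvs : ∀ i b, (G i).fil b ∈ (G i).vs := by
    intro i b
    unfold Gad.vs
    exact Finset.mem_union_right _ (Finset.mem_image.2 ⟨b, Finset.mem_univ _, rfl⟩)
  have hvs : ∀ i i' v, v ∈ (G i).vs → v ∈ (G i').vs → i = i' := by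
    intro i i' v hv hv'
    by_contra hne
    rw [hG] at hv hv'
    exact Finset.disjoint_left.1 (hgd i.1 i.2 i'.1 i'.2 hne) hv hv'
  have hψi : Set.InjOn ψ Pr := by
    intro y hy y' hy' hyy
    obtain ⟨p, hp⟩ := (mPr y).1 hy
    obtain ⟨q, hq⟩ := (mPr y').1 hy'
    rw [hψ p y hp, hψ q y' hq] at hyy
    have h3 : p.1 = q.1 := hvs _ _ _ (envvs p.1 p.2 (ρ (xx p) y)) (by
      rw [hyy]; exact envvs _ _ _)
    obtain ⟨p1, p2⟩ := p
    obtain ⟨q1, q2⟩ := q
    simp only at h3 hyy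
    subst h3
    have h4 := (hGok p1).ie (a₁ := (p2, ρ (xx (p1, p2)) y)) (a₂ := (q2, ρ (xx (p1, q2)) y')) hyy
    simp only [Prod.mk.injEq] at h4
    obtain ⟨h5, h6⟩ := h4
    subst h5
    exact hρ _ hp hq h6
  -- the fillers
  obtain ⟨fz, hfz⟩ : ∃ fz : (Bool × Fin f) × Fin M → V, fz = fun q => (G q.1).fil q.2 :=
    ⟨_, rfl⟩
  have hfzi : Function.Injective fz := by
    intro b c hbc
    rw [hfz] at hbc
    obtain ⟨a1, a2⟩ := b
    obtain ⟨b1, b2⟩ := c
    simp only at hbc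
    have h3 : a1 = b1 := hvs _ _ _ (filvs a1 a2) (by rw [hbc]; exact filvs _ _)
    subst h3
    rw [(hGok a1).jf hbc]
  obtain ⟨Z, hZ⟩ : ∃ Z : Finset V, Z = univ.image fz := ⟨_, rfl⟩
  have mZ : ∀ v, v ∈ Z ↔ ∃ i b, (G i).fil b = v := by
    intro v
    rw [hZ, hfz, Finset.mem_image]
    constructor
    · rintro ⟨q, -, hq⟩
      exact ⟨q.1, q.2, hq⟩
    · rintro ⟨i, b, h⟩
      exact ⟨(i, b), Finset.mem_univ _, h⟩
  have hZc : Z.card = 2 * f * M := by
    rw [hZ, Finset.card_image_of_injective _ hfzi]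
    simp
  have hψZ : ∀ p ∈ Pr, ψ p ∉ Z := by
    intro y hy hyZ
    obtain ⟨p, hp⟩ := (mPr y).1 hy
    obtain ⟨i, b, hia⟩ := (mZ _).1 hyZ
    rw [hψ p y hp] at hia
    have h3 : i = p.1 := hvs _ _ _ (filvs _ _) (hia ▸ envvs _ _ _)
    subst h3
    exact (hGok p.1).ef (p.2, ρ (xx p) y) b hia.symm
  have hψK : ∀ p ∈ Pr, ψ p ∈ K := by
    intro y hy
    obtain ⟨p, hp⟩ := (mPr y).1 hy
    rw [hψ p y hp]
    exact hGK _ _ _
  have hrZ : r ∉ Z := by
    intro h
    obtain ⟨i, b, hib⟩ := (mZ _).1 h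
    exact hGr i (hib ▸ filvs i b)
  have hψr : ∀ p ∈ Pr, ψ p ≠ r := by
    intro y hy h
    obtain ⟨p, hp⟩ := (mPr y).1 hy
    rw [hψ p y hp] at h
    exact hGr p.1 (h ▸ envvs _ _ _)
  -- the hypotheses of `embed_forest`
  have h0P : 0 ∉ Pr := by
    intro h
    obtain ⟨p, hp⟩ := (mPr 0).1 h
    rcases Finset.mem_insert.1 hp with h | h
    · exact (hX _ _ (hxxX p)).2 1 (by omega) h.symm
    · exact absurd (mem_CH.1 h).2.1 (by omega)
  have h0L : 0 ∉ Lt := by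
    intro h
    obtain ⟨p, hp⟩ := (mLt 0).1 h
    have := hx0 p
    omega
  have hPL : Disjoint Pr Lt := by
    rw [Finset.disjoint_left]
    intro y hy hy'
    obtain ⟨p, hp⟩ := (mPr y).1 hy
    obtain ⟨q, hq⟩ := (mLt y).1 hy'
    subst hq
    have h3 : p = q := hUS _ _ _ (hNN _ _ hp) (hself q)
    subst h3
    exact hNlt _ hp
  have hPm : ∀ p ∈ Pr, p < m := by
    intro y hy
    obtain ⟨p, hp⟩ := (mPr y).1 hy
    rcases Finset.mem_insert.1 hp with h | h
    · rw [h]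
      exact lt_trans (hpar _ (hx0 p) (hxm p)) (hxm p)
    · exact (mem_CH.1 h).1
  have hXP : Xe ⊆ Pr := by
    intro y hy
    obtain ⟨p, hp⟩ := (mXe y).1 hy
    exact (mPr y).2 ⟨p, Finset.mem_insert.2 (Or.inl hp.symm)⟩
  have hc0 : ∀ b ∈ Xe, ∀ j < l, par^[j] b ≠ 0 := by
    intro b hb j hj
    obtain ⟨p, hp⟩ := (mXe b).1 hb
    subst hp
    exact (hX _ _ (hxxX p)).2 (j + 1) (by omega)
  have hc1 : ∀ b ∈ Xe, ∀ j, 0 < j → j < l → par^[j] b ∉ Pr ∧ par^[j] b ∉ Lt := by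
    intro b hb j hj0 hj
    obtain ⟨p, hp⟩ := (mXe b).1 hb
    subst hp
    have e1 : par^[j] (par (xx p)) = par^[j + 1] (xx p) := rfl
    rw [e1]
    have h3 : par^[j + 1] (xx p) ∈ US m par l (xx p) := mem_US_iter (j + 1) (by omega)
    have h4 : par^[j + 1] (xx p) < par (xx p) := by
      have h5 := (hst p j (by omega)).2
      have h6 := hle p (j - 1) (by omega)
      rw [show j - 1 + 1 = j by omega] at h6
      omega
    have h5 : par (xx p) < xx p := hpar _ (hx0 p) (hxm p)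
    constructor
    · intro hy
      obtain ⟨q, hq⟩ := (mPr _).1 hy
      have h6 : p = q := hUS _ _ _ h3 (hNN _ _ hq)
      subst h6
      rcases Finset.mem_insert.1 hq with h | h
      · omega
      · have h7 := mem_CH.1 h
        have h8 := hpar _ h7.2.1 h7.1
        rw [h7.2.2] at h8
        omega
    · intro hy
      obtain ⟨q, hq⟩ := (mLt _).1 hy
      have h6 : p = q := hUS _ _ _ h3 (hq ▸ hself q)
      subst h6
      omega
  have hc2 : ∀ b ∈ Xe, par^[l] b ∉ Lt := by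
    intro b hb hy
    obtain ⟨p, hp⟩ := (mXe b).1 hb
    subst hp
    obtain ⟨q, hq⟩ := (mLt _).1 hy
    have e1 : par^[l] (par (xx p)) = par^[l + 1] (xx p) := rfl
    have e2 : par^[l + 1] (xx p) = par (par^[l] (xx p)) := Function.iterate_succ_apply' _ _ _
    have h3 : par^[l] (xx p) ∈ CH m par (xx q) := by
      rw [mem_CH]
      refine ⟨(hst p l (le_refl _)).1,
        Nat.pos_of_ne_zero ((hX _ _ (hxxX p)).2 l (le_refl _)), ?_⟩
      rw [← e2, ← e1, hq]
    have h4 : p = q := hUS _ _ _ (mem_US_iter l (le_refl _)) (mem_US_ch h3)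
    subst h4
    have h5 := (hst p l (le_refl _)).2
    have h6 := hle p (l - 1) (by omega)
    rw [show l - 1 + 1 = l by omega] at h6
    have h7 : par (xx p) < xx p := hpar _ (hx0 p) (hxm p)
    rw [e1] at hq
    omega
  have hdisj : ∀ b ∈ Xe, ∀ c ∈ Xe, b ≠ c → ∀ i j, 0 < i → i < l → 0 < j → j < l →
      par^[i] b ≠ par^[j] c := by
    intro b hb c hc hbc i j _ hi _ hj hij
    obtain ⟨p, hp⟩ := (mXe b).1 hb
    obtain ⟨q, hq⟩ := (mXe c).1 hc
    subst hp
    subst hq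
    have e1 : par^[i] (par (xx p)) = par^[i + 1] (xx p) := rfl
    have e2 : par^[j] (par (xx q)) = par^[j + 1] (xx q) := rfl
    rw [e1, e2] at hij
    have h3 : par^[i + 1] (xx p) ∈ US m par l (xx p) := mem_US_iter (i + 1) (by omega)
    have h4 : par^[j + 1] (xx q) ∈ US m par l (xx q) := mem_US_iter (j + 1) (by omega)
    have h5 : p = q := hUS _ _ _ h3 (hij ▸ h4)
    exact hbc (by rw [h5])
  have hPX : ∀ p ∈ Pr, p ∉ Xe → par p ∈ Lt := by
    intro y hy hyX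
    obtain ⟨p, hp⟩ := (mPr y).1 hy
    rcases Finset.mem_insert.1 hp with h | h
    · exact absurd ((mXe y).2 ⟨p, h.symm⟩) hyX
    · rw [(mem_CH.1 h).2.2]
      exact (mLt _).2 ⟨p, rfl⟩
  have hLt' : ∀ i, 0 < i → i < m → i ∉ Pr → i ∉ Lt → par i ∉ Lt := by
    intro i hi him hiP _ hy
    obtain ⟨p, hp⟩ := (mLt _).1 hy
    exact hiP ((mPr i).2 ⟨p, Finset.mem_insert.2 (Or.inr (mem_CH.2 ⟨him, hi, hp.symm⟩))⟩)
  have hLtc : Lt.card = 2 * f * (M + 1) := by
    rw [hLt, Finset.card_image_of_injective _ hxxi]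
    simp
  have hLtm : Lt ⊆ range m := by
    intro y hy
    obtain ⟨p, hp⟩ := (mLt y).1 hy
    rw [← hp]
    exact Finset.mem_range.2 (hxm p)
  have hfm : 2 * f * (M + 1) ≤ m := by
    have h5 := Finset.card_le_card hLtm
    rw [hLtc, Finset.card_range] at h5
    exact h5
  have hfM : 2 * f * (M + 1) = 2 * f * M + 2 * f := by ring
  have hm0 : 0 < m := by omega
  have hZm : (Z.card : ℝ) ≤ m := by
    have h5 : Z.card ≤ m := by omega
    exact_mod_cast h5
  obtain ⟨φ, φ0, φP, φi, φZ, φa⟩ := embed_forest hl hL hcon m par a hpar hGT.le hGT.ne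
    Lt Pr Xe ψ Z hψi hψZ hψK hrZ hψr
    h0P h0L hPL hPm hXP hc0 hc1 hc2 hdisj hPX hLt' (by linarith) (by linarith) hm0
  -- the set `U`
  obtain ⟨W, hW⟩ : ∃ W : Finset V, W = (range m \ Lt).image φ := ⟨_, rfl⟩
  have hWc : W.card = m - 2 * f * (M + 1) := by
    rw [hW, Finset.card_image_of_injOn, Finset.card_sdiff_of_subset hLtm, hLtc]
    · simp
    · intro b hb c hc hbc
      have hb' := Finset.mem_sdiff.1 (Finset.mem_coe.1 hb)
      have hc' := Finset.mem_sdiff.1 (Finset.mem_coe.1 hc)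
      exact φi ⟨Finset.mem_range.1 hb'.1, hb'.2⟩ ⟨Finset.mem_range.1 hc'.1, hc'.2⟩ hbc
  have hWZ : Disjoint W Z := by
    rw [Finset.disjoint_left]
    intro v hv hvZ
    rw [hW] at hv
    obtain ⟨y, hy, rfl⟩ := Finset.mem_image.1 hv
    have hy' := Finset.mem_sdiff.1 hy
    by_cases hyP : y ∈ Pr
    · rw [φP y hyP] at hvZ
      exact hψZ y hyP hvZ
    · exact φZ y (Finset.mem_range.1 hy'.1) hy'.2 hyP hvZ
  have hUc : (W ∪ Z).card + 2 * f = m := by
    rw [Finset.card_union_of_disjoint hWZ, hWc, hZc]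
    omega
  have hUle : ((W ∪ Z).card : ℝ) ≤ m := by
    have : (W ∪ Z).card ≤ m := by omega
    exact_mod_cast this
  obtain ⟨R₀, r1, r2, r3⟩ := reserve f (fun σ i v => (g σ i).Acc (fun u v => Arc R σ u v) v)
    (fun σ v => (Fintype.card V : ℝ) / 8 ≤ (Nb R (!σ) v).card) (W ∪ Z) hf hfn (by linarith)
    (by
      intro σ v hv
      refine le_trans (le_of_eq ?_) (h1 σ v hv)
      congr!)
    (by
      intro σ i
      refine le_trans (le_of_eq ?_) (h2 σ i)
      congr!)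
    (by
      intro v
      rcases h3 v with h | h
      · exact Or.inr h
      · exact Or.inl h)
    (by
      refine le_trans h4 (le_of_eq ?_)
      congr 2
      ext v
      simp only [Finset.mem_filter, Finset.mem_univ, true_and, Bool.not_true, Bool.not_false]
      exact and_comm)
  refine ⟨W ∪ Z, R₀, hUc, r2, r1, ?_, ?_⟩
  · refine Finset.mem_union_left _ ?_
    rw [hW]
    exact Finset.mem_image.2 ⟨0, Finset.mem_sdiff.2 ⟨Finset.mem_range.2 hm0, h0L⟩, φ0⟩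
  intro L hL1 hL2 hL3
  obtain ⟨σ, σi, σL, σa⟩ := r3 L hL1 hL3
  have hσL : ∀ i, σ i ∈ L := by
    intro i
    rw [← σL]
    exact Finset.mem_image_of_mem _ (Finset.mem_univ _)
  have hτ' := fun i => Pool.Agent.Lib.RobT.absorb_chain (hGok i) (σ i)
    (by
      have h5 := σa i
      rw [hG]
      exact h5)
    (by
      intro j hj
      exact Finset.disjoint_left.1 hL2 (hσL i)
        (Finset.mem_union_right _ ((mZ _).2 ⟨i, j, hj⟩)))
  choose τ τi τI τR using hτ'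
  obtain ⟨φ', hφ'⟩ : ∃ φ' : ℕ → V, φ' = fun y => if h : ∃ p, xx p = y then
      τ h.choose.1 h.choose.2 else φ y := ⟨_, rfl⟩
  have φx : ∀ p, φ' (xx p) = τ p.1 p.2 := by
    intro p
    have h : ∃ q, xx q = xx p := ⟨p, rfl⟩
    have hp : h.choose = p := hxxi h.choose_spec
    rw [hφ']
    simp only [dif_pos h]
    rw [hp]
  have φn : ∀ y, y ∉ Lt → φ' y = φ y := by
    intro y hy
    have h : ¬ ∃ q, xx q = y := fun h => hy ((mLt y).2 h)
    rw [hφ']
    simp only [dif_neg h]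
  have himg : (range m).image φ' = (W ∪ Z) ∪ L := by
    ext v
    constructor
    · intro hv
      obtain ⟨y, hy, rfl⟩ := Finset.mem_image.1 hv
      by_cases hyL : y ∈ Lt
      · obtain ⟨p, rfl⟩ := (mLt y).1 hyL
        rw [φx p]
        have h3 : τ p.1 p.2 ∈ insert (σ p.1) (univ.image (G p.1).fil) := by
          rw [← τI p.1]
          exact Finset.mem_image_of_mem _ (Finset.mem_univ _)
        rcases Finset.mem_insert.1 h3 with h | h
        · rw [h]
          exact Finset.mem_union_right _ (hσL _)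
        · obtain ⟨j, -, hj⟩ := Finset.mem_image.1 h
          exact Finset.mem_union_left _ (Finset.mem_union_right _ ((mZ _).2 ⟨p.1, j, hj⟩))
      · rw [φn y hyL]
        refine Finset.mem_union_left _ (Finset.mem_union_left _ ?_)
        rw [hW]
        exact Finset.mem_image_of_mem _ (Finset.mem_sdiff.2 ⟨hy, hyL⟩)
    · intro hv
      have key : ∀ i, v ∈ insert (σ i) (univ.image (G i).fil) → v ∈ (range m).image φ' := by
        intro i hvi
        rw [← τI i] at hvi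
        obtain ⟨j, -, hj⟩ := Finset.mem_image.1 hvi
        rw [← hj, ← φx (i, j)]
        exact Finset.mem_image_of_mem _ (Finset.mem_range.2 (hxm _))
      rcases Finset.mem_union.1 hv with h | h
      · rcases Finset.mem_union.1 h with h | h
        · rw [hW] at h
          obtain ⟨y, hy, rfl⟩ := Finset.mem_image.1 h
          have hy' := Finset.mem_sdiff.1 hy
          rw [← φn y hy'.2]
          exact Finset.mem_image_of_mem _ hy'.1
        · obtain ⟨i, j, hij⟩ := (mZ v).1 h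
          exact key i (Finset.mem_insert_of_mem (Finset.mem_image.2 ⟨j, Finset.mem_univ _, hij⟩))
      · rw [← σL] at h
        obtain ⟨i, -, hi⟩ := Finset.mem_image.1 h
        exact key i (by rw [hi]; exact Finset.mem_insert_self _ _)
  refine ⟨φ', ?_, ?_, himg, ?_⟩
  · rw [φn 0 h0L]
    exact φ0
  · have h3 : ((range m).image φ').card = (range m).card := by
      rw [himg, Finset.card_union_of_disjoint hL2.symm, hL3, hUc]
      simp
    have h4 := Finset.card_image_iff.1 h3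
    intro b hb c hc hbc
    exact h4 (Finset.mem_coe.2 (Finset.mem_range.2 hb)) (Finset.mem_coe.2 (Finset.mem_range.2 hc))
      hbc
  · intro i hi him
    by_cases hiL : i ∈ Lt
    · obtain ⟨p, rfl⟩ := (mLt i).1 hiL
      have hN : par (xx p) ∈ NN m par (xx p) := Finset.mem_insert_self _ _
      have hP : par (xx p) ∈ Pr := (mPr _).2 ⟨p, hN⟩
      have hnL : par (xx p) ∉ Lt := Finset.disjoint_left.1 hPL hP
      have hs : decide (a (par (xx p)) < a (xx p)) = p.1.1 := hxxs p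
      rw [φx p, φn _ hnL, φP _ hP, hψ p _ hN, hs]
      exact τR p.1 p.2 _
    · by_cases hpL : par i ∈ Lt
      · obtain ⟨p, hp⟩ := (mLt _).1 hpL
        have hN : i ∈ NN m par (xx p) :=
          Finset.mem_insert.2 (Or.inr (mem_CH.2 ⟨him, hi, hp.symm⟩))
        have hP : i ∈ Pr := (mPr _).2 ⟨p, hN⟩
        have hs : decide (a (par i) < a i) = !p.1.1 := (hX _ _ (hxxX p)).1.2 i hi him hp.symm
        rw [hs, ← hp, φx p, φn _ hiL, φP _ hP, hψ p _ hN]
        rcases τR p.1 p.2 (ρ (xx p) i) with ⟨h5, h6⟩ | ⟨h5, h6⟩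
        · exact Or.inr ⟨by rw [h5]; rfl, h6⟩
        · exact Or.inl ⟨by rw [h5]; rfl, h6⟩
      · rw [φn _ hiL, φn _ hpL]
        exact φa i hi him hiL hpL

/-- The graded tree `(m, par, a)` absorbs linearly many vertices, with the root at `r`. -/
def AbsE {V : Type} [Fintype V] [DecidableEq V] (R : V → V → Prop) (θ : ℝ) (m : ℕ)
    (par a : ℕ → ℕ) (r : V) : Prop :=
  ∃ (f : ℕ) (U R₀ : Finset V), θ * Fintype.card V ≤ f ∧ U.card + f = m ∧
    R₀.card = f - f / 10 ∧ Disjoint R₀ U ∧ r ∈ U ∧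
    ∀ L : Finset V, R₀ ⊆ L → Disjoint L U → L.card = f →
      ∃ φ : ℕ → V, φ 0 = r ∧ Set.InjOn φ (Set.Iio m) ∧ (range m).image φ = U ∪ L ∧
        ∀ i, 0 < i → i < m → Arc R (decide (a (par i) < a i)) (φ (par i)) (φ i)

theorem absorber (Δ : ℕ) :
    ∃ η : ℝ, 0 < η ∧ η ≤ 1 / 100 ∧ ∀ (ℓ : ℕ) (δ : ℝ), 0 < δ → δ ≤ 1 → ∃ γ₁ : ℝ, 0 < γ₁ ∧
      ∀ γ : ℝ, 0 < γ → ∃ (θ : ℝ) (n₀ : ℕ), 0 < θ ∧
      ∀ (V : Type) [Fintype V] [DecidableEq V] (R : V → V → Prop), n₀ ≤ Fintype.card V →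
      IsTour R → ∀ (S : ℕ → Finset V) (K : Finset V) (r : V), Lay R ℓ δ η S K r →
      ∀ (m : ℕ) (par a : ℕ → ℕ), γ * Fintype.card V ≤ m → (m : ℝ) ≤ γ₁ * Fintype.card V →
      GT ℓ m Δ par a → AbsE R θ m par a r := by
  classical
  obtain ⟨M, β₁, θ₁, hβ₁, hθ₁, hgads⟩ := gads (Δ + 1) (by omega)
  refine ⟨min β₁ (1 / 100), by positivity, min_le_right _ _, ?_⟩
  intro ℓ δ hδ hδ1
  obtain ⟨l, ε, n₁, hl, hε, hcon⟩ := connect δ hδ hδ1
  obtain ⟨βt, m₀, hβt, htree⟩ := tree_structure Δ ℓ l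
  refine ⟨min (ε / 4) (min (δ / 2) (1 / 40)), by positivity, ?_⟩
  intro γ hγ
  obtain ⟨c, hc⟩ : ∃ c : ℝ, c = min θ₁ (min (βt * γ / (M + 1)) (1 / 100)) := ⟨_, rfl⟩
  have hM0 : (0 : ℝ) < (M : ℝ) + 1 := by positivity
  have hc0 : 0 < c := by
    rw [hc]
    positivity
  have hcθ : c ≤ θ₁ := by rw [hc]; exact min_le_left _ _
  have hc1 : c ≤ 1 / 100 := by
    rw [hc]
    exact (min_le_right _ _).trans (min_le_right _ _)
  have hc2 : c * (M + 1) ≤ βt * γ := by
    have h : c ≤ βt * γ / (M + 1) := by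
      rw [hc]
      exact (min_le_right _ _).trans (min_le_left _ _)
    rwa [le_div_iff₀ hM0] at h
  obtain ⟨n₂, hgad⟩ := hgads c hc0 hcθ
  obtain ⟨b₁, hb₁⟩ := exists_nat_ge ((m₀ : ℝ) / γ)
  obtain ⟨b₂, hb₂⟩ := exists_nat_ge (501 / (c / 2))
  refine ⟨c, max (max n₁ n₂) (max (max b₁ b₂) 80), hc0, ?_⟩
  intro V _ _ R hn hR S K r hL m par a hγm hmγ hGT
  have hn1 : n₁ ≤ Fintype.card V := ((le_max_left _ _).trans (le_max_left _ _)).trans hn
  have hn2 : n₂ ≤ Fintype.card V := ((le_max_right _ _).trans (le_max_left _ _)).trans hn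
  have hb1 : b₁ ≤ Fintype.card V :=
    (((le_max_left _ _).trans (le_max_left _ _)).trans (le_max_right _ _)).trans hn
  have hb2 : b₂ ≤ Fintype.card V :=
    (((le_max_right _ _).trans (le_max_left _ _)).trans (le_max_right _ _)).trans hn
  have hn80 : 80 ≤ Fintype.card V := ((le_max_right _ _).trans (le_max_right _ _)).trans hn
  obtain ⟨n, hnn⟩ : ∃ n : ℝ, n = (Fintype.card V : ℝ) := ⟨_, rfl⟩
  have hn80R : (80 : ℝ) ≤ n := by rw [hnn]; exact_mod_cast hn80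
  have hn0 : 0 < n := by linarith
  have hb1R : (m₀ : ℝ) / γ ≤ n := by
    rw [hnn]
    exact hb₁.trans (by exact_mod_cast hb1)
  have hb2R : 501 / (c / 2) ≤ n := by
    rw [hnn]
    exact hb₂.trans (by exact_mod_cast hb2)
  rw [← hnn] at hγm hmγ
  have hm0 : m₀ ≤ m := by
    have h5 : (m₀ : ℝ) ≤ m := by
      rw [div_le_iff₀ hγ] at hb1R
      linarith [mul_comm n γ]
    exact_mod_cast h5
  have hcn : 501 ≤ c / 2 * n := by
    rw [div_le_iff₀ (by positivity)] at hb2R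
    linarith [mul_comm n (c / 2)]
  obtain ⟨X, hXm, hXβ, hX, hXd⟩ := htree m par a hm0 hGT
  obtain ⟨f, hff⟩ : ∃ f : ℕ, f = ⌊c * n⌋₊ := ⟨_, rfl⟩
  have hfle : (f : ℝ) ≤ c * n := by
    rw [hff]
    exact Nat.floor_le (by positivity)
  have hfge : c * n - 1 < f := by
    rw [hff]
    have := Nat.lt_floor_add_one (c * n)
    linarith
  have hf500 : 500 ≤ f := by
    have h : (500 : ℝ) < f := by linarith
    have : (500 : ℕ) < f := by exact_mod_cast h
    omega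
  have hfhalf : c / 2 * n ≤ f := by linarith
  have hcon' : ConE l ε R ℓ S := hcon V R ℓ _ S K r hn1 hR hL
  have hKc : ((Kᶜ).card : ℝ) ≤ β₁ * Fintype.card V := by
    refine hL.small.trans ?_
    rw [← hnn]
    exact mul_le_mul_of_nonneg_right (min_le_left _ _) hn0.le
  obtain ⟨g, g1, g2, g3, g4, g5, g6⟩ := hgad V R hn2 hR K hKc r f (by rw [← hnn]; exact hfhalf)
    (by rw [← hnn]; exact hfle)
  have hm1 : (m : ℝ) ≤ ε / 4 * n :=
    hmγ.trans (mul_le_mul_of_nonneg_right (min_le_left _ _) hn0.le)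
  have hm2 : (m : ℝ) ≤ δ / 2 * n :=
    hmγ.trans (mul_le_mul_of_nonneg_right ((min_le_right _ _).trans (min_le_left _ _)) hn0.le)
  have hm3 : (m : ℝ) ≤ 1 / 40 * n :=
    hmγ.trans (mul_le_mul_of_nonneg_right ((min_le_right _ _).trans (min_le_right _ _)) hn0.le)
  have hfX : ∀ σ, f * (M + 1) ≤ (X σ).card := by
    intro σ
    have h3 : ((f * (M + 1) : ℕ) : ℝ) ≤ (X σ).card := by
      push_cast
      calc (f : ℝ) * (M + 1) ≤ (c * n) * (M + 1) := by gcongr
        _ = (c * (M + 1)) * n := by ring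
        _ ≤ (βt * γ) * n := by gcongr
        _ = βt * (γ * n) := by ring
        _ ≤ βt * m := by gcongr
        _ ≤ (X σ).card := hXβ σ
    exact_mod_cast h3
  obtain ⟨d1, d2⟩ := degrees hR hn80
  have hδn : 0 < δ * n := mul_pos hδ hn0
  have hεn : 0 < ε * n := mul_pos hε hn0
  obtain ⟨U, R₀, k1, k2, k3, k4, k5⟩ := core hl hL hcon' par a hGT X hXm hX hXd g g1 g2 g3 g4
    (by
      intro σ v hv
      refine le_trans (le_of_eq ?_) (g5 σ v hv)
      congr!)
    (by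
      intro σ i
      refine le_trans (le_of_eq ?_) (g6 σ i)
      congr!)
    d1
    (by
      refine le_trans d2 (le_of_eq ?_)
      congr!)
    hf500 hfX
    (by
      rw [← hnn]
      have h5 : c * n ≤ 1 / 100 * n := mul_le_mul_of_nonneg_right hc1 hn0.le
      linarith)
    (by
      rw [← hnn]
      linarith)
    (by
      rw [← hnn]
      linarith)
    (by
      rw [← hnn]
      linarith)
  refine ⟨2 * f, U, R₀, ?_, k1, k2, k3, k4, k5⟩
  rw [← hnn]
  push_cast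
  linarith

end Pool.Agent.Lib.TourE
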