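import Pool.Agent.Lib.RobT.Defs

/-!
# Spanning oriented trees without long directed paths in arbitrary tournaments: definitions

Overview: store file MP_b931a8_co_paperE.md.
`IsTour, Arc, eN, Nb, RT, ext, prv, pt` are taken from `RobT.Defs`.
-/

namespace Pool.Agent.Lib.TourE

open Finset
open Pool.Agent.Lib.RobT (IsTour Arc eN Nb RT)

open Classical in
/-- `pos` is a median order: `pos` is a bijection from `V` to `[0, |V|)`; in every segment of the
order which ends (begins) with `v`, at least half of the other vertices are inneighbours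
(outneighbours) of `v`; and the inequality which expresses that moving a set `Y` to the front does
not increase the number of forward arcs. -/
structure Med {V : Type} [Fintype V] (R : V → V → Prop) (pos : V → ℕ) : Prop where
  inj : Function.Injective pos
  lt : ∀ v, pos v < Fintype.card V
  back : ∀ (v : V) (k : ℕ), k ≤ pos v →
    pos v ≤ k + 2 * (univ.filter fun u => k ≤ pos u ∧ pos u < pos v ∧ R u v).card
  forw : ∀ (v : V) (k : ℕ), pos v ≤ k → k < Fintype.card V →
    k ≤ pos v + 2 * (univ.filter fun w => pos v < pos w ∧ pos w ≤ k ∧ R v w).card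
  cut : ∀ Y Z : Finset V, Disjoint Y Z →
    (((Z ×ˢ Y).filter fun p => pos p.1 < pos p.2).card : ℝ) ≤
      2 * eN R Z Y + ((Fintype.card V : ℝ) - Z.card - Y.card) * Y.card

/-- The layer `a ≤ ℓ` of a median order: the positions `a D, …, |V| - (ℓ - a) D - 1`. -/
def Sg {V : Type} [Fintype V] (pos : V → ℕ) (ℓ D a : ℕ) : Finset V :=
  univ.filter fun v => a * D ≤ pos v ∧ pos v + (ℓ - a) * D < Fintype.card V

open Classical in
/-- All that is used of a median order.  `S 0, …, S ℓ` are the layers (large overlapping sets of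
equal size), `K` is a set contained in all of them (the core), `r` is a vertex in the middle.
`gap`: there are no two large sets `Z` in a lower and `Y` in a higher layer with few arcs from
`Z` to `Y`.  `deg`: every vertex of a layer has many neighbours of the right direction in every
other layer. -/
structure Lay {V : Type} [Fintype V] [DecidableEq V] (R : V → V → Prop) (ℓ : ℕ) (δ η : ℝ)
    (S : ℕ → Finset V) (K : Finset V) (r : V) : Prop where
  eqc : ∀ a, a ≤ ℓ → (S a).card = (S 0).card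
  core : ∀ a, a ≤ ℓ → K ⊆ S a
  small : ((Kᶜ).card : ℝ) ≤ η * Fintype.card V
  gap : ∀ a b, a < b → b ≤ ℓ → ∀ Z, Z ⊆ S a → ∀ Y, Y ⊆ S b → Z.Nonempty → Y.Nonempty →
    (∀ z ∈ Z, ((Y.filter fun y => R z y).card : ℝ) ≤ δ * Fintype.card V) →
    (∀ y ∈ Y, ((Z.filter fun z => R z y).card : ℝ) ≤ δ * Fintype.card V) →
    (Z.card : ℝ) + Y.card ≤ (S 0).card - 4 * δ * Fintype.card V
  deg : ∀ a b, a ≤ ℓ → b ≤ ℓ → a ≠ b → ∀ u ∈ S a,
    4 * δ * Fintype.card V ≤ (((S b).filter fun v => Arc R (decide (a < b)) u v).card : ℝ)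
  root : r ∈ K ∧ ∀ s : Bool, (Fintype.card V : ℝ) / 8 ≤ (Nb R s r).card

/-- Kernels between the layers: doubly stochastic, with entries of order `1 / |V|` on all arcs of
the right direction. -/
structure KE {V : Type} [Fintype V] (R : V → V → Prop) (ℓ : ℕ) (S : ℕ → Finset V) (c C : ℝ)
    (Q : ℕ → ℕ → V → V → ℝ) : Prop where
  nn : ∀ a b u v, 0 ≤ Q a b u v
  up : ∀ a b u v, Q a b u v ≤ C / Fintype.card V
  lo : ∀ a b, a ≤ ℓ → b ≤ ℓ → a ≠ b → ∀ u ∈ S a, ∀ v ∈ S b, Arc R (decide (a < b)) u v →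
    c / Fintype.card V ≤ Q a b u v
  sup : ∀ a b u v, Q a b u v ≠ 0 → u ∈ S a ∧ v ∈ S b ∧ Arc R (decide (a < b)) u v
  off : ∀ a b u v, ¬ (a ≤ ℓ ∧ b ≤ ℓ ∧ a ≠ b) → Q a b u v = 0
  row : ∀ a b, a ≤ ℓ → b ≤ ℓ → a ≠ b → ∀ u ∈ S a, ∑ v, Q a b u v = 1
  sym : ∀ a b u v, Q a b u v = Q b a v u

/-- Stochastic kernels between the layers; `B` is an upper bound for the entries. -/
structure SK {V : Type} [Fintype V] (ℓ : ℕ) (S : ℕ → Finset V) (B : V → ℝ)
    (G : ℕ → ℕ → V → V → ℝ) : Prop where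
  nn : ∀ a b u v, 0 ≤ G a b u v
  up : ∀ a b u v, G a b u v ≤ B v
  sup : ∀ a b u v, G a b u v ≠ 0 → u ∈ S a ∧ v ∈ S b
  row : ∀ a b, a ≤ ℓ → b ≤ ℓ → a ≠ b → ∀ u ∈ S a, ∑ v, G a b u v = 1

/-- A word of types (the first one is `a`) with distinct consecutive letters. -/
def Wd (ℓ : ℕ) : ℕ → List ℕ → Prop
  | a, [] => a ≤ ℓ
  | a, b :: w => a ≤ ℓ ∧ a ≠ b ∧ Wd ℓ b w

/-- The last letter. -/
def lst : ℕ → List ℕ → ℕ
  | a, [] => a
  | _, b :: w => lst b w

/-- The distribution after the steps of the word `w` (which begins at the type `a`). -/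
def wk {V : Type} [Fintype V] (G : ℕ → ℕ → V → V → ℝ) : ℕ → List ℕ → (V → ℝ) → V → ℝ
  | _, [], μ => μ
  | a, b :: w, μ => wk G b w (fun v => ∑ u, μ u * G a b u v)

/-- The uniform distribution on the layer `a`. -/
noncomputable def Un {V : Type} [DecidableEq V] (S : ℕ → Finset V) (a : ℕ) (v : V) : ℝ :=
  if v ∈ S a then 1 / ((S 0).card : ℝ) else 0

/-- The deviation of the weight `ω` for the test function `f`. -/
def Df {V : Type} [Fintype V] (f ω : V → ℝ) : ℝ := ∑ v, f v * (ω v - 1)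

/-- The weight `ω` is quasirandom for the test functions. -/
def QR {V : Type} [Fintype V] (F : Finset (V → ℝ)) (ω : V → ℝ) (δ : ℝ) : Prop :=
  ∀ f ∈ F, |Df f ω| ≤ δ

/-- A family of test functions which is sufficient for words of length less than `l`. -/
structure Tst {V : Type} [Fintype V] [DecidableEq V] (ℓ : ℕ) (S : ℕ → Finset V)
    (Q : ℕ → ℕ → V → V → ℝ) (l : ℕ) (Cf : ℝ) (F : Finset (V → ℝ)) : Prop where
  card : (F.card : ℝ) ≤ Cf * (Fintype.card V : ℝ) ^ 2
  nn : ∀ f ∈ F, ∀ v, 0 ≤ f v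
  up : ∀ f ∈ F, ∀ v, f v ≤ Cf / Fintype.card V
  sum : ∀ f ∈ F, ∑ v, f v ≤ Cf
  row : ∀ a b, a ≤ ℓ → b ≤ ℓ → a ≠ b → ∀ u ∈ S a, (fun v => Q a b u v) ∈ F
  wrd : ∀ (a : ℕ) (w : List ℕ) (b : ℕ), Wd ℓ a w → w ≠ [] → w.length < l → b ≤ ℓ →
    lst a w ≠ b → ∀ u ∈ S a, ∀ v,
    (fun x => (Fintype.card V : ℝ) * (wk Q a w (RobT.pt u) x * Q (lst a w) b x v)) ∈ F

/-- The mass of the step from `u` for the weight `ω`. -/
def ms {V : Type} [Fintype V] (Q : ℕ → ℕ → V → V → ℝ) (ω : V → ℝ) (a b : ℕ) (u : V) : ℝ :=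
  ∑ x, Q a b u x * ω x

/-- The kernels of the random walk with weight `ω`. -/
noncomputable def qw {V : Type} [Fintype V] (Q : ℕ → ℕ → V → V → ℝ) (ω : V → ℝ)
    (a b : ℕ) (u v : V) : ℝ :=
  Q a b u v * ω v / ms Q ω a b u

/-- The weight of the set `A` of unused vertices if `Uf v` is the expected part of `v` which is
used already. -/
noncomputable def om {V : Type} [DecidableEq V] (A : Finset V) (Uf : V → ℝ) (v : V) : ℝ :=
  if v ∈ A then 1 / (1 - Uf v) else 0

/-- The potential. -/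
noncomputable def Pot {V : Type} [Fintype V] (F : Finset (V → ℝ)) (lam : ℝ) (ω : V → ℝ)
    (δ : ℝ) : ℝ :=
  ∑ f ∈ F, ∑ b : Bool, Real.exp (lam * ((if b then 1 else -1) * Df f ω - δ))

/-- Good approximation of the walk by `ω v / |S 0|` on the layer of the last letter. -/
def WP {V : Type} [Fintype V] [DecidableEq V] (ℓ : ℕ) (S : ℕ → Finset V) (ω : V → ℝ)
    (G : ℕ → ℕ → V → V → ℝ) (l : ℕ) (C e : ℝ) : Prop :=
  ∀ (a : ℕ) (w : List ℕ), Wd ℓ a w → w ≠ [] → ∀ u ∈ S a, ∀ v,
    |wk G a w (RobT.pt u) v - ω v * Un S (lst a w) v| ≤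
      (if l ≤ w.length then e else C) * ω v / Fintype.card V

/-- The signs of the arcs of a graded tree. -/
def sg (par a : ℕ → ℕ) (i : ℕ) : Bool := decide (a (par i) < a i)

/-- A rooted tree with a grading: adjacent vertices have different grades, all grades are at most
`ℓ`. -/
structure GT (ℓ N Δ : ℕ) (par a : ℕ → ℕ) : Prop where
  rt : RT N Δ par
  le : ∀ i, i < N → a i ≤ ℓ
  ne : ∀ i, 0 < i → i < N → a (par i) ≠ a i

end Pool.Agent.Lib.TourE
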