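import Pool.Agent.Lib.TourE.Sn
import Pool.Agent.Lib.TourE.Ai
import Pool.Agent.Lib.RobT.Tp
import Pool.Agent.Lib.RobT.Rs

/-!
# Fn: spanning graded trees in arbitrary large tournaments
-/

namespace Pool.Agent.Lib.TourE

open Finset
open Pool.Agent.Lib.RobT (IsTour Arc eN Nb RT split_tree tour_sub)

open Classical in
/-- A graded oriented tree on `U` with maximum degree at most `Δ` and grades at most `ℓ`. -/
structure IsGTree {U : Type} [Fintype U] (Δ ℓ : ℕ) (T : U → U → Prop) (g : U → ℕ) : Prop where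
  mono : ∀ x y, T x y → g x < g y
  le : ∀ x, g x ≤ ℓ
  tree : (SimpleGraph.fromRel T).IsTree
  deg : ∀ x, (univ.filter fun y => T x y ∨ T y x).card ≤ Δ

open Classical in
theorem main (Δ ℓ : ℕ) :
    ∃ n₀ : ℕ, ∀ (V : Type) [Fintype V] (R : V → V → Prop),
      n₀ ≤ Fintype.card V → IsTour R → ∀ (T : V → V → Prop) (g : V → ℕ), IsGTree Δ ℓ T g →
      ∃ φ : V ≃ V, ∀ x y, T x y → R (φ x) (φ y) := by
  obtain ⟨η, hη, hη1, habs⟩ := absorber Δ
  obtain ⟨δ, n₁, hδ, hδ1, hlay⟩ := layers ℓ η hη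
  obtain ⟨γ₁, hγ₁, habs⟩ := habs ℓ δ hδ (hδ1.trans (by norm_num))
  set γ₂ := min γ₁ (1 / 100) with hγ₂
  have hg2 : 0 < γ₂ := lt_min hγ₁ (by norm_num)
  have hg2a : γ₂ ≤ γ₁ := min_le_left _ _
  have hg2b : γ₂ ≤ 1 / 100 := min_le_right _ _
  have hD0 : (0 : ℝ) < (Δ : ℝ) + 1 := by positivity
  set γ := γ₂ / (2 * ((Δ : ℝ) + 1)) with hγ
  have hγ0 : 0 < γ := by positivity
  obtain ⟨θ, n₅, hθ, habs⟩ := habs γ hγ0
  set ρ := min (θ / 30) (1 / 100) with hρ
  have hρ0 : 0 < ρ := lt_min (by positivity) (by norm_num)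
  have hρa : ρ ≤ θ / 30 := min_le_left _ _
  have hρb : ρ ≤ 1 / 100 := min_le_right _ _
  obtain ⟨n₂, hnear⟩ := near_spanning ρ ℓ Δ hρ0
  obtain ⟨n₃, hn₃⟩ := exists_nat_ge (2 * ((Δ : ℝ) + 1) / γ₂)
  obtain ⟨n₄, hn₄⟩ := exists_nat_ge (20 / θ)
  refine ⟨max (max n₁ (2 * n₂)) (max (max n₃ n₄) (max n₅ 2)), ?_⟩
  intro V _ R hn hR T gr hT
  have hn1 : n₁ ≤ Fintype.card V := by omega
  have hn2 : 2 * n₂ ≤ Fintype.card V := by omega
  have hn3 : n₃ ≤ Fintype.card V := by omega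
  have hn4 : n₄ ≤ Fintype.card V := by omega
  have hn5 : 2 ≤ Fintype.card V := by omega
  have hn6 : n₅ ≤ Fintype.card V := by omega
  have r2 : 2 * (n₂ : ℝ) ≤ Fintype.card V := by exact_mod_cast hn2
  have r3 : 2 * ((Δ : ℝ) + 1) / γ₂ ≤ Fintype.card V := by
    refine hn₃.trans ?_
    exact_mod_cast hn3
  have r4 : 20 / θ ≤ Fintype.card V := by
    refine hn₄.trans ?_
    exact_mod_cast hn4
  have r5 : (2 : ℝ) ≤ Fintype.card V := by exact_mod_cast hn5
  rw [div_le_iff₀ hg2] at r3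
  rw [div_le_iff₀ hθ] at r4
  obtain ⟨S, K, r, hLay⟩ := hlay V R hn1 hR
  set n := Fintype.card V with hnn
  -- the size of the part
  set g := ⌈γ * n⌉₊ with hg
  have hg1 : 1 ≤ g := by
    apply Nat.one_le_iff_ne_zero.2
    intro h0
    rw [hg, Nat.ceil_eq_zero] at h0
    have : 0 < γ * (n : ℝ) := by positivity
    linarith
  have hga : γ * n ≤ g := Nat.le_ceil _
  have hgb : (g : ℝ) < γ * n + 1 := Nat.ceil_lt_add_one (by positivity)
  have hgc : ((Δ : ℝ) + 1) * g ≤ γ₂ * n := by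
    have e1 : ((Δ : ℝ) + 1) * (γ * n + 1) = γ₂ * n / 2 + (Δ + 1) := by
      rw [hγ]
      field_simp
    have e2 : ((Δ : ℝ) + 1) * g ≤ ((Δ : ℝ) + 1) * (γ * n + 1) :=
      mul_le_mul_of_nonneg_left hgb.le hD0.le
    linarith
  have hgd : (Δ + 1) * g < n := by
    have e1 : ((((Δ + 1) * g : ℕ)) : ℝ) < n := by
      push_cast
      have : γ₂ * (n : ℝ) ≤ 1 / 100 * n := by
        apply mul_le_mul_of_nonneg_right hg2b
        positivity
      linarith
    exact_mod_cast e1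
  -- splitting
  obtain ⟨m, eA, eB, pA, pB, m1, m2, hRA, hRB, iA, iB, dAB, cov, adjA, adjB, adj0, edges⟩ :=
    split_tree (SimpleGraph.fromRel T) hT.tree Δ g (fun x => by
      refine (card_le_card ?_).trans (hT.deg x)
      intro y hy
      simp only [mem_filter, mem_univ, true_and, SimpleGraph.fromRel_adj] at hy ⊢
      exact hy.2) hg1 hgd
  have hm1 : γ * n ≤ m := by
    refine hga.trans ?_
    exact_mod_cast m1
  have hm2 : (m : ℝ) ≤ γ₂ * n := by
    refine le_trans ?_ hgc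
    have : (m : ℝ) ≤ ((Δ + 1) * g : ℕ) := by exact_mod_cast m2
    push_cast at this
    exact this
  have hm3 : (m : ℝ) ≤ γ₁ * n :=
    hm2.trans (mul_le_mul_of_nonneg_right hg2a (Nat.cast_nonneg _))
  have hmn : m < n := by omega
  have hm0 : 0 < m := by omega
  set N := n - m with hN
  have hN0 : 0 < N := by omega
  have hadjne : ∀ x y, (SimpleGraph.fromRel T).Adj x y → gr y ≠ gr x := by
    intro x y h
    rw [SimpleGraph.fromRel_adj] at h
    rcases h.2 with h | h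
    · exact (hT.mono _ _ h).ne'
    · exact (hT.mono _ _ h).ne
  have hGA : GT ℓ m Δ pA (fun i => gr (eA i)) :=
    ⟨hRA, fun i _ => hT.le _, fun i h0 hi => hadjne _ _ (adjA i h0 hi)⟩
  have hGB : GT ℓ N Δ pB (fun i => gr (eB i)) :=
    ⟨hRB, fun i _ => hT.le _, fun i h0 hi => hadjne _ _ (adjB i h0 hi)⟩
  obtain ⟨f, U, R₀, f1, f2, f3, f4, f5, f6⟩ := habs V R hn6 hR S K r hLay m pA
    (fun i => gr (eA i)) hm1 hm3 hGA
  -- the removed set
  set W := U ∪ R₀ with hW
  have hWc : W.card = m - f + (f - f / 10) := by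
    rw [hW, card_union_of_disjoint f4.symm, f3]
    omega
  have hWm : W.card ≤ m := by omega
  have hWr : (W.card : ℝ) ≤ 1 / 100 * n := by
    have : (W.card : ℝ) ≤ m := by exact_mod_cast hWm
    refine this.trans (hm2.trans ?_)
    exact mul_le_mul_of_nonneg_right hg2b (Nat.cast_nonneg _)
  have hcV' : Fintype.card {v : V // v ∉ W} = n - W.card := by
    rw [Fintype.card_subtype_compl, Fintype.card_coe]
  have hWn : W.card < n := by omega
  have hn2' : n₂ ≤ Fintype.card {v : V // v ∉ W} := by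
    rw [hcV']
    have h2 : 2 * W.card ≤ n := by
      have : 2 * (W.card : ℝ) ≤ n := by
        have h0 : (0 : ℝ) ≤ n := Nat.cast_nonneg _
        linarith
      exact_mod_cast this
    omega
  have hNle : (N : ℝ) ≤ (1 - ρ) * Fintype.card {v : V // v ∉ W} := by
    rw [hcV']
    have e1 : N + f / 10 = n - W.card := by omega
    have e2 : ((N + f / 10 : ℕ) : ℝ) = ((n - W.card : ℕ) : ℝ) := by rw [e1]
    have e3 : ((n - W.card : ℕ) : ℝ) ≤ n := by
      exact_mod_cast Nat.sub_le _ _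
    have e4 : (f : ℝ) ≤ 10 * ((f / 10 : ℕ) : ℝ) + 10 := by
      have : f ≤ 10 * (f / 10) + 10 := by omega
      exact_mod_cast this
    push_cast at e2
    have e5 : ρ * ((n - W.card : ℕ) : ℝ) ≤ ρ * n := by
      apply mul_le_mul_of_nonneg_left e3
      positivity
    have e6 : ρ * n ≤ θ / 30 * n := mul_le_mul_of_nonneg_right hρa (Nat.cast_nonneg _)
    nlinarith
  -- the connecting vertex
  obtain ⟨X, hX, hnear⟩ := hnear {v : V // v ∉ W} (fun a b => R a b) hn2' (tour_sub hR W)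
  have hXr : (X.card : ℝ) ≤ 1 / 100 * n := by
    refine hX.trans ?_
    rw [hcV']
    have e3 : ((n - W.card : ℕ) : ℝ) ≤ n := by
      exact_mod_cast Nat.sub_le _ _
    calc ρ * ((n - W.card : ℕ) : ℝ) ≤ 1 / 100 * ((n - W.card : ℕ) : ℝ) :=
          mul_le_mul_of_nonneg_right hρb (Nat.cast_nonneg _)
      _ ≤ 1 / 100 * n := mul_le_mul_of_nonneg_left e3 (by norm_num)
  have hdeg := hLay.root.2 (decide (gr (eA 0) < gr (eB 0)))
  have hex : ∃ u₀ ∈ Nb R (decide (gr (eA 0) < gr (eB 0))) r,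
      u₀ ∉ W ∪ X.image Subtype.val := by
    apply exists_mem_notMem_of_card_lt_card
    have h1 : ((W ∪ X.image Subtype.val).card : ℝ) ≤ W.card + X.card := by
      have h2 := card_union_le W (X.image Subtype.val)
      have h3 : (X.image Subtype.val).card ≤ X.card := card_image_le
      exact_mod_cast h2.trans (Nat.add_le_add_left h3 _)
    have : ((W ∪ X.image Subtype.val).card : ℝ) <
        (Nb R (decide (gr (eA 0) < gr (eB 0))) r).card := by
      refine lt_of_lt_of_le ?_ hdeg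
      refine lt_of_le_of_lt h1 ?_
      have h0 : (0 : ℝ) < n := by linarith
      linarith
    exact_mod_cast this
  obtain ⟨u₀, hu1, hu2⟩ := hex
  rw [mem_union, not_or] at hu2
  obtain ⟨hu2, hu3⟩ := hu2
  simp only [Nb, mem_filter, mem_univ, true_and] at hu1
  have hu4 : (⟨u₀, hu2⟩ : {v : V // v ∉ W}) ∉ X := fun h => hu3 (mem_image.2 ⟨_, h, rfl⟩)
  obtain ⟨φB, b1, b2, b3⟩ := hnear N pB (fun i => gr (eB i)) hNle hGB ⟨u₀, hu2⟩ hu4
  set IB := (range N).image (fun i => (φB i : V)) with hIB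
  have hIBc : IB.card = N := by
    rw [hIB, card_image_of_injOn, card_range]
    intro a ha b hb hab
    simp only [coe_range, Set.mem_Iio] at ha hb
    exact b2 (Set.mem_Iio.2 ha) (Set.mem_Iio.2 hb) (Subtype.ext hab)
  have hIBW : ∀ v ∈ IB, v ∉ W := by
    intro v hv
    obtain ⟨i, -, rfl⟩ := mem_image.1 hv
    exact (φB i).2
  have hUIB : Disjoint U IB := by
    rw [Finset.disjoint_left]
    intro v hv hv'
    exact hIBW v hv' (mem_union_left _ hv)
  set L := (univ : Finset V) \ (U ∪ IB) with hL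
  have hLc : L.card = f := by
    rw [hL, card_sdiff_of_subset (subset_univ _), card_union_of_disjoint hUIB, hIBc, card_univ,
      ← hnn]
    omega
  have hRL : R₀ ⊆ L := by
    intro v hv
    rw [hL, mem_sdiff]
    refine ⟨mem_univ _, fun h => ?_⟩
    rcases mem_union.1 h with h | h
    · exact Finset.disjoint_left.1 f4 hv h
    · exact hIBW v h (mem_union_right _ hv)
  have hLU : Disjoint L U := by
    rw [Finset.disjoint_left]
    intro v hv hv'
    rw [hL, mem_sdiff] at hv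
    exact hv.2 (mem_union_left _ hv')
  obtain ⟨φA, a1, a2, a3, a4⟩ := f6 L hRL hLU hLc
  -- the bijection
  have hsel : ∀ v, ∃ w, (∀ i < m, eA i = v → w = φA i) ∧ (∀ i < N, eB i = v → w = φB i) := by
    intro v
    rcases cov v with ⟨i, hi, hiv⟩ | ⟨i, hi, hiv⟩
    · refine ⟨φA i, fun i' hi' h => ?_, fun i' hi' h => ?_⟩
      · rw [iA (Set.mem_Iio.2 hi) (Set.mem_Iio.2 hi') (hiv.trans h.symm)]
      · exact absurd (hiv.trans h.symm) (dAB i hi i' hi')
    · refine ⟨φB i, fun i' hi' h => ?_, fun i' hi' h => ?_⟩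
      · exact absurd (h.trans hiv.symm) (dAB i' hi' i hi)
      · rw [iB (Set.mem_Iio.2 hi) (Set.mem_Iio.2 hi') (hiv.trans h.symm)]
  choose Φ hΦA hΦB using hsel
  have hA : ∀ i < m, Φ (eA i) = φA i := fun i hi => hΦA _ i hi rfl
  have hB : ∀ i < N, Φ (eB i) = φB i := fun i hi => hΦB _ i hi rfl
  have hAm : ∀ i < m, φA i ∈ U ∪ L := by
    intro i hi
    rw [← a3]
    exact mem_image_of_mem _ (mem_range.2 hi)
  have hBm : ∀ i < N, (φB i : V) ∉ U ∪ L := by
    intro i hi h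
    have h1 : (φB i : V) ∈ IB := mem_image.2 ⟨i, mem_range.2 hi, rfl⟩
    rcases mem_union.1 h with h | h
    · exact Finset.disjoint_left.1 hUIB h h1
    · rw [hL, mem_sdiff] at h
      exact h.2 (mem_union_right _ h1)
  have hinj : Function.Injective Φ := by
    intro x y hxy
    rcases cov x with ⟨i, hi, rfl⟩ | ⟨i, hi, rfl⟩ <;> rcases cov y with ⟨j, hj, rfl⟩ | ⟨j, hj, rfl⟩
    · rw [hA i hi, hA j hj] at hxy
      rw [a2 (Set.mem_Iio.2 hi) (Set.mem_Iio.2 hj) hxy]
    · rw [hA i hi, hB j hj] at hxy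
      exact absurd (hxy ▸ hAm i hi) (hBm j hj)
    · rw [hB i hi, hA j hj] at hxy
      exact absurd (hxy ▸ hAm j hj) (hBm i hi)
    · rw [hB i hi, hB j hj] at hxy
      rw [b2 (Set.mem_Iio.2 hi) (Set.mem_Iio.2 hj) (Subtype.ext hxy)]
  refine ⟨Equiv.ofBijective Φ (Finite.injective_iff_bijective.1 hinj), ?_⟩
  intro x y hxy
  simp only [Equiv.ofBijective_apply]
  have hlt := hT.mono x y hxy
  have hne : x ≠ y := by
    rintro rfl
    exact lt_irrefl _ hlt
  have hadj : (SimpleGraph.fromRel T).Adj x y := (SimpleGraph.fromRel_adj T x y).2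
    ⟨hne, Or.inl hxy⟩
  rcases edges x y hadj with ⟨i, i0, im, ⟨rfl, rfl⟩ | ⟨rfl, rfl⟩⟩ |
    ⟨i, i0, im, ⟨rfl, rfl⟩ | ⟨rfl, rfl⟩⟩ | ⟨rfl, rfl⟩ | ⟨rfl, rfl⟩
  · have hp : pA i < m := (hRA.lt i i0 im).trans im
    rw [hA i im, hA _ hp]
    have h := a4 i i0 im
    simp only [decide_eq_false (not_lt.2 hlt.le)] at h
    simpa [Arc] using h
  · have hp : pA i < m := (hRA.lt i i0 im).trans im
    rw [hA i im, hA _ hp]
    have h := a4 i i0 im
    simp only [decide_eq_true hlt] at h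
    simpa [Arc] using h
  · have hp : pB i < N := (hRB.lt i i0 im).trans im
    rw [hB i im, hB _ hp]
    have h := b3 i i0 im
    rw [decide_eq_false (not_lt.2 hlt.le)] at h
    simpa [Arc] using h
  · have hp : pB i < N := (hRB.lt i i0 im).trans im
    rw [hB i im, hB _ hp]
    have h := b3 i i0 im
    rw [decide_eq_true hlt] at h
    simpa [Arc] using h
  · rw [hA 0 hm0, hB 0 hN0, a1, b1]
    rw [decide_eq_true hlt] at hu1
    simpa [Arc] using hu1
  · rw [hA 0 hm0, hB 0 hN0, a1, b1]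
    rw [decide_eq_false (not_lt.2 hlt.le)] at hu1
    simpa [Arc] using hu1

end Pool.Agent.Lib.TourE
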