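import Pool.Agent.Lib.TourE.Defs

/-!
# Ga: no gap in the middle (about 280 lines)

`n = |V|`, `i = pos z₀` (the minimum over `Z`), `j = pos y₀` (the maximum over `Y`).
(a1) For `y ∈ Y`, `k ≤ pos y`: `#{z ∈ Z | k ≤ pos z < pos y} ≤ (pos y - k)/2 + E`: the segment
`[k, pos y)` has at most `pos y - k` vertices, by `Med.back` at least `(pos y - k)/2` of them are
inneighbours of `y`, and at most `E` elements of `Z` are inneighbours of `y`.
(a2) For `z ∈ Z`, `pos z ≤ k < n`: `#{y ∈ Y | pos z < pos y ≤ k} ≤ (k - pos z)/2 + E` (`Med.forw`).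
Suppose `|Z| + |Y| > n - B`.
(1) `|Z| ≤ (j-i)/2 + E` (a1 for `y₀`, `k = i`), `|Y| ≤ (j-i)/2 + E` (a2 for `z₀`, `k = j`),
  `j - i ≤ n`.  So `|Z|, |Y| ≤ n/2 + E` and `|Z|, |Y| ≥ n/2 - (B + E)`.
(2) `t = |Z ∩ Y| ≤ 2E + 1`: each of the `t (t-1)/2` pairs of `Z ∩ Y` is an arc, and every vertex of
  `Z` has at most `E` outneighbours in `Y`: `t (t-1)/2 ≤ t E`.
(3) For `z ∈ Z`: `#{y ∈ Y | pos y ≤ pos z} ≤ (pos z - i)/2 + E` (a2 for `z₀`, `k = pos z`; all
  `y ∈ Y` have `pos y > i`).  `∑_{z ∈ Z} (pos z - i) = ∑_{t = i+1}^{j-1} #{z ∈ Z | t ≤ pos z}`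
  `≤ ∑_{t=i+1}^{j-1} ((j-t)/2 + E) ≤ (j-i)²/4 + E (j-i) ≤ n²/4 + E n` (a1 for `y₀`, `k = t`).  So
  `#{(z, y) | pos y ≤ pos z} ≤ n²/8 + E n/2 + E n`.
(4) `#{(z, y) ∈ Z × Y | pos z < pos y} ≥ |Z| |Y| - n²/8 - (3/2) E n`
  `≥ (n/2 - B - E)² - n²/8 - (3/2) E n ≥ n²/8 - (B + E) n - (3/2) E n ≥ (11/100) n²`
  (`B + E ≤ n/100`, `E ≤ n/1600`).
(5) `Z' = Z \ Y`: `#{(z, y) ∈ Z' × Y | pos z < pos y} ≥ (11/100) n² - t n`.  By `Med.cut` it is at
most
  `2 eN R Z' Y + (n - |Z'| - |Y|) |Y| ≤ 2 E n + (B + t) n` (`eN R Z' Y = ∑_{z ∈ Z'} #{y ∈ Y | R z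
  y}`;
  `n - |Z'| - |Y| = n - |Z| - |Y| + t < B + t`).
So `(11/100) n² ≤ (2 t + 2 E + B) n ≤ (6 E + 2 + B) n ≤ (6/1600 + 2/1600 + 1/100) n²`, a
contradiction.
-/

namespace Pool.Agent.Lib.TourE

open Finset
open Pool.Agent.Lib.RobT (IsTour Arc eN Nb RT)

private lemma card_seg {V : Type} [Fintype V] {pos : V → ℕ} (hi : Function.Injective pos)
    (S : Finset V) (I : Finset ℕ) (h : ∀ v ∈ S, pos v ∈ I) : S.card ≤ I.card :=
  Finset.card_le_card_of_injOn pos h (fun _ _ _ _ e => hi e)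

open Classical in
theorem seg_back {V : Type} [Fintype V] {R : V → V → Prop} {pos : V → ℕ} (hM : Med R pos)
    (Z : Finset V) (y : V) (E : ℝ) (h : ((Z.filter fun z => R z y).card : ℝ) ≤ E) (k : ℕ)
    (hk : k ≤ pos y) :
    ((Z.filter fun z => k ≤ pos z ∧ pos z < pos y).card : ℝ) ≤ ((pos y : ℝ) - k) / 2 + E := by
  have e1 : (Z.filter fun z => k ≤ pos z ∧ pos z < pos y).card ≤
      (Z.filter fun z => R z y).card +
        (univ.filter fun u => (k ≤ pos u ∧ pos u < pos y) ∧ ¬ R u y).card := by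
    refine le_trans (Finset.card_le_card ?_) (Finset.card_union_le _ _)
    intro z hz
    simp only [Finset.mem_filter, Finset.mem_union, Finset.mem_univ, true_and] at hz ⊢
    by_cases hR : R z y
    · exact Or.inl ⟨hz.1, hR⟩
    · exact Or.inr ⟨hz.2, hR⟩
  have e2 : (univ.filter fun u => (k ≤ pos u ∧ pos u < pos y) ∧ ¬ R u y).card +
      (univ.filter fun u => k ≤ pos u ∧ pos u < pos y ∧ R u y).card ≤ pos y - k := by
    rw [← Finset.card_union_of_disjoint]
    · have := card_seg hM.inj ((univ.filter fun u => (k ≤ pos u ∧ pos u < pos y) ∧ ¬ R u y) ∪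
        (univ.filter fun u => k ≤ pos u ∧ pos u < pos y ∧ R u y)) (Finset.Ico k (pos y)) (by
          intro v hv
          simp only [Finset.mem_filter, Finset.mem_union, Finset.mem_univ, true_and] at hv
          rw [Finset.mem_Ico]
          rcases hv with hv | hv
          · exact hv.1
          · exact ⟨hv.1, hv.2.1⟩)
      rwa [Nat.card_Ico] at this
    · rw [Finset.disjoint_left]
      intro v hv hv'
      simp only [Finset.mem_filter, Finset.mem_univ, true_and] at hv hv'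
      exact hv.2 hv'.2.2
  have e3 := hM.back y k hk
  have e4 : 2 * (univ.filter fun u => (k ≤ pos u ∧ pos u < pos y) ∧ ¬ R u y).card + k ≤ pos y := by
    omega
  have e5 : (2 : ℝ) * ((univ.filter fun u => (k ≤ pos u ∧ pos u < pos y) ∧ ¬ R u y).card : ℝ) +
      k ≤ pos y := by exact_mod_cast e4
  have e6 : ((Z.filter fun z => k ≤ pos z ∧ pos z < pos y).card : ℝ) ≤
      ((Z.filter fun z => R z y).card : ℝ) +
        ((univ.filter fun u => (k ≤ pos u ∧ pos u < pos y) ∧ ¬ R u y).card : ℝ) := by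
    exact_mod_cast e1
  linarith

open Classical in
theorem seg_forw {V : Type} [Fintype V] {R : V → V → Prop} {pos : V → ℕ} (hM : Med R pos)
    (Y : Finset V) (z : V) (E : ℝ) (h : ((Y.filter fun y => R z y).card : ℝ) ≤ E) (k : ℕ)
    (hk : pos z ≤ k) (hkn : k < Fintype.card V) :
    ((Y.filter fun y => pos z < pos y ∧ pos y ≤ k).card : ℝ) ≤ ((k : ℝ) - pos z) / 2 + E := by
  have e1 : (Y.filter fun y => pos z < pos y ∧ pos y ≤ k).card ≤
      (Y.filter fun y => R z y).card +
        (univ.filter fun u => (pos z < pos u ∧ pos u ≤ k) ∧ ¬ R z u).card := by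
    refine le_trans (Finset.card_le_card ?_) (Finset.card_union_le _ _)
    intro y hy
    simp only [Finset.mem_filter, Finset.mem_union, Finset.mem_univ, true_and] at hy ⊢
    by_cases hR : R z y
    · exact Or.inl ⟨hy.1, hR⟩
    · exact Or.inr ⟨hy.2, hR⟩
  have e2 : (univ.filter fun u => (pos z < pos u ∧ pos u ≤ k) ∧ ¬ R z u).card +
      (univ.filter fun u => pos z < pos u ∧ pos u ≤ k ∧ R z u).card ≤ k - pos z := by
    rw [← Finset.card_union_of_disjoint]
    · have := card_seg hM.inj ((univ.filter fun u => (pos z < pos u ∧ pos u ≤ k) ∧ ¬ R z u) ∪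
        (univ.filter fun u => pos z < pos u ∧ pos u ≤ k ∧ R z u)) (Finset.Ioc (pos z) k) (by
          intro v hv
          simp only [Finset.mem_filter, Finset.mem_union, Finset.mem_univ, true_and] at hv
          rw [Finset.mem_Ioc]
          rcases hv with hv | hv
          · exact hv.1
          · exact ⟨hv.1, hv.2.1⟩)
      rwa [Nat.card_Ioc] at this
    · rw [Finset.disjoint_left]
      intro v hv hv'
      simp only [Finset.mem_filter, Finset.mem_univ, true_and] at hv hv'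
      exact hv.2 hv'.2.2
  have e3 := hM.forw z k hk hkn
  have e4 : 2 * (univ.filter fun u => (pos z < pos u ∧ pos u ≤ k) ∧ ¬ R z u).card + pos z ≤ k := by
    omega
  have e5 : (2 : ℝ) * ((univ.filter fun u => (pos z < pos u ∧ pos u ≤ k) ∧ ¬ R z u).card : ℝ) +
      pos z ≤ k := by exact_mod_cast e4
  have e6 : ((Y.filter fun y => pos z < pos y ∧ pos y ≤ k).card : ℝ) ≤
      ((Y.filter fun y => R z y).card : ℝ) +
        ((univ.filter fun u => (pos z < pos u ∧ pos u ≤ k) ∧ ¬ R z u).card : ℝ) := by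
    exact_mod_cast e1
  linarith

open Classical in
private lemma tcard {V : Type} [Fintype V] {R : V → V → Prop} (hR : IsTour R)
    (T : Finset V) (E : ℝ) (h : ∀ z ∈ T, ((T.filter fun y => R z y).card : ℝ) ≤ E)
    (hE : 0 ≤ E) : (T.card : ℝ) ≤ 2 * E + 1 := by
  set A := (T ×ˢ T).filter fun p => R p.1 p.2 with hA
  set B := (T ×ˢ T).filter fun p => R p.2 p.1 with hB
  have hAB : B.card = A.card := by
    apply Finset.card_bij (fun p _ => (p.2, p.1))
    · intro p hp
      simp only [hB, hA, Finset.mem_filter, Finset.mem_product] at hp ⊢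
      exact ⟨⟨hp.1.2, hp.1.1⟩, hp.2⟩
    · intro p _ q _ e
      simp only [Prod.mk.injEq] at e
      exact Prod.ext e.2 e.1
    · intro p hp
      refine ⟨(p.2, p.1), ?_, rfl⟩
      simp only [hB, hA, Finset.mem_filter, Finset.mem_product] at hp ⊢
      exact ⟨⟨hp.1.2, hp.1.1⟩, hp.2⟩
  have e1 : T.offDiag.card ≤ A.card + B.card := by
    refine le_trans (Finset.card_le_card ?_) (Finset.card_union_le _ _)
    intro p hp
    rw [Finset.mem_offDiag] at hp
    simp only [hA, hB, Finset.mem_union, Finset.mem_filter, Finset.mem_product]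
    rcases hR.tot p.1 p.2 hp.2.2 with h1 | h1
    · exact Or.inl ⟨⟨hp.1, hp.2.1⟩, h1⟩
    · exact Or.inr ⟨⟨hp.1, hp.2.1⟩, h1⟩
  rw [Finset.offDiag_card] at e1
  have e2 : (A.card : ℝ) ≤ T.card * E := by
    have e3 : A.card = ∑ z ∈ T, (T.filter fun y => R z y).card := by
      rw [hA, Finset.card_filter, Finset.sum_product]
      apply Finset.sum_congr rfl
      intro z _
      rw [Finset.card_filter]
    rw [e3]
    push_cast
    calc ∑ z ∈ T, ((T.filter fun y => R z y).card : ℝ) ≤ ∑ _z ∈ T, E :=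
          Finset.sum_le_sum h
      _ = T.card * E := by rw [Finset.sum_const, nsmul_eq_mul]
  have e3 : T.card * T.card ≤ T.card + (A.card + A.card) := by
    rw [hAB] at e1
    omega
  have e4 : (T.card : ℝ) * T.card ≤ T.card + (A.card + A.card) := by exact_mod_cast e3
  rcases Nat.eq_zero_or_pos T.card with h0 | h0
  · rw [h0]
    push_cast
    linarith
  · have h0' : (0 : ℝ) < T.card := by exact_mod_cast h0
    by_contra hcon
    push Not at hcon
    nlinarith

open Classical in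
theorem gap_mid {V : Type} [Fintype V] {R : V → V → Prop} {pos : V → ℕ} (hR : IsTour R)
    (hM : Med R pos) (Z Y : Finset V) (E B : ℝ) (hE : 0 ≤ E) (hB : 0 ≤ B)
    (hN : 1600 ≤ Fintype.card V) (hEN : 1600 * E ≤ Fintype.card V)
    (hBN : 100 * (B + E) ≤ Fintype.card V) (z₀ y₀ : V) (hz₀ : z₀ ∈ Z) (hy₀ : y₀ ∈ Y)
    (h0 : ∀ z ∈ Z, pos z₀ ≤ pos z ∧ pos z < pos y₀)
    (h0' : ∀ y ∈ Y, pos z₀ < pos y ∧ pos y ≤ pos y₀)
    (h1 : ∀ z ∈ Z, ((Y.filter fun y => R z y).card : ℝ) ≤ E)
    (h2 : ∀ y ∈ Y, ((Z.filter fun z => R z y).card : ℝ) ≤ E) :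
    (Z.card : ℝ) + Y.card ≤ Fintype.card V - B := by
  by_contra hcon
  push Not at hcon
  set n : ℝ := (Fintype.card V : ℝ) with hn
  have hn1600 : (1600 : ℝ) ≤ n := by rw [hn]; exact_mod_cast hN
  set i := pos z₀ with hi
  set j := pos y₀ with hj
  have hij : i < j := (h0 z₀ hz₀).2
  have hjn : j < Fintype.card V := hM.lt y₀
  have hijr : (i : ℝ) < j := by exact_mod_cast hij
  have hjnr : (j : ℝ) < n := by rw [hn]; exact_mod_cast hjn
  have hi0 : (0 : ℝ) ≤ i := Nat.cast_nonneg _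
  have hZf : (Z.filter fun z => i ≤ pos z ∧ pos z < pos y₀) = Z :=
    Finset.filter_true_of_mem h0
  have hYf : (Y.filter fun y => pos z₀ < pos y ∧ pos y ≤ j) = Y :=
    Finset.filter_true_of_mem h0'
  have hZ1 : (Z.card : ℝ) ≤ ((j : ℝ) - i) / 2 + E := by
    have := seg_back hM Z y₀ E (h2 y₀ hy₀) i hij.le
    rwa [hZf] at this
  have hY1 : (Y.card : ℝ) ≤ ((j : ℝ) - i) / 2 + E := by
    have := seg_forw hM Y z₀ E (h1 z₀ hz₀) j hij.le hjn
    rwa [hYf] at this
  have hZn : (Z.card : ℝ) ≤ n / 2 + E := by linarith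
  have hYn : (Y.card : ℝ) ≤ n / 2 + E := by linarith
  have hZl : n / 2 - (B + E) ≤ Z.card := by linarith
  have hYl : n / 2 - (B + E) ≤ Y.card := by linarith
  have hZcn : (Z.card : ℝ) ≤ n := by linarith
  have hYcn : (Y.card : ℝ) ≤ n := by linarith
  have hY0 : (0 : ℝ) ≤ Y.card := Nat.cast_nonneg _
  have hZ0 : (0 : ℝ) ≤ Z.card := Nat.cast_nonneg _
  -- (2)
  set T := Z ∩ Y with hT
  have ht : (T.card : ℝ) ≤ 2 * E + 1 := by
    apply tcard hR T E _ hE
    intro z hz
    refine le_trans ?_ (h1 z (Finset.mem_inter.1 hz).1)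
    have : (T.filter fun y => R z y).card ≤ (Y.filter fun y => R z y).card :=
      Finset.card_le_card (Finset.filter_subset_filter _ Finset.inter_subset_right)
    exact_mod_cast this
  have ht0 : (0 : ℝ) ≤ T.card := Nat.cast_nonneg _
  -- (3)
  have hs1 : ∀ z ∈ Z, ((Y.filter fun y => pos y ≤ pos z).card : ℝ) ≤
      ((pos z : ℝ) - i) / 2 + E := by
    intro z hz
    have e1 := seg_forw hM Y z₀ E (h1 z₀ hz₀) (pos z) (h0 z hz).1 (hM.lt z)
    refine le_trans ?_ e1
    have e2 : (Y.filter fun y => pos y ≤ pos z).card ≤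
        (Y.filter fun y => pos z₀ < pos y ∧ pos y ≤ pos z).card := by
      apply Finset.card_le_card
      intro y hy
      simp only [Finset.mem_filter] at hy ⊢
      exact ⟨hy.1, (h0' y hy.1).1, hy.2⟩
    exact_mod_cast e2
  have hs2 : ∀ t ∈ Finset.Ioo i j, ((Z.filter fun z => t ≤ pos z).card : ℝ) ≤
      ((j : ℝ) - t) / 2 + E := by
    intro t ht
    rw [Finset.mem_Ioo] at ht
    have e1 := seg_back hM Z y₀ E (h2 y₀ hy₀) t ht.2.le
    refine le_trans ?_ e1
    have e2 : (Z.filter fun z => t ≤ pos z).card ≤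
        (Z.filter fun z => t ≤ pos z ∧ pos z < pos y₀).card := by
      apply Finset.card_le_card
      intro z hz
      simp only [Finset.mem_filter] at hz ⊢
      exact ⟨hz.1, hz.2, (h0 z hz.1).2⟩
    exact_mod_cast e2
  have hs3 : ∑ z ∈ Z, (pos z - i) = ∑ t ∈ Finset.Ioo i j, (Z.filter fun z => t ≤ pos z).card := by
    have e1 : ∀ z ∈ Z, pos z - i = ∑ t ∈ Finset.Ioo i j, if t ≤ pos z then 1 else 0 := by
      intro z hz
      rw [← Finset.card_filter]
      have e2 : (Finset.Ioo i j).filter (fun t => t ≤ pos z) = Finset.Ioc i (pos z) := by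
        ext t
        simp only [Finset.mem_filter, Finset.mem_Ioo, Finset.mem_Ioc]
        have := (h0 z hz).2
        constructor
        · rintro ⟨⟨h3, _⟩, h4⟩
          exact ⟨h3, h4⟩
        · rintro ⟨h3, h4⟩
          exact ⟨⟨h3, lt_of_le_of_lt h4 this⟩, h4⟩
      rw [e2, Nat.card_Ioc]
    rw [Finset.sum_congr rfl e1, Finset.sum_comm]
    apply Finset.sum_congr rfl
    intro t _
    rw [Finset.card_filter]
  have hs4 : ∑ z ∈ Z, ((pos z : ℝ) - i) ≤ ((j : ℝ) - i) ^ 2 / 4 + E * (j - i) := by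
    have e1 : ∑ z ∈ Z, ((pos z : ℝ) - i) = ((∑ z ∈ Z, (pos z - i) : ℕ) : ℝ) := by
      push_cast
      apply Finset.sum_congr rfl
      intro z hz
      rw [Nat.cast_sub (h0 z hz).1]
    rw [e1, hs3]
    push_cast
    have e2 : ∑ t ∈ Finset.Ioo i j, ((Z.filter fun z => t ≤ pos z).card : ℝ) ≤
        ∑ t ∈ Finset.Ioo i j, (((j : ℝ) - t) / 2 + E) := Finset.sum_le_sum hs2
    have e3 : ∀ m : ℕ, ∑ t ∈ Finset.Ioo i (i + 1 + m), (((i + 1 + m : ℕ) : ℝ) - t) / 2 =
        ((m : ℝ) * (m + 1)) / 4 := by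
      intro m
      induction m with
      | zero =>
        have : Finset.Ioo i (i + 1 + 0) = ∅ := by
          ext t
          simp only [Finset.mem_Ioo, Finset.notMem_empty, iff_false]
          omega
        rw [this]
        simp
      | succ m ih =>
        have hset : Finset.Ioo i (i + 1 + (m + 1)) =
            insert (i + 1 + m) (Finset.Ioo i (i + 1 + m)) := by
          ext t
          simp only [Finset.mem_Ioo, Finset.mem_insert]
          omega
        rw [hset, Finset.sum_insert (by simp)]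
        have e4 : ∑ t ∈ Finset.Ioo i (i + 1 + m), (((i + 1 + (m + 1) : ℕ) : ℝ) - t) / 2 =
            ∑ t ∈ Finset.Ioo i (i + 1 + m), ((((i + 1 + m : ℕ) : ℝ) - t) / 2 + 1 / 2) := by
          apply Finset.sum_congr rfl
          intro t _
          push_cast
          ring
        rw [e4, Finset.sum_add_distrib, ih, Finset.sum_const, Nat.card_Ioo, nsmul_eq_mul]
        have e5 : i + 1 + m - i - 1 = m := by omega
        rw [e5]
        push_cast
        ring
    obtain ⟨m, hm⟩ : ∃ m, j = i + 1 + m := ⟨j - i - 1, by omega⟩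
    have e6 := e3 m
    rw [← hm] at e6
    rw [Finset.sum_add_distrib, e6, Finset.sum_const, Nat.card_Ioo, nsmul_eq_mul] at e2
    have e7 : j - i - 1 = m := by omega
    rw [e7] at e2
    have hjr : (j : ℝ) - i = m + 1 := by
      rw [hm]
      push_cast
      ring
    have hm0 : (0 : ℝ) ≤ m := Nat.cast_nonneg _
    rw [hjr]
    nlinarith
  have hji : (j : ℝ) - i ≤ n := by linarith
  have hji0 : (0 : ℝ) ≤ (j : ℝ) - i := by linarith
  have hs5 : ∑ z ∈ Z, ((pos z : ℝ) - i) ≤ n ^ 2 / 4 + E * n := by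
    have e1 : ((j : ℝ) - i) ^ 2 ≤ n ^ 2 := pow_le_pow_left₀ hji0 hji 2
    have e2 : E * ((j : ℝ) - i) ≤ E * n := mul_le_mul_of_nonneg_left hji hE
    linarith
  set P1 := (Z ×ˢ Y).filter fun p => pos p.2 ≤ pos p.1 with hP1
  set P2 := (Z ×ˢ Y).filter fun p => pos p.1 < pos p.2 with hP2
  have hc1 : (P1.card : ℝ) ≤ n ^ 2 / 8 + 3 / 2 * (E * n) := by
    have e1 : P1.card = ∑ z ∈ Z, (Y.filter fun y => pos y ≤ pos z).card := by
      rw [hP1, Finset.card_filter, Finset.sum_product]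
      apply Finset.sum_congr rfl
      intro z _
      rw [Finset.card_filter]
    rw [e1]
    push_cast
    have e2 : ∑ z ∈ Z, ((Y.filter fun y => pos y ≤ pos z).card : ℝ) ≤
        ∑ z ∈ Z, (((pos z : ℝ) - i) / 2 + E) := Finset.sum_le_sum hs1
    rw [Finset.sum_add_distrib, ← Finset.sum_div, Finset.sum_const, nsmul_eq_mul] at e2
    have e3 : (Z.card : ℝ) * E ≤ n * E := mul_le_mul_of_nonneg_right hZcn hE
    linarith
  have hc2 : P2.card + P1.card = Z.card * Y.card := by
    have e1 := Finset.card_filter_add_card_filter_not (s := Z ×ˢ Y)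
      (fun p : V × V => pos p.1 < pos p.2)
    rw [Finset.card_product] at e1
    rw [← e1, hP1, hP2]
    congr 2
    apply Finset.filter_congr
    intro p _
    exact not_lt.symm
  have hc3 : (P2.card : ℝ) + P1.card = Z.card * Y.card := by exact_mod_cast hc2
  have hprod : (n / 2 - (B + E)) * (n / 2 - (B + E)) ≤ (Z.card : ℝ) * Y.card := by
    apply mul_le_mul hZl hYl _ hZ0
    linarith
  -- (5)
  set Z' := Z \ Y with hZ'
  have hdisj : Disjoint Y Z' := Finset.disjoint_sdiff
  have hcut := hM.cut Y Z' hdisj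
  have hZ'c : (Z'.card : ℝ) + T.card = Z.card := by
    have : Z'.card + T.card = Z.card := by
      rw [hZ', hT]
      exact Finset.card_sdiff_add_card_inter Z Y
    exact_mod_cast this
  have hP2' : (P2.card : ℝ) ≤ (((Z' ×ˢ Y).filter fun p => pos p.1 < pos p.2).card : ℝ) +
      T.card * Y.card := by
    have : P2.card ≤ ((Z' ×ˢ Y).filter fun p => pos p.1 < pos p.2).card + (T ×ˢ Y).card := by
      refine le_trans (Finset.card_le_card ?_) (Finset.card_union_le _ _)
      intro p hp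
      simp only [hP2, hZ', hT, Finset.mem_filter, Finset.mem_product, Finset.mem_union,
        Finset.mem_sdiff, Finset.mem_inter] at hp ⊢
      by_cases h5 : p.1 ∈ Y
      · exact Or.inr ⟨⟨hp.1.1, h5⟩, hp.1.2⟩
      · exact Or.inl ⟨⟨⟨hp.1.1, h5⟩, hp.1.2⟩, hp.2⟩
    rw [Finset.card_product] at this
    exact_mod_cast this
  have heN : (eN R Z' Y : ℝ) ≤ n * E := by
    have e1 : eN R Z' Y = ∑ z ∈ Z', (Y.filter fun y => R z y).card := by
      unfold eN
      rw [Finset.card_filter, Finset.sum_product]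
      apply Finset.sum_congr rfl
      intro z _
      rw [Finset.card_filter]
    rw [e1]
    push_cast
    calc ∑ z ∈ Z', ((Y.filter fun y => R z y).card : ℝ) ≤ ∑ _z ∈ Z', E :=
          Finset.sum_le_sum (fun z hz => h1 z (Finset.mem_sdiff.1 hz).1)
      _ = Z'.card * E := by rw [Finset.sum_const, nsmul_eq_mul]
      _ ≤ n * E := by
          apply mul_le_mul_of_nonneg_right _ hE
          linarith
  have hlast : (n - Z'.card - Y.card) * Y.card ≤ (B + T.card) * n := by
    have e1 : n - Z'.card - Y.card ≤ B + T.card := by linarith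
    calc (n - (Z'.card : ℝ) - Y.card) * Y.card ≤ (B + T.card) * Y.card :=
          mul_le_mul_of_nonneg_right e1 hY0
      _ ≤ (B + T.card) * n := mul_le_mul_of_nonneg_left hYcn (by linarith)
  have htY : (T.card : ℝ) * Y.card ≤ T.card * n := mul_le_mul_of_nonneg_left hYcn ht0
  have hfin : (n / 2 - (B + E)) * (n / 2 - (B + E)) ≤
      n ^ 2 / 8 + 3 / 2 * (E * n) + (2 * (n * E) + (B + T.card) * n) + T.card * n := by
    linarith
  have htn : (T.card : ℝ) * n ≤ (2 * E + 1) * n := mul_le_mul_of_nonneg_right ht (by linarith)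
  have hEn : 1600 * (E * n) ≤ n * n := by nlinarith
  have hBn : 100 * ((B + E) * n) ≤ n * n := by nlinarith
  have h1n : 1600 * n ≤ n * n := by nlinarith
  have hBE0 : 0 ≤ (B + E) * (B + E) := mul_self_nonneg _
  have hEnn : 0 ≤ E * n := mul_nonneg hE (by linarith)
  nlinarith

end Pool.Agent.Lib.TourE
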