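import Pool.Agent.Lib.TourE.Ia

/-!
# Ib: two sets of integers (about 80 lines)

If `q ≤ z` for all `z ∈ Z`: `int_gap_a`.  If `y < p + M` for all `y ∈ Y`: `int_gap_a` for
`Z' = {-y | y ∈ Y}`, `Y' = {-z | z ∈ Z}`, `p' = -(q + M - 1)`, `q' = -(p + M - 1)`, the same `M`:
`q' - p' = q - p`; `z' = -y`: `p' ≤ z' < p' + M` iff `q ≤ y ≤ q + M - 1`; `y' = -z` the same;
(a1) for `y' = -z` and `k ≤ y'`: the number of `z' = -y ∈ Z'` with `k ≤ -y < -z`, i.e.
`z < y ≤ -k`, is at most `(-k - z)/2 + D/16 = (y' - k)/2 + D/16` by (a2); (a2) in the same way from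
(a1): for `z' = -y`, `k ≥ z'`, the number of `y' = -z` with `-y < -z ≤ k`, i.e. `-k ≤ z < y`, is at
most `(y + k)/2 + D/16 = (k - z')/2 + D/16`.  `q' ≤ z'` for all `z'`: `-y ≥ -(p + M - 1)`.
Otherwise the second alternative holds.
-/

namespace Pool.Agent.Lib.TourE

open Finset

private lemma Ib_card_filter (S : Finset ℤ) (P Q : ℤ → Prop) [DecidablePred P] [DecidablePred Q]
    (h : ∀ s ∈ S, (P (-s) ↔ Q s)) :
    ((S.image Neg.neg).filter P).card = (S.filter Q).card := by
  rw [Finset.filter_image, Finset.card_image_of_injective _ neg_injective]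
  congr 1
  apply Finset.filter_congr
  intro s hs
  exact h s hs

theorem int_gap (Z Y : Finset ℤ) (p q M : ℤ) (D : ℝ) (hD : 16 ≤ D)
    (hpq : D ≤ ((q - p : ℤ) : ℝ)) (hZ : ∀ z ∈ Z, p ≤ z ∧ z < p + M)
    (hY : ∀ y ∈ Y, q ≤ y ∧ y < q + M) (hZn : Z.Nonempty) (hYn : Y.Nonempty)
    (a1 : ∀ y ∈ Y, ∀ k, k ≤ y → ((Z.filter fun z => k ≤ z ∧ z < y).card : ℝ) ≤
      ((y - k : ℤ) : ℝ) / 2 + D / 16)
    (a2 : ∀ z ∈ Z, ∀ k, z ≤ k → ((Y.filter fun y => z < y ∧ y ≤ k).card : ℝ) ≤
      ((k - z : ℤ) : ℝ) / 2 + D / 16) :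
    (Z.card : ℝ) + Y.card ≤ M - D / 4 ∨ ((∃ z ∈ Z, z < q) ∧ ∃ y ∈ Y, p + M ≤ y) := by
  by_cases hq : ∀ z ∈ Z, q ≤ z
  · exact Or.inl (int_gap_a Z Y p q M D hD hpq hZ hY hZn hYn a1 a2 hq)
  by_cases hp : ∀ y ∈ Y, y < p + M
  · left
    have key := int_gap_a (Y.image Neg.neg) (Z.image Neg.neg) (-(q + M - 1)) (-(p + M - 1)) M D hD
      (by
        have : (-(p + M - 1) - -(q + M - 1) : ℤ) = q - p := by ring
        rw [this]; exact hpq)
      (by
        intro z hz
        obtain ⟨y, hy, rfl⟩ := Finset.mem_image.1 hz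
        have := hY y hy
        constructor <;> omega)
      (by
        intro y hy
        obtain ⟨z, hz, rfl⟩ := Finset.mem_image.1 hy
        have := hZ z hz
        constructor <;> omega)
      (hYn.image _) (hZn.image _)
      (by
        intro y' hy' k hk
        obtain ⟨z, hz, rfl⟩ := Finset.mem_image.1 hy'
        rw [Ib_card_filter Y (fun z' => k ≤ z' ∧ z' < -z) (fun y => z < y ∧ y ≤ -k)
          (by intro s _; constructor <;> (rintro ⟨h1, h2⟩; constructor <;> omega))]
        have := a2 z hz (-k) (by omega)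
        have e : ((-z - k : ℤ)) = -k - z := by ring
        rw [e]; exact this)
      (by
        intro z' hz' k hk
        obtain ⟨y, hy, rfl⟩ := Finset.mem_image.1 hz'
        rw [Ib_card_filter Z (fun y' => -y < y' ∧ y' ≤ k) (fun z => -k ≤ z ∧ z < y)
          (by intro s _; constructor <;> (rintro ⟨h1, h2⟩; constructor <;> omega))]
        have := a1 y hy (-k) (by omega)
        have e : ((k - -y : ℤ)) = y - -k := by ring
        rw [e]; exact this)
      (by
        intro z' hz'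
        obtain ⟨y, hy, rfl⟩ := Finset.mem_image.1 hz'
        have := hp y hy
        omega)
    rw [Finset.card_image_of_injective _ neg_injective,
      Finset.card_image_of_injective _ neg_injective] at key
    linarith
  · right
    push Not at hq hp
    exact ⟨hq, hp⟩

end Pool.Agent.Lib.TourE
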