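import Pool.Agent.Lib.TourE.Ga
import Pool.Agent.Lib.TourE.Ib

/-!
# Gb: no gap between layers (about 150 lines)

`n = |V|`, `M = n - ℓ D`, `p = a D`, `q = b D`.  Elements of `Sg pos ℓ D a` have positions in
`[a D, n - (ℓ-a) D) = [p, p + M)`.  `Z₁`, `Y₁` = the sets of the positions (as integers) of the
vertices of `Z`, `Y` (`pos` is injective: the same cardinalities, also for filtered subsets).
`int_gap` with the real number `D` (`q - p = (b-a) D ≥ D`): (a1) for `y ∈ Y` and an integer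
`k ≤ pos y`: with `k' = max k 0`, `seg_back` (`E = D/16`) gives at most
`(pos y - k')/2 + D/16 ≤ (pos y - k)/2 + D/16` (positions are `≥ 0`).  (a2) for `z ∈ Z`,
`k ≥ pos z`: with `k' = min k (n-1)`, `seg_forw`.
First alternative: done.  Second alternative: some `z ∈ Z` has `pos z < b D`, some `y ∈ Y` has
`a D + M ≤ pos y`.  Let `z₀ ∈ Z` have minimal, `y₀ ∈ Y` maximal position: `pos z₀ < b D ≤ pos y` for
all `y ∈ Y`, `pos z < a D + M ≤ pos y₀` for all `z ∈ Z`.  `gap_mid` with `E = D/16`,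
`B = ℓ D + D/4` (`1600 E = 100 D ≤ n`, `100 (B + E) = 100 (ℓ D + 5 D/16) ≤ 100 (ℓ+1) D ≤ n`,
`n ≥ 1600`).
-/

namespace Pool.Agent.Lib.TourE

open Finset
open Pool.Agent.Lib.RobT (IsTour Arc eN Nb RT)

open Classical in
theorem gap {V : Type} [Fintype V] {R : V → V → Prop} {pos : V → ℕ} (hR : IsTour R)
    (hM : Med R pos) (ℓ D : ℕ) (hD : 16 ≤ D) (hDN : 100 * (ℓ + 1) * D ≤ Fintype.card V)
    (a b : ℕ) (hab : a < b) (hb : b ≤ ℓ) (Z Y : Finset V) (hZ : Z ⊆ Sg pos ℓ D a)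
    (hY : Y ⊆ Sg pos ℓ D b) (hZn : Z.Nonempty) (hYn : Y.Nonempty)
    (h1 : ∀ z ∈ Z, ((Y.filter fun y => R z y).card : ℝ) ≤ D / 16)
    (h2 : ∀ y ∈ Y, ((Z.filter fun z => R z y).card : ℝ) ≤ D / 16) :
    (Z.card : ℝ) + Y.card ≤ Fintype.card V - ℓ * D - D / 4 := by
  have hn : (100 : ℝ) * (ℓ + 1) * D ≤ Fintype.card V := by exact_mod_cast hDN
  have hD' : (16 : ℝ) ≤ D := by exact_mod_cast hD
  have hl0 : (0 : ℝ) ≤ ℓ := Nat.cast_nonneg _
  have hlD : (0 : ℝ) ≤ (ℓ : ℝ) * D := by positivity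
  have hpos : ∀ (c : ℕ), c ≤ ℓ → ∀ v ∈ Sg pos ℓ D c, ((c * D : ℕ) : ℤ) ≤ (pos v : ℤ) ∧
      (pos v : ℤ) < ((c * D : ℕ) : ℤ) + ((Fintype.card V : ℤ) - (ℓ * D : ℕ)) := by
    intro c hc v hv
    obtain ⟨_, h3, h4⟩ := Finset.mem_filter.1 hv
    refine ⟨by exact_mod_cast h3, ?_⟩
    have h5 : (ℓ - c) * D + c * D = ℓ * D := by
      rw [← Nat.add_mul, Nat.sub_add_cancel hc]
    have h6 : ((ℓ - c) * D : ℕ) + (c * D : ℕ) = (ℓ * D : ℕ) := h5
    omega
  have hcZ : (Z.image fun v => (pos v : ℤ)).card = Z.card :=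
    Finset.card_image_of_injective _ fun u v huv => hM.inj (by exact_mod_cast huv)
  have hcY : (Y.image fun v => (pos v : ℤ)).card = Y.card :=
    Finset.card_image_of_injective _ fun u v huv => hM.inj (by exact_mod_cast huv)
  have hal : a ≤ ℓ := (le_of_lt hab).trans hb
  have hZ1 : ∀ z ∈ Z.image fun v => (pos v : ℤ), ((a * D : ℕ) : ℤ) ≤ z ∧
      z < ((a * D : ℕ) : ℤ) + ((Fintype.card V : ℤ) - (ℓ * D : ℕ)) := by
    intro z hz
    obtain ⟨v, hv, rfl⟩ := Finset.mem_image.1 hz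
    exact hpos a hal v (hZ hv)
  have hY1 : ∀ y ∈ Y.image fun v => (pos v : ℤ), ((b * D : ℕ) : ℤ) ≤ y ∧
      y < ((b * D : ℕ) : ℤ) + ((Fintype.card V : ℤ) - (ℓ * D : ℕ)) := by
    intro y hy
    obtain ⟨v, hv, rfl⟩ := Finset.mem_image.1 hy
    exact hpos b hb v (hY hv)
  have hpq : (D : ℝ) ≤ ((((b * D : ℕ) : ℤ) - ((a * D : ℕ) : ℤ) : ℤ) : ℝ) := by
    have h3 : a * D + D ≤ b * D := by
      calc a * D + D = (a + 1) * D := by ring
        _ ≤ b * D := Nat.mul_le_mul_right _ hab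
    have h4 : ((a * D : ℕ) : ℝ) + D ≤ ((b * D : ℕ) : ℝ) := by exact_mod_cast h3
    push_cast at h4 ⊢
    linarith
  have key1 : ∀ y ∈ Y.image fun v => (pos v : ℤ), ∀ k, k ≤ y →
      ((((Z.image fun v => (pos v : ℤ)).filter fun z => k ≤ z ∧ z < y).card : ℕ) : ℝ) ≤
        ((y - k : ℤ) : ℝ) / 2 + D / 16 := by
    intro y hy k hk
    obtain ⟨v, hv, rfl⟩ := Finset.mem_image.1 hy
    have hs : ((Z.image fun v => (pos v : ℤ)).filter fun z => k ≤ z ∧ z < (pos v : ℤ)) ⊆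
        (Z.filter fun z => k.toNat ≤ pos z ∧ pos z < pos v).image fun v => (pos v : ℤ) := by
      intro z hz
      obtain ⟨hz1, hz2, hz3⟩ := Finset.mem_filter.1 hz
      obtain ⟨w, hw, rfl⟩ := Finset.mem_image.1 hz1
      refine Finset.mem_image.2 ⟨w, Finset.mem_filter.2 ⟨hw, ?_, ?_⟩, rfl⟩
      · exact Int.toNat_le.2 hz2
      · exact_mod_cast hz3
    have h3 := (Finset.card_le_card hs).trans Finset.card_image_le
    have h4 := seg_back hM Z v (D / 16) (h2 v hv) k.toNat (Int.toNat_le.2 hk)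
    have h5 : (k : ℝ) ≤ (k.toNat : ℝ) := by exact_mod_cast Int.self_le_toNat k
    have h6 := (Nat.cast_le (α := ℝ)).2 h3
    push_cast
    linarith
  have key2 : ∀ z ∈ Z.image fun v => (pos v : ℤ), ∀ k, z ≤ k →
      ((((Y.image fun v => (pos v : ℤ)).filter fun y => z < y ∧ y ≤ k).card : ℕ) : ℝ) ≤
        ((k - z : ℤ) : ℝ) / 2 + D / 16 := by
    intro z hz k hk
    obtain ⟨v, hv, rfl⟩ := Finset.mem_image.1 hz
    have hlt := hM.lt v
    have hk0 : (pos v : ℤ) ≤ k := hk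
    have hmk : pos v ≤ min k.toNat (Fintype.card V - 1) := by
      refine le_min ?_ (by omega)
      omega
    have hs : ((Y.image fun v => (pos v : ℤ)).filter fun y => (pos v : ℤ) < y ∧ y ≤ k) ⊆
        (Y.filter fun y => pos v < pos y ∧ pos y ≤ min k.toNat (Fintype.card V - 1)).image
          fun v => (pos v : ℤ) := by
      intro y hy
      obtain ⟨hy1, hy2, hy3⟩ := Finset.mem_filter.1 hy
      obtain ⟨w, hw, rfl⟩ := Finset.mem_image.1 hy1
      have hw2 := hM.lt w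
      refine Finset.mem_image.2 ⟨w, Finset.mem_filter.2 ⟨hw, ?_, ?_⟩, rfl⟩
      · exact_mod_cast hy2
      · refine le_min ?_ (by omega)
        omega
    have h3 := (Finset.card_le_card hs).trans Finset.card_image_le
    have h4 := seg_forw hM Y v (D / 16) (h1 v hv) (min k.toNat (Fintype.card V - 1)) hmk
      (lt_of_le_of_lt (min_le_right _ _) (by omega))
    have h5 : ((min k.toNat (Fintype.card V - 1) : ℕ) : ℝ) ≤ (k : ℝ) := by
      have h7 : ((min k.toNat (Fintype.card V - 1) : ℕ) : ℤ) ≤ k := by omega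
      exact_mod_cast h7
    have h6 := (Nat.cast_le (α := ℝ)).2 h3
    push_cast at h4 h5 h6 ⊢
    linarith
  rcases int_gap (Z.image fun v => (pos v : ℤ)) (Y.image fun v => (pos v : ℤ))
    ((a * D : ℕ) : ℤ) ((b * D : ℕ) : ℤ) ((Fintype.card V : ℤ) - (ℓ * D : ℕ)) D hD' hpq hZ1 hY1
    (hZn.image _) (hYn.image _) key1 key2 with h3 | ⟨⟨z1, hz1, hz1'⟩, ⟨y1, hy1, hy1'⟩⟩
  · rw [hcZ, hcY] at h3
    push_cast at h3
    linarith
  · obtain ⟨z₀, hz₀, hz₀'⟩ := Finset.exists_min_image Z pos hZn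
    obtain ⟨y₀, hy₀, hy₀'⟩ := Finset.exists_max_image Y pos hYn
    obtain ⟨z2, hz2, rfl⟩ := Finset.mem_image.1 hz1
    obtain ⟨y2, hy2, rfl⟩ := Finset.mem_image.1 hy1
    have h4 := gap_mid hR hM Z Y (D / 16) (ℓ * D + D / 4) (by positivity) (by positivity) ?_ ?_ ?_
      z₀ y₀ hz₀ hy₀ ?_ ?_ h1 h2
    · linarith
    · have h5 : 100 * (1 + 1) * 16 ≤ 100 * (ℓ + 1) * D :=
        Nat.mul_le_mul (Nat.mul_le_mul_left _ (by omega)) hD
      omega
    · nlinarith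
    · nlinarith
    · intro z hz
      refine ⟨hz₀' z hz, ?_⟩
      have h5 := (hpos a hal z (hZ hz)).2
      have h6 := hy₀' y2 hy2
      omega
    · intro y hy
      refine ⟨?_, hy₀' y hy⟩
      have h5 := (hpos b hb y (hY hy)).1
      have h6 := hz₀' z2 hz2
      omega

end Pool.Agent.Lib.TourE
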