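import Pool.Agent.Lib.TourE.Xp

/-!
# Gc: connecting two vertices by a path with given types (about 180 lines)

`τ = 4 δ`, `β = δ * δ` (`β ≤ δ * δ`, `2 β ≤ δ τ`), `l = ⌈1/δ⌉ + 3`, `ε = β/2`, `n₀ ≥ 2 (l + 3)/β`,
`n₀ ≥ 1`.
`X₁ = {w ∈ S (b 1) | Arc R (decide (b 0 < b 1)) u w}`, `|X₁| ≥ 4 δ n` (`Lay.deg`);
`X_{i+1} = Xp R S β (b i) (b (i+1)) X_i` (`i ≥ 1`); by `expand`, `|X_i| ≥ 4 δ n + (i-1) δ n` or
`X_i = S (b i)`; the latter is preserved (`|S (b i)|` are all equal).  So `X_{l-1} = S (b (l-1))`
(`(l-2) δ n ≥ n`).
`Lay.deg` for `v ∈ S (b l)` and the layer `b (l-1)`: at least `4 δ n` vertices `w ∈ S (b (l-1))`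
have
`Arc R (decide (b l < b (l-1))) v w`, which is `Arc R (decide (b (l-1) < b l)) w v`
(`b l ≠ b (l-1)`).  Choose `z (l-1)` among them, outside `Z ∪ {u, v}`; for `i = l-2, …, 1` choose
`z i ∈ X_i` with `Arc R (decide (b i < b (i+1))) (z i) (z (i+1))` (at least `β n` candidates as
`z (i+1) ∈ X_{i+1}`), outside `Z`, different from `u, v, z (i+1), …, z (l-1)`
(`ε n + l + 2 < β n ≤ 4 δ n`).  `z 0 = u`, `z l = v`; `z 1 ∈ X₁` gives the first arc.
Compare RobT/Gc.lean.
-/

namespace Pool.Agent.Lib.TourE

open Finset
open Pool.Agent.Lib.RobT (IsTour Arc eN Nb RT)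

/-- Any two vertices can be connected by a path of length `l` with given types, avoiding a given
set of at most `ε |V|` vertices. -/
def ConE {V : Type} [Fintype V] (l : ℕ) (ε : ℝ) (R : V → V → Prop) (ℓ : ℕ)
    (S : ℕ → Finset V) : Prop :=
  ∀ (b : ℕ → ℕ) (u v : V), (∀ i, i ≤ l → b i ≤ ℓ) → (∀ i, i < l → b i ≠ b (i + 1)) →
    u ∈ S (b 0) → v ∈ S (b l) → u ≠ v → ∀ Z : Finset V, (Z.card : ℝ) ≤ ε * Fintype.card V →
    ∃ z : ℕ → V, z 0 = u ∧ z l = v ∧
      (∀ i, i < l → Arc R (decide (b i < b (i + 1))) (z i) (z (i + 1))) ∧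
      (∀ i, i ≤ l → z i ∈ S (b i)) ∧
      (∀ i, 0 < i → i < l → z i ∉ Z ∧ z i ≠ u ∧ z i ≠ v) ∧ Set.InjOn z (Set.Iic l)

open Classical in
/-- The sets of possible positions. -/
private noncomputable def XS {V : Type} [Fintype V] (R : V → V → Prop) (S : ℕ → Finset V)
    (β : ℝ) (b : ℕ → ℕ) (u : V) : ℕ → Finset V
  | 0 => (S (b 1)).filter fun w => Arc R (decide (b 0 < b 1)) u w
  | i + 1 => Xp R S β (b (i + 1)) (b (i + 2)) (XS R S β b u i)

private lemma XS_sub {V : Type} [Fintype V] (R : V → V → Prop) (S : ℕ → Finset V)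
    (β : ℝ) (b : ℕ → ℕ) (u : V) (i : ℕ) : XS R S β b u i ⊆ S (b (i + 1)) := by
  classical
  cases i with
  | zero =>
    rw [XS]
    exact Finset.filter_subset _ _
  | succ i =>
    rw [XS, Xp]
    exact Finset.filter_subset _ _

open Classical in
private lemma chain {V : Type} [Fintype V] (R : V → V → Prop) (S : ℕ → Finset V) (β : ℝ)
    (b : ℕ → ℕ) (u : V) (hu : u ∈ S (b 0)) :
    ∀ (j : ℕ) (t : V) (F : Finset V), t ∈ XS R S β b u j → t ≠ u → u ∈ F → t ∈ F →
      (F.card : ℝ) + j < β * Fintype.card V →
      ∃ z : ℕ → V, z 0 = u ∧ z (j + 1) = t ∧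
        (∀ i < j + 1, Arc R (decide (b i < b (i + 1))) (z i) (z (i + 1))) ∧
        (∀ i, i ≤ j + 1 → z i ∈ S (b i)) ∧
        (∀ i, 0 < i → i < j + 1 → z i ∉ F) ∧ Set.InjOn z (Set.Iic (j + 1)) := by
  intro j
  induction j with
  | zero =>
    intro t F ht htu huF htF hc
    have htS := XS_sub R S β b u 0 ht
    refine ⟨fun i => if i = 0 then u else t, by simp, by simp, ?_, ?_, ?_, ?_⟩
    · intro i hi
      have hi0 : i = 0 := by omega
      subst hi0
      rw [XS, Finset.mem_filter] at ht
      simpa using ht.2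
    · intro i hi
      rcases Nat.eq_zero_or_pos i with h0 | h0
      · subst h0
        simpa using hu
      · have : i = 1 := by omega
        subst this
        simpa using htS
    · intro i h0 h1
      omega
    · intro a ha b hb hab
      simp only [Set.mem_Iic] at ha hb
      simp only at hab
      by_cases h1 : a = 0
      · by_cases h2 : b = 0
        · omega
        · rw [if_pos h1, if_neg h2] at hab
          exact absurd hab.symm htu
      · by_cases h2 : b = 0
        · rw [if_neg h1, if_pos h2] at hab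
          exact absurd hab htu
        · omega
  | succ j ih =>
    intro t F ht htu huF htF hc
    have htS := XS_sub R S β b u (j + 1) ht
    have h1 : β * (Fintype.card V : ℝ) ≤
        (((XS R S β b u j).filter fun x => Arc R (decide (b (j + 1) < b (j + 2))) x t).card : ℝ) := by
      have := ht
      rw [XS, Xp, mem_filter] at this
      refine le_trans this.2 (le_of_eq ?_)
      congr!
    push_cast at hc
    have hj0 : (0 : ℝ) ≤ j := Nat.cast_nonneg j
    have h2 : F.card <
        ((XS R S β b u j).filter fun x => Arc R (decide (b (j + 1) < b (j + 2))) x t).card := by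
      have h3 : (F.card : ℝ) <
          (((XS R S β b u j).filter fun x =>
            Arc R (decide (b (j + 1) < b (j + 2))) x t).card : ℝ) := by
        linarith
      exact_mod_cast h3
    obtain ⟨x, hx, hxF⟩ := Finset.exists_mem_notMem_of_card_lt_card h2
    rw [mem_filter] at hx
    have hxu : x ≠ u := fun h => hxF (h ▸ huF)
    have hxt : x ≠ t := fun h => hxF (h ▸ htF)
    obtain ⟨z, z0, z1, z2, z5, z3, z4⟩ := ih x (insert x F) hx.1 hxu (mem_insert_of_mem huF)
      (mem_insert_self x F) (by rw [card_insert_of_notMem hxF]; push_cast; linarith)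
    have hz : ∀ i, i < j + 2 → Function.update z (j + 2) t i = z i := by
      intro i hi
      rw [Function.update_of_ne (by omega)]
    have hzl : Function.update z (j + 2) t (j + 2) = t := by
      rw [Function.update_self]
    have hmid : ∀ i, 0 < i → i < j + 2 → z i ∉ F := by
      intro i h0 h1
      rcases Nat.lt_or_ge i (j + 1) with h | h
      · exact fun hF => z3 i h0 h (mem_insert_of_mem hF)
      · have : i = j + 1 := by omega
        subst this
        rw [z1]
        exact hxF
    have hnt : ∀ i, i < j + 2 → z i ≠ t := by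
      intro i hi he
      rcases Nat.eq_zero_or_pos i with h0 | h0
      · rw [h0, z0] at he
        exact htu he.symm
      · exact hmid i h0 hi (he ▸ htF)
    refine ⟨Function.update z (j + 2) t, ?_, ?_, ?_, ?_, ?_, ?_⟩
    · rw [hz 0 (by omega), z0]
    · exact hzl
    · intro i hi
      rcases Nat.lt_or_ge i (j + 1) with h | h
      · rw [hz i (by omega), hz (i + 1) (by omega)]
        exact z2 i h
      · have : i = j + 1 := by omega
        subst this
        rw [hz (j + 1) (by omega), z1]
        have e : j + 1 + 1 = j + 2 := rfl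
        rw [e, hzl]
        exact hx.2
    · intro i hi
      rcases Nat.lt_or_ge i (j + 2) with h | h
      · rw [hz i h]
        exact z5 i (by omega)
      · have : i = j + 2 := by omega
        subst this
        rw [hzl]
        exact htS
    · intro i h0 h1
      rw [hz i (by omega)]
      exact hmid i h0 (by omega)
    · intro a ha b hb hab
      simp only [Set.mem_Iic] at ha hb
      rcases Nat.lt_or_ge a (j + 2) with h | h
      · rcases Nat.lt_or_ge b (j + 2) with h' | h'
        · rw [hz a h, hz b h'] at hab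
          exact z4 (by simp only [Set.mem_Iic]; omega) (by simp only [Set.mem_Iic]; omega) hab
        · have hb' : b = j + 2 := by omega
          subst hb'
          rw [hz a h, hzl] at hab
          exact absurd hab (hnt a h)
      · have ha' : a = j + 2 := by omega
        rcases Nat.lt_or_ge b (j + 2) with h' | h'
        · subst ha'
          rw [hz b h', hzl] at hab
          exact absurd hab.symm (hnt b h')
        · omega

private lemma arc_flip {V : Type} {R : V → V → Prop} {a b : ℕ} (hab : a ≠ b) {v w : V}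
    (h : Arc R (decide (b < a)) v w) : Arc R (decide (a < b)) w v := by
  rcases Nat.lt_or_gt_of_ne hab with h1 | h1
  · have e1 : decide (b < a) = false := decide_eq_false (by omega)
    have e2 : decide (a < b) = true := decide_eq_true h1
    rw [e1] at h
    rw [e2]
    rcases h with h | h
    · exact absurd h.1 (by decide)
    · exact Or.inl ⟨rfl, h.2⟩
  · have e1 : decide (b < a) = true := decide_eq_true h1
    have e2 : decide (a < b) = false := decide_eq_false (by omega)
    rw [e1] at h
    rw [e2]
    rcases h with h | h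
    · exact Or.inr ⟨rfl, h.2⟩
    · exact absurd h.1 (by decide)

theorem connect (δ : ℝ) (hδ : 0 < δ) (hδ1 : δ ≤ 1) :
    ∃ (l : ℕ) (ε : ℝ) (n₀ : ℕ), 2 ≤ l ∧ 0 < ε ∧ ∀ (V : Type) [Fintype V] [DecidableEq V]
      (R : V → V → Prop) (ℓ : ℕ) (η : ℝ) (S : ℕ → Finset V) (K : Finset V) (r : V),
      n₀ ≤ Fintype.card V → IsTour R → Lay R ℓ δ η S K r → ConE l ε R ℓ S := by
  classical
  have hβ : 0 < δ * δ := mul_pos hδ hδ
  obtain ⟨m, hm⟩ := exists_nat_ge (1 / δ)
  have hmδ : 1 ≤ m * δ := by
    rw [div_le_iff₀ hδ] at hm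
    exact hm
  obtain ⟨n₂, hn₂⟩ := exists_nat_gt ((2 * ((m : ℝ) + 3)) / (δ * δ))
  refine ⟨m + 2, δ * δ / 2, max 1 n₂, by omega, by positivity, ?_⟩
  intro V _ _ R ℓ η S K r hn hT hL
  have hn1 : 1 ≤ Fintype.card V := le_trans (le_max_left _ _) hn
  have hn4 : n₂ ≤ Fintype.card V := le_trans (le_max_right _ _) hn
  have hn0' : (0 : ℝ) < Fintype.card V := by exact_mod_cast hn1
  have hn4' : (n₂ : ℝ) ≤ Fintype.card V := by exact_mod_cast hn4
  have hbig : 2 * ((m : ℝ) + 3) < δ * δ * Fintype.card V := by
    have h1 : (2 * ((m : ℝ) + 3)) / (δ * δ) < Fintype.card V := lt_of_lt_of_le hn₂ hn4'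
    rw [div_lt_iff₀ hβ] at h1
    linarith
  intro b u v hb hne hu hv huv Z hZ
  have hδn : 0 < δ * (Fintype.card V : ℝ) := mul_pos hδ hn0'
  have hgrow : ∀ i : ℕ, i ≤ m → 4 * δ * Fintype.card V + i * (δ * Fintype.card V) ≤
      ((XS R S (δ * δ) b u i).card : ℝ) ∨ XS R S (δ * δ) b u i = S (b (i + 1)) := by
    intro i
    induction i with
    | zero =>
      intro _
      left
      have h1 := hL.deg (b 0) (b 1) (hb 0 (by omega)) (hb 1 (by omega)) (hne 0 (by omega)) u hu
      rw [XS]
      push_cast
      rw [zero_mul, add_zero]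
      refine le_trans h1 (le_of_eq ?_)
      congr!
    | succ i ih =>
      intro hi
      have hlo : 4 * δ * Fintype.card V ≤ ((XS R S (δ * δ) b u i).card : ℝ) := by
        rcases ih (by omega) with h | h
        · have : 0 ≤ (i : ℝ) * (δ * Fintype.card V) := by positivity
          linarith
        · rw [h]
          have h1 := hL.deg (b i) (b (i + 1)) (hb i (by omega)) (hb (i + 1) (by omega))
            (hne i (by omega))
          have h2 : (S (b i)).Nonempty := by
            rcases Nat.eq_zero_or_pos i with h0 | h0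
            · subst h0
              exact ⟨u, hu⟩
            · rw [← Finset.card_pos, hL.eqc _ (hb i (by omega)), ← hL.eqc _ (hb 0 (by omega)),
                Finset.card_pos]
              exact ⟨u, hu⟩
          obtain ⟨y, hy⟩ := h2
          refine le_trans (h1 y hy) ?_
          exact_mod_cast Finset.card_le_card (Finset.filter_subset _ _)
      have h2 := expand hL hδ hδ1 hn1 (β := δ * δ) (τ := 4 * δ) (by positivity) hβ le_rfl
        (by nlinarith) (b (i + 1)) (b (i + 2)) (hb (i + 1) (by omega)) (hb (i + 2) (by omega))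
        (hne (i + 1) (by omega)) (XS R S (δ * δ) b u i) (XS_sub R S (δ * δ) b u i) hlo
      rw [XS]
      rcases h2 with h2 | h2
      · rcases ih (by omega) with h | h
        · left
          push_cast
          linarith
        · exfalso
          rw [h] at h2
          have h3 : (Xp R S (δ * δ) (b (i + 1)) (b (i + 2)) (S (b (i + 1)))).card ≤
              (S (b (i + 2))).card := by
            unfold Xp
            exact Finset.card_le_card (Finset.filter_subset _ _)
          rw [hL.eqc _ (hb (i + 2) (by omega)), ← hL.eqc _ (hb (i + 1) (by omega))] at h3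
          have h4 : ((Xp R S (δ * δ) (b (i + 1)) (b (i + 2)) (S (b (i + 1)))).card : ℝ) ≤
            (S (b (i + 1))).card := by exact_mod_cast h3
          linarith
      · right
        exact h2
  have hfull : XS R S (δ * δ) b u m = S (b (m + 1)) := by
    rcases hgrow m le_rfl with h | h
    · exfalso
      have h1 : ((XS R S (δ * δ) b u m).card : ℝ) ≤ Fintype.card V := by
        exact_mod_cast Finset.card_le_univ _
      have h2 : (1 : ℝ) * Fintype.card V ≤ m * δ * Fintype.card V := by gcongr
      nlinarith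
    · exact h
  have hvX : v ∈ XS R S (δ * δ) b u (m + 1) := by
    rw [XS, hfull, Xp, Finset.mem_filter]
    refine ⟨hv, ?_⟩
    have h1 := hL.deg (b (m + 2)) (b (m + 1)) (hb (m + 2) (by omega)) (hb (m + 1) (by omega))
      (fun h => hne (m + 1) (by omega) h.symm) v hv
    have h2 : δ * δ * (Fintype.card V : ℝ) ≤ 4 * δ * Fintype.card V := by
      have : δ * δ ≤ 4 * δ := by nlinarith
      gcongr
    refine le_trans h2 (le_trans h1 ?_)
    have h3 : ∀ w ∈ (S (b (m + 1))), Arc R (decide (b (m + 2) < b (m + 1))) v w →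
        Arc R (decide (b (m + 1) < b (m + 2))) w v := by
      intro w _ hw
      exact arc_flip (hne (m + 1) (by omega)) hw
    have h4 : ((S (b (m + 1))).filter fun w => Arc R (decide (b (m + 2) < b (m + 1))) v w).card ≤
        ((S (b (m + 1))).filter fun w => Arc R (decide (b (m + 1) < b (m + 2))) w v).card := by
      apply Finset.card_le_card
      intro w hw
      rw [Finset.mem_filter] at hw ⊢
      exact ⟨hw.1, h3 w hw.1 hw.2⟩
    have h5 : (((S (b (m + 1))).filter fun w =>
        Arc R (decide (b (m + 2) < b (m + 1))) v w).card : ℝ) ≤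
        (((S (b (m + 1))).filter fun w =>
          Arc R (decide (b (m + 1) < b (m + 2))) w v).card : ℝ) := by
      exact_mod_cast h4
    refine le_trans (le_of_eq ?_) (le_trans h5 (le_of_eq ?_))
    · congr!
    · congr!
  obtain ⟨z, z0, z1, z2, z5, z3, z4⟩ := chain R S (δ * δ) b u hu (m + 1) v
    (insert u (insert v Z)) hvX huv.symm (mem_insert_self _ _)
    (mem_insert_of_mem (mem_insert_self _ _)) (by
      have h1 : ((insert u (insert v Z)).card : ℝ) ≤ Z.card + 2 := by
        have h2 := card_insert_le u (insert v Z)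
        have h3 := card_insert_le v Z
        have h4 : (insert u (insert v Z)).card ≤ Z.card + 2 := by omega
        exact_mod_cast h4
      push_cast
      linarith)
  refine ⟨z, z0, z1, z2, z5, ?_, z4⟩
  intro i h0 hi
  have h1 := z3 i h0 hi
  rw [mem_insert, mem_insert, not_or, not_or] at h1
  exact ⟨h1.2.2, h1.1, h1.2.1⟩

end Pool.Agent.Lib.TourE
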