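import Pool.Agent.Lib.RobT.Gt

/-!
# Gk: connectors exist in every tournament (about 220 lines)

We may assume `β ≤ 1`.  `ε = β/200`, `n₀` large (in terms of `β`, `T`).  `n = |V|`.
`S₁ = (S ∩ K) \ Z`, `|S₁| ≥ β n - β n/4 - ε n ≥ β n/2`.  `tour_deg` (RobT.Ga, direction `false`:
`Arc R false v x ↔ R x v`): `y₀ ∈ S₁` with at least `(|S₁| - 1)/2` inneighbours in `S₁`.
`S₁' = (S' ∩ K) \ (Z ∪ {y₀})`, the same: `y₂ ∈ S₁'`.
`A` = the inneighbours of `y₀` in `S₁`, without `y₂`; `A'` = the inneighbours of `y₂` in `S₁'`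
(`y₀ ∉ A` as `R` is irreflexive; `y₂ ∉ A'`, `y₀ ∉ A'`).  `|A|, |A'| ≥ β n/5`.
`H` = the `w ∈ A` with at least `|A|/8` inneighbours in `A`, `|H| ≥ |A|/3` (as in RobT/Gt.lean:
the sum of the indegrees inside `A` is `|A| (|A|-1)/2`; vertices outside `H` contribute at most
`|A|/8`
each).  `H' ⊆ A'` the same.
CLAIM: there is `y₁ ∈ A ∪ A'` with at least `β n/100` inneighbours in `A` and at least `β n/100` in
`A'`.  For each `(w, w') ∈ H × H'` with `w ≠ w'` one of `R w w'`, `R w' w` holds; so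
`∑_{w' ∈ H'} #{w ∈ H | R w w'} + ∑_{w ∈ H} #{w' ∈ H' | R w' w} ≥ |H| |H'| - |H|`
(`|H|, |H'| ≥ β n/15 ≥ 3`).  If the first sum is at least half of this, some `w' ∈ H'` has at least
`(|H| - |H|/|H'|)/2 ≥ |H|/3 ≥ β n/45` inneighbours in `H ⊆ A`, and it has at least `|A'|/8 ≥ β n/40`
inneighbours in `A'` (it is in `H'`).  Otherwise some `w ∈ H` has at least
`(|H'| - 1)/2 ≥ |H'|/3 ≥ β n/45` inneighbours in `H' ⊆ A'`, and at least `|A|/8` in `A`.
`y₁ ≠ y₀, y₂`, `y₁ ∉ Z`.  Choose `F 0 0, …, F 0 (T-1)` among the inneighbours of `y₁` in `A` (they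
are common inneighbours of `y₀` and `y₁`), then `F 1 0, …` among the inneighbours of `y₁` in `A'`,
pairwise distinct and different from `y₀, y₁, y₂`: there are at least `β n/100 ≥ 2 T + 3`
candidates.
All `F i t` are in `K \ Z`.  `y = ![y₀, y₁, y₂]`.
-/

namespace Pool.Agent.Lib.TourE

open Finset
open Pool.Agent.Lib.RobT (IsTour Arc eN Nb RT Sx)

private theorem fin_inj {V : Type} (B : Finset V) (T : ℕ) (h : T ≤ B.card) :
    ∃ f : Fin T → V, Function.Injective f ∧ ∀ t, f t ∈ B := by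
  refine ⟨fun t => (B.equivFin.symm (Fin.castLE h t)).1, ?_, fun t => ?_⟩
  · intro a b hab
    have h1 := B.equivFin.symm.injective (Subtype.ext hab)
    exact Fin.castLE_injective h h1
  · exact (B.equivFin.symm (Fin.castLE h t)).2

open Classical in
private theorem sum_deg {V : Type} {R : V → V → Prop} (hR : IsTour R) (A : Finset V) :
    (A.card : ℝ) * ((A.card : ℝ) - 1) / 2 ≤ ∑ w ∈ A, ((A.filter fun x => R x w).card : ℝ) := by
  have h2 : ∀ w, ((A.filter fun x => R x w).card : ℝ) =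
      ∑ x ∈ A, if R x w then (1 : ℝ) else 0 := by
    intro v
    rw [Finset.sum_boole]
  have h3 : ∑ v ∈ A, ∑ x ∈ A, (if R x v then (1 : ℝ) else 0) =
      ∑ v ∈ A, ∑ x ∈ A, (if R v x then (1 : ℝ) else 0) := Finset.sum_comm
  have h4 : ∑ v ∈ A, ((A.card : ℝ) - 1) ≤
      ∑ v ∈ A, ∑ x ∈ A, ((if R x v then (1 : ℝ) else 0) + (if R v x then (1 : ℝ) else 0)) := by
    apply Finset.sum_le_sum
    intro v hv
    have h5 : ((A.card : ℝ) - 1) = ∑ x ∈ A.erase v, (1 : ℝ) := by
      rw [Finset.sum_const, nsmul_eq_mul, mul_one, Finset.card_erase_of_mem hv, Nat.cast_sub]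
      · simp
      · exact Finset.card_pos.2 ⟨v, hv⟩
    rw [h5]
    refine (Finset.sum_le_sum fun x hx => ?_).trans
      (Finset.sum_le_sum_of_subset_of_nonneg (Finset.erase_subset v A) fun x _ _ => ?_)
    · rcases hR.tot x v (Finset.ne_of_mem_erase hx) with h | h
      · rw [if_pos h]
        split_ifs <;> norm_num
      · rw [if_pos h]
        split_ifs <;> norm_num
    · split_ifs <;> norm_num
  simp only [Finset.sum_add_distrib] at h4
  rw [← h3] at h4
  simp only [h2]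
  rw [Finset.sum_const, nsmul_eq_mul] at h4
  linarith

open Classical in
private theorem many {V : Type} {R : V → V → Prop} (hR : IsTour R) (A : Finset V)
    (hA : (13 : ℝ) ≤ A.card) :
    (A.card : ℝ) / 3 ≤
      ((A.filter fun w => (A.card : ℝ) / 8 ≤ ((A.filter fun x => R x w).card : ℝ)).card : ℝ) := by
  set b : ℝ := (A.card : ℝ) with hb
  set H : Finset V := A.filter fun w => b / 8 ≤ ((A.filter fun x => R x w).card : ℝ) with hH
  have h1 := sum_deg hR A
  have h2 : ∑ w ∈ A, ((A.filter fun x => R x w).card : ℝ) ≤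
      ∑ w ∈ A, ((if w ∈ H then 7 / 8 * b else 0) + b / 8) := by
    apply Finset.sum_le_sum
    intro w hw
    by_cases hwH : w ∈ H
    · rw [if_pos hwH]
      have : ((A.filter fun x => R x w).card : ℝ) ≤ b := by
        rw [hb]
        exact_mod_cast Finset.card_filter_le _ _
      linarith
    · rw [if_neg hwH]
      rw [hH, Finset.mem_filter] at hwH
      push Not at hwH
      have := hwH hw
      linarith
  rw [Finset.sum_add_distrib, Finset.sum_const, nsmul_eq_mul, ← Finset.sum_filter,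
    Finset.sum_const, nsmul_eq_mul] at h2
  have h3 : (A.filter fun w => w ∈ H) = H := by
    rw [Finset.filter_mem_eq_inter, Finset.inter_eq_right]
    exact Finset.filter_subset _ _
  rw [h3] at h2
  rw [← hb] at h1 h2
  by_contra hcon
  push Not at hcon
  nlinarith

open Classical in
private theorem cross {V : Type} {R : V → V → Prop} (hR : IsTour R) (H H' : Finset V) :
    (H.card : ℝ) * H'.card - H.card ≤
      ∑ w' ∈ H', ((H.filter fun w => R w w').card : ℝ) +
        ∑ w ∈ H, ((H'.filter fun w' => R w' w).card : ℝ) := by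
  have h1 : ∀ w', ((H.filter fun w => R w w').card : ℝ) =
      ∑ w ∈ H, if R w w' then (1 : ℝ) else 0 := by
    intro v
    rw [Finset.sum_boole]
  have h2 : ∀ w, ((H'.filter fun w' => R w' w).card : ℝ) =
      ∑ w' ∈ H', if R w' w then (1 : ℝ) else 0 := by
    intro v
    rw [Finset.sum_boole]
  simp only [h1, h2]
  rw [Finset.sum_comm, ← Finset.sum_add_distrib]
  have h3 : (H.card : ℝ) * H'.card - H.card = ∑ w ∈ H, ((H'.card : ℝ) - 1) := by
    rw [Finset.sum_const, nsmul_eq_mul]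
    ring
  rw [h3]
  apply Finset.sum_le_sum
  intro w _
  rw [← Finset.sum_add_distrib]
  have h4 : ((H'.card : ℝ) - 1) ≤ ∑ x ∈ H'.erase w, (1 : ℝ) := by
    rw [Finset.sum_const, nsmul_eq_mul, mul_one]
    have : H'.card ≤ (H'.erase w).card + 1 := by
      have := Finset.pred_card_le_card_erase (s := H') (a := w)
      omega
    have h5 : (H'.card : ℝ) ≤ (H'.erase w).card + 1 := by exact_mod_cast this
    linarith
  refine h4.trans ?_
  refine (Finset.sum_le_sum fun x hx => ?_).trans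
      (Finset.sum_le_sum_of_subset_of_nonneg (Finset.erase_subset w H') fun x _ _ => ?_)
  · rcases hR.tot x w (Finset.ne_of_mem_erase hx) with h | h
    · rw [if_pos h]
      split_ifs <;> norm_num
    · rw [if_pos h]
      split_ifs <;> norm_num
  · split_ifs <;> norm_num

private theorem cut_card {V : Type} [Fintype V] [DecidableEq V] (S K Z : Finset V) :
    (S.card : ℝ) ≤ ((S ∩ K) \ Z).card + (Kᶜ).card + Z.card := by
  have h : S ⊆ ((S ∩ K) \ Z) ∪ Kᶜ ∪ Z := by
    intro x hx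
    by_cases hK : x ∈ K
    · by_cases hZ : x ∈ Z
      · simp [hZ]
      · simp [hx, hK, hZ]
    · simp [hK]
  have h1 := Finset.card_le_card h
  have h2 := Finset.card_union_le (((S ∩ K) \ Z) ∪ Kᶜ) Z
  have h3 := Finset.card_union_le ((S ∩ K) \ Z) Kᶜ
  have h4 : S.card ≤ ((S ∩ K) \ Z).card + (Kᶜ).card + Z.card := by omega
  exact_mod_cast h4

theorem conn (β : ℝ) (hβ : 0 < β) (T : ℕ) :
    ∃ (ε : ℝ) (n₀ : ℕ), 0 < ε ∧ ∀ (V : Type) [Fintype V] [DecidableEq V]
      (R : V → V → Prop), n₀ ≤ Fintype.card V → IsTour R →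
      ∀ K : Finset V, ((Kᶜ).card : ℝ) ≤ β / 4 * Fintype.card V →
      ∀ S S' : Finset V, β * Fintype.card V ≤ S.card → β * Fintype.card V ≤ S'.card →
      ∀ Z : Finset V, (Z.card : ℝ) ≤ ε * Fintype.card V →
      ∃ (y : Fin (2 + 1) → V) (F : Fin 2 → Fin T → V), y 0 ∈ S ∧ y (Fin.last 2) ∈ S' ∧
        (∀ (i : Fin 2) (t : Fin T), R (F i t) (y i.castSucc) ∧ R (F i t) (y i.succ)) ∧
        Function.Injective y ∧ Function.Injective (fun p : Fin 2 × Fin T => F p.1 p.2) ∧
        (∀ i (p : Fin 2 × Fin T), y i ≠ F p.1 p.2) ∧ (∀ i, y i ∉ Z) ∧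
        ∀ i t, F i t ∉ Z ∧ F i t ∈ K := by
  classical
  refine ⟨β / 200, ⌈(200 * T + 1000 : ℝ) / β⌉₊ + 1, by positivity, ?_⟩
  intro V _ _ R hn hR K hK S S' hS hS' Z hZ
  set n : ℝ := (Fintype.card V : ℝ) with hnd
  have hN : 200 * (T : ℝ) + 1000 ≤ β * n := by
    have h1 : (200 * T + 1000 : ℝ) / β ≤ n := by
      refine (Nat.le_ceil _).trans ?_
      rw [hnd]
      exact_mod_cast (Nat.le_succ _).trans hn
    rw [div_le_iff₀ hβ] at h1
    linarith
  have hT0 : (0 : ℝ) ≤ (T : ℝ) := Nat.cast_nonneg _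
  set N : ℝ := β * n with hNd
  have hN0 : 1000 ≤ N := by linarith
  have hK' : ((Kᶜ).card : ℝ) ≤ N / 4 := by rw [hNd]; linarith
  have hZ' : (Z.card : ℝ) ≤ N / 200 := by rw [hNd]; linarith
  -- the first vertex
  set S₁ : Finset V := (S ∩ K) \ Z with hS₁
  have hS₁c : N / 2 ≤ S₁.card := by
    have := cut_card S K Z
    rw [← hS₁] at this
    linarith
  have hS₁n : S₁.Nonempty := by
    rw [← Finset.card_pos]
    have : (0 : ℝ) < S₁.card := by linarith
    exact_mod_cast this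
  obtain ⟨y₀, hy₀, hd₀⟩ := RobT.tour_deg hR false S₁ hS₁n
  -- the last vertex
  set S₂ : Finset V := (S' ∩ K) \ (Z ∪ {y₀}) with hS₂
  have hS₂c : N / 2 ≤ S₂.card := by
    have h1 := cut_card S' K (Z ∪ {y₀})
    rw [← hS₂] at h1
    have h2 : (((Z ∪ {y₀} : Finset V)).card : ℝ) ≤ Z.card + 1 := by
      have := Finset.card_union_le Z {y₀}
      rw [Finset.card_singleton] at this
      exact_mod_cast this
    linarith
  have hS₂n : S₂.Nonempty := by
    rw [← Finset.card_pos]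
    have : (0 : ℝ) < S₂.card := by linarith
    exact_mod_cast this
  obtain ⟨y₂, hy₂, hd₂⟩ := RobT.tour_deg hR false S₂ hS₂n
  have hy₀' : y₀ ∈ S ∧ y₀ ∈ K ∧ y₀ ∉ Z := by
    rw [hS₁, Finset.mem_sdiff, Finset.mem_inter] at hy₀
    exact ⟨hy₀.1.1, hy₀.1.2, hy₀.2⟩
  have hy₂' : y₂ ∈ S' ∧ y₂ ∈ K ∧ y₂ ∉ Z ∧ y₂ ≠ y₀ := by
    rw [hS₂, Finset.mem_sdiff, Finset.mem_inter, Finset.mem_union, Finset.mem_singleton] at hy₂
    push Not at hy₂
    exact ⟨hy₂.1.1, hy₂.1.2, hy₂.2.1, hy₂.2.2⟩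
  set A : Finset V := (S₁.filter fun x => R x y₀).erase y₂ with hA
  set A' : Finset V := S₂.filter fun x => R x y₂ with hA'
  have hf₀ : (S₁.filter fun x => Arc R false y₀ x) = S₁.filter fun x => R x y₀ := by
    ext x
    simp [Arc]
  have hf₂ : (S₂.filter fun x => Arc R false y₂ x) = S₂.filter fun x => R x y₂ := by
    ext x
    simp [Arc]
  rw [hf₀] at hd₀
  rw [hf₂, ← hA'] at hd₂
  have hAc : N / 5 ≤ A.card := by
    have h1 : (S₁.filter fun x => R x y₀).card ≤ A.card + 1 := by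
      have := Finset.pred_card_le_card_erase (s := S₁.filter fun x => R x y₀) (a := y₂)
      rw [← hA] at this
      omega
    have h2 : ((S₁.filter fun x => R x y₀).card : ℝ) ≤ A.card + 1 := by exact_mod_cast h1
    linarith
  have hAc' : N / 5 ≤ A'.card := by linarith
  have hAm : ∀ x ∈ A, R x y₀ ∧ x ≠ y₂ ∧ x ∉ Z ∧ x ∈ K ∧ x ≠ y₀ := by
    intro x hx
    rw [hA, Finset.mem_erase, Finset.mem_filter, hS₁, Finset.mem_sdiff, Finset.mem_inter] at hx
    refine ⟨hx.2.2, hx.1, hx.2.1.2, hx.2.1.1.2, ?_⟩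
    rintro rfl
    exact hR.irr _ hx.2.2
  have hAm' : ∀ x ∈ A', R x y₂ ∧ x ≠ y₀ ∧ x ∉ Z ∧ x ∈ K ∧ x ≠ y₂ := by
    intro x hx
    rw [hA', Finset.mem_filter, hS₂, Finset.mem_sdiff, Finset.mem_inter, Finset.mem_union,
      Finset.mem_singleton] at hx
    push Not at hx
    refine ⟨hx.2, hx.1.2.2, hx.1.2.1, hx.1.1.2, ?_⟩
    rintro rfl
    exact hR.irr _ hx.2
  -- vertices of large indegree
  have hM := many hR A (by linarith)
  have hM' := many hR A' (by linarith)
  set H : Finset V := A.filter fun w => (A.card : ℝ) / 8 ≤ ((A.filter fun x => R x w).card : ℝ)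
    with hH
  set H' : Finset V :=
    A'.filter fun w => (A'.card : ℝ) / 8 ≤ ((A'.filter fun x => R x w).card : ℝ) with hH'
  have hHc : N / 15 ≤ H.card := by linarith
  have hHc' : N / 15 ≤ H'.card := by linarith
  have hHA : H ⊆ A := Finset.filter_subset _ _
  have hHA' : H' ⊆ A' := Finset.filter_subset _ _
  -- the middle vertex
  obtain ⟨y₁, hy₁, hb, hb'⟩ : ∃ y₁, (y₁ ∈ A ∨ y₁ ∈ A') ∧
      N / 100 ≤ ((A.filter fun x => R x y₁).card : ℝ) ∧
      N / 100 ≤ ((A'.filter fun x => R x y₁).card : ℝ) := by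
    by_contra hcon
    push Not at hcon
    have h1 : ∀ w' ∈ H', ((H.filter fun w => R w w').card : ℝ) ≤ N / 100 := by
      intro w' hw'
      by_contra hc
      push Not at hc
      have h2 : ((H.filter fun w => R w w').card : ℝ) ≤ ((A.filter fun w => R w w').card : ℝ) := by
        exact_mod_cast Finset.card_le_card (Finset.filter_subset_filter _ hHA)
      have h3 := hcon w' (Or.inr (hHA' hw')) (by linarith)
      have h4 := (Finset.mem_filter.1 hw').2
      linarith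
    have h2 : ∀ w ∈ H, ((H'.filter fun w' => R w' w).card : ℝ) ≤ N / 100 := by
      intro w hw
      by_contra hc
      push Not at hc
      have h2 : ((H'.filter fun w' => R w' w).card : ℝ) ≤
          ((A'.filter fun w' => R w' w).card : ℝ) := by
        exact_mod_cast Finset.card_le_card (Finset.filter_subset_filter _ hHA')
      have h4 := (Finset.mem_filter.1 hw).2
      have h3 := hcon w (Or.inl (hHA hw)) (by linarith)
      linarith
    have h3 := cross hR H H'
    have h4 := Finset.sum_le_sum h1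
    have h5 := Finset.sum_le_sum h2
    rw [Finset.sum_const, nsmul_eq_mul] at h4 h5
    have h6 : (H'.card : ℝ) * (N / 100) ≤ H'.card * (15 * H.card / 100) := by
      apply mul_le_mul_of_nonneg_left _ (Nat.cast_nonneg _)
      linarith
    have h7 : (H.card : ℝ) * (N / 100) ≤ H.card * (15 * H'.card / 100) := by
      apply mul_le_mul_of_nonneg_left _ (Nat.cast_nonneg _)
      linarith
    have h8 : (0 : ℝ) < H.card := by linarith
    have h9 : (60 : ℝ) ≤ H'.card := by linarith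
    nlinarith [mul_le_mul_of_nonneg_left h9 h8.le]
  -- the fans
  set B : Finset V := A.filter fun x => R x y₁ with hB
  set B' : Finset V := A'.filter fun x => R x y₁ with hB'
  have hBc : T ≤ B.card := by
    have : (T : ℝ) ≤ B.card := by linarith
    exact_mod_cast this
  obtain ⟨f, hf, hfB⟩ := fin_inj B T hBc
  have hBc' : T ≤ (B' \ univ.image f).card := by
    have h1 : (univ.image f).card ≤ T := by
      refine Finset.card_image_le.trans ?_
      rw [Finset.card_univ, Fintype.card_fin]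
    have h2 := Finset.le_card_sdiff (univ.image f) B'
    have h3 : (2 * T : ℝ) ≤ B'.card := by linarith
    have h4 : 2 * T ≤ B'.card := by exact_mod_cast h3
    omega
  obtain ⟨g, hg, hgB⟩ := fin_inj (B' \ univ.image f) T hBc'
  have hfm : ∀ t, R (f t) y₁ ∧ f t ≠ y₁ ∧ R (f t) y₀ ∧ f t ≠ y₂ ∧ f t ∉ Z ∧ f t ∈ K ∧
      f t ≠ y₀ := by
    intro t
    have h1 := Finset.mem_filter.1 (hfB t)
    have h2 := hAm _ h1.1
    refine ⟨h1.2, ?_, h2.1, h2.2.1, h2.2.2.1, h2.2.2.2.1, h2.2.2.2.2⟩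
    intro h
    have h3 := h1.2
    rw [h] at h3
    exact hR.irr _ h3
  have hgm : ∀ t, R (g t) y₁ ∧ g t ≠ y₁ ∧ R (g t) y₂ ∧ g t ≠ y₀ ∧ g t ∉ Z ∧ g t ∈ K ∧
      g t ≠ y₂ ∧ ∀ t', f t' ≠ g t := by
    intro t
    have h0 := Finset.mem_sdiff.1 (hgB t)
    have h1 := Finset.mem_filter.1 h0.1
    have h2 := hAm' _ h1.1
    refine ⟨h1.2, ?_, h2.1, h2.2.1, h2.2.2.1, h2.2.2.2.1, h2.2.2.2.2, ?_⟩
    · intro h
      have h3 := h1.2
      rw [h] at h3
      exact hR.irr _ h3
    · intro t' ht'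
      exact h0.2 (Finset.mem_image.2 ⟨t', Finset.mem_univ _, ht'⟩)
  have hy₁' : y₁ ≠ y₀ ∧ y₁ ≠ y₂ ∧ y₁ ∉ Z := by
    rcases hy₁ with h | h
    · have h2 := hAm _ h
      exact ⟨h2.2.2.2.2, h2.2.1, h2.2.2.1⟩
    · have h2 := hAm' _ h
      exact ⟨h2.2.1, h2.2.2.2.2, h2.2.2.1⟩
  refine ⟨![y₀, y₁, y₂], ![f, g], hy₀'.1, hy₂'.1, ?_, ?_, ?_, ?_, ?_, ?_⟩
  · intro i t
    fin_cases i
    · exact ⟨(hfm t).2.2.1, (hfm t).1⟩
    · exact ⟨(hgm t).1, (hgm t).2.2.1⟩
  · intro i j hij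
    fin_cases i <;> fin_cases j
    · rfl
    · exact absurd hij.symm hy₁'.1
    · exact absurd hij.symm hy₂'.2.2.2
    · exact absurd hij hy₁'.1
    · rfl
    · exact absurd hij hy₁'.2.1
    · exact absurd hij hy₂'.2.2.2
    · exact absurd hij.symm hy₁'.2.1
    · rfl
  · rintro ⟨i, t⟩ ⟨j, u⟩ hij
    fin_cases i <;> fin_cases j
    · have h1 : f t = f u := hij
      rw [hf h1]
    · have h1 : f t = g u := hij
      exact absurd h1 ((hgm u).2.2.2.2.2.2.2 t)
    · have h1 : g t = f u := hij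
      exact absurd h1.symm ((hgm t).2.2.2.2.2.2.2 u)
    · have h1 : g t = g u := hij
      rw [hg h1]
  · rintro i ⟨j, t⟩
    fin_cases i <;> fin_cases j
    · exact (hfm t).2.2.2.2.2.2.symm
    · exact (hgm t).2.2.2.1.symm
    · exact (hfm t).2.1.symm
    · exact (hgm t).2.1.symm
    · exact (hfm t).2.2.2.1.symm
    · exact (hgm t).2.2.2.2.2.2.1.symm
  · intro i
    fin_cases i
    · exact hy₀'.2.2
    · exact hy₁'.2.2
    · exact hy₂'.2.2.1
  · intro i t
    fin_cases i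
    · exact ⟨(hfm t).2.2.2.2.1, (hfm t).2.2.2.2.2.1⟩
    · exact ⟨(hgm t).2.2.2.2.1, (hgm t).2.2.2.2.2.1⟩

end Pool.Agent.Lib.TourE
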