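import Pool.Agent.Lib.TourE.Gi
import Pool.Agent.Lib.RobT.Gs
import Pool.Agent.Lib.RobT.Ab

/-!
# Gj: many disjoint gadgets of both signs (about 200 lines)

`M, β, θ₀, n₁` from `gadE`.  `D = (M+1) T + M ≥ |g.vs|`.  `θ₁ = θ₀/(4 (D + 1))`.  Given `θ ≤ θ₁`:
`n₀ ≥ n₁` so large that `1 ≤ θ₀ n/2` and `log n ≤ (3/50) (θ/2) n` for `n ≥ n₀` (`log n / n → 0`).
`f₁ ≤ θ n`, so `2 f₁ D + 1 ≤ θ₀ n`.
For `σ : Bool` let `R' = fun u v => Arc R σ u v` (`IsTour`: `tour_flip` of RobT.Ab or directly).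
`Nb R' false v = Nb R (!σ) v` (`Arc R' false v u ↔ R' u v ↔ Arc R σ u v ↔ Arc R (!σ) v u`).
First `σ = true`: `select` (RobT.Gs) with `G = Gad V T M`, `vs = Gad.vs`,
`Ok g` = (`g.Ok R'`, environments in `K`, `Disjoint g.vs {r}`, at most `n/50` relevant vertices not
accepted), `I = V`, `Bad g v` = (`n/8 ≤ |Nb R (!σ) v|` and `¬ g.Acc R' v`), `f = f₁`, `p = 1/50`;
its
hypothesis by `gadE` for the set `Z ∪ {r}`.  Then `σ = false` with `gadE` for `Z ∪ {r} ∪ Z₁`,
`Z₁` = all vertices of the gadgets of sign `true` (at most `f₁ D`), and `Disjoint g.vs Z₁` in `Ok`.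
`select` bounds the number of `t` with `Bad (g t) v` by `log n + (2/50) f₁ ≤ f₁/10`
(`log n ≤ (3/50) (θ/2) n ≤ (3/50) f₁`).
-/

namespace Pool.Agent.Lib.TourE

open Finset
open Pool.Agent.Lib.RobT (IsTour Arc eN Nb RT Sx Gad)

private theorem gj_card_vs {V : Type} [DecidableEq V] {T M : ℕ} (g : Gad V T M) :
    g.vs.card ≤ (M + 1) * T + M := by
  unfold Gad.vs
  refine (Finset.card_union_le _ _).trans (add_le_add ?_ ?_)
  · refine Finset.card_image_le.trans ?_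
    rw [Finset.card_univ, Fintype.card_prod, Fintype.card_fin, Fintype.card_fin]
  · refine Finset.card_image_le.trans ?_
    rw [Finset.card_univ, Fintype.card_fin]

private theorem gj_tour {V : Type} {R : V → V → Prop} (hR : IsTour R) (σ : Bool) :
    IsTour fun u v => Arc R σ u v := by
  cases σ
  · refine ⟨fun u h => ?_, fun u v h h' => ?_, fun u v h => ?_⟩
    · rcases h with ⟨h, _⟩ | ⟨_, h⟩
      · exact absurd h (by decide)
      · exact hR.irr u h
    · rcases h with ⟨h, _⟩ | ⟨_, h⟩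
      · exact absurd h (by decide)
      · rcases h' with ⟨h', _⟩ | ⟨_, h'⟩
        · exact absurd h' (by decide)
        · exact hR.asym v u h h'
    · exact (hR.tot u v h).symm.imp (fun h => Or.inr ⟨rfl, h⟩) fun h => Or.inr ⟨rfl, h⟩
  · refine ⟨fun u h => ?_, fun u v h h' => ?_, fun u v h => ?_⟩
    · rcases h with ⟨_, h⟩ | ⟨h, _⟩
      · exact hR.irr u h
      · exact absurd h (by decide)
    · rcases h with ⟨_, h⟩ | ⟨h, _⟩
      · rcases h' with ⟨_, h'⟩ | ⟨h', _⟩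
        · exact hR.asym u v h h'
        · exact absurd h' (by decide)
      · exact absurd h (by decide)
    · exact (hR.tot u v h).imp (fun h => Or.inl ⟨rfl, h⟩) fun h => Or.inl ⟨rfl, h⟩

open Classical in
private theorem gj_nb {V : Type} [Fintype V] (R : V → V → Prop) (σ : Bool) (v : V) :
    Nb (fun u v => Arc R σ u v) false v = Nb R (!σ) v := by
  unfold Nb
  ext w
  rw [Finset.mem_filter, Finset.mem_filter]
  refine and_congr_right fun _ => ?_
  cases σ <;> simp [Arc]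

open Classical in
private theorem gj_step {V : Type} [Fintype V] [DecidableEq V] {R : V → V → Prop}
    (hR : IsTour R) {T M D : ℕ} (hD : D = (M + 1) * T + M) {θ₀ : ℝ} (K : Finset V)
    (hG : ∀ (R : V → V → Prop), IsTour R →
      ∀ Z : Finset V, (Z.card : ℝ) ≤ θ₀ * Fintype.card V → ∀ w : V → ℝ, (∀ v, 0 ≤ w v) →
      ∃ g : Gad V T M, g.Ok R ∧ Disjoint g.vs Z ∧ (∀ j t, g.env j t ∈ K) ∧
        ((univ.filter fun v => (Fintype.card V : ℝ) / 8 ≤ (Nb R false v).card ∧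
          ¬ g.Acc R v).card : ℝ) ≤ Fintype.card V / 50 ∧
        ∑ v ∈ univ.filter (fun v => (Fintype.card V : ℝ) / 8 ≤ (Nb R false v).card ∧
          ¬ g.Acc R v), w v ≤ 1 / 50 * ∑ v, w v)
    (f₁ : ℕ) (hf : 2 * ((f₁ : ℝ) * D) + 1 ≤ θ₀ * Fintype.card V)
    (hlog : Real.log (Fintype.card V) ≤ 3 / 50 * f₁) (σ : Bool) (Y : Finset V)
    (hY : Y.card ≤ f₁ * D + 1) :
    ∃ g : Fin f₁ → Gad V T M, (∀ i, (g i).Ok fun u v => Arc R σ u v) ∧
      (∀ i i', i ≠ i' → Disjoint (g i).vs (g i').vs) ∧ (∀ i, Disjoint (g i).vs Y) ∧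
      (∀ i j t, (g i).env j t ∈ K) ∧
      (∀ v, (Fintype.card V : ℝ) / 8 ≤ (Nb R (!σ) v).card →
        ((univ.filter fun i => ¬ (g i).Acc (fun u v => Arc R σ u v) v).card : ℝ) ≤ f₁ / 10) ∧
      ∀ i, ((univ.filter fun v => (Fintype.card V : ℝ) / 8 ≤ (Nb R (!σ) v).card ∧
        ¬ (g i).Acc (fun u v => Arc R σ u v) v).card : ℝ) ≤ Fintype.card V / 50 := by
  obtain ⟨g, hg1, hg2, hg3⟩ := RobT.select (G := Gad V T M) (I := V) Gad.vs
    (fun g => g.Ok (fun u v => Arc R σ u v) ∧ Disjoint g.vs Y ∧ (∀ j t, g.env j t ∈ K) ∧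
      ((univ.filter fun v => (Fintype.card V : ℝ) / 8 ≤ (Nb R (!σ) v).card ∧
        ¬ g.Acc (fun u v => Arc R σ u v) v).card : ℝ) ≤ Fintype.card V / 50)
    (fun g v => (Fintype.card V : ℝ) / 8 ≤ (Nb R (!σ) v).card ∧
      ¬ g.Acc (fun u v => Arc R σ u v) v) f₁ D (1 / 50) (by norm_num) (by
    intro Z hZ w hw
    obtain ⟨g, h1, h2, h3, h4, h5⟩ := hG (fun u v => Arc R σ u v) (gj_tour hR σ) (Z ∪ Y) (by
      refine le_trans ?_ hf
      have e1 : (Z ∪ Y).card ≤ f₁ * D + (f₁ * D + 1) :=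
        (Finset.card_union_le _ _).trans (add_le_add hZ hY)
      have e2 : ((Z ∪ Y).card : ℝ) ≤ (f₁ : ℝ) * D + ((f₁ : ℝ) * D + 1) := by exact_mod_cast e1
      linarith) w hw
    rw [Finset.disjoint_union_right] at h2
    simp only [gj_nb] at h4 h5
    refine ⟨g, ⟨h1, h2.2, h3, h4⟩, ?_, h2.1, ?_⟩
    · rw [hD]
      exact gj_card_vs g
    · refine le_trans (le_of_eq ?_) h5
      refine Finset.sum_congr ?_ fun _ _ => rfl
      ext v
      simp only [Finset.mem_filter])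
  refine ⟨g, fun i => (hg1 i).1, hg2, fun i => (hg1 i).2.1, fun i => (hg1 i).2.2.1, ?_,
    fun i => (hg1 i).2.2.2⟩
  intro v hv
  have h1 := hg3 v
  have h2 : (univ.filter fun i => ¬ (g i).Acc (fun u v => Arc R σ u v) v).card =
      (univ.filter fun i => (Fintype.card V : ℝ) / 8 ≤ (Nb R (!σ) v).card ∧
        ¬ (g i).Acc (fun u v => Arc R σ u v) v).card := by
    congr 1
    ext i
    simp only [Finset.mem_filter, Finset.mem_univ, true_and]
    exact ⟨fun h => ⟨hv, h⟩, fun h => h.2⟩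
  rw [h2]
  have h3 : ((univ.filter fun i => (Fintype.card V : ℝ) / 8 ≤ (Nb R (!σ) v).card ∧
      ¬ (g i).Acc (fun u v => Arc R σ u v) v).card : ℝ) ≤
      Real.log (Fintype.card V) + 2 * (1 / 50) * f₁ := by
    refine le_trans (le_of_eq ?_) h1
    congr 2
    ext i
    simp only [Finset.mem_filter]
  linarith

open Classical in
theorem gads (T : ℕ) (hT : 1 ≤ T) :
    ∃ (M : ℕ) (β θ₁ : ℝ), 0 < β ∧ 0 < θ₁ ∧ ∀ θ : ℝ, 0 < θ → θ ≤ θ₁ → ∃ n₀ : ℕ,
      ∀ (V : Type) [Fintype V] [DecidableEq V] (R : V → V → Prop), n₀ ≤ Fintype.card V →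
      IsTour R → ∀ K : Finset V, ((Kᶜ).card : ℝ) ≤ β * Fintype.card V → ∀ (r : V) (f₁ : ℕ),
      θ / 2 * Fintype.card V ≤ f₁ → (f₁ : ℝ) ≤ θ * Fintype.card V →
      ∃ g : Bool → Fin f₁ → Gad V T M,
        (∀ σ i, (g σ i).Ok fun u v => Arc R σ u v) ∧
        (∀ σ i σ' i', (σ, i) ≠ (σ', i') → Disjoint (g σ i).vs (g σ' i').vs) ∧
        (∀ σ i, r ∉ (g σ i).vs) ∧ (∀ σ i j t, (g σ i).env j t ∈ K) ∧
        (∀ σ v, (Fintype.card V : ℝ) / 8 ≤ (Nb R (!σ) v).card →
          ((univ.filter fun i => ¬ (g σ i).Acc (fun u v => Arc R σ u v) v).card : ℝ) ≤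
            f₁ / 10) ∧
        ∀ σ i, ((univ.filter fun v => (Fintype.card V : ℝ) / 8 ≤ (Nb R (!σ) v).card ∧
          ¬ (g σ i).Acc (fun u v => Arc R σ u v) v).card : ℝ) ≤ Fintype.card V / 50 := by
  obtain ⟨M, β, θ₀, n₁, hβ, hθ₀, hG⟩ := gadE T hT
  have hDpos : (0 : ℝ) < 4 * ((((M + 1) * T + M : ℕ) : ℝ) + 1) := by positivity
  refine ⟨M, β, θ₀ / (4 * ((((M + 1) * T + M : ℕ) : ℝ) + 1)), hβ, div_pos hθ₀ hDpos, ?_⟩
  intro θ hθ hθ1
  obtain ⟨N1, hN1⟩ := Filter.eventually_atTop.1 (tendsto_natCast_atTop_atTop.eventually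
    (Real.isLittleO_log_id_atTop.def (show (0 : ℝ) < 3 / 100 * θ by positivity)))
  obtain ⟨N2, hN2⟩ := exists_nat_ge (2 / θ₀)
  refine ⟨max n₁ (max N1 N2), ?_⟩
  intro V _ _ R hn hR K hK r f₁ hf1 hf2
  have hn1 : n₁ ≤ Fintype.card V := (le_max_left _ _).trans hn
  have hn2 : N1 ≤ Fintype.card V := ((le_max_left _ _).trans (le_max_right _ _)).trans hn
  have hn3 : N2 ≤ Fintype.card V := ((le_max_right _ _).trans (le_max_right _ _)).trans hn
  have hV0 : (0 : ℝ) ≤ Fintype.card V := Nat.cast_nonneg _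
  have hlog : Real.log (Fintype.card V) ≤ 3 / 50 * f₁ := by
    have h1 := hN1 _ hn2
    rw [id, Real.norm_eq_abs, Real.norm_eq_abs, abs_of_nonneg hV0] at h1
    have h2 := (le_abs_self _).trans h1
    linarith
  have h1le : 1 ≤ θ₀ * Fintype.card V / 2 := by
    have h1 : 2 / θ₀ ≤ Fintype.card V := hN2.trans (by exact_mod_cast hn3)
    rw [div_le_iff₀ hθ₀] at h1
    linarith
  have hf : 2 * ((f₁ : ℝ) * ((M + 1) * T + M : ℕ)) + 1 ≤ θ₀ * Fintype.card V := by
    have h1 : (f₁ : ℝ) ≤ θ₀ / (4 * ((((M + 1) * T + M : ℕ) : ℝ) + 1)) * Fintype.card V :=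
      hf2.trans (mul_le_mul_of_nonneg_right hθ1 hV0)
    have h2 : (f₁ : ℝ) * (4 * ((((M + 1) * T + M : ℕ) : ℝ) + 1)) ≤ θ₀ * Fintype.card V := by
      have h3 := mul_le_mul_of_nonneg_right h1 hDpos.le
      have h4 : θ₀ / (4 * ((((M + 1) * T + M : ℕ) : ℝ) + 1)) * Fintype.card V *
          (4 * ((((M + 1) * T + M : ℕ) : ℝ) + 1)) = θ₀ * Fintype.card V := by
        field_simp
      rw [h4] at h3
      exact h3
    have h5 : (0 : ℝ) ≤ f₁ := Nat.cast_nonneg _
    linarith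
  have step := gj_step hR (T := T) (M := M) rfl K
    (fun R hR Z hZ w hw => hG V R hn1 hR K hK Z hZ w hw) f₁ hf hlog
  obtain ⟨g₁, a1, a2, a3, a4, a5, a6⟩ := step true {r} (by
    rw [Finset.card_singleton]
    exact Nat.le_add_left _ _)
  obtain ⟨g₂, b1, b2, b3, b4, b5, b6⟩ := step false ({r} ∪ univ.biUnion fun i => (g₁ i).vs) (by
    refine (Finset.card_union_le _ _).trans ?_
    rw [Finset.card_singleton, add_comm]
    refine Nat.add_le_add_right (Finset.card_biUnion_le.trans ?_) 1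
    calc ∑ i, (g₁ i).vs.card ≤ ∑ _i : Fin f₁, ((M + 1) * T + M) :=
          Finset.sum_le_sum fun i _ => gj_card_vs _
      _ = f₁ * ((M + 1) * T + M) := by
          rw [Finset.sum_const, Finset.card_univ, Fintype.card_fin, smul_eq_mul])
  have hd : ∀ i i', Disjoint (g₂ i).vs (g₁ i').vs := by
    intro i i'
    have h1 := b3 i
    rw [Finset.disjoint_union_right] at h1
    exact Finset.disjoint_of_subset_right
      (Finset.subset_biUnion_of_mem (fun i => (g₁ i).vs) (Finset.mem_univ i')) h1.2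
  refine ⟨fun σ => match σ with | true => g₁ | false => g₂, ?_, ?_, ?_, ?_, ?_, ?_⟩
  · intro σ
    cases σ
    · exact b1
    · exact a1
  · intro σ i σ' i' h
    cases σ <;> cases σ'
    · exact b2 i i' fun h' => h (by rw [h'])
    · exact hd i i'
    · exact (hd i' i).symm
    · exact a2 i i' fun h' => h (by rw [h'])
  · intro σ i
    cases σ
    · have h1 := b3 i
      rw [Finset.disjoint_union_right] at h1
      exact Finset.disjoint_singleton_right.1 h1.1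
    · exact Finset.disjoint_singleton_right.1 (a3 i)
  · intro σ
    cases σ
    · exact b4
    · exact a4
  · intro σ
    cases σ
    · exact b5
    · exact a5
  · intro σ
    cases σ
    · exact b6
    · exact a6

end Pool.Agent.Lib.TourE
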