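import Mathlib

/-!
# Ia: two sets of integers, first case (about 130 lines)

`E = D/16`.  Notation: `[x, y]` etc. are intervals of integers.  `i = min Z`, `z* = max Z`,
`j = max Y`.  A set of integers in `[x, y)` has at most `y - x` elements (`x ≤ y`).
CASE 1: `j ≤ i`.  `Z ⊆ [i, p+M)`, `Y ⊆ [q, j]`, so
`|Z| + |Y| ≤ p + M - i + j - q + 1 ≤ M - (q - p) + 1 ≤ M - D + 1 ≤ M - D/4`.
CASE 2: `i < j`.  Now `q ≤ i ≤ z* < p + M`.
 (2.1) `j ≤ z*`.  `|Y ∩ (i, j]| ≤ (j-i)/2 + E` (a2 for `i`), `|Y ∩ [q, i]| ≤ i - q + 1`,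
   `|Z ∩ [i, j)| ≤ (j-i)/2 + E` (a1 for `j`), `|Z ∩ [j, z*]| ≤ z* - j + 1`; the sum is
   `z* - q + 2 + 2E ≤ p + M - 1 - q + 2 + 2E ≤ M - D + 1 + D/8 ≤ M - D/4`.
 (2.2) `z* < j`.  `|Y ∩ (z*, ∞)| = |Y ∩ (z*, j]| ≤ (j-z*)/2 + E` (a2 for `z*`).  Let
   `Y' = Y ∩ (-∞, z*]`.  CLAIM: `|Z| + |Y'| ≤ z* - q + 2 + 2E`.
   `Y' = ∅`: `|Z| ≤ z* - i + 1 ≤ z* - q + 1`.
   Otherwise `y* = max Y'`, `y* ≤ z*`.  If `y* ≤ i`: `|Y'| ≤ y* - q + 1 ≤ i - q + 1` and
   `|Z| ≤ z* - i + 1`.  If `i < y*`: `|Z ∩ [i, y*)| ≤ (y*-i)/2 + E` (a1 for `y*`),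
   `|Z ∩ [y*, z*]| ≤ z* - y* + 1`, `|Y' ∩ (i, y*]| ≤ (y*-i)/2 + E` (a2 for `i`),
   `|Y' ∩ [q, i]| ≤ i - q + 1`; sum `z* - q + 2 + 2E`.
   So `|Z| + |Y| ≤ (z* + j)/2 - q + 2 + 3E ≤ (p + M - 1 + q + M - 1)/2 - q + 2 + 3E`
   `= M - (q - p)/2 + 1 + 3E ≤ M - D/2 + 1 + 3D/16 ≤ M - D/4` (`D ≥ 16`).
-/

namespace Pool.Agent.Lib.TourE

open Finset

private theorem card_le_int (S : Finset ℤ) (a b : ℤ) (hab : a ≤ b)
    (h : ∀ s ∈ S, a ≤ s ∧ s < b) : (S.card : ℝ) ≤ (b : ℝ) - a := by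
  have h1 : S ⊆ Finset.Ico a b := fun s hs => Finset.mem_Ico.mpr (h s hs)
  have h2 := Finset.card_le_card h1
  rw [Int.card_Ico] at h2
  have h3 : (S.card : ℤ) ≤ b - a := by omega
  exact_mod_cast h3

private theorem card_split (S : Finset ℤ) (P : ℤ → Prop) [DecidablePred P] :
    (S.card : ℝ) = (S.filter P).card + (S.filter fun x => ¬ P x).card := by
  have := Finset.card_filter_add_card_filter_not (s := S) P
  exact_mod_cast this.symm

private theorem card_mono {S T : Finset ℤ} (h : S ⊆ T) : (S.card : ℝ) ≤ T.card := by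
  exact_mod_cast Finset.card_le_card h

theorem int_gap_a (Z Y : Finset ℤ) (p q M : ℤ) (D : ℝ) (hD : 16 ≤ D)
    (hpq : D ≤ ((q - p : ℤ) : ℝ)) (hZ : ∀ z ∈ Z, p ≤ z ∧ z < p + M)
    (hY : ∀ y ∈ Y, q ≤ y ∧ y < q + M) (hZn : Z.Nonempty) (hYn : Y.Nonempty)
    (a1 : ∀ y ∈ Y, ∀ k, k ≤ y → ((Z.filter fun z => k ≤ z ∧ z < y).card : ℝ) ≤
      ((y - k : ℤ) : ℝ) / 2 + D / 16)
    (a2 : ∀ z ∈ Z, ∀ k, z ≤ k → ((Y.filter fun y => z < y ∧ y ≤ k).card : ℝ) ≤
      ((k - z : ℤ) : ℝ) / 2 + D / 16)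
    (hq : ∀ z ∈ Z, q ≤ z) : (Z.card : ℝ) + Y.card ≤ M - D / 4 := by
  obtain ⟨i, hi, himin⟩ : ∃ i ∈ Z, ∀ z ∈ Z, i ≤ z :=
    ⟨Z.min' hZn, Z.min'_mem hZn, fun z hz => Z.min'_le z hz⟩
  obtain ⟨t, ht, htmax⟩ : ∃ t ∈ Z, ∀ z ∈ Z, z ≤ t :=
    ⟨Z.max' hZn, Z.max'_mem hZn, fun z hz => Z.le_max' z hz⟩
  obtain ⟨j, hj, hjmax⟩ : ∃ j ∈ Y, ∀ y ∈ Y, y ≤ j :=
    ⟨Y.max' hYn, Y.max'_mem hYn, fun y hy => Y.le_max' y hy⟩
  have hit : i ≤ t := himin t ht
  have hqi : q ≤ i := hq i hi
  have htM : t + 1 ≤ p + M := (hZ t ht).2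
  have hiM : i < p + M := (hZ i hi).2
  have hjM : j + 1 ≤ q + M := (hY j hj).2
  have hqj : q ≤ j := (hY j hj).1
  have htM' : (t : ℝ) + 1 ≤ p + M := by exact_mod_cast htM
  have hjM' : (j : ℝ) + 1 ≤ q + M := by exact_mod_cast hjM
  have hqi' : (q : ℝ) ≤ i := by exact_mod_cast hqi
  have hit' : (i : ℝ) ≤ t := by exact_mod_cast hit
  push_cast at hpq
  rcases le_or_gt j i with hji | hij
  · have h1 := card_le_int Z i (p + M) hiM.le (fun z hz => ⟨himin z hz, (hZ z hz).2⟩)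
    have h2 := card_le_int Y q (j + 1) (by omega)
      (fun y hy => ⟨(hY y hy).1, Int.lt_add_one_of_le (hjmax y hy)⟩)
    have hji' : (j : ℝ) ≤ i := by exact_mod_cast hji
    push_cast at h1 h2
    linarith
  · rcases le_or_gt j t with hjt | htj
    · have e1 := card_split Y (fun y => y ≤ i)
      have e2 := card_split Z (fun z => z < j)
      have h1 := card_le_int (Y.filter fun y => y ≤ i) q (i + 1) (by omega)
        (fun y hy => by
          rw [Finset.mem_filter] at hy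
          exact ⟨(hY y hy.1).1, Int.lt_add_one_of_le hy.2⟩)
      have h2 : ((Y.filter fun y => ¬ y ≤ i).card : ℝ) ≤
          (Y.filter fun y => i < y ∧ y ≤ j).card := card_mono (fun y hy => by
        rw [Finset.mem_filter] at hy ⊢
        exact ⟨hy.1, not_le.mp hy.2, hjmax y hy.1⟩)
      have h3 := a2 i hi j hij.le
      have h4 : ((Z.filter fun z => z < j).card : ℝ) ≤
          (Z.filter fun z => i ≤ z ∧ z < j).card := card_mono (fun z hz => by
        rw [Finset.mem_filter] at hz ⊢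
        exact ⟨hz.1, himin z hz.1, hz.2⟩)
      have h5 := a1 j hj i hij.le
      have h6 := card_le_int (Z.filter fun z => ¬ z < j) j (t + 1) (by omega)
        (fun z hz => by
          rw [Finset.mem_filter] at hz
          exact ⟨not_lt.mp hz.2, Int.lt_add_one_of_le (htmax z hz.1)⟩)
      push_cast at h1 h2 h3 h4 h5 h6
      linarith
    · have e1 := card_split Y (fun y => t < y)
      have h1 : ((Y.filter fun y => t < y).card : ℝ) ≤
          (Y.filter fun y => t < y ∧ y ≤ j).card := card_mono (fun y hy => by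
        rw [Finset.mem_filter] at hy ⊢
        exact ⟨hy.1, hy.2, hjmax y hy.1⟩)
      have h2 := a2 t ht j htj.le
      have claim : (Z.card : ℝ) + (Y.filter fun y => ¬ t < y).card ≤ t - q + 2 + D / 8 := by
        have hZc := card_le_int Z i (t + 1) (by omega)
          (fun z hz => ⟨himin z hz, Int.lt_add_one_of_le (htmax z hz)⟩)
        rcases Finset.eq_empty_or_nonempty (Y.filter fun y => ¬ t < y) with he | hne
        · rw [he, Finset.card_empty]
          push_cast at hZc ⊢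
          linarith
        · obtain ⟨s, hs, hsmax⟩ : ∃ s ∈ Y.filter (fun y => ¬ t < y),
              ∀ y ∈ Y.filter (fun y => ¬ t < y), y ≤ s :=
            ⟨_, Finset.max'_mem _ hne, fun y hy => Finset.le_max' _ y hy⟩
          have hsY : s ∈ Y := (Finset.mem_filter.mp hs).1
          have hst : s ≤ t := not_lt.mp (Finset.mem_filter.mp hs).2
          have hqs : q ≤ s := (hY s hsY).1
          rcases le_or_gt s i with hsi | his
          · have h3 := card_le_int (Y.filter fun y => ¬ t < y) q (s + 1) (by omega)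
              (fun y hy => ⟨(hY y (Finset.mem_filter.mp hy).1).1,
                Int.lt_add_one_of_le (hsmax y hy)⟩)
            have hsi' : (s : ℝ) ≤ i := by exact_mod_cast hsi
            push_cast at h3 hZc
            linarith
          · have e3 := card_split Z (fun z => z < s)
            have e4 := card_split (Y.filter fun y => ¬ t < y) (fun y => y ≤ i)
            have h3 : ((Z.filter fun z => z < s).card : ℝ) ≤
                (Z.filter fun z => i ≤ z ∧ z < s).card := card_mono (fun z hz => by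
              rw [Finset.mem_filter] at hz ⊢
              exact ⟨hz.1, himin z hz.1, hz.2⟩)
            have h4 := a1 s hsY i his.le
            have h5 := card_le_int (Z.filter fun z => ¬ z < s) s (t + 1) (by omega)
              (fun z hz => by
                rw [Finset.mem_filter] at hz
                exact ⟨not_lt.mp hz.2, Int.lt_add_one_of_le (htmax z hz.1)⟩)
            have h6 := card_le_int ((Y.filter fun y => ¬ t < y).filter fun y => y ≤ i) q (i + 1)
              (by omega) (fun y hy => by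
                rw [Finset.mem_filter, Finset.mem_filter] at hy
                exact ⟨(hY y hy.1.1).1, Int.lt_add_one_of_le hy.2⟩)
            have h7 : (((Y.filter fun y => ¬ t < y).filter fun y => ¬ y ≤ i).card : ℝ) ≤
                (Y.filter fun y => i < y ∧ y ≤ s).card := card_mono (fun y hy => by
              rw [Finset.mem_filter] at hy ⊢
              exact ⟨(Finset.mem_filter.mp hy.1).1, not_le.mp hy.2, hsmax y hy.1⟩)
            have h8 := a2 i hi s his.le
            push_cast at h3 h4 h5 h6 h7 h8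
            linarith
      push_cast at h1 h2
      linarith

end Pool.Agent.Lib.TourE
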