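import Pool.Agent.Lib.TourE.Defs

/-!
# Kc: cut inequality between layers (about 130 lines)

`n = |V| > 0`, `M = |S 0| = |S a| = |S b|`.  `Z₀` = the `z ∈ Z` with at most `δ n` outneighbours in
`Y`, `Y₀` = the `y ∈ Y` with at most `δ n` inneighbours in `Z`.
`e(Z, Y) ≥ δ n |Z \ Z₀|` and `≥ δ n |Y \ Y₀|`, so
`(2/δ/n) e(Z, Y) ≥ |Z \ Z₀| + |Y \ Y₀|`.
CASE `Z₀, Y₀ ≠ ∅`: `Lay.gap` for `Z₀, Y₀` (`z ∈ Z₀` has at most `δ n` outneighbours in `Y ⊇ Y₀`):
`|Z₀| + |Y₀| ≤ M - 4 δ n`; and `(δ/n) e(S a \ Z, S b \ Y) ≤ (δ/n) n² = δ n`.  So the left side is at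
most `|Z \ Z₀| + |Y \ Y₀| - 3 δ n`.
CASE `Z₀ = ∅`: `(2/δ/n) e(Z, Y) ≥ 2 |Z| ≥ |Z|`, and
`(δ/n) e(S a \ Z, S b \ Y) ≤ (δ/n) n (M - |Y|) ≤ M - |Y|`.
CASE `Y₀ = ∅`: symmetric.
-/

namespace Pool.Agent.Lib.TourE

open Finset
open Pool.Agent.Lib.RobT (IsTour Arc eN Nb RT)

open Classical in
private theorem kc_row {V : Type} (R : V → V → Prop) (X Y : Finset V) :
    (eN R X Y : ℝ) = ∑ x ∈ X, ((Y.filter fun y => R x y).card : ℝ) := by
  unfold eN
  rw [Finset.card_filter, Finset.sum_product]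
  push_cast
  refine Finset.sum_congr rfl fun x _ => ?_
  rw [Finset.card_filter]
  push_cast
  refine Finset.sum_congr rfl fun y _ => ?_
  split_ifs <;> rfl

open Classical in
private theorem kc_col {V : Type} (R : V → V → Prop) (X Y : Finset V) :
    (eN R X Y : ℝ) = ∑ y ∈ Y, ((X.filter fun x => R x y).card : ℝ) := by
  unfold eN
  rw [Finset.card_filter, Finset.sum_product_right]
  push_cast
  refine Finset.sum_congr rfl fun x _ => ?_
  rw [Finset.card_filter]
  push_cast
  refine Finset.sum_congr rfl fun y _ => ?_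
  split_ifs <;> rfl

private theorem kc_le {V : Type} (R : V → V → Prop) (X Y : Finset V) :
    (eN R X Y : ℝ) ≤ X.card * Y.card := by
  classical
  unfold eN
  have := Finset.card_filter_le (X ×ˢ Y) (fun p => R p.1 p.2)
  rw [Finset.card_product] at this
  exact_mod_cast this

open Classical in
/-- a lower bound for a sum of counts -/
private theorem kc_sum {V : Type} (X : Finset V) (f : V → ℝ) (t : ℝ)
    (hf : ∀ x ∈ X, 0 ≤ f x) :
    t * ((X.card : ℝ) - (X.filter fun x => f x ≤ t).card) ≤ ∑ x ∈ X, f x := by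
  have h1 := Finset.card_filter_add_card_filter_not (s := X) (fun x => f x ≤ t)
  have h2 : ((X.card : ℝ) - (X.filter fun x => f x ≤ t).card) =
      ((X.filter fun x => ¬ f x ≤ t).card : ℝ) := by
    rw [← h1]; push_cast; ring
  rw [h2]
  calc t * ((X.filter fun x => ¬ f x ≤ t).card : ℝ)
      = ∑ x ∈ X.filter (fun x => ¬ f x ≤ t), t := by
        rw [Finset.sum_const, nsmul_eq_mul]; ring
    _ ≤ ∑ x ∈ X.filter (fun x => ¬ f x ≤ t), f x := by
        refine Finset.sum_le_sum fun x hx => ?_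
        have := (Finset.mem_filter.1 hx).2
        exact (not_le.1 this).le
    _ ≤ ∑ x ∈ X, f x :=
        Finset.sum_le_sum_of_subset_of_nonneg (Finset.filter_subset _ _)
          fun x hx _ => hf x hx

theorem cut_ineq {V : Type} [Fintype V] [DecidableEq V] {R : V → V → Prop} {ℓ : ℕ} {δ η : ℝ}
    {S : ℕ → Finset V} {K : Finset V} {r : V} (hL : Lay R ℓ δ η S K r) (hδ : 0 < δ)
    (hδ1 : δ ≤ 1) (hN : 0 < Fintype.card V) (a b : ℕ) (hab : a < b) (hb : b ≤ ℓ)
    (Z Y : Finset V) (hZ : Z ⊆ S a) (hY : Y ⊆ S b) :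
    (Z.card : ℝ) + Y.card - (S 0).card +
        δ / Fintype.card V * eN R (S a \ Z) (S b \ Y) ≤
      2 / δ / Fintype.card V * eN R Z Y := by
  classical
  have hn : (0 : ℝ) < Fintype.card V := by exact_mod_cast hN
  set n : ℝ := (Fintype.card V : ℝ) with hn'
  have hA : ((S a).card : ℝ) = (S 0).card := by
    exact_mod_cast hL.eqc a (by omega)
  have hB : ((S b).card : ℝ) = (S 0).card := by
    exact_mod_cast hL.eqc b hb
  have hAn : ((S a).card : ℝ) ≤ n := by
    rw [hn']; exact_mod_cast Finset.card_le_univ (S a)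
  have hBn : ((S b).card : ℝ) ≤ n := by
    rw [hn']; exact_mod_cast Finset.card_le_univ (S b)
  have hAZ : (((S a \ Z).card : ℝ)) = (S 0).card - Z.card := by
    rw [Finset.card_sdiff_of_subset hZ, Nat.cast_sub (Finset.card_le_card hZ), hA]
  have hBY : (((S b \ Y).card : ℝ)) = (S 0).card - Y.card := by
    rw [Finset.card_sdiff_of_subset hY, Nat.cast_sub (Finset.card_le_card hY), hB]
  have hAZ0 : (0 : ℝ) ≤ (S a \ Z).card := Nat.cast_nonneg _
  have hBY0 : (0 : ℝ) ≤ (S b \ Y).card := Nat.cast_nonneg _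
  have hZ0 : (0 : ℝ) ≤ Z.card := Nat.cast_nonneg _
  have hY0 : (0 : ℝ) ≤ Y.card := Nat.cast_nonneg _
  have hAZn : (((S a \ Z).card : ℝ)) ≤ n := by
    rw [hn']; exact_mod_cast Finset.card_le_univ _
  have hBYn : (((S b \ Y).card : ℝ)) ≤ n := by
    rw [hn']; exact_mod_cast Finset.card_le_univ _
  have hle := kc_le R (S a \ Z) (S b \ Y)
  set e' : ℝ := (eN R (S a \ Z) (S b \ Y) : ℝ) with he'
  have he'0 : 0 ≤ e' := Nat.cast_nonneg _
  set e : ℝ := (eN R Z Y : ℝ) with he
  -- the exceptional sets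
  set t : ℝ := δ * n with ht
  have ht0 : 0 < t := mul_pos hδ hn
  set Z₀ := Z.filter fun z => ((Y.filter fun y => R z y).card : ℝ) ≤ t with hZ₀
  set Y₀ := Y.filter fun y => ((Z.filter fun z => R z y).card : ℝ) ≤ t with hY₀
  have h1 : t * ((Z.card : ℝ) - Z₀.card) ≤ e := by
    rw [he, kc_row R Z Y]
    exact kc_sum Z _ t fun x _ => Nat.cast_nonneg _
  have h2 : t * ((Y.card : ℝ) - Y₀.card) ≤ e := by
    rw [he, kc_col R Z Y]
    exact kc_sum Y _ t fun x _ => Nat.cast_nonneg _
  have hkey : ∀ x : ℝ, t * x ≤ e → x ≤ e / t := by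
    intro x hx
    rw [le_div_iff₀ ht0]; linarith
  have h3 := hkey _ h1
  have h4 := hkey _ h2
  have hR : 2 / δ / n * e = 2 * (e / t) := by
    rw [ht]; field_simp
  have hdn : δ / n * e' = δ * (e' / n) := by field_simp
  rw [hR, hdn]
  -- bounds for e' / n
  have h5 : e' / n ≤ (S a \ Z).card := by
    rw [div_le_iff₀ hn]
    nlinarith
  have h6 : e' / n ≤ (S b \ Y).card := by
    rw [div_le_iff₀ hn]
    nlinarith
  have h7 : 0 ≤ e' / n := div_nonneg he'0 hn.le
  have h8 : δ * (e' / n) ≤ e' / n := by nlinarith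
  rcases Finset.eq_empty_or_nonempty Z₀ with hz | hz
  · rw [hz, Finset.card_empty] at h3
    push_cast at h3
    have : 0 ≤ e / t := le_trans (by linarith) h3
    linarith
  rcases Finset.eq_empty_or_nonempty Y₀ with hy | hy
  · rw [hy, Finset.card_empty] at h4
    push_cast at h4
    have : 0 ≤ e / t := le_trans (by linarith) h4
    linarith
  have hg := hL.gap a b hab hb Z₀ ((Finset.filter_subset _ _).trans hZ) Y₀
    ((Finset.filter_subset _ _).trans hY) hz hy
    (fun z hz' => by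
      have h := (Finset.mem_filter.1 hz').2
      refine le_trans ?_ h
      have : (Y₀.filter fun y => R z y).card ≤ (Y.filter fun y => R z y).card :=
        Finset.card_le_card (Finset.filter_subset_filter _ (Finset.filter_subset _ _))
      exact_mod_cast this)
    (fun y hy' => by
      have h := (Finset.mem_filter.1 hy').2
      refine le_trans ?_ h
      have : (Z₀.filter fun z => R z y).card ≤ (Z.filter fun z => R z y).card :=
        Finset.card_le_card (Finset.filter_subset_filter _ (Finset.filter_subset _ _))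
      exact_mod_cast this)
  have h9 : δ * (e' / n) ≤ δ * n := by
    refine mul_le_mul_of_nonneg_left (h5.trans hAZn) hδ.le
  have h10 : 0 ≤ δ * n := ht0.le
  rw [← hn'] at hg
  linarith

end Pool.Agent.Lib.TourE
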