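import Pool.Agent.Lib.TourE.Defs
import Pool.Agent.Lib.RobT.Kk

/-!
# Kp: a doubly stochastic kernel between two sets (about 130 lines)

`M = |A| = |B|`, bijections `e : Fin M → A`, `e' : Fin M → B` (e.g. `Finset.equivFinOfCardEq`).
`exists_weights` (RobT.Kk) for the type `Fin M` and the relation `R' i j := R (e i) (e' j)`: a set
`X` of indices corresponds to `Z = e '' X ⊆ A`, its complement to `A \ Z`, etc.;
`eN R' X X' = eN R (e '' X) (e' '' X')` (bijection), `|Z| = |X|`.  It gives `P'` on `Fin M`; put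
`P u v = P' (e⁻¹ u) (e'⁻¹ v)` for `u ∈ A`, `v ∈ B`, and `0` otherwise.  All entries are in `[0, μ]`:
`l ≤ P' ≤ μ` on arcs and `0` otherwise.  Sums over `V` reduce to sums over `A`, `B`.
-/

namespace Pool.Agent.Lib.TourE

open Finset
open Pool.Agent.Lib.RobT (IsTour Arc eN Nb RT)

private theorem kp_eN_map {V W : Type} (R : V → V → Prop) (f g : W ↪ V) (X Y : Finset W) :
    eN (fun i j => R (f i) (g j)) X Y = eN R (X.map f) (Y.map g) := by
  classical
  unfold eN
  have h : ((X.map f) ×ˢ (Y.map g)).filter (fun p => R p.1 p.2) =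
      ((X ×ˢ Y).filter (fun p => R (f p.1) (g p.2))).map (f.prodMap g) := by
    ext ⟨u, v⟩
    simp only [mem_filter, mem_product, mem_map, Function.Embedding.prodMap, Function.Embedding.coeFn_mk, Prod.map,
      Prod.exists, Prod.mk.injEq]
    constructor
    · rintro ⟨⟨⟨a, ha, rfl⟩, ⟨b, hb, rfl⟩⟩, h⟩
      exact ⟨a, b, ⟨⟨ha, hb⟩, h⟩, rfl, rfl⟩
    · rintro ⟨a, b, ⟨⟨ha, hb⟩, h⟩, rfl, rfl⟩
      exact ⟨⟨⟨a, ha, rfl⟩, ⟨b, hb, rfl⟩⟩, h⟩
  have h2 := congrArg Finset.card h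
  rw [card_map] at h2
  convert h2.symm using 2

private theorem kp_compl {V : Type} [DecidableEq V] {A : Finset V} {M : ℕ} (f : Fin M ↪ V)
    (hf : univ.map f = A) (X : Finset (Fin M)) : Xᶜ.map f = A \ X.map f := by
  rw [← hf]
  ext v
  simp only [mem_map, mem_compl, mem_sdiff, mem_univ, true_and]
  constructor
  · rintro ⟨i, hi, rfl⟩
    refine ⟨⟨i, rfl⟩, ?_⟩
    rintro ⟨j, hj, hji⟩
    rw [f.injective hji] at hj
    exact hi hj
  · rintro ⟨⟨i, rfl⟩, h⟩
    exact ⟨i, fun hi => h ⟨i, hi, rfl⟩, rfl⟩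

theorem pair_kernel {V : Type} [Fintype V] [DecidableEq V] (R : V → V → Prop)
    (A B : Finset V) (M : ℕ) (hA : A.card = M) (hB : B.card = M) (l μ : ℝ) (h0 : 0 ≤ l)
    (hlμ : l ≤ μ)
    (h : ∀ Z, Z ⊆ A → ∀ Y, Y ⊆ B →
      (Z.card : ℝ) + Y.card - M + l * eN R (A \ Z) (B \ Y) ≤ μ * eN R Z Y) :
    ∃ P : V → V → ℝ, (∀ u ∈ A, ∀ v ∈ B, R u v → l ≤ P u v) ∧ (∀ u v, P u v ≤ μ) ∧
      (∀ u v, 0 ≤ P u v) ∧ (∀ u v, P u v ≠ 0 → u ∈ A ∧ v ∈ B ∧ R u v) ∧
      (∀ u ∈ A, ∑ v, P u v = 1) ∧ (∀ v ∈ B, ∑ u, P u v = 1) := by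
  classical
  set e : A ≃ Fin M := Finset.equivFinOfCardEq hA with he
  set e' : B ≃ Fin M := Finset.equivFinOfCardEq hB with he'
  let f : Fin M ↪ V := e.symm.toEmbedding.trans (Function.Embedding.subtype _)
  let g : Fin M ↪ V := e'.symm.toEmbedding.trans (Function.Embedding.subtype _)
  have hfe : ∀ i, f i = (e.symm i : V) := fun i => rfl
  have hge : ∀ i, g i = (e'.symm i : V) := fun i => rfl
  have hfA : univ.map f = A := by
    ext v
    simp only [mem_map, mem_univ, true_and]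
    constructor
    · rintro ⟨i, rfl⟩
      exact (e.symm i).2
    · intro hv
      refine ⟨e ⟨v, hv⟩, ?_⟩
      rw [hfe, e.symm_apply_apply]
  have hgB : univ.map g = B := by
    ext v
    simp only [mem_map, mem_univ, true_and]
    constructor
    · rintro ⟨i, rfl⟩
      exact (e'.symm i).2
    · intro hv
      refine ⟨e' ⟨v, hv⟩, ?_⟩
      rw [hge, e'.symm_apply_apply]
  have hsub : ∀ X : Finset (Fin M), X.map f ⊆ A := by
    intro X
    rw [← hfA]
    exact map_subset_map.2 (subset_univ X)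
  have hsub' : ∀ X : Finset (Fin M), X.map g ⊆ B := by
    intro X
    rw [← hgB]
    exact map_subset_map.2 (subset_univ X)
  obtain ⟨P', hP1, hP2, hP3, hP4⟩ := Pool.Agent.Lib.RobT.exists_weights
    (fun i j : Fin M => R (f i) (g j)) l μ h0 hlμ (by
      intro X Z
      rw [kp_eN_map, kp_eN_map, kp_compl f hfA, kp_compl g hgB, Fintype.card_fin]
      have h1 := h (X.map f) (hsub X) (Z.map g) (hsub' Z)
      rw [card_map, card_map] at h1
      exact h1)
  have hnn : ∀ i j, 0 ≤ P' i j := by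
    intro i j
    by_cases hR : R (f i) (g j)
    · exact h0.trans (hP1 i j hR).1
    · rw [hP2 i j hR]
  have hle : ∀ i j, P' i j ≤ μ := by
    intro i j
    by_cases hR : R (f i) (g j)
    · exact (hP1 i j hR).2
    · rw [hP2 i j hR]
      exact h0.trans hlμ
  set P : V → V → ℝ := fun u v =>
    if h : u ∈ A ∧ v ∈ B then P' (e ⟨u, h.1⟩) (e' ⟨v, h.2⟩) else 0 with hPdef
  have hPin : ∀ u v (hu : u ∈ A) (hv : v ∈ B), P u v = P' (e ⟨u, hu⟩) (e' ⟨v, hv⟩) := by
    intro u v hu hv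
    rw [hPdef]
    exact dif_pos ⟨hu, hv⟩
  have hPout : ∀ u v, ¬ (u ∈ A ∧ v ∈ B) → P u v = 0 := by
    intro u v huv
    rw [hPdef]
    exact dif_neg huv
  have hfu : ∀ u (hu : u ∈ A), f (e ⟨u, hu⟩) = u := by
    intro u hu
    rw [hfe, e.symm_apply_apply]
  have hgv : ∀ v (hv : v ∈ B), g (e' ⟨v, hv⟩) = v := by
    intro v hv
    rw [hge, e'.symm_apply_apply]
  have hfg : ∀ i j, P (f i) (g j) = P' i j := by
    intro i j
    rw [hPin (f i) (g j) (e.symm i).2 (e'.symm j).2]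
    congr 1
    · rw [show (⟨f i, (e.symm i).2⟩ : A) = e.symm i from rfl, e.apply_symm_apply]
    · rw [show (⟨g j, (e'.symm j).2⟩ : B) = e'.symm j from rfl, e'.apply_symm_apply]
  refine ⟨P, ?_, ?_, ?_, ?_, ?_, ?_⟩
  · intro u hu v hv hR
    rw [hPin u v hu hv]
    refine (hP1 _ _ ?_).1
    rw [hfu u hu, hgv v hv]
    exact hR
  · intro u v
    by_cases huv : u ∈ A ∧ v ∈ B
    · rw [hPin u v huv.1 huv.2]
      exact hle _ _
    · rw [hPout u v huv]
      exact h0.trans hlμ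
  · intro u v
    by_cases huv : u ∈ A ∧ v ∈ B
    · rw [hPin u v huv.1 huv.2]
      exact hnn _ _
    · rw [hPout u v huv]
  · intro u v hne
    by_cases huv : u ∈ A ∧ v ∈ B
    · refine ⟨huv.1, huv.2, ?_⟩
      by_contra hR
      apply hne
      rw [hPin u v huv.1 huv.2]
      apply hP2
      rw [hfu u huv.1, hgv v huv.2]
      exact hR
    · exact absurd (hPout u v huv) hne
  · intro u hu
    have h1 : ∑ v, P u v = ∑ v ∈ B, P u v := by
      symm
      apply sum_subset (subset_univ B)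
      intro v _ hv
      exact hPout u v fun h => hv h.2
    rw [h1, ← hgB, sum_map]
    have h2 : ∀ j, P u (g j) = P' (e ⟨u, hu⟩) j := by
      intro j
      have := hfg (e ⟨u, hu⟩) j
      rwa [hfu u hu] at this
    rw [sum_congr rfl fun j _ => h2 j]
    exact hP3 _
  · intro v hv
    have h1 : ∑ u, P u v = ∑ u ∈ A, P u v := by
      symm
      apply sum_subset (subset_univ A)
      intro u _ hu
      exact hPout u v fun h => hu h.1
    rw [h1, ← hfA, sum_map]
    have h2 : ∀ i, P (f i) v = P' i (e' ⟨v, hv⟩) := by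
      intro i
      have := hfg i (e' ⟨v, hv⟩)
      rwa [hgv v hv] at this
    rw [sum_congr rfl fun i _ => h2 i]
    exact hP4 _

end Pool.Agent.Lib.TourE
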