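import Pool.Agent.Lib.TourE.Kc
import Pool.Agent.Lib.TourE.Kp

/-!
# Ke: the kernels between the layers (about 90 lines)

For `a < b ≤ ℓ`: `pair_kernel` for `A = S a`, `B = S b`, `M = |S 0|`, `l = δ/n`, `μ = 2/δ/n`
(`δ/n ≤ 2/δ/n` as `δ ≤ 1`), `cut_ineq`.  Call it `P a b`.  `Q a b u v = P a b u v` if `a < b ≤ ℓ`,
`= P b a v u` if `b < a ≤ ℓ`, `= 0` otherwise.  (`2/δ/n = (2/δ)/n`.)
-/

namespace Pool.Agent.Lib.TourE

open Finset
open Pool.Agent.Lib.RobT (IsTour Arc eN Nb RT)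

theorem exists_KE {V : Type} [Fintype V] [DecidableEq V] {R : V → V → Prop} {ℓ : ℕ} {δ η : ℝ}
    {S : ℕ → Finset V} {K : Finset V} {r : V} (hL : Lay R ℓ δ η S K r) (hδ : 0 < δ)
    (hδ1 : δ ≤ 1) (hN : 0 < Fintype.card V) :
    ∃ Q : ℕ → ℕ → V → V → ℝ, KE R ℓ S δ (2 / δ) Q := by
  have hn : (0 : ℝ) < Fintype.card V := by exact_mod_cast hN
  have h0 : 0 ≤ δ / (Fintype.card V : ℝ) := (div_pos hδ hn).le
  have hlμ : δ / (Fintype.card V : ℝ) ≤ 2 / δ / Fintype.card V := by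
    refine div_le_div_of_nonneg_right ?_ hn.le
    rw [le_div_iff₀ hδ]
    nlinarith
  have h0' : 0 ≤ 2 / δ / (Fintype.card V : ℝ) := h0.trans hlμ
  have hex : ∀ a b, ∃ P : V → V → ℝ, a < b → b ≤ ℓ →
      (∀ u ∈ S a, ∀ v ∈ S b, R u v → δ / (Fintype.card V : ℝ) ≤ P u v) ∧
      (∀ u v, P u v ≤ 2 / δ / (Fintype.card V : ℝ)) ∧
      (∀ u v, 0 ≤ P u v) ∧ (∀ u v, P u v ≠ 0 → u ∈ S a ∧ v ∈ S b ∧ R u v) ∧
      (∀ u ∈ S a, ∑ v, P u v = 1) ∧ (∀ v ∈ S b, ∑ u, P u v = 1) := by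
    intro a b
    by_cases hab : a < b ∧ b ≤ ℓ
    · obtain ⟨P, hP⟩ := pair_kernel R (S a) (S b) (S 0).card
        (hL.eqc a (hab.1.le.trans hab.2)) (hL.eqc b hab.2) (δ / (Fintype.card V : ℝ))
        (2 / δ / (Fintype.card V : ℝ)) h0 hlμ
        fun Z hZ Y hY => cut_ineq hL hδ hδ1 hN a b hab.1 hab.2 Z Y hZ hY
      exact ⟨P, fun _ _ => hP⟩
    · exact ⟨0, fun h1 h2 => absurd ⟨h1, h2⟩ hab⟩
  choose P hP using hex
  refine ⟨fun a b u v => if a < b ∧ b ≤ ℓ then P a b u v else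
    if b < a ∧ a ≤ ℓ then P b a v u else 0, ?_, ?_, ?_, ?_, ?_, ?_, ?_⟩
  · intro a b u v
    split_ifs with h1 h2
    · exact (hP a b h1.1 h1.2).2.2.1 u v
    · exact (hP b a h2.1 h2.2).2.2.1 v u
    · exact le_rfl
  · intro a b u v
    split_ifs with h1 h2
    · exact (hP a b h1.1 h1.2).2.1 u v
    · exact (hP b a h2.1 h2.2).2.1 v u
    · exact h0'
  · intro a b ha hb hab u hu v hv h
    rcases lt_or_gt_of_ne hab with h1 | h1
    · rw [if_pos ⟨h1, hb⟩]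
      rw [decide_eq_true h1] at h
      rcases h with ⟨_, h⟩ | ⟨h, _⟩
      · exact (hP a b h1 hb).1 u hu v hv h
      · exact absurd h (by decide)
    · rw [if_neg fun h2 => absurd h2.1 (Nat.lt_asymm h1), if_pos ⟨h1, ha⟩]
      rw [decide_eq_false (Nat.lt_asymm h1)] at h
      rcases h with ⟨h, _⟩ | ⟨_, h⟩
      · exact absurd h (by decide)
      · exact (hP b a h1 ha).1 v hv u hu h
  · intro a b u v h
    split_ifs at h with h1 h2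
    · obtain ⟨h3, h4, h5⟩ := (hP a b h1.1 h1.2).2.2.2.1 u v h
      exact ⟨h3, h4, Or.inl ⟨decide_eq_true h1.1, h5⟩⟩
    · obtain ⟨h3, h4, h5⟩ := (hP b a h2.1 h2.2).2.2.2.1 v u h
      exact ⟨h4, h3, Or.inr ⟨decide_eq_false (Nat.lt_asymm h2.1), h5⟩⟩
    · exact absurd rfl h
  · intro a b u v h
    rw [if_neg fun h1 => h ⟨h1.1.le.trans h1.2, h1.2, h1.1.ne⟩,
      if_neg fun h1 => h ⟨h1.2, h1.1.le.trans h1.2, h1.1.ne'⟩]
  · intro a b ha hb hab u hu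
    rcases lt_or_gt_of_ne hab with h1 | h1
    · simp only [if_pos (⟨h1, hb⟩ : a < b ∧ b ≤ ℓ)]
      exact (hP a b h1 hb).2.2.2.2.1 u hu
    · have h2 : ¬ (a < b ∧ b ≤ ℓ) := fun h2 => absurd h2.1 (Nat.lt_asymm h1)
      simp only [if_neg h2, if_pos (⟨h1, ha⟩ : b < a ∧ a ≤ ℓ)]
      exact (hP b a h1 ha).2.2.2.2.2 u hu
  · intro a b u v
    by_cases h1 : a < b ∧ b ≤ ℓ
    · have h2 : ¬ (b < a ∧ a ≤ ℓ) := fun h2 => absurd h2.1 (Nat.lt_asymm h1.1)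
      rw [if_pos h1, if_neg h2, if_pos h1]
    · rw [if_neg h1]
      by_cases h2 : b < a ∧ a ≤ ℓ
      · rw [if_pos h2, if_pos h2]
      · rw [if_neg h2, if_neg h2, if_neg h1]

end Pool.Agent.Lib.TourE
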