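import Pool.Agent.Lib.TourE.Defs

/-!
# Md: median orders (about 220 lines)

`n = |V|`.  For injective `κ : V → ℕ` let `fw κ` = the number of pairs `(u, v)` with `κ u < κ v` and
`R u v`.  It is at most `n²`, so there is an injective `κ₀` such that `fw κ ≤ fw κ₀` for all
injective
`κ` (there are injective maps, as `V` is finite; e.g. well-founded maximum of a bounded set of
naturals, or only consider the finitely many orders).  Put `pos v` = the number of `u` with
`κ₀ u < κ₀ v`.  Then `κ₀ u < κ₀ v ↔ pos u < pos v`, so `pos` is injective, `pos v < n` (`v` itself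
is
not counted), `fw pos = fw κ₀` is maximal, and `pos` is a bijection onto `[0, n)` (injective, same
cardinality).
BACK.  `k ≤ pos v`.  `κ' v = 2 k`, `κ' u = 2 pos u + 1` for `u ≠ v`: injective, and the relative
order
of a pair `(u, u')` changes only if `u' = v` and `k ≤ pos u < pos v` (then `κ' v < κ' u`).  So
`fw κ' = fw pos - #{u | k ≤ pos u < pos v, R u v} + #{u | k ≤ pos u < pos v, R v u}`, and by
maximality `#{… R v u} ≤ #{… R u v}`.  Every `u` in the segment satisfies exactly one of `R u v`,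
`R v u`, and the segment has `pos v - k` elements (bijection): `pos v - k ≤ 2 #{… R u v}`.
FORW.  `pos v ≤ k < n`: the same with `κ' v = 2 k + 2`: exactly the pairs `(v, w)` with
`pos v < pos w ≤ k` change; this segment has `k - pos v` elements.
CUT.  `κ' u = pos u` for `u ∈ Y`, `κ' u = n + pos u` for `u ∉ Y`: injective; exactly the pairs
`(x, y)` with `x ∉ Y`, `y ∈ Y`, `pos x < pos y` change.  So
`#{(x, y) | x ∉ Y, y ∈ Y, pos x < pos y, R y x} ≤ #{(x, y) | x ∉ Y, y ∈ Y, pos x < pos y, R x y}`.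
The right side is at most `eN R Z Y + #{(x, y) | x ∉ Y ∪ Z, y ∈ Y}`
`= eN R Z Y + (n - |Z| - |Y|) |Y|`, the left side at least `#{(z, y) ∈ Z × Y | pos z < pos y, R y
z}`.
Finally `#{(z, y) ∈ Z × Y | pos z < pos y} ≤ #{… R z y} + #{… R y z}` (`z ≠ y` as `Y`, `Z` are
disjoint) `≤ eN R Z Y + eN R Z Y + (n - |Z| - |Y|) |Y|`.
-/

namespace Pool.Agent.Lib.TourE

open Finset
open Pool.Agent.Lib.RobT (IsTour Arc eN Nb RT)

open Classical in
private noncomputable def mdFw {V : Type} [Fintype V] (R : V → V → Prop) (κ : V → ℕ) : ℕ :=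
  ((univ : Finset (V × V)).filter fun p => κ p.1 < κ p.2 ∧ R p.1 p.2).card

open Classical in
private theorem md_exch {V : Type} [Fintype V] (R : V → V → Prop) (pos κ : V → ℕ)
    (hp : Function.Injective pos) (hκ : Function.Injective κ) :
    mdFw R κ + ((univ : Finset (V × V)).filter fun p =>
      (pos p.1 < pos p.2 ∧ κ p.2 < κ p.1) ∧ R p.1 p.2).card =
    mdFw R pos + ((univ : Finset (V × V)).filter fun p =>
      (pos p.1 < pos p.2 ∧ κ p.2 < κ p.1) ∧ R p.2 p.1).card := by
  have h1 : mdFw R pos = ((univ : Finset (V × V)).filter fun p =>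
      (pos p.1 < pos p.2 ∧ κ p.1 < κ p.2) ∧ R p.1 p.2).card +
      ((univ : Finset (V × V)).filter fun p =>
      (pos p.1 < pos p.2 ∧ κ p.2 < κ p.1) ∧ R p.1 p.2).card := by
    rw [mdFw, ← card_union_of_disjoint]
    · congr 1
      ext ⟨x, y⟩
      simp only [mem_filter, mem_univ, true_and, mem_union]
      constructor
      · rintro ⟨h, hr⟩
        rcases lt_trichotomy (κ x) (κ y) with h' | h' | h'
        · exact Or.inl ⟨⟨h, h'⟩, hr⟩
        · rw [hκ h'] at h
          exact absurd h (lt_irrefl _)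
        · exact Or.inr ⟨⟨h, h'⟩, hr⟩
      · rintro (⟨⟨h, _⟩, hr⟩ | ⟨⟨h, _⟩, hr⟩)
        · exact ⟨h, hr⟩
        · exact ⟨h, hr⟩
    · rw [disjoint_left]
      intro p h h'
      exact absurd (mem_filter.1 h).2.1.2 (not_lt_of_gt (mem_filter.1 h').2.1.2)
  have h2 : mdFw R κ = ((univ : Finset (V × V)).filter fun p =>
      (pos p.1 < pos p.2 ∧ κ p.1 < κ p.2) ∧ R p.1 p.2).card +
      ((univ : Finset (V × V)).filter fun p =>
      (κ p.1 < κ p.2 ∧ pos p.2 < pos p.1) ∧ R p.1 p.2).card := by
    rw [mdFw, ← card_union_of_disjoint]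
    · congr 1
      ext ⟨x, y⟩
      simp only [mem_filter, mem_univ, true_and, mem_union]
      constructor
      · rintro ⟨h, hr⟩
        rcases lt_trichotomy (pos x) (pos y) with h' | h' | h'
        · exact Or.inl ⟨⟨h', h⟩, hr⟩
        · rw [hp h'] at h
          exact absurd h (lt_irrefl _)
        · exact Or.inr ⟨⟨h, h'⟩, hr⟩
      · rintro (⟨⟨_, h⟩, hr⟩ | ⟨⟨h, _⟩, hr⟩)
        · exact ⟨h, hr⟩
        · exact ⟨h, hr⟩
    · rw [disjoint_left]
      intro p h h'
      exact absurd (mem_filter.1 h).2.1.1 (not_lt_of_gt (mem_filter.1 h').2.1.2)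
  have h3 : ((univ : Finset (V × V)).filter fun p =>
      (κ p.1 < κ p.2 ∧ pos p.2 < pos p.1) ∧ R p.1 p.2).card =
      ((univ : Finset (V × V)).filter fun p =>
      (pos p.1 < pos p.2 ∧ κ p.2 < κ p.1) ∧ R p.2 p.1).card := by
    refine card_bij (fun p _ => p.swap) ?_ ?_ ?_
    · rintro ⟨x, y⟩ h
      rw [mem_filter] at h ⊢
      exact ⟨mem_univ _, ⟨h.2.1.2, h.2.1.1⟩, h.2.2⟩
    · intro p _ q _ h
      exact Prod.swap_injective h
    · rintro ⟨x, y⟩ h
      rw [mem_filter] at h
      refine ⟨(y, x), ?_, rfl⟩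
      rw [mem_filter]
      exact ⟨mem_univ _, ⟨h.2.1.2, h.2.1.1⟩, h.2.2⟩
  omega

private theorem md_max {V : Type} [Fintype V] (R : V → V → Prop) :
    ∃ κ : V → ℕ, Function.Injective κ ∧
      ∀ κ' : V → ℕ, Function.Injective κ' → mdFw R κ' ≤ mdFw R κ := by
  classical
  have hb : ∀ κ : V → ℕ, mdFw R κ ≤ (univ : Finset (V × V)).card := fun κ => by
    unfold mdFw
    exact card_le_card (filter_subset _ _)
  let S : Finset ℕ := (range ((univ : Finset (V × V)).card + 1)).filter fun m =>
    ∃ κ : V → ℕ, Function.Injective κ ∧ mdFw R κ = m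
  have hS : S.Nonempty := by
    refine ⟨mdFw R fun v => (Fintype.equivFin V v : ℕ), ?_⟩
    rw [mem_filter, mem_range]
    refine ⟨Nat.lt_succ_of_le (hb _), _, ?_, rfl⟩
    intro u v h
    exact (Fintype.equivFin V).injective (Fin.ext h)
  obtain ⟨m, hm, hmax⟩ := S.exists_max_image id hS
  obtain ⟨κ, hκ, rfl⟩ := (mem_filter.1 hm).2
  refine ⟨κ, hκ, fun κ' h' => ?_⟩
  exact hmax _ (mem_filter.2 ⟨mem_range.2 (Nat.lt_succ_of_le (hb _)), κ', h', rfl⟩)

/-- A maximiser with positions `0, …, n - 1`. -/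
private theorem md_pos {V : Type} [Fintype V] (R : V → V → Prop) :
    ∃ pos : V → ℕ, Function.Injective pos ∧ (∀ v, pos v < Fintype.card V) ∧
      ∀ κ' : V → ℕ, Function.Injective κ' → mdFw R κ' ≤ mdFw R pos := by
  classical
  obtain ⟨κ, hκ, hmax⟩ := md_max R
  have key : ∀ u v, (univ.filter fun x => κ x < κ u).card < (univ.filter fun x => κ x < κ v).card ↔
      κ u < κ v := by
    intro u v
    constructor
    · intro h
      by_contra hc
      push Not at hc
      refine absurd h (not_lt_of_ge (card_le_card ?_))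
      intro x hx
      rw [mem_filter] at hx ⊢
      exact ⟨hx.1, lt_of_lt_of_le hx.2 hc⟩
    · intro h
      refine card_lt_card ?_
      rw [ssubset_iff_of_subset]
      · exact ⟨u, mem_filter.2 ⟨mem_univ _, h⟩, fun hu => lt_irrefl _ (mem_filter.1 hu).2⟩
      · intro x hx
        rw [mem_filter] at hx ⊢
        exact ⟨hx.1, hx.2.trans h⟩
  have hfw : mdFw R (fun v => (univ.filter fun x => κ x < κ v).card) = mdFw R κ := by
    unfold mdFw
    congr 1
    ext ⟨x, y⟩
    simp only [mem_filter, mem_univ, true_and]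
    rw [key]
  refine ⟨fun v => (univ.filter fun x => κ x < κ v).card, ?_, ?_, ?_⟩
  · intro u v h
    have h' : (univ.filter fun x => κ x < κ u).card = (univ.filter fun x => κ x < κ v).card := h
    rcases lt_trichotomy (κ u) (κ v) with h1 | h1 | h1
    · have := (key u v).2 h1
      omega
    · exact hκ h1
    · have := (key v u).2 h1
      omega
  · intro v
    refine card_lt_univ_of_notMem (x := v) ?_
    intro hv
    exact lt_irrefl _ (mem_filter.1 hv).2
  · intro κ' h'
    rw [hfw]
    exact hmax κ' h'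

private theorem md_seg {V : Type} [Fintype V] (pos : V → ℕ) (hp : Function.Injective pos)
    (hlt : ∀ v, pos v < Fintype.card V) (k m : ℕ) (hm : m ≤ Fintype.card V) :
    (univ.filter fun u => k ≤ pos u ∧ pos u < m).card = m - k := by
  classical
  have h1 : (univ : Finset V).image pos = range (Fintype.card V) := by
    refine eq_of_subset_of_card_le ?_ ?_
    · intro x hx
      obtain ⟨v, _, rfl⟩ := mem_image.1 hx
      exact mem_range.2 (hlt v)
    · rw [card_image_of_injective _ hp, card_range, card_univ]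
  have h2 : (univ.filter fun u => k ≤ pos u ∧ pos u < m).image pos = Ico k m := by
    ext x
    rw [mem_image, mem_Ico]
    constructor
    · rintro ⟨v, hv, rfl⟩
      exact (mem_filter.1 hv).2
    · intro hx
      have hx' : x ∈ (univ : Finset V).image pos := by
        rw [h1, mem_range]
        omega
      obtain ⟨v, _, rfl⟩ := mem_image.1 hx'
      exact ⟨v, mem_filter.2 ⟨mem_univ _, hx⟩, rfl⟩
  rw [← Nat.card_Ico, ← h2, card_image_of_injective _ hp]

private theorem md_split {V : Type} [Fintype V] [DecidableEq V] {R : V → V → Prop}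
    (hR : IsTour R) (v : V) (S : Finset V) (hv : v ∉ S) [DecidablePred fun u => R u v]
    [DecidablePred fun u => R v u] :
    (S.filter fun u => R u v).card + (S.filter fun u => R v u).card = S.card := by
  rw [← card_union_of_disjoint]
  · congr 1
    ext u
    rw [mem_union, mem_filter, mem_filter]
    constructor
    · rintro (h | h)
      · exact h.1
      · exact h.1
    · intro hu
      rcases hR.tot u v (fun h => hv (h ▸ hu)) with h | h
      · exact Or.inl ⟨hu, h⟩
      · exact Or.inr ⟨hu, h⟩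
  · rw [disjoint_left]
    intro u h h'
    exact hR.asym _ _ (mem_filter.1 h).2 (mem_filter.1 h').2

open Classical in
private theorem md_back {V : Type} [Fintype V] {R : V → V → Prop} (hR : IsTour R)
    (pos : V → ℕ) (hp : Function.Injective pos) (hlt : ∀ v, pos v < Fintype.card V)
    (hmax : ∀ κ' : V → ℕ, Function.Injective κ' → mdFw R κ' ≤ mdFw R pos)
    (v : V) (k : ℕ) (hk : k ≤ pos v) :
    pos v ≤ k + 2 * (univ.filter fun u => k ≤ pos u ∧ pos u < pos v ∧ R u v).card := by
  let κ : V → ℕ := fun u => if u = v then 2 * k else 2 * pos u + 1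
  have kv : κ v = 2 * k := if_pos rfl
  have ku : ∀ u, u ≠ v → κ u = 2 * pos u + 1 := fun u hu => if_neg hu
  have hκ : Function.Injective κ := by
    intro x y h
    by_cases hx : x = v
    · by_cases hy : y = v
      · rw [hx, hy]
      · rw [hx, kv, ku y hy] at h
        omega
    · by_cases hy : y = v
      · rw [hy, kv, ku x hx] at h
        omega
      · rw [ku x hx, ku y hy] at h
        exact hp (by omega)
  have hD : ∀ x y, (pos x < pos y ∧ κ y < κ x) ↔ (y = v ∧ k ≤ pos x ∧ pos x < pos v) := by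
    intro x y
    constructor
    · rintro ⟨h, h'⟩
      by_cases hy : y = v
      · have hx : x ≠ v := by
          rintro rfl
          rw [hy] at h
          exact lt_irrefl _ h
        rw [hy, kv, ku x hx] at h'
        rw [hy] at h
        exact ⟨hy, by omega, h⟩
      · by_cases hx : x = v
        · rw [hx, kv, ku y hy] at h'
          rw [hx] at h
          omega
        · rw [ku x hx, ku y hy] at h'
          omega
    · rintro ⟨rfl, h, h'⟩
      have hx : x ≠ y := by
        rintro rfl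
        exact lt_irrefl _ h'
      refine ⟨h', ?_⟩
      rw [kv, ku x hx]
      omega
  have hA : ((univ : Finset (V × V)).filter fun p =>
      (pos p.1 < pos p.2 ∧ κ p.2 < κ p.1) ∧ R p.1 p.2).card =
      (univ.filter fun u => k ≤ pos u ∧ pos u < pos v ∧ R u v).card := by
    symm
    refine card_bij (fun u _ => (u, v)) ?_ ?_ ?_
    · intro u hu
      rw [mem_filter] at hu ⊢
      exact ⟨mem_univ _, (hD u v).2 ⟨rfl, hu.2.1, hu.2.2.1⟩, hu.2.2.2⟩
    · intro u _ u' _ h
      exact (Prod.mk.inj h).1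
    · rintro ⟨x, y⟩ h
      rw [mem_filter] at h
      obtain ⟨rfl, h1, h2⟩ := (hD x y).1 h.2.1
      exact ⟨x, mem_filter.2 ⟨mem_univ _, h1, h2, h.2.2⟩, rfl⟩
  have hB : ((univ : Finset (V × V)).filter fun p =>
      (pos p.1 < pos p.2 ∧ κ p.2 < κ p.1) ∧ R p.2 p.1).card =
      (univ.filter fun u => k ≤ pos u ∧ pos u < pos v ∧ R v u).card := by
    symm
    refine card_bij (fun u _ => (u, v)) ?_ ?_ ?_
    · intro u hu
      rw [mem_filter] at hu ⊢
      exact ⟨mem_univ _, (hD u v).2 ⟨rfl, hu.2.1, hu.2.2.1⟩, hu.2.2.2⟩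
    · intro u _ u' _ h
      exact (Prod.mk.inj h).1
    · rintro ⟨x, y⟩ h
      rw [mem_filter] at h
      obtain ⟨rfl, h1, h2⟩ := (hD x y).1 h.2.1
      exact ⟨x, mem_filter.2 ⟨mem_univ _, h1, h2, h.2.2⟩, rfl⟩
  have h1 := md_exch R pos κ hp hκ
  have h2 := hmax κ hκ
  have h3 := md_seg pos hp hlt k (pos v) (hlt v).le
  have h4 := md_split hR v (univ.filter fun u => k ≤ pos u ∧ pos u < pos v)
    (fun h => lt_irrefl _ (mem_filter.1 h).2.2)
  rw [filter_filter, filter_filter] at h4
  simp only [and_assoc] at h4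
  rw [hA, hB] at h1
  omega

open Classical in
private theorem md_forw {V : Type} [Fintype V] {R : V → V → Prop} (hR : IsTour R)
    (pos : V → ℕ) (hp : Function.Injective pos) (hlt : ∀ v, pos v < Fintype.card V)
    (hmax : ∀ κ' : V → ℕ, Function.Injective κ' → mdFw R κ' ≤ mdFw R pos)
    (v : V) (k : ℕ) (hk : pos v ≤ k) (hkn : k < Fintype.card V) :
    k ≤ pos v + 2 * (univ.filter fun w => pos v < pos w ∧ pos w ≤ k ∧ R v w).card := by
  let κ : V → ℕ := fun u => if u = v then 2 * k + 2 else 2 * pos u + 1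
  have kv : κ v = 2 * k + 2 := if_pos rfl
  have ku : ∀ u, u ≠ v → κ u = 2 * pos u + 1 := fun u hu => if_neg hu
  have hκ : Function.Injective κ := by
    intro x y h
    by_cases hx : x = v
    · by_cases hy : y = v
      · rw [hx, hy]
      · rw [hx, kv, ku y hy] at h
        omega
    · by_cases hy : y = v
      · rw [hy, kv, ku x hx] at h
        omega
      · rw [ku x hx, ku y hy] at h
        exact hp (by omega)
  have hD : ∀ x y, (pos x < pos y ∧ κ y < κ x) ↔ (x = v ∧ pos v < pos y ∧ pos y ≤ k) := by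
    intro x y
    constructor
    · rintro ⟨h, h'⟩
      by_cases hx : x = v
      · have hy : y ≠ v := by
          rintro rfl
          rw [hx] at h
          exact lt_irrefl _ h
        rw [hx, kv, ku y hy] at h'
        rw [hx] at h
        exact ⟨hx, h, by omega⟩
      · by_cases hy : y = v
        · rw [hy, kv, ku x hx] at h'
          rw [hy] at h
          omega
        · rw [ku x hx, ku y hy] at h'
          omega
    · rintro ⟨rfl, h, h'⟩
      have hy : y ≠ x := by
        rintro rfl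
        exact lt_irrefl _ h
      refine ⟨h, ?_⟩
      rw [kv, ku y hy]
      omega
  have hA : ((univ : Finset (V × V)).filter fun p =>
      (pos p.1 < pos p.2 ∧ κ p.2 < κ p.1) ∧ R p.1 p.2).card =
      (univ.filter fun w => pos v < pos w ∧ pos w ≤ k ∧ R v w).card := by
    symm
    refine card_bij (fun w _ => (v, w)) ?_ ?_ ?_
    · intro w hw
      rw [mem_filter] at hw ⊢
      exact ⟨mem_univ _, (hD v w).2 ⟨rfl, hw.2.1, hw.2.2.1⟩, hw.2.2.2⟩
    · intro u _ u' _ h
      exact (Prod.mk.inj h).2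
    · rintro ⟨x, y⟩ h
      rw [mem_filter] at h
      obtain ⟨rfl, h1, h2⟩ := (hD x y).1 h.2.1
      exact ⟨y, mem_filter.2 ⟨mem_univ _, h1, h2, h.2.2⟩, rfl⟩
  have hB : ((univ : Finset (V × V)).filter fun p =>
      (pos p.1 < pos p.2 ∧ κ p.2 < κ p.1) ∧ R p.2 p.1).card =
      (univ.filter fun w => pos v < pos w ∧ pos w ≤ k ∧ R w v).card := by
    symm
    refine card_bij (fun w _ => (v, w)) ?_ ?_ ?_
    · intro w hw
      rw [mem_filter] at hw ⊢
      exact ⟨mem_univ _, (hD v w).2 ⟨rfl, hw.2.1, hw.2.2.1⟩, hw.2.2.2⟩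
    · intro u _ u' _ h
      exact (Prod.mk.inj h).2
    · rintro ⟨x, y⟩ h
      rw [mem_filter] at h
      obtain ⟨rfl, h1, h2⟩ := (hD x y).1 h.2.1
      exact ⟨y, mem_filter.2 ⟨mem_univ _, h1, h2, h.2.2⟩, rfl⟩
  have h1 := md_exch R pos κ hp hκ
  have h2 := hmax κ hκ
  have h3 := md_seg pos hp hlt (pos v + 1) (k + 1) hkn
  have h4 := md_split hR v (univ.filter fun u => pos v < pos u ∧ pos u ≤ k)
    (fun h => lt_irrefl _ (mem_filter.1 h).2.1)
  rw [filter_filter, filter_filter] at h4
  simp only [and_assoc] at h4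
  have h5 : (univ.filter fun u => pos v + 1 ≤ pos u ∧ pos u < k + 1) =
      univ.filter fun u => pos v < pos u ∧ pos u ≤ k := by
    refine filter_congr fun u _ => ?_
    omega
  rw [h5] at h3
  rw [hA, hB] at h1
  omega

open Classical in
private theorem md_cut {V : Type} [Fintype V] {R : V → V → Prop} (hR : IsTour R)
    (pos : V → ℕ) (hp : Function.Injective pos) (hlt : ∀ v, pos v < Fintype.card V)
    (hmax : ∀ κ' : V → ℕ, Function.Injective κ' → mdFw R κ' ≤ mdFw R pos)
    (Y Z : Finset V) (hYZ : Disjoint Y Z) :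
    (((Z ×ˢ Y).filter fun p => pos p.1 < pos p.2).card : ℝ) ≤
      2 * eN R Z Y + ((Fintype.card V : ℝ) - Z.card - Y.card) * Y.card := by
  let κ : V → ℕ := fun u => if u ∈ Y then pos u else Fintype.card V + pos u
  have kY : ∀ u, u ∈ Y → κ u = pos u := fun u hu => if_pos hu
  have kn : ∀ u, u ∉ Y → κ u = Fintype.card V + pos u := fun u hu => if_neg hu
  have hκ : Function.Injective κ := by
    intro x y h
    have hx' := hlt x
    have hy' := hlt y
    by_cases hx : x ∈ Y
    · by_cases hy : y ∈ Y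
      · rw [kY x hx, kY y hy] at h
        exact hp h
      · rw [kY x hx, kn y hy] at h
        omega
    · by_cases hy : y ∈ Y
      · rw [kn x hx, kY y hy] at h
        omega
      · rw [kn x hx, kn y hy] at h
        exact hp (by omega)
  have hD : ∀ x y, (pos x < pos y ∧ κ y < κ x) ↔ (x ∉ Y ∧ y ∈ Y ∧ pos x < pos y) := by
    intro x y
    have hx' := hlt x
    have hy' := hlt y
    constructor
    · rintro ⟨h, h'⟩
      by_cases hx : x ∈ Y
      · by_cases hy : y ∈ Y
        · rw [kY x hx, kY y hy] at h'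
          omega
        · rw [kY x hx, kn y hy] at h'
          omega
      · by_cases hy : y ∈ Y
        · exact ⟨hx, hy, h⟩
        · rw [kn x hx, kn y hy] at h'
          omega
    · rintro ⟨hx, hy, h⟩
      refine ⟨h, ?_⟩
      rw [kn x hx, kY y hy]
      omega
  have h1 := md_exch R pos κ hp hκ
  have h2 := hmax κ hκ
  have hA : ((univ : Finset (V × V)).filter fun p =>
      (pos p.1 < pos p.2 ∧ κ p.2 < κ p.1) ∧ R p.1 p.2).card ≤
      eN R Z Y + ((Y ∪ Z)ᶜ ×ˢ Y).card := by
    unfold eN
    refine (card_le_card ?_).trans (card_union_le _ _)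
    rintro ⟨x, y⟩ h
    rw [mem_filter] at h
    obtain ⟨hx, hy, -⟩ := (hD x y).1 h.2.1
    rw [mem_union, mem_filter, mem_product, mem_product, mem_compl, mem_union]
    by_cases hz : x ∈ Z
    · exact Or.inl ⟨⟨hz, hy⟩, h.2.2⟩
    · exact Or.inr ⟨fun h' => h'.elim hx hz, hy⟩
  have hB : ((Z ×ˢ Y).filter fun p => pos p.1 < pos p.2 ∧ R p.2 p.1).card ≤
      ((univ : Finset (V × V)).filter fun p =>
      (pos p.1 < pos p.2 ∧ κ p.2 < κ p.1) ∧ R p.2 p.1).card := by
    refine card_le_card ?_
    rintro ⟨x, y⟩ h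
    rw [mem_filter, mem_product] at h
    rw [mem_filter]
    refine ⟨mem_univ _, (hD x y).2 ⟨?_, h.1.2, h.2.1⟩, h.2.2⟩
    exact fun hx => disjoint_left.1 hYZ hx h.1.1
  have hC : ((Z ×ˢ Y).filter fun p => pos p.1 < pos p.2).card ≤
      eN R Z Y + ((Z ×ˢ Y).filter fun p => pos p.1 < pos p.2 ∧ R p.2 p.1).card := by
    unfold eN
    refine (card_le_card ?_).trans (card_union_le _ _)
    rintro ⟨x, y⟩ h
    rw [mem_filter] at h
    rw [mem_union, mem_filter, mem_filter]
    have hxy : x ≠ y := by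
      rintro rfl
      exact lt_irrefl _ h.2
    rcases hR.tot x y hxy with h' | h'
    · exact Or.inl ⟨h.1, h'⟩
    · exact Or.inr ⟨h.1, h.2, h'⟩
  have h3 : ((Z ×ˢ Y).filter fun p => pos p.1 < pos p.2).card ≤
      2 * eN R Z Y + ((Y ∪ Z)ᶜ ×ˢ Y).card := by omega
  have h4 : (((Y ∪ Z)ᶜ ×ˢ Y).card : ℝ) =
      ((Fintype.card V : ℝ) - Z.card - Y.card) * Y.card := by
    rw [card_product, Nat.cast_mul, card_compl, Nat.cast_sub (card_le_univ _),
      card_union_of_disjoint hYZ, Nat.cast_add]
    ring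
  rw [← h4]
  exact_mod_cast h3

theorem exists_med {V : Type} [Fintype V] {R : V → V → Prop} (hR : IsTour R) :
    ∃ pos : V → ℕ, Med R pos := by
  obtain ⟨pos, hp, hlt, hmax⟩ := md_pos R
  exact ⟨pos, hp, hlt, md_back hR pos hp hlt hmax, md_forw hR pos hp hlt hmax,
    md_cut hR pos hp hlt hmax⟩

end Pool.Agent.Lib.TourE
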