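import Pool.Agent.Lib.TourE.Gb
import Pool.Agent.Lib.TourE.Md

/-!
# La: the layers of a large tournament (about 220 lines)

`δ₀ = min (1/(100 (ℓ+1))) (η/(2 ℓ + 1))`, `δ = δ₀/32`, `n₀ = ⌈32/δ₀⌉`.  `n = |V| ≥ n₀`,
`D = ⌊δ₀ n⌋`, so `δ₀ n/2 ≤ δ₀ n - 1 ≤ D ≤ δ₀ n`, `D ≥ 16`, `100 (ℓ+1) D ≤ n`, `D/16 ≥ δ n`,
`D/4 ≥ 4 δ n`.  `pos` from `exists_med` (a bijection from `V` onto `[0, n)`),
`S a = Sg pos ℓ D a` for `a ≤ ℓ` (and e.g. `S a = S 0` for `a > ℓ`, or just `Sg pos ℓ D a` for all
`a`; only `a ≤ ℓ` matters),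
`K = {v | ℓ D ≤ pos v, pos v + ℓ D < n}`, `r` the vertex with `pos r = ⌊n/2⌋`.
EQC: for `a ≤ ℓ`, `|S a| = n - (ℓ-a) D - a D = n - ℓ D` (positions form a bijection).
CORE: clear.  SMALL: `|Kᶜ| ≤ 2 ℓ D ≤ 2 ℓ δ₀ n ≤ η n`.
GAP: `gap` (`δ n ≤ D/16`), `n - ℓ D - D/4 ≤ |S 0| - 4 δ n`.
DEG: `a < b`, `u ∈ S a`, `k = n - (ℓ-b) D - 1` (the last position of `S b`);
`k - pos u ≥ (b-a) D ≥ D`; by `Med.forw` at least `(k - pos u)/2` vertices `w` have
`pos u < pos w ≤ k`, `R u w`; those with `pos w ≥ b D` are in `S b`.  If `b D ≤ pos u + 1` all of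
them are: at least `D/2`.  Otherwise at most `b D - 1 - pos u` are not, so at least
`(k - pos u)/2 - (b D - 1 - pos u) = (k + pos u + 2 - 2 b D)/2 ≥ (n - ℓ D - 2 ℓ D)/2 ≥ D/2` remain
(`n ≥ 100 (ℓ+1) D`).
`b < a`: symmetric (`Med.back` for `k = b D`: at least `(pos u - b D)/2` vertices `w` with
`b D ≤ pos w < pos u`, `R w u`; not in `S b` are only those with
`pos w ≥ n - (ℓ-b) D`).  `D/2 ≥ δ₀ n/4 = 8 δ n`.  (`Arc R (decide (a < b)) u v` is `R u v` for
`a < b` and `R v u` for `b < a`.)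
ROOT: `Med.back` with `k = 0`: `r` has at least `pos r/2 ≥ n/8` inneighbours; `Med.forw` with
`k = n-1`: at least `(n - 1 - n/2)/2 ≥ n/8` outneighbours (`n ≥ 8`).
-/

namespace Pool.Agent.Lib.TourE

open Finset
open Pool.Agent.Lib.RobT (IsTour Arc eN Nb RT)

private theorem La_cnt {V : Type} [Fintype V] {R : V → V → Prop} {pos : V → ℕ} (hM : Med R pos)
    (p q : ℕ) (hq : q ≤ Fintype.card V) :
    (univ.filter fun v => p ≤ pos v ∧ pos v < q).card = q - p := by
  classical
  have himg : (univ : Finset V).image pos = range (Fintype.card V) := by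
    apply Finset.eq_of_subset_of_card_le
    · intro i hi
      simp only [Finset.mem_image, Finset.mem_univ, true_and] at hi
      obtain ⟨v, rfl⟩ := hi
      exact Finset.mem_range.2 (hM.lt v)
    · rw [Finset.card_range, Finset.card_image_of_injective _ hM.inj, Finset.card_univ]
  have h1 : (univ.filter fun v => p ≤ pos v ∧ pos v < q).image pos = Finset.Ico p q := by
    ext i
    simp only [Finset.mem_image, Finset.mem_filter, Finset.mem_univ, true_and, Finset.mem_Ico]
    constructor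
    · rintro ⟨v, hv, rfl⟩
      exact hv
    · intro hi
      have : i ∈ (univ : Finset V).image pos := by
        rw [himg]
        exact Finset.mem_range.2 (lt_of_lt_of_le hi.2 hq)
      simp only [Finset.mem_image, Finset.mem_univ, true_and] at this
      obtain ⟨v, rfl⟩ := this
      exact ⟨v, hi, rfl⟩
  rw [← Nat.card_Ico, ← h1, Finset.card_image_of_injective _ hM.inj]

private theorem La_Sg {V : Type} [Fintype V] {R : V → V → Prop} {pos : V → ℕ} (hM : Med R pos)
    (ℓ D a : ℕ) (ha : a ≤ ℓ) (hD : ℓ * D ≤ Fintype.card V) :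
    (Sg pos ℓ D a).card = Fintype.card V - ℓ * D := by
  have h1 : a * D ≤ ℓ * D := Nat.mul_le_mul_right D ha
  have h2 : (ℓ - a) * D = ℓ * D - a * D := Nat.sub_mul ℓ a D
  have : Sg pos ℓ D a = univ.filter fun v => a * D ≤ pos v ∧
      pos v < Fintype.card V - (ℓ * D - a * D) := by
    unfold Sg
    apply Finset.filter_congr
    intro v _
    rw [h2]
    constructor
    · intro h
      exact ⟨h.1, by omega⟩
    · intro h
      exact ⟨h.1, by omega⟩
  rw [this, La_cnt hM _ _ (Nat.sub_le _ _)]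
  omega

open Classical in
private theorem La_up {V : Type} [Fintype V] {R : V → V → Prop} {pos : V → ℕ} (hM : Med R pos)
    (ℓ D a b : ℕ) (hab : a < b) (hb : b ≤ ℓ) (hDN : 100 * (ℓ * D + D) ≤ Fintype.card V)
    (hD : 1 ≤ D) (u : V) (hu : u ∈ Sg pos ℓ D a) :
    D ≤ 2 * ((Sg pos ℓ D b).filter fun v => R u v).card := by
  have h1 : a * D + D ≤ b * D := by
    have : (a + 1) * D ≤ b * D := Nat.mul_le_mul_right D hab
    rwa [Nat.add_mul, Nat.one_mul] at this
  have h2 : b * D ≤ ℓ * D := Nat.mul_le_mul_right D hb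
  have h3 : (ℓ - a) * D = ℓ * D - a * D := Nat.sub_mul ℓ a D
  have h4 : (ℓ - b) * D = ℓ * D - b * D := Nat.sub_mul ℓ b D
  have hu' : a * D ≤ pos u ∧ pos u + (ℓ - a) * D < Fintype.card V := by
    simpa [Sg] using hu
  rw [h3] at hu'
  obtain ⟨hu1, hu2⟩ := hu'
  set n := Fintype.card V with hn
  set k := n - (ℓ * D - b * D) - 1 with hk
  have hf := hM.forw u k (by omega) (by omega)
  set W := univ.filter fun w => pos u < pos w ∧ pos w ≤ k ∧ R u w with hW
  have hsub : W ⊆ ((Sg pos ℓ D b).filter fun v => R u v) ∪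
      (univ.filter fun v => pos u + 1 ≤ pos v ∧ pos v < b * D) := by
    intro w hw
    simp only [hW, Finset.mem_filter, Finset.mem_univ, true_and] at hw
    simp only [Finset.mem_union, Finset.mem_filter, Finset.mem_univ, true_and, Sg]
    by_cases hbw : b * D ≤ pos w
    · left
      rw [h4]
      exact ⟨⟨hbw, by omega⟩, hw.2.2⟩
    · right
      exact ⟨hw.1, by omega⟩
  have hc := (Finset.card_le_card hsub).trans (Finset.card_union_le _ _)
  rw [La_cnt hM _ _ (by omega)] at hc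
  omega

open Classical in
private theorem La_down {V : Type} [Fintype V] {R : V → V → Prop} {pos : V → ℕ} (hM : Med R pos)
    (ℓ D a b : ℕ) (hab : b < a) (ha : a ≤ ℓ) (hDN : 100 * (ℓ * D + D) ≤ Fintype.card V)
    (hD : 1 ≤ D) (u : V) (hu : u ∈ Sg pos ℓ D a) :
    D ≤ 2 * ((Sg pos ℓ D b).filter fun v => R v u).card := by
  have h1 : b * D + D ≤ a * D := by
    have : (b + 1) * D ≤ a * D := Nat.mul_le_mul_right D hab
    rwa [Nat.add_mul, Nat.one_mul] at this
  have h2 : a * D ≤ ℓ * D := Nat.mul_le_mul_right D ha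
  have h3 : (ℓ - a) * D = ℓ * D - a * D := Nat.sub_mul ℓ a D
  have h4 : (ℓ - b) * D = ℓ * D - b * D := Nat.sub_mul ℓ b D
  have hu' : a * D ≤ pos u ∧ pos u + (ℓ - a) * D < Fintype.card V := by
    simpa [Sg] using hu
  rw [h3] at hu'
  obtain ⟨hu1, hu2⟩ := hu'
  have hlt := hM.lt u
  set n := Fintype.card V with hn
  have hf := hM.back u (b * D) (by omega)
  set W := univ.filter fun w => b * D ≤ pos w ∧ pos w < pos u ∧ R w u with hW
  have hsub : W ⊆ ((Sg pos ℓ D b).filter fun v => R v u) ∪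
      (univ.filter fun v => n - (ℓ * D - b * D) ≤ pos v ∧ pos v < pos u) := by
    intro w hw
    simp only [hW, Finset.mem_filter, Finset.mem_univ, true_and] at hw
    simp only [Finset.mem_union, Finset.mem_filter, Finset.mem_univ, true_and, Sg]
    by_cases hbw : n - (ℓ * D - b * D) ≤ pos w
    · right
      exact ⟨hbw, hw.2.1⟩
    · left
      rw [h4]
      exact ⟨⟨hw.1, by omega⟩, hw.2.2⟩
  have hc := (Finset.card_le_card hsub).trans (Finset.card_union_le _ _)
  rw [La_cnt hM _ _ (by omega)] at hc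
  omega

theorem layers (ℓ : ℕ) (η : ℝ) (hη : 0 < η) :
    ∃ (δ : ℝ) (n₀ : ℕ), 0 < δ ∧ δ ≤ 1 / 100 ∧ ∀ (V : Type) [Fintype V] [DecidableEq V]
      (R : V → V → Prop), n₀ ≤ Fintype.card V → IsTour R →
      ∃ (S : ℕ → Finset V) (K : Finset V) (r : V), Lay R ℓ δ η S K r := by
  set δ₀ : ℝ := min (1 / (100 * ((ℓ : ℝ) + 1))) (η / (2 * ℓ + 1)) with hδ₀
  have hl : (0 : ℝ) ≤ ℓ := Nat.cast_nonneg ℓ
  have hpos : 0 < δ₀ := by
    rw [hδ₀]
    apply lt_min
    · positivity
    · positivity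
  have hd1 : δ₀ ≤ 1 / (100 * ((ℓ : ℝ) + 1)) := min_le_left _ _
  have hd2 : δ₀ ≤ η / (2 * ℓ + 1) := min_le_right _ _
  have hd1' : 100 * ((ℓ : ℝ) + 1) * δ₀ ≤ 1 := by
    rw [le_div_iff₀ (by positivity)] at hd1
    linarith
  have hd2' : (2 * (ℓ : ℝ) + 1) * δ₀ ≤ η := by
    rw [le_div_iff₀ (by positivity)] at hd2
    linarith
  have hd3 : δ₀ ≤ 1 / 100 := by nlinarith
  refine ⟨δ₀ / 32, ⌈32 / δ₀⌉₊, by positivity, by linarith, ?_⟩
  intro V _ _ R hn hR
  classical
  obtain ⟨pos, hM⟩ := exists_med hR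
  have hn1 : 32 ≤ δ₀ * Fintype.card V := by
    have h1 : 32 / δ₀ ≤ (Fintype.card V : ℝ) := (Nat.le_ceil _).trans (by exact_mod_cast hn)
    rw [div_le_iff₀ hpos] at h1
    linarith
  set n := Fintype.card V with hnn
  set D := ⌊δ₀ * n⌋₊ with hD
  have hD1 : (D : ℝ) ≤ δ₀ * n := Nat.floor_le (by linarith)
  have hD2 : δ₀ * n < D + 1 := Nat.lt_floor_add_one _
  have hD3 : δ₀ * n / 2 ≤ D := by linarith
  have hD4 : (16 : ℝ) ≤ D := by linarith
  have hD5 : 16 ≤ D := by exact_mod_cast hD4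
  have hn0 : (0 : ℝ) ≤ n := Nat.cast_nonneg n
  have hDNr : (100 : ℝ) * (ℓ + 1) * D ≤ n := by
    calc (100 : ℝ) * (ℓ + 1) * D ≤ 100 * (ℓ + 1) * (δ₀ * n) := by
          apply mul_le_mul_of_nonneg_left hD1 (by positivity)
      _ = (100 * ((ℓ : ℝ) + 1) * δ₀) * n := by ring
      _ ≤ 1 * n := by apply mul_le_mul_of_nonneg_right hd1' hn0
      _ = n := one_mul _
  have hDN : 100 * (ℓ + 1) * D ≤ n := by exact_mod_cast hDNr
  have hDN' : 100 * (ℓ * D + D) ≤ n := by
    have : 100 * (ℓ + 1) * D = 100 * (ℓ * D + D) := by ring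
    omega
  have hcard : ∀ a, a ≤ ℓ → (Sg pos ℓ D a).card = n - ℓ * D := fun a ha =>
    La_Sg hM ℓ D a ha (by omega)
  have hcast : ((n - ℓ * D : ℕ) : ℝ) = n - ℓ * D := by
    rw [Nat.cast_sub (by omega), Nat.cast_mul]
  obtain ⟨r, hr⟩ : ∃ r, pos r = n / 2 := by
    have h1 : (univ.filter fun v => n / 2 ≤ pos v ∧ pos v < n / 2 + 1).card = 1 := by
      rw [La_cnt hM _ _ (by omega)]
      omega
    obtain ⟨r, hr⟩ := Finset.card_eq_one.1 h1
    refine ⟨r, ?_⟩
    have : r ∈ univ.filter fun v => n / 2 ≤ pos v ∧ pos v < n / 2 + 1 := by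
      rw [hr]; exact Finset.mem_singleton_self r
    simp only [Finset.mem_filter, Finset.mem_univ, true_and] at this
    omega
  set K := univ.filter fun v => ℓ * D ≤ pos v ∧ pos v < n - ℓ * D with hK
  have hKc : K.card = n - ℓ * D - ℓ * D := by
    rw [hK, La_cnt hM _ _ (Nat.sub_le _ _)]
  refine ⟨Sg pos ℓ D, K, r, ?_, ?_, ?_, ?_, ?_, ?_, ?_⟩
  · intro a ha
    rw [hcard a ha, hcard 0 (Nat.zero_le _)]
  · intro a ha v hv
    have h1 : a * D ≤ ℓ * D := Nat.mul_le_mul_right D ha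
    have h2 : (ℓ - a) * D = ℓ * D - a * D := Nat.sub_mul ℓ a D
    simp only [hK, Finset.mem_filter, Finset.mem_univ, true_and] at hv
    simp only [Sg, Finset.mem_filter, Finset.mem_univ, true_and]
    rw [h2]
    exact ⟨by omega, by omega⟩
  · have h1 : (Kᶜ).card = ℓ * D + ℓ * D := by
      rw [Finset.card_compl, hKc]
      omega
    rw [h1]
    push_cast
    calc (ℓ : ℝ) * D + ℓ * D = 2 * ℓ * D := by ring
      _ ≤ 2 * ℓ * (δ₀ * n) := by apply mul_le_mul_of_nonneg_left hD1 (by positivity)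
      _ ≤ ((2 * (ℓ : ℝ) + 1) * δ₀) * n := by nlinarith
      _ ≤ η * n := by apply mul_le_mul_of_nonneg_right hd2' hn0
  · intro a b hab hb Z hZ Y hY hZn hYn h1 h2
    have h5 : δ₀ / 32 * (n : ℝ) ≤ D / 16 := by linarith
    have := gap hR hM ℓ D hD5 hDN a b hab hb Z Y hZ hY hZn hYn
      (fun z hz => (le_of_eq (by congr)).trans ((h1 z hz).trans h5))
      (fun y hy => (le_of_eq (by congr)).trans ((h2 y hy).trans h5))
    rw [hcard 0 (Nat.zero_le _), hcast]
    refine this.trans ?_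
    linarith
  · intro a b ha hb hab u hu
    have key : D ≤ 2 * ((Sg pos ℓ D b).filter fun v => Arc R (decide (a < b)) u v).card := by
      rcases Nat.lt_or_gt_of_ne hab with h | h
      · refine (La_up hM ℓ D a b h hb hDN' (by omega) u hu).trans (le_of_eq ?_)
        congr 2
        apply Finset.filter_congr
        intro v _
        simp [Arc, h]
      · refine (La_down hM ℓ D a b h ha hDN' (by omega) u hu).trans (le_of_eq ?_)
        congr 2
        apply Finset.filter_congr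
        intro v _
        have : ¬ a < b := by omega
        simp [Arc, this]
    have key' : (D : ℝ) ≤ 2 * (((Sg pos ℓ D b).filter
        fun v => Arc R (decide (a < b)) u v).card : ℝ) := by exact_mod_cast key
    linarith
  · simp only [hK, Finset.mem_filter, Finset.mem_univ, true_and]
    omega
  · intro s
    · cases s
      · have h1 := hM.back r 0 (Nat.zero_le _)
        have h2 : (univ.filter fun u => 0 ≤ pos u ∧ pos u < pos r ∧ R u r).card ≤
            (Nb R false r).card := by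
          apply Finset.card_le_card
          intro w hw
          simp only [Finset.mem_filter, Finset.mem_univ, true_and] at hw
          unfold Nb
          rw [Finset.mem_filter]
          exact ⟨Finset.mem_univ _, Or.inr ⟨rfl, hw.2.2⟩⟩
        have h3 : n ≤ 8 * (Nb R false r).card := by omega
        have h4 : (n : ℝ) ≤ 8 * ((Nb R false r).card : ℝ) := by exact_mod_cast h3
        linarith
      · have h1 := hM.forw r (n - 1) (by omega) (by omega)
        have h2 : (univ.filter fun w => pos r < pos w ∧ pos w ≤ n - 1 ∧ R r w).card ≤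
            (Nb R true r).card := by
          apply Finset.card_le_card
          intro w hw
          simp only [Finset.mem_filter, Finset.mem_univ, true_and] at hw
          unfold Nb
          rw [Finset.mem_filter]
          exact ⟨Finset.mem_univ _, Or.inl ⟨rfl, hw.2.2⟩⟩
        have h3 : n ≤ 8 * (Nb R true r).card := by omega
        have h4 : (n : ℝ) ≤ 8 * ((Nb R true r).card : ℝ) := by exact_mod_cast h3
        linarith

end Pool.Agent.Lib.TourE
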