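import Pool.Agent.Lib.TourE.Defs

/-!
# Sc: the slack function (numerical lemmas)
-/

namespace Pool.Agent.Lib.TourE

open Finset

/-- The slack function. -/
noncomputable def Dd (k₁ C₂ Cm ε₀ n x y : ℝ) : ℝ :=
  Real.exp (k₁ * Cm * x / n) * (1 / √(√n) + k₁ / n * (C₂ * y + ε₀ * x))

theorem Dd_nn {k₁ C₂ Cm ε₀ n x y : ℝ} (hk : 0 ≤ k₁) (hC : 0 ≤ C₂) (hε : 0 ≤ ε₀)
    (hn : 0 < n) (hx : 0 ≤ x) (hy : 0 ≤ y) : 0 ≤ Dd k₁ C₂ Cm ε₀ n x y := by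
  unfold Dd
  positivity

theorem Dd_step {k₁ C₂ Cm ε₀ n : ℝ} (hk : 0 ≤ k₁) (hC : 0 ≤ C₂) (hCm : 0 ≤ Cm)
    (hε : 0 ≤ ε₀) (hn : 0 < n) {x y κ z : ℝ} (hx : 0 ≤ x) (hy : 0 ≤ y) (hκ : 0 ≤ κ)
    (hz : 0 ≤ z) :
    Dd k₁ C₂ Cm ε₀ n x y + k₁ / n * (C₂ * z + κ * (ε₀ + Cm * Dd k₁ C₂ Cm ε₀ n x y)) ≤
      Dd k₁ C₂ Cm ε₀ n (x + κ) (y + z) := by
  unfold Dd
  have h1 : Real.exp (k₁ * Cm * (x + κ) / n) =
      Real.exp (k₁ * Cm * x / n) * Real.exp (k₁ * Cm * κ / n) := by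
    rw [← Real.exp_add]
    congr 1
    ring
  rw [h1]
  set E := Real.exp (k₁ * Cm * x / n) with hE
  set F := Real.exp (k₁ * Cm * κ / n) with hF
  have hE1 : 1 ≤ E := Real.one_le_exp (by positivity)
  have hF1 : 1 + k₁ * Cm * κ / n ≤ F := by
    have := Real.add_one_le_exp (k₁ * Cm * κ / n)
    linarith
  have hq : 0 ≤ k₁ * Cm * κ / n := by positivity
  have hG : 0 ≤ 1 / √(√n) + k₁ / n * (C₂ * y + ε₀ * x) := by positivity
  have hH : 0 ≤ k₁ / n * (C₂ * z + ε₀ * κ) := by positivity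
  set G := 1 / √(√n) + k₁ / n * (C₂ * y + ε₀ * x) with hGd
  set H := k₁ / n * (C₂ * z + ε₀ * κ) with hHd
  have e1 : E * G + k₁ / n * (C₂ * z + κ * (ε₀ + Cm * (E * G))) =
      (1 + k₁ * Cm * κ / n) * (E * G) + H := by
    rw [hHd]
    ring
  have e2 : E * F * (1 / √(√n) + k₁ / n * (C₂ * (y + z) + ε₀ * (x + κ))) =
      F * (E * G) + E * F * H := by
    rw [hHd, hGd]
    ring
  rw [e1, e2]
  have h2 : (1 + k₁ * Cm * κ / n) * (E * G) ≤ F * (E * G) := by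
    apply mul_le_mul_of_nonneg_right hF1
    positivity
  have h3 : 1 * H ≤ E * F * H := by
    apply mul_le_mul_of_nonneg_right _ hH
    nlinarith
  linarith

theorem Dd_le {k₁ C₂ Cm ε₀ n ν L k : ℝ} (hk₁ : 0 < k₁) (hC : 0 ≤ C₂) (hCm : 0 ≤ Cm)
    (hε : 0 ≤ ε₀) (hn : 0 < n) (hk : 0 < k)
    (hε2 : Real.exp (k₁ * Cm) * (k₁ * ε₀) ≤ ν / 3)
    (hk2 : 6 * Real.exp (k₁ * Cm) * k₁ * C₂ * L ≤ ν * k)
    (hn2 : Real.exp (k₁ * Cm) * (1 / √(√n)) ≤ ν / 3)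
    {x y : ℝ} (hx : 0 ≤ x) (hy : 0 ≤ y) (hxn : x ≤ n) (hyn : k * y ≤ 2 * n * L) :
    Dd k₁ C₂ Cm ε₀ n x y ≤ ν := by
  unfold Dd
  set E₀ := Real.exp (k₁ * Cm) with hE₀
  have hE0 : 0 < E₀ := Real.exp_pos _
  have h1 : Real.exp (k₁ * Cm * x / n) ≤ E₀ := by
    rw [hE₀]
    apply Real.exp_le_exp.2
    rw [div_le_iff₀ hn]
    have : 0 ≤ k₁ * Cm := by positivity
    exact mul_le_mul_of_nonneg_left hxn this
  have hG : 0 ≤ 1 / √(√n) + k₁ / n * (C₂ * y + ε₀ * x) := by positivity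
  refine (mul_le_mul_of_nonneg_right h1 hG).trans ?_
  have h2 : E₀ * (k₁ / n * (C₂ * y)) ≤ ν / 3 := by
    have h3 : E₀ * k₁ * C₂ * (k * y) ≤ E₀ * k₁ * C₂ * (2 * n * L) :=
      mul_le_mul_of_nonneg_left hyn (by positivity)
    have h4 : 6 * E₀ * k₁ * C₂ * L * n ≤ ν * k * n :=
      mul_le_mul_of_nonneg_right hk2 hn.le
    have e1 : E₀ * (k₁ / n * (C₂ * y)) = E₀ * k₁ * C₂ * y / n := by
      field_simp
    rw [e1, div_le_iff₀ hn]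
    have h5 : k * (3 * (E₀ * k₁ * C₂ * y)) ≤ k * (ν * n) := by nlinarith
    have h6 := le_of_mul_le_mul_left h5 hk
    linarith
  have h3 : E₀ * (k₁ / n * (ε₀ * x)) ≤ ν / 3 := by
    refine le_trans ?_ hε2
    have e1 : E₀ * (k₁ / n * (ε₀ * x)) = E₀ * (k₁ * ε₀) * (x / n) := by
      field_simp
    rw [e1]
    have h4 : x / n ≤ 1 := (div_le_one hn).2 hxn
    calc E₀ * (k₁ * ε₀) * (x / n) ≤ E₀ * (k₁ * ε₀) * 1 :=
          mul_le_mul_of_nonneg_left h4 (by positivity)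
      _ = _ := mul_one _
  have e : E₀ * (1 / √(√n) + k₁ / n * (C₂ * y + ε₀ * x)) =
      E₀ * (1 / √(√n)) + E₀ * (k₁ / n * (C₂ * y)) + E₀ * (k₁ / n * (ε₀ * x)) := by
    ring
  rw [e]
  linarith

theorem ev_exp (Cf B : ℝ) (hC : 0 ≤ Cf) : ∀ᶠ n : ℕ in Filter.atTop,
    2 * Cf * (n : ℝ) ^ 2 * Real.exp (√(n : ℝ) * (Cf / n - 1 / √(√(n : ℝ)))) *
      Real.exp B < 1 := by
  have h1 : Filter.Tendsto (fun t : ℝ => 2 * Cf * Real.exp (Cf + B) * (t ^ 8 * Real.exp (-t)))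
      Filter.atTop (nhds (2 * Cf * Real.exp (Cf + B) * 0)) :=
    (Real.tendsto_pow_mul_exp_neg_atTop_nhds_zero 8).const_mul _
  rw [mul_zero] at h1
  have h2 : Filter.Tendsto (fun n : ℕ => √(√(n : ℝ))) Filter.atTop Filter.atTop :=
    Real.tendsto_sqrt_atTop.comp (Real.tendsto_sqrt_atTop.comp tendsto_natCast_atTop_atTop)
  have h3 := (h1.comp h2).eventually (gt_mem_nhds (show (0 : ℝ) < 1 by norm_num))
  filter_upwards [h3, Filter.eventually_ge_atTop 1] with n hn hn1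
  refine lt_of_le_of_lt ?_ hn
  simp only [Function.comp]
  have hn0 : (1 : ℝ) ≤ n := by exact_mod_cast hn1
  set t := √(√(n : ℝ)) with ht
  have hs : √(n : ℝ) = t ^ 2 := (Real.sq_sqrt (Real.sqrt_nonneg _)).symm
  have hnn : (n : ℝ) = t ^ 4 := by
    have : (n : ℝ) = (√(n : ℝ)) ^ 2 := (Real.sq_sqrt (by linarith)).symm
    rw [hs] at this
    rw [this]
    ring
  have ht1 : 1 ≤ t := by
    rw [ht]
    exact Real.one_le_sqrt.2 (Real.one_le_sqrt.2 hn0)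
  rw [hs, mul_assoc (2 * Cf * (n : ℝ) ^ 2), ← Real.exp_add]
  have e1 : t ^ 2 * (Cf / n - 1 / t) + B ≤ (Cf + B) + (-t) := by
    have h4 : t ^ 2 * (Cf / n) ≤ Cf := by
      rw [hnn]
      have : t ^ 2 * (Cf / t ^ 4) = Cf / t ^ 2 := by
        field_simp
      rw [this]
      apply div_le_self (by positivity)
      nlinarith
    have h5 : t ^ 2 * (1 / t) = t := by
      field_simp
    nlinarith
  calc 2 * Cf * (n : ℝ) ^ 2 * Real.exp (t ^ 2 * (Cf / n - 1 / t) + B)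
      ≤ 2 * Cf * (n : ℝ) ^ 2 * Real.exp ((Cf + B) + (-t)) := by
        apply mul_le_mul_of_nonneg_left (Real.exp_le_exp.2 e1)
        positivity
    _ = 2 * Cf * Real.exp (Cf + B) * (t ^ 8 * Real.exp (-t)) := by
        rw [Real.exp_add, hnn]
        ring

end Pool.Agent.Lib.TourE
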