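import Pool.Agent.Lib.TourE.Defs

/-!
# Sd: change of the deviation after one piece (about 100 lines)

`Lam` is the linearised change of `Df f ω` when the vertices `φ x` are removed from `A` and the used
part grows from `Uf` to `U'`.
For every `v ∈ A` let `a = 1 - Uf v > 0`, `b = 1 - U' v > 0`, so `ω v = 1/a`,
`(U' v - Uf v)/(1 - U' v) = (a - b)/b`.
`v ∉ im φ`: `ω' v - ω v = 1/b - 1/a = (1/a)(a - b)/b`.
`v ∈ im φ`: `ω' v - ω v = -1/a = (1/a)(a-b)/b - 1/b`.
`v ∉ A`: `ω' v = ω v = 0`.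
Multiply by `f v` and sum; as `φ` is injective, the sum over `v ∈ im φ` is the sum over `x`.
-/

namespace Pool.Agent.Lib.TourE

open Finset
open Pool.Agent.Lib.RobT (IsTour Arc eN Nb RT)

/-- The linearised change of the deviation. -/
noncomputable def Lam {V : Type} [Fintype V] [DecidableEq V] (f : V → ℝ) (A : Finset V)
    (Uf U' : V → ℝ) {κ : ℕ} (φ : Fin κ → V) : ℝ :=
  ∑ v, f v * (om A Uf v * ((U' v - Uf v) / (1 - U' v))) - ∑ x, f (φ x) / (1 - U' (φ x))

theorem Df_new {V : Type} [Fintype V] [DecidableEq V] (f : V → ℝ) (A : Finset V)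
    (Uf U' : V → ℝ) (h1 : ∀ v, Uf v < 1) (h2 : ∀ v, U' v < 1) {κ : ℕ} (φ : Fin κ → V)
    (hφ : Function.Injective φ) (hA : ∀ x, φ x ∈ A) :
    Df f (om (A \ univ.image φ) U') = Df f (om A Uf) + Lam f A Uf U' φ := by
  classical
  have hsum : ∑ x, f (φ x) / (1 - U' (φ x))
      = ∑ v, (if v ∈ univ.image φ then f v / (1 - U' v) else 0) := by
    rw [← Finset.sum_filter]
    have hfil : univ.filter (fun v => v ∈ univ.image φ) = univ.image φ := by
      ext v; simp
    rw [hfil, Finset.sum_image (fun x _ y _ h => hφ h)]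
  unfold Lam Df
  rw [hsum, ← Finset.sum_sub_distrib, ← Finset.sum_add_distrib]
  refine Finset.sum_congr rfl fun v _ => ?_
  have ha : 1 - Uf v ≠ 0 := (sub_pos.2 (h1 v)).ne'
  have hb : 1 - U' v ≠ 0 := (sub_pos.2 (h2 v)).ne'
  by_cases hv : v ∈ univ.image φ
  · have hvA : v ∈ A := by
      obtain ⟨x, _, rfl⟩ := Finset.mem_image.1 hv
      exact hA x
    have hn : v ∉ A \ univ.image φ := fun h => (Finset.mem_sdiff.1 h).2 hv
    simp only [om, if_neg hn, if_pos hvA, if_pos hv]
    field_simp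
    ring
  · by_cases hvA : v ∈ A
    · have hm : v ∈ A \ univ.image φ := Finset.mem_sdiff.2 ⟨hvA, hv⟩
      simp only [om, if_pos hm, if_pos hvA, if_neg hv]
      field_simp
      ring
    · have hn : v ∉ A \ univ.image φ := fun h => hvA (Finset.mem_sdiff.1 h).1
      simp only [om, if_neg hn, if_neg hvA, if_neg hv]
      ring

end Pool.Agent.Lib.TourE
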