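import Pool.Agent.Lib.TourE.Sm
import Pool.Agent.Lib.TourE.Sd

/-!
# Se: exponential moments (about 260 lines)

`n = |V| > 0`, `ω = om A Uf`, `G = qw Q ω` or any `SK` kernel, `W φ` = the weight of `φ`.
`U' v = Uf v + ∑ x < κ, Un S (a x) v ≤ 1 - ρ`, so `Uf ≤ 1 - ρ`, `0 ≤ ω ≤ 1/ρ`, `1/(1 - U') ≤ 1/ρ`;
`Un ≤ 1/M ≤ 2/n`.
BOUND: `|Lam f A Uf U' φ| ≤ b := 3 κ Cf/(ρ² n)`: the first sum is at most
`∑ f v (1/ρ) (2 κ/n) (1/ρ) ≤ 2 κ Cf/(ρ² n)`, the second at most `κ (Cf/n)/ρ`.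
MEAN: by `typed_marg` for each `x` (with `g v = f v/(1 - U' v)`), `∑ φ, W φ = 1` and
`U' v - Uf v = ∑ x, Un S (a x) v`:
`∑ φ, W φ Lam φ = ∑ x, ∑ v, (f v/(1 - U' v)) (ω v Un S (a x) v - wk G a₀ w_x (pt u₀) v)`,
`w_x` valid, `≠ []`, of length `ld x`, last letter `a x`.  By `WP` the difference is at most
`c_x ω v/n` in absolute value, `c_x = e` if `l ≤ ld x`, `= C₂` otherwise; so
`|∑ φ, W φ Lam φ| ≤ ∑ x, c_x (1/n) (1/ρ) (1/ρ) ∑ v f v ≤ Cf/(ρ² n) (C₂ #{x | ld x < l} + κ e) =: m`.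
EXP: for a real `λ ≥ 0` with `λ b ≤ 1`, `g = ± 1`: `exp t ≤ 1 + t + t²` for `|t| ≤ 1`, so
`∑ W φ exp (λ g Lam φ) ≤ 1 + λ g ∑ W Lam + λ² b² ≤ 1 + λ m + (λ b)² ≤ exp (λ m + (λ b)²)`.
Multiply by `exp (λ g Df f ω)`.
-/

namespace Pool.Agent.Lib.TourE

open Finset
open Pool.Agent.Lib.RobT (IsTour Arc eN Nb RT)

section

variable {V : Type} [Fintype V] [DecidableEq V]

private theorem Un_nn (S : ℕ → Finset V) (a : ℕ) (v : V) : 0 ≤ Un S a v := by
  unfold Un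
  split_ifs
  · positivity
  · exact le_rfl

private theorem Un_le (S : ℕ → Finset V) (hN : 0 < Fintype.card V)
    (hM : (Fintype.card V : ℝ) / 2 ≤ (S 0).card) (a : ℕ) (v : V) :
    Un S a v ≤ 2 / Fintype.card V := by
  have hn : (0 : ℝ) < Fintype.card V := by exact_mod_cast hN
  unfold Un
  split_ifs
  · rw [div_le_div_iff₀ (by linarith) hn]
    linarith
  · positivity

private theorem ld_pos (κ : ℕ) (par ld : ℕ → ℕ) (hpar : ∀ x, 0 < x → x < κ → par x < x)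
    (h0 : ld 0 = 1) (hld : ∀ x, 0 < x → x < κ → ld x = ld (par x) + 1) (x : ℕ) (hx : x < κ) :
    1 ≤ ld x := by
  rcases Nat.eq_zero_or_pos x with h | h
  · rw [h, h0]
  · rw [hld x h hx]
    omega

/-- the bound of the linearised change -/
private theorem Lam_bd {S : ℕ → Finset V} {ρ Cf : ℝ} (hN : 0 < Fintype.card V)
    (hρ : 0 < ρ) (hρ1 : ρ ≤ 1) (hCf : 0 ≤ Cf) (A : Finset V)
    (Uf : V → ℝ) (hM : (Fintype.card V : ℝ) / 2 ≤ (S 0).card) (f : V → ℝ) (hf0 : ∀ v, 0 ≤ f v)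
    (hf1 : ∀ v, f v ≤ Cf / Fintype.card V) (hf2 : ∑ v, f v ≤ Cf)
    (κ : ℕ) (a : ℕ → ℕ)
    (hU' : ∀ v, Uf v + ∑ x ∈ range κ, Un S (a x) v ≤ 1 - ρ) (φ : Fin κ → V) :
    |Lam f A Uf (fun v => Uf v + ∑ x ∈ range κ, Un S (a x) v) φ| ≤
      3 * κ * Cf / (ρ ^ 2 * Fintype.card V) := by
  have hn : (0 : ℝ) < Fintype.card V := by exact_mod_cast hN
  set n : ℝ := (Fintype.card V : ℝ) with hndef
  have hκ0 : (0 : ℝ) ≤ κ := Nat.cast_nonneg _
  have hs0 : ∀ v, 0 ≤ ∑ x ∈ range κ, Un S (a x) v := fun v =>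
    Finset.sum_nonneg fun x _ => Un_nn S (a x) v
  have hs1 : ∀ v, ∑ x ∈ range κ, Un S (a x) v ≤ κ * (2 / n) := by
    intro v
    have h := Finset.sum_le_sum (s := range κ) fun x _ => Un_le S hN hM (a x) v
    rwa [Finset.sum_const, Finset.card_range, nsmul_eq_mul] at h
  have hρ2 : ∀ v, ρ ≤ 1 - (Uf v + ∑ x ∈ range κ, Un S (a x) v) := fun v => by
    have := hU' v
    linarith
  have hρ3 : ∀ v, ρ ≤ 1 - Uf v := fun v => by
    have := hU' v
    have := hs0 v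
    linarith
  have hω0 : ∀ v, 0 ≤ om A Uf v := by
    intro v
    unfold om
    split_ifs
    · have := hρ3 v
      exact div_nonneg zero_le_one (by linarith)
    · exact le_rfl
  have hω1 : ∀ v, om A Uf v ≤ 1 / ρ := by
    intro v
    unfold om
    split_ifs
    · exact one_div_le_one_div_of_le hρ (hρ3 v)
    · positivity
  have hfirst : ∀ v, 0 ≤ f v * (om A Uf v * ((Uf v + ∑ x ∈ range κ, Un S (a x) v - Uf v) /
      (1 - (Uf v + ∑ x ∈ range κ, Un S (a x) v)))) := by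
    intro v
    have h1 := hρ2 v
    have h2 := hs0 v
    refine mul_nonneg (hf0 v) (mul_nonneg (hω0 v) (div_nonneg (by linarith) (by linarith)))
  have hfirst' : ∀ v, f v * (om A Uf v * ((Uf v + ∑ x ∈ range κ, Un S (a x) v - Uf v) /
      (1 - (Uf v + ∑ x ∈ range κ, Un S (a x) v)))) ≤ f v * (2 * κ / (ρ ^ 2 * n)) := by
    intro v
    refine mul_le_mul_of_nonneg_left ?_ (hf0 v)
    have h1 : (Uf v + ∑ x ∈ range κ, Un S (a x) v - Uf v) /
        (1 - (Uf v + ∑ x ∈ range κ, Un S (a x) v)) ≤ κ * (2 / n) / ρ := by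
      refine div_le_div₀ (by positivity) ?_ hρ (hρ2 v)
      have := hs1 v
      linarith
    have h2 : 0 ≤ (Uf v + ∑ x ∈ range κ, Un S (a x) v - Uf v) /
        (1 - (Uf v + ∑ x ∈ range κ, Un S (a x) v)) := by
      have h1 := hρ2 v
      have h2 := hs0 v
      exact div_nonneg (by linarith) (by linarith)
    calc om A Uf v * ((Uf v + ∑ x ∈ range κ, Un S (a x) v - Uf v) /
        (1 - (Uf v + ∑ x ∈ range κ, Un S (a x) v))) ≤ 1 / ρ * (κ * (2 / n) / ρ) :=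
          mul_le_mul (hω1 v) h1 h2 (by positivity)
      _ = 2 * κ / (ρ ^ 2 * n) := by
        field_simp
  have hsum1 : ∑ v, f v * (om A Uf v * ((Uf v + ∑ x ∈ range κ, Un S (a x) v - Uf v) /
      (1 - (Uf v + ∑ x ∈ range κ, Un S (a x) v)))) ≤ 2 * κ * Cf / (ρ ^ 2 * n) := by
    refine (Finset.sum_le_sum fun v _ => hfirst' v).trans ?_
    rw [← Finset.sum_mul]
    calc (∑ v, f v) * (2 * κ / (ρ ^ 2 * n)) ≤ Cf * (2 * κ / (ρ ^ 2 * n)) :=
          mul_le_mul_of_nonneg_right hf2 (by positivity)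
      _ = 2 * κ * Cf / (ρ ^ 2 * n) := by ring
  have hsum0 : 0 ≤ ∑ v, f v * (om A Uf v * ((Uf v + ∑ x ∈ range κ, Un S (a x) v - Uf v) /
      (1 - (Uf v + ∑ x ∈ range κ, Un S (a x) v)))) := Finset.sum_nonneg fun v _ => hfirst v
  have hsec : ∀ v, 0 ≤ f v / (1 - (Uf v + ∑ x ∈ range κ, Un S (a x) v)) := fun v => by
    have h1 := hρ2 v
    exact div_nonneg (hf0 v) (by linarith)
  have hsec' : ∀ v, f v / (1 - (Uf v + ∑ x ∈ range κ, Un S (a x) v)) ≤ Cf / (ρ ^ 2 * n) := by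
    intro v
    calc f v / (1 - (Uf v + ∑ x ∈ range κ, Un S (a x) v)) ≤ Cf / n / ρ :=
          div_le_div₀ (by positivity) (hf1 v) hρ (hρ2 v)
      _ = Cf / n * (1 / ρ) := by ring
      _ ≤ Cf / n * (1 / ρ ^ 2) := by
          refine mul_le_mul_of_nonneg_left ?_ (by positivity)
          refine one_div_le_one_div_of_le (by positivity) ?_
          nlinarith
      _ = Cf / (ρ ^ 2 * n) := by
          field_simp
  have hsum2 : ∑ x, f (φ x) / (1 - (Uf (φ x) + ∑ y ∈ range κ, Un S (a y) (φ x))) ≤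
      κ * (Cf / (ρ ^ 2 * n)) := by
    have h := Finset.sum_le_sum (s := (univ : Finset (Fin κ))) fun x _ => hsec' (φ x)
    rwa [Finset.sum_const, Finset.card_univ, Fintype.card_fin, nsmul_eq_mul] at h
  have hsum3 : 0 ≤ ∑ x, f (φ x) / (1 - (Uf (φ x) + ∑ y ∈ range κ, Un S (a y) (φ x))) :=
    Finset.sum_nonneg fun x _ => hsec (φ x)
  have hb : 3 * κ * Cf / (ρ ^ 2 * n) = 2 * κ * Cf / (ρ ^ 2 * n) + κ * (Cf / (ρ ^ 2 * n)) := by
    ring
  have hpos : 0 ≤ κ * (Cf / (ρ ^ 2 * n)) := by positivity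
  have hpos' : 0 ≤ 2 * κ * Cf / (ρ ^ 2 * n) := by positivity
  unfold Lam
  rw [abs_le, hb]
  constructor <;> linarith

/-- the mean of the linearised change -/
private theorem Lam_mean {ℓ l : ℕ} {S : ℕ → Finset V}
    {G : ℕ → ℕ → V → V → ℝ} {Bf : V → ℝ} {C₂ e ρ Cf : ℝ} (hN : 0 < Fintype.card V)
    (hC₂ : 0 ≤ C₂) (he : 0 ≤ e) (hρ : 0 < ρ) (A : Finset V)
    (Uf : V → ℝ) (hG : SK ℓ S Bf G) (hW : WP ℓ S (om A Uf) G l C₂ e)
    (f : V → ℝ) (hf0 : ∀ v, 0 ≤ f v) (hCf : 0 ≤ Cf)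
    (hf2 : ∑ v, f v ≤ Cf)
    (κ : ℕ) (par a ld : ℕ → ℕ) (a₀ : ℕ) (hκ : 0 < κ)
    (hpar : ∀ x, 0 < x → x < κ → par x < x) (ha : ∀ x, x < κ → a x ≤ ℓ) (ha₀ : a₀ ≤ ℓ)
    (h0 : a₀ ≠ a 0) (hne : ∀ x, 0 < x → x < κ → a (par x) ≠ a x) (hld0 : ld 0 = 1)
    (hld : ∀ x, 0 < x → x < κ → ld x = ld (par x) + 1)
    (hU' : ∀ v, Uf v + ∑ x ∈ range κ, Un S (a x) v ≤ 1 - ρ) (u₀ : V) (hu : u₀ ∈ S a₀)
    (hWsum : ∑ φ : Fin κ → V, Wq (fun x => G (pa a₀ par a x) (a x)) κ par u₀ φ = 1) :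
    |∑ φ : Fin κ → V, Wq (fun x => G (pa a₀ par a x) (a x)) κ par u₀ φ *
        Lam f A Uf (fun v => Uf v + ∑ x ∈ range κ, Un S (a x) v) φ| ≤
      Cf / (ρ ^ 2 * Fintype.card V) *
        (C₂ * ((range κ).filter fun x => ld x < l).card + κ * e) := by
  have hn : (0 : ℝ) < Fintype.card V := by exact_mod_cast hN
  set n : ℝ := (Fintype.card V : ℝ) with hndef
  set W : (Fin κ → V) → ℝ := fun φ => Wq (fun x => G (pa a₀ par a x) (a x)) κ par u₀ φ with hWdef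
  set ω : V → ℝ := om A Uf with hωdef
  set U' : V → ℝ := fun v => Uf v + ∑ x ∈ range κ, Un S (a x) v with hU'def
  set z : ℝ := (((range κ).filter fun x => ld x < l).card : ℝ) with hzdef
  have hs0 : ∀ v, 0 ≤ ∑ x ∈ range κ, Un S (a x) v := fun v =>
    Finset.sum_nonneg fun x _ => Un_nn S (a x) v
  have hρ2 : ∀ v, ρ ≤ 1 - U' v := fun v => by
    have : U' v ≤ 1 - ρ := hU' v
    linarith
  have hρ3 : ∀ v, ρ ≤ 1 - Uf v := fun v => by
    have := hU' v
    have := hs0 v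
    linarith
  have hω0 : ∀ v, 0 ≤ ω v := by
    intro v
    rw [hωdef]
    unfold om
    split_ifs
    · have := hρ3 v
      exact div_nonneg zero_le_one (by linarith)
    · exact le_rfl
  have hω1 : ∀ v, ω v ≤ 1 / ρ := by
    intro v
    rw [hωdef]
    unfold om
    split_ifs
    · exact one_div_le_one_div_of_le hρ (hρ3 v)
    · positivity
  -- the two parts
  have hg0 : ∀ v, 0 ≤ f v / (1 - U' v) := fun v => by
    have h1 := hρ2 v
    exact div_nonneg (hf0 v) (by linarith)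
  have hg1 : ∀ v, f v / (1 - U' v) ≤ f v / ρ := fun v =>
    div_le_div_of_nonneg_left (hf0 v) hρ (hρ2 v)
  have hfirst : ∑ v, f v * (ω v * ((U' v - Uf v) / (1 - U' v))) =
      ∑ x : Fin κ, ∑ v, f v / (1 - U' v) * (ω v * Un S (a x) v) := by
    rw [Finset.sum_comm]
    refine Finset.sum_congr rfl fun v _ => ?_
    rw [← Finset.mul_sum, ← Finset.mul_sum]
    have h1 : U' v - Uf v = ∑ x : Fin κ, Un S (a x) v := by
      rw [Fin.sum_univ_eq_sum_range (fun x => Un S (a x) v) κ, hU'def]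
      ring
    rw [h1]
    ring
  have hmean : ∑ φ : Fin κ → V, W φ * Lam f A Uf U' φ =
      ∑ x : Fin κ, (∑ v, f v / (1 - U' v) * (ω v * Un S (a x) v) -
        ∑ φ : Fin κ → V, W φ * (f (φ x) / (1 - U' (φ x)))) := by
    rw [Finset.sum_sub_distrib, ← hfirst, Finset.sum_comm]
    have h1 : ∀ φ : Fin κ → V, W φ * Lam f A Uf U' φ =
        (∑ v, f v * (ω v * ((U' v - Uf v) / (1 - U' v)))) * W φ -
          ∑ x, W φ * (f (φ x) / (1 - U' (φ x))) := by
      intro φ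
      unfold Lam
      rw [← Finset.mul_sum]
      ring
    rw [Finset.sum_congr rfl fun φ _ => h1 φ, Finset.sum_sub_distrib, ← Finset.mul_sum, hWsum,
      mul_one]
  rw [hmean]
  refine (Finset.abs_sum_le_sum_abs _ _).trans ?_
  have hx : ∀ x : Fin κ, |∑ v, f v / (1 - U' v) * (ω v * Un S (a x) v) -
      ∑ φ : Fin κ → V, W φ * (f (φ x) / (1 - U' (φ x)))| ≤
      Cf / (ρ ^ 2 * n) * ((if ld (x : ℕ) < l then C₂ else 0) + e) := by
    intro x
    obtain ⟨w, hw1, hw2, hw3, hw4⟩ := typed_marg hG κ par a ld a₀ hpar ha ha₀ h0 hne hld0 hld u₀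
      hu x
    have h5 := hw4 (fun v => f v / (1 - U' v))
    have hw0 : w ≠ [] := by
      intro h
      rw [h] at hw2
      have := ld_pos κ par ld hpar hld0 hld x x.2
      rw [← hw2] at this
      simp at this
    have h6 := hW a₀ w hw1 hw0 u₀ hu
    rw [hw2, hw3] at h6
    set c : ℝ := if ld (x : ℕ) < l then C₂ else 0 with hcdef
    have hc0 : 0 ≤ c := by
      rw [hcdef]
      split_ifs
      · exact hC₂
      · exact le_rfl
    have h7 : ∀ v, |ω v * Un S (a x) v - wk G a₀ w (RobT.pt u₀) v| ≤ (c + e) * ω v / n := by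
      intro v
      rw [abs_sub_comm]
      refine (h6 v).trans ?_
      have h8 : (if l ≤ ld (x : ℕ) then e else C₂) ≤ c + e := by
        rw [hcdef]
        by_cases hl : l ≤ ld (x : ℕ)
        · rw [if_pos hl, if_neg (by omega)]
          linarith
        · rw [if_neg hl, if_pos (by omega)]
          linarith
      have h9 : 0 ≤ ω v / n := div_nonneg (hω0 v) hn.le
      calc (if l ≤ ld (x : ℕ) then e else C₂) * ω v / n =
          (if l ≤ ld (x : ℕ) then e else C₂) * (ω v / n) := by ring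
        _ ≤ (c + e) * (ω v / n) := mul_le_mul_of_nonneg_right h8 h9
        _ = (c + e) * ω v / n := by ring
    have h10 : ∑ v, f v / (1 - U' v) * (ω v * Un S (a x) v) -
        ∑ φ : Fin κ → V, W φ * (f (φ x) / (1 - U' (φ x))) =
        ∑ v, f v / (1 - U' v) * (ω v * Un S (a x) v - wk G a₀ w (RobT.pt u₀) v) := by
      rw [show ∑ φ : Fin κ → V, W φ * (f (φ x) / (1 - U' (φ x))) =
        ∑ v, wk G a₀ w (RobT.pt u₀) v * (f v / (1 - U' v)) from h5, ← Finset.sum_sub_distrib]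
      exact Finset.sum_congr rfl fun v _ => by ring
    rw [h10]
    refine (Finset.abs_sum_le_sum_abs _ _).trans ?_
    have h11 : ∀ v, |f v / (1 - U' v) * (ω v * Un S (a x) v - wk G a₀ w (RobT.pt u₀) v)| ≤
        f v * ((c + e) / (ρ ^ 2 * n)) := by
      intro v
      rw [abs_mul, abs_of_nonneg (hg0 v)]
      calc f v / (1 - U' v) * |ω v * Un S (a x) v - wk G a₀ w (RobT.pt u₀) v|
          ≤ f v / ρ * ((c + e) * (1 / ρ) / n) := by
            refine mul_le_mul (hg1 v) ((h7 v).trans ?_) (abs_nonneg _)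
              (div_nonneg (hf0 v) hρ.le)
            refine div_le_div_of_nonneg_right ?_ hn.le
            exact mul_le_mul_of_nonneg_left (hω1 v) (by linarith)
        _ = f v * ((c + e) / (ρ ^ 2 * n)) := by
            field_simp
    refine (Finset.sum_le_sum fun v _ => h11 v).trans ?_
    rw [← Finset.sum_mul]
    calc (∑ v, f v) * ((c + e) / (ρ ^ 2 * n)) ≤ Cf * ((c + e) / (ρ ^ 2 * n)) :=
          mul_le_mul_of_nonneg_right hf2 (by positivity)
      _ = Cf / (ρ ^ 2 * n) * (c + e) := by ring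
  refine (Finset.sum_le_sum fun x _ => hx x).trans ?_
  rw [← Finset.mul_sum, Finset.sum_add_distrib, Finset.sum_const, Finset.card_univ,
    Fintype.card_fin, nsmul_eq_mul]
  have h4 : ∑ x : Fin κ, (if ld (x : ℕ) < l then C₂ else 0) = C₂ * z := by
    rw [Fin.sum_univ_eq_sum_range (fun x => if ld x < l then C₂ else 0) κ,
      ← Finset.sum_filter, Finset.sum_const, nsmul_eq_mul, hzdef]
    ring
  rw [h4]

end

theorem exp_moment {V : Type} [Fintype V] [DecidableEq V] {ℓ l : ℕ} {S : ℕ → Finset V}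
    {G : ℕ → ℕ → V → V → ℝ} {Bf : V → ℝ} {C₂ e ρ Cf : ℝ} (hN : 0 < Fintype.card V)
    (hC₂ : 0 ≤ C₂) (he : 0 ≤ e) (hρ : 0 < ρ) (hρ1 : ρ ≤ 1) (hCf : 0 ≤ Cf) (A : Finset V)
    (Uf : V → ℝ) (hG : SK ℓ S Bf G) (hW : WP ℓ S (om A Uf) G l C₂ e)
    (hM : (Fintype.card V : ℝ) / 2 ≤ (S 0).card) (f : V → ℝ) (hf0 : ∀ v, 0 ≤ f v)
    (hf1 : ∀ v, f v ≤ Cf / Fintype.card V) (hf2 : ∑ v, f v ≤ Cf) (hU : ∀ v, 0 ≤ Uf v)
    (κ : ℕ) (par a ld : ℕ → ℕ) (a₀ : ℕ) (hκ : 0 < κ)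
    (hpar : ∀ x, 0 < x → x < κ → par x < x) (ha : ∀ x, x < κ → a x ≤ ℓ) (ha₀ : a₀ ≤ ℓ)
    (h0 : a₀ ≠ a 0) (hne : ∀ x, 0 < x → x < κ → a (par x) ≠ a x) (hld0 : ld 0 = 1)
    (hld : ∀ x, 0 < x → x < κ → ld x = ld (par x) + 1)
    (hU' : ∀ v, Uf v + ∑ x ∈ range κ, Un S (a x) v ≤ 1 - ρ) (u₀ : V) (hu : u₀ ∈ S a₀)
    (g lam : ℝ) (hg : g = 1 ∨ g = -1) (hlam : 0 ≤ lam)
    (hlb : lam * (3 * κ * Cf / (ρ ^ 2 * Fintype.card V)) ≤ 1) :
    ∑ φ : Fin κ → V, Wq (fun x => G (pa a₀ par a x) (a x)) κ par u₀ φ *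
        Real.exp (lam * (g * (Df f (om A Uf) +
          Lam f A Uf (fun v => Uf v + ∑ x ∈ range κ, Un S (a x) v) φ))) ≤
      Real.exp (lam * (g * Df f (om A Uf) + Cf / (ρ ^ 2 * Fintype.card V) *
        (C₂ * ((range κ).filter fun x => ld x < l).card + κ * e)) +
        (lam * (3 * κ * Cf / (ρ ^ 2 * Fintype.card V))) ^ 2) := by
  have hB : ∀ v, Bf v ≤ ∑ v, |Bf v| := fun v =>
    (le_abs_self _).trans (Finset.single_le_sum (f := fun v => |Bf v|)
      (fun v _ => abs_nonneg _) (Finset.mem_univ v))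
  have hQ := typed_QK hG hB κ par a a₀ hpar ha ha₀ hκ h0 hne u₀ hu
  have hWsum := Wq_sum hQ
  have hWnn := Wq_nn hQ
  have hmean := Lam_mean hN hC₂ he hρ A Uf hG hW f hf0 hCf hf2 κ par a ld a₀ hκ hpar ha ha₀ h0 hne
    hld0 hld hU' u₀ hu hWsum
  have hbd := Lam_bd hN hρ hρ1 hCf A Uf hM f hf0 hf1 hf2 κ a hU'
  set W : (Fin κ → V) → ℝ := fun φ => Wq (fun x => G (pa a₀ par a x) (a x)) κ par u₀ φ with hWdef
  set D : ℝ := Df f (om A Uf) with hDdef
  set L : (Fin κ → V) → ℝ :=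
    fun φ => Lam f A Uf (fun v => Uf v + ∑ x ∈ range κ, Un S (a x) v) φ with hLdef
  set b : ℝ := 3 * κ * Cf / (ρ ^ 2 * Fintype.card V) with hbdef
  set m : ℝ := Cf / (ρ ^ 2 * Fintype.card V) *
        (C₂ * ((range κ).filter fun x => ld x < l).card + κ * e) with hmdef
  have hg1 : |g| = 1 := by
    rcases hg with h | h <;> rw [h] <;> norm_num
  have hX : ∀ φ : Fin κ → V, |lam * (g * L φ)| ≤ lam * b := by
    intro φ
    rw [abs_mul, abs_mul, hg1, one_mul, abs_of_nonneg hlam]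
    exact mul_le_mul_of_nonneg_left (hbd φ) hlam
  have hexp : ∀ φ : Fin κ → V, Real.exp (lam * (g * (D + L φ))) ≤
      Real.exp (lam * (g * D)) * (1 + lam * g * L φ + (lam * b) ^ 2) := by
    intro φ
    have h1 : lam * (g * (D + L φ)) = lam * (g * D) + lam * (g * L φ) := by ring
    rw [h1, Real.exp_add]
    refine mul_le_mul_of_nonneg_left ?_ (Real.exp_pos _).le
    set X := lam * (g * L φ) with hXdef
    have h2 : |X| ≤ 1 := (hX φ).trans hlb
    have h3 := Real.abs_exp_sub_one_sub_id_le h2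
    have h4 := (abs_le.1 h3).2
    have h5 : X ^ 2 ≤ (lam * b) ^ 2 := by
      rw [← sq_abs X]
      exact pow_le_pow_left₀ (abs_nonneg _) (hX φ) 2
    have h6 : lam * g * L φ = X := by
      rw [hXdef]
      ring
    rw [h6]
    linarith
  calc ∑ φ : Fin κ → V, W φ * Real.exp (lam * (g * (D + L φ)))
      ≤ ∑ φ : Fin κ → V, W φ * (Real.exp (lam * (g * D)) *
          (1 + lam * g * L φ + (lam * b) ^ 2)) :=
        Finset.sum_le_sum fun φ _ => mul_le_mul_of_nonneg_left (hexp φ) (hWnn φ)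
    _ = Real.exp (lam * (g * D)) * (1 + lam * g * (∑ φ : Fin κ → V, W φ * L φ) +
          (lam * b) ^ 2) := by
      have h1 : ∀ φ : Fin κ → V, W φ * (Real.exp (lam * (g * D)) *
          (1 + lam * g * L φ + (lam * b) ^ 2)) =
          (Real.exp (lam * (g * D)) * (1 + (lam * b) ^ 2)) * W φ +
            (Real.exp (lam * (g * D)) * (lam * g)) * (W φ * L φ) := by
        intro φ
        ring
      rw [Finset.sum_congr rfl fun φ _ => h1 φ, Finset.sum_add_distrib, ← Finset.mul_sum,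
        ← Finset.mul_sum, hWsum]
      ring
    _ ≤ Real.exp (lam * (g * D)) * Real.exp (lam * m + (lam * b) ^ 2) := by
      refine mul_le_mul_of_nonneg_left ?_ (Real.exp_pos _).le
      have h1 : lam * g * (∑ φ : Fin κ → V, W φ * L φ) ≤ lam * m := by
        rw [mul_assoc]
        refine mul_le_mul_of_nonneg_left ?_ hlam
        refine (le_abs_self _).trans ?_
        rw [abs_mul, hg1, one_mul]
        exact hmean
      have h2 := Real.add_one_le_exp (lam * m + (lam * b) ^ 2)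
      linarith
    _ = Real.exp (lam * (g * D + m) + (lam * b) ^ 2) := by
      rw [← Real.exp_add]
      congr 1
      ring

end Pool.Agent.Lib.TourE
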