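import Pool.Agent.Lib.TourE.Defs

/-!
# Wb: basic lemmas on words and walks (about 220 lines)

All by induction on the word.  `wk_lin`: for `w = b :: w'`, by the induction hypothesis
`wk G b w' μ' v = ∑ x, μ' x * wk G b w' (pt x) v` with `μ' x = ∑ u, μ u * G a b u x`, and the same
for
`μ = pt u`, where `μ' x = G a b u x`.  `wk_sup` (support of the last step) and `wk_le` by writing
`w = w' ++ [b]` (`List.eq_nil_or_concat`) and `wk_append`: `wk G a (w' ++ [b]) μ v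
= ∑ u, wk G a w' μ u * G (lst a w') b u v`.  `wk_sum`: one step keeps the sum of a function which is
supported on `S a` (`row`) and the new function is supported on `S b` (`sup`).
`wk_l1`: `∑ v, |∑ u, σ u * G a b u v| ≤ ∑ u, |σ u| ∑ v, G a b u v ≤ ∑ u, |σ u|` (the row sums are
`1`
for `u ∈ S a` and `0` for `u ∉ S a`, by `sup`).
-/

namespace Pool.Agent.Lib.TourE

open Finset
open Pool.Agent.Lib.RobT (IsTour Arc eN Nb RT)

theorem lst_append (a : ℕ) (w w' : List ℕ) : lst a (w ++ w') = lst (lst a w) w' := by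
  induction w generalizing a with
  | nil => rfl
  | cons b w ih => exact ih b

private theorem wb_le {ℓ a : ℕ} {w : List ℕ} (h : Wd ℓ a w) : a ≤ ℓ := by
  cases w with
  | nil => exact h
  | cons b w => exact h.1

theorem Wd_append (ℓ a : ℕ) (w w' : List ℕ) :
    Wd ℓ a (w ++ w') ↔ Wd ℓ a w ∧ Wd ℓ (lst a w) w' := by
  induction w generalizing a with
  | nil => exact ⟨fun h => ⟨wb_le h, h⟩, fun h => h.2⟩
  | cons b w ih =>
    constructor
    · rintro ⟨h1, h2, h3⟩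
      obtain ⟨h4, h5⟩ := (ih b).1 h3
      exact ⟨⟨h1, h2, h4⟩, h5⟩
    · rintro ⟨⟨h1, h2, h3⟩, h4⟩
      exact ⟨h1, h2, (ih b).2 ⟨h3, h4⟩⟩

theorem Wd_le {ℓ a : ℕ} {w : List ℕ} (h : Wd ℓ a w) : a ≤ ℓ ∧ lst a w ≤ ℓ := by
  refine ⟨wb_le h, ?_⟩
  induction w generalizing a with
  | nil => exact h
  | cons b w ih => exact ih h.2.2

theorem KE_SK {V : Type} [Fintype V] {R : V → V → Prop} {ℓ : ℕ} {S : ℕ → Finset V} {c C : ℝ}
    {Q : ℕ → ℕ → V → V → ℝ} (hQ : KE R ℓ S c C Q) :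
    SK ℓ S (fun _ => C / Fintype.card V) Q where
  nn := hQ.nn
  up := hQ.up
  sup a b u v h := ⟨(hQ.sup a b u v h).1, (hQ.sup a b u v h).2.1⟩
  row := hQ.row

section

variable {V : Type} [Fintype V]

private theorem wb_cons (G : ℕ → ℕ → V → V → ℝ) (a b : ℕ) (w : List ℕ) (μ : V → ℝ) :
    wk G a (b :: w) μ = wk G b w (fun v => ∑ u, μ u * G a b u v) := rfl

theorem wk_append (G : ℕ → ℕ → V → V → ℝ) (a : ℕ) (w w' : List ℕ) (μ : V → ℝ) :
    wk G a (w ++ w') μ = wk G (lst a w) w' (wk G a w μ) := by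
  induction w generalizing a μ with
  | nil => rfl
  | cons b w ih => exact ih b _

theorem wk_snoc (G : ℕ → ℕ → V → V → ℝ) (a : ℕ) (w : List ℕ) (b : ℕ) (μ : V → ℝ) (v : V) :
    wk G a (w ++ [b]) μ v = ∑ u, wk G a w μ u * G (lst a w) b u v := by
  rw [wk_append]
  rfl

theorem wk_sub (G : ℕ → ℕ → V → V → ℝ) (a : ℕ) (w : List ℕ) (μ μ' : V → ℝ) (v : V) :
    wk G a w (fun x => μ x - μ' x) v = wk G a w μ v - wk G a w μ' v := by
  induction w generalizing a μ μ' with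
  | nil => rfl
  | cons b w ih =>
    rw [wb_cons, wb_cons, wb_cons, ← ih b]
    congr 1
    funext x
    rw [← Finset.sum_sub_distrib]
    exact Finset.sum_congr rfl fun u _ => sub_mul _ _ _

theorem wk_lin [DecidableEq V] (G : ℕ → ℕ → V → V → ℝ) (a : ℕ) (w : List ℕ) (μ : V → ℝ) (v : V) :
    wk G a w μ v = ∑ u, μ u * wk G a w (RobT.pt u) v := by
  induction w generalizing a μ with
  | nil =>
    change μ v = ∑ u, μ u * RobT.pt u v
    simp [RobT.pt]
  | cons b w ih =>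
    rw [wb_cons, ih b]
    have h : ∀ u, wk G a (b :: w) (RobT.pt u) v = ∑ x, G a b u x * wk G b w (RobT.pt x) v := by
      intro u
      rw [wb_cons, ih b]
      refine Finset.sum_congr rfl fun x _ => ?_
      congr 1
      simp [RobT.pt]
    simp only [h, Finset.mul_sum, Finset.sum_mul]
    rw [Finset.sum_comm]
    exact Finset.sum_congr rfl fun u _ => Finset.sum_congr rfl fun x _ => mul_assoc _ _ _

variable {ℓ : ℕ} {S : ℕ → Finset V} {B : V → ℝ} {G : ℕ → ℕ → V → V → ℝ}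

theorem wk_nn (hG : SK ℓ S B G) (a : ℕ) (w : List ℕ) (μ : V → ℝ) (hμ : ∀ v, 0 ≤ μ v) (v : V) :
    0 ≤ wk G a w μ v := by
  induction w generalizing a μ with
  | nil => exact hμ v
  | cons b w ih =>
    exact ih b _ fun x => Finset.sum_nonneg fun u _ => mul_nonneg (hμ u) (hG.nn a b u x)

theorem wk_sup (hG : SK ℓ S B G) (a : ℕ) (w : List ℕ) (μ : V → ℝ)
    (hμ : ∀ v, μ v ≠ 0 → v ∈ S a) (v : V) (hv : wk G a w μ v ≠ 0) : v ∈ S (lst a w) := by
  induction w generalizing a μ with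
  | nil => exact hμ v hv
  | cons b w ih =>
    refine ih b _ (fun x hx => ?_) hv
    obtain ⟨u, _, hu⟩ := Finset.exists_ne_zero_of_sum_ne_zero hx
    exact (hG.sup a b u x (right_ne_zero_of_mul hu)).2

private theorem wb_sup1 (hG : SK ℓ S B G) (a b : ℕ) (μ : V → ℝ) (v : V)
    (hv : (∑ u, μ u * G a b u v) ≠ 0) : v ∈ S b := by
  obtain ⟨u, _, hu⟩ := Finset.exists_ne_zero_of_sum_ne_zero hv
  exact (hG.sup a b u v (right_ne_zero_of_mul hu)).2

theorem wk_sum (hG : SK ℓ S B G) (a : ℕ) (w : List ℕ) (hw : Wd ℓ a w) (μ : V → ℝ)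
    (hμ : ∀ v, μ v ≠ 0 → v ∈ S a) : ∑ v, wk G a w μ v = ∑ v, μ v := by
  induction w generalizing a μ with
  | nil => rfl
  | cons b w ih =>
    rw [wb_cons, ih b hw.2.2 _ fun x hx => wb_sup1 hG a b μ x hx, Finset.sum_comm]
    refine Finset.sum_congr rfl fun u _ => ?_
    rw [← Finset.mul_sum]
    by_cases hu : μ u = 0
    · rw [hu, zero_mul]
    · rw [hG.row a b hw.1 (wb_le hw.2.2) hw.2.1 u (hμ u hu), mul_one]

theorem wk_le (hG : SK ℓ S B G) (a : ℕ) (w : List ℕ) (hw : Wd ℓ a w) (hne : w ≠ [])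
    (μ : V → ℝ) (hμ0 : ∀ v, 0 ≤ μ v) (hμ : ∀ v, μ v ≠ 0 → v ∈ S a) (hμ1 : ∑ v, μ v = 1)
    (v : V) : wk G a w μ v ≤ B v := by
  obtain ⟨w', b, rfl⟩ : ∃ w' b, w = w' ++ [b] := by
    rcases List.eq_nil_or_concat w with h | ⟨w', b, h⟩
    · exact absurd h hne
    · exact ⟨w', b, by rw [h, List.concat_eq_append]⟩
  rw [wk_snoc]
  have h1 : ∑ u, wk G a w' μ u * G (lst a w') b u v ≤ ∑ u, wk G a w' μ u * B v :=
    Finset.sum_le_sum fun u _ =>
      mul_le_mul_of_nonneg_left (hG.up _ _ _ _) (wk_nn hG a w' μ hμ0 u)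
  rw [← Finset.sum_mul, wk_sum hG a w' ((Wd_append ℓ a w' [b]).1 hw).1 μ hμ, hμ1, one_mul] at h1
  exact h1

theorem wk_l1 (hG : SK ℓ S B G) (a : ℕ) (w : List ℕ) (hw : Wd ℓ a w) (σ : V → ℝ) :
    ∑ v, |wk G a w σ v| ≤ ∑ v, |σ v| := by
  induction w generalizing a σ with
  | nil => exact le_rfl
  | cons b w ih =>
    rw [wb_cons]
    refine (ih b hw.2.2 _).trans ?_
    have h1 : ∀ v, |∑ u, σ u * G a b u v| ≤ ∑ u, |σ u| * G a b u v := by
      intro v
      refine (Finset.abs_sum_le_sum_abs _ _).trans (Finset.sum_le_sum fun u _ => ?_)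
      rw [abs_mul, abs_of_nonneg (hG.nn a b u v)]
    refine (Finset.sum_le_sum fun v _ => h1 v).trans ?_
    rw [Finset.sum_comm]
    refine Finset.sum_le_sum fun u _ => ?_
    rw [← Finset.mul_sum]
    by_cases hu : u ∈ S a
    · rw [hG.row a b hw.1 (wb_le hw.2.2) hw.2.1 u hu, mul_one]
    · rw [Finset.sum_eq_zero fun v _ => ?_, mul_zero]
      · exact abs_nonneg _
      · by_contra h
        exact hu (hG.sup a b u v h).1

end

end Pool.Agent.Lib.TourE
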