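import Pool.Agent.Lib.TourE.Sw
import Pool.Agent.Lib.TourE.Wb

/-!
# Sm: the marginals of the random map of a typed tree (about 120 lines)

The tree vertex `x` has the type `a x`, its parent `pa a₀ par a x = a₀` (`x = 0`) or `a (par x)`;
`q x = G (pa x) (a x)`, `T x = S (a x)`.
`typed_QK`: clear from `SK` (`row0`: `u₀ ∈ S a₀`).
`typed_marg`: strong induction on `x`.  `x = 0`: `w = [a 0]`; `Wq_step` for `x = 0` (`prv = u₀`),
`Wq_sum`, and `wk G a₀ [a 0] (pt u₀) v = G a₀ (a 0) u₀ v`.  `x > 0`: `w' ` for `par x`,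
`w = w' ++ [a x]`; `Wq_step`: `∑ φ, Wq φ g (φ x) = ∑ φ, Wq φ h (φ (par x))` with
`h u = ∑ v, G (a (par x)) (a x) u v g v` (`prv κ par u₀ φ x = φ ⟨par x, _⟩`), which is
`∑ u, wk G a₀ w' (pt u₀) u h u = ∑ v, wk G a₀ w (pt u₀) v g v` by `wk_snoc` (`lst a₀ w' = a (par
x)`).
`Wd ℓ a₀ w` by `Wd_append`.
-/

namespace Pool.Agent.Lib.TourE

open Finset
open Pool.Agent.Lib.RobT (IsTour Arc eN Nb RT)

/-- The type of the parent. -/
def pa (a₀ : ℕ) (par a : ℕ → ℕ) (x : ℕ) : ℕ := if x = 0 then a₀ else a (par x)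

section

variable {V : Type} [Fintype V] [DecidableEq V] {ℓ : ℕ} {S : ℕ → Finset V} {Bf : V → ℝ}
  {G : ℕ → ℕ → V → V → ℝ}

theorem typed_QK (hG : SK ℓ S Bf G) {B : ℝ} (hB : ∀ v, Bf v ≤ B) (κ : ℕ) (par a : ℕ → ℕ)
    (a₀ : ℕ) (hpar : ∀ x, 0 < x → x < κ → par x < x) (ha : ∀ x, x < κ → a x ≤ ℓ) (ha₀ : a₀ ≤ ℓ)
    (hκ : 0 < κ) (h0 : a₀ ≠ a 0) (hne : ∀ x, 0 < x → x < κ → a (par x) ≠ a x) (u₀ : V)
    (hu : u₀ ∈ S a₀) :
    QK (fun x => G (pa a₀ par a x) (a x)) κ par (fun x => S (a x)) u₀ B := by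
  refine ⟨hpar, fun x u v => hG.nn _ _ _ _, fun x u v => (hG.up _ _ _ _).trans (hB v),
    fun x u v h => (hG.sup _ _ _ _ h).2, ?_, ?_⟩
  · have h1 : pa a₀ par a 0 = a₀ := if_pos rfl
    show ∑ v, G (pa a₀ par a 0) (a 0) u₀ v = 1
    rw [h1]
    exact hG.row a₀ (a 0) ha₀ (ha 0 hκ) h0 u₀ hu
  · intro x hx hxκ u hu'
    have h1 : pa a₀ par a x = a (par x) := if_neg (by omega)
    show ∑ v, G (pa a₀ par a x) (a x) u v = 1
    rw [h1]
    exact hG.row _ _ (ha _ ((hpar x hx hxκ).trans hxκ)) (ha x hxκ) (hne x hx hxκ) u hu'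

theorem typed_marg (hG : SK ℓ S Bf G) (κ : ℕ) (par a ld : ℕ → ℕ) (a₀ : ℕ)
    (hpar : ∀ x, 0 < x → x < κ → par x < x) (ha : ∀ x, x < κ → a x ≤ ℓ) (ha₀ : a₀ ≤ ℓ)
    (h0 : a₀ ≠ a 0) (hne : ∀ x, 0 < x → x < κ → a (par x) ≠ a x) (hld0 : ld 0 = 1)
    (hld : ∀ x, 0 < x → x < κ → ld x = ld (par x) + 1) (u₀ : V) (hu : u₀ ∈ S a₀) (x : Fin κ) :
    ∃ w : List ℕ, Wd ℓ a₀ w ∧ w.length = ld x ∧ lst a₀ w = a x ∧ ∀ g : V → ℝ,
      ∑ φ : Fin κ → V, Wq (fun x => G (pa a₀ par a x) (a x)) κ par u₀ φ * g (φ x) =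
        ∑ v, wk G a₀ w (RobT.pt u₀) v * g v := by
  have hκ : 0 < κ := x.pos
  have hB : ∀ v, Bf v ≤ ∑ v, |Bf v| := fun v =>
    (le_abs_self _).trans (single_le_sum (f := fun v => |Bf v|) (fun i _ => abs_nonneg _)
      (mem_univ v))
  have hQ := typed_QK hG hB κ par a a₀ hpar ha ha₀ hκ h0 hne u₀ hu
  have key : ∀ (k : ℕ) (hk : k < κ),
      ∃ w : List ℕ, Wd ℓ a₀ w ∧ w.length = ld k ∧ lst a₀ w = a k ∧ ∀ g : V → ℝ,
      ∑ φ : Fin κ → V, Wq (fun x => G (pa a₀ par a x) (a x)) κ par u₀ φ * g (φ ⟨k, hk⟩) =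
        ∑ v, wk G a₀ w (RobT.pt u₀) v * g v := by
    intro k
    induction k using Nat.strong_induction_on with
    | _ k ih =>
    intro hk
    rcases Nat.eq_zero_or_pos k with hk0 | hk0
    · subst hk0
      refine ⟨[a 0], ⟨ha₀, h0, ha 0 hk⟩, by rw [hld0]; rfl, rfl, fun g => ?_⟩
      have h1 : pa a₀ par a 0 = a₀ := if_pos rfl
      have h2 : ∀ φ : Fin κ → V, RobT.prv κ par u₀ φ ⟨0, hk⟩ = u₀ := fun φ => if_pos rfl
      rw [Wq_step hQ ⟨0, hk⟩ g]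
      simp only [h1, h2]
      rw [← sum_mul, Wq_sum hQ, one_mul]
      refine sum_congr rfl fun v _ => ?_
      congr 1
      show G a₀ (a 0) u₀ v = ∑ u, RobT.pt u₀ u * G a₀ (a 0) u v
      rw [sum_eq_single u₀]
      · simp [RobT.pt]
      · intro b _ hb
        simp [RobT.pt, hb]
      · intro h
        exact absurd (mem_univ _) h
    · have hy : par k < k := hpar k hk0 hk
      have hyκ : par k < κ := hy.trans hk
      obtain ⟨w', hw1, hw2, hw3, hw4⟩ := ih (par k) hy hyκ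
      refine ⟨w' ++ [a k], ?_, ?_, ?_, fun g => ?_⟩
      · rw [Wd_append]
        refine ⟨hw1, ?_, ?_, ?_⟩
        · rw [hw3]
          exact ha _ hyκ
        · rw [hw3]
          exact hne k hk0 hk
        · exact ha k hk
      · rw [List.length_append, hw2, hld k hk0 hk]
        rfl
      · rw [lst_append]
        rfl
      · have h1 : pa a₀ par a k = a (par k) := if_neg (by omega)
        have h2 : ∀ φ : Fin κ → V, RobT.prv κ par u₀ φ ⟨k, hk⟩ = φ ⟨par k, hyκ⟩ := fun φ => by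
          unfold RobT.prv RobT.ext
          rw [if_neg (by simpa using (by omega : k ≠ 0)), dif_pos hyκ]
        rw [Wq_step hQ ⟨k, hk⟩ g]
        simp only [h1, h2]
        rw [hw4 (fun u => ∑ v, G (a (par k)) (a k) u v * g v)]
        simp only [mul_sum]
        rw [sum_comm]
        refine sum_congr rfl fun v _ => ?_
        rw [wk_snoc, hw3, sum_mul]
        exact sum_congr rfl fun u _ => by ring
  exact key x x.2

end

end Pool.Agent.Lib.TourE
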