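import Pool.Agent.Lib.TourE.Se

/-!
# Ss: one piece (about 300 lines)

`n = |V|`, `ω = om A Uf`, `U' v = Uf v + ∑ x < κ, Un S (a x) v`, `G = qw Q ω`, `lam = √n`,
`b = 3 K Cf/(ρ² n)`; `n₀` so large that for `n ≥ n₀`: `n ≥ 1`, `√n b ≤ 1` (i.e.
`√n ≥ 3 K Cf/ρ²`), `K² (2 C/(ρ n)) ≤ 1/2`.  `B = 9 K² Cf²/ρ⁴ + 4 C K²/ρ`.
`Bf v = 2 C ω v/n ≤ 2 C/(ρ n)` (`ω ≤ 1/ρ` as `Uf ≤ U' ≤ 1 - ρ`).
W = `Wq (fun x => G (pa a₀ par a x) (a x)) κ par u`: nonnegative, sum `1` (`typed_QK`).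
(1) `t := ∑_{φ not injective} W φ ≤ ∑_{x < y} (…) ≤ K² (2 C/(ρ n)) ≤ 1/2` (`Wq_coll`), and
  `1/(1 - t) ≤ exp (2 t) ≤ exp (4 C K²/(ρ n))`.
(2) For `W φ ≠ 0` all factors are nonzero (`Wq_supp`): `qw Q ω d b u v ≠ 0` implies `Q d b u v ≠ 0`
  and `ω v ≠ 0`, so `φ x ∈ A`, `φ x ∈ S (a x)` and the arcs (`KE.sup`): for `x = 0`:
  `Arc R (decide (a₀ < a 0)) u (φ 0)`, for `x > 0`: `Arc R (decide (a (par x) < a x)) (φ (par x))
  (φ x)`.
(3) For injective `φ` with `W φ ≠ 0`: `Df f (om (A \ im φ) U') = Df f ω + Lam f A Uf U' φ`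
(`Df_new`),
  so with `δ₂ = δ + m`, `m = Cf/(ρ² n) (2 C #{…} + κ e)`, `e = ε₀ + E δ`:
  `∑_{φ inj} W φ Pot F √n (om (A \ im φ) U') δ₂ ≤ ∑_{f ∈ F} ∑_{g = ±1} ∑_φ W φ exp (√n (g (Df f ω +
  Lam) - δ₂)) ≤ ∑_f ∑_g exp (√n (g Df f ω + m) + (√n b)² - √n δ₂) ≤ Pot F √n ω δ exp (9 K² Cf²/(ρ⁴
  n))`
  (`exp_moment`).
(4) If `Pot F √n (om (A \ im φ) U') δ₂ > Pot F √n ω δ exp (B/n)` for all injective `φ` with `W φ ≠
0`:
  the left side of (3) would be `> (1 - t) Pot F √n ω δ exp (B/n) ≥ Pot F √n ω δ exp (9 K² Cf²/(ρ⁴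
  n))`
  (strict, as `∑_{φ inj} W φ ≥ 1/2 > 0`), a contradiction.  So there is a good `φ : Fin κ → V`;
  extend it to `ℕ` (e.g. `fun i => if h : i < κ then φ ⟨i, h⟩ else u`);
  `(range κ).image φ' = univ.image φ`.
-/

namespace Pool.Agent.Lib.TourE

open Finset
open Pool.Agent.Lib.RobT (IsTour Arc eN Nb RT)

section Aux

variable {V : Type} [Fintype V] [DecidableEq V]

/-- the potential of the random set -/
private noncomputable def PI (F : Finset (V → ℝ)) (lam : ℝ) (A : Finset V) (Uf U' : V → ℝ)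
    (δ : ℝ) {κ : ℕ} (φ : Fin κ → V) : ℝ :=
  ∑ f ∈ F, ∑ b : Bool,
    Real.exp (lam * ((if b then 1 else -1) * (Df f (om A Uf) + Lam f A Uf U' φ) - δ))

private theorem PI_nn (F : Finset (V → ℝ)) (lam : ℝ) (A : Finset V) (Uf U' : V → ℝ)
    (δ : ℝ) {κ : ℕ} (φ : Fin κ → V) : 0 ≤ PI F lam A Uf U' δ φ := by
  unfold PI
  exact Finset.sum_nonneg fun _ _ => Finset.sum_nonneg fun _ _ => (Real.exp_pos _).le

private theorem swap2 {ι α : Type} [Fintype ι] (F : Finset α) (w : ι → ℝ)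
    (G : ι → α → Bool → ℝ) :
    ∑ φ, w φ * ∑ f ∈ F, ∑ b : Bool, G φ f b = ∑ f ∈ F, ∑ b : Bool, ∑ φ, w φ * G φ f b := by
  simp only [Finset.mul_sum]
  rw [Finset.sum_comm]
  refine Finset.sum_congr rfl fun f _ => ?_
  rw [Finset.sum_comm]

omit [Fintype V] in
private theorem card_pairs (κ : ℕ) (φ : Fin κ → V) :
    (if Function.Injective φ then (0 : ℝ) else 1) ≤
      ∑ x : Fin κ, ∑ y : Fin κ, if x ≠ y then (if φ x = φ y then (1 : ℝ) else 0) else 0 := by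
  classical
  have hnn : ∀ x y : Fin κ, (0 : ℝ) ≤
      if x ≠ y then (if φ x = φ y then (1 : ℝ) else 0) else 0 := by
    intro x y
    split_ifs <;> norm_num
  by_cases h : Function.Injective φ
  · rw [if_pos h]
    exact Finset.sum_nonneg fun x _ => Finset.sum_nonneg fun y _ => hnn x y
  · rw [if_neg h]
    unfold Function.Injective at h
    push Not at h
    obtain ⟨x, y, hxy, hne⟩ := h
    have h1 : (1 : ℝ) = if x ≠ y then (if φ x = φ y then (1 : ℝ) else 0) else 0 := by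
      rw [if_pos hne, if_pos hxy]
    refine h1.le.trans ?_
    refine le_trans ?_ (Finset.single_le_sum (f := fun x : Fin κ => ∑ y : Fin κ,
      if x ≠ y then (if φ x = φ y then (1 : ℝ) else 0) else 0)
      (fun x _ => Finset.sum_nonneg fun y _ => hnn x y) (Finset.mem_univ x))
    exact Finset.single_le_sum (f := fun y : Fin κ =>
      if x ≠ y then (if φ x = φ y then (1 : ℝ) else 0) else 0)
      (fun y _ => hnn x y) (Finset.mem_univ y)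

private theorem bad_weight (κ : ℕ) (w : (Fin κ → V) → ℝ) (hw : ∀ φ, 0 ≤ w φ) (η : ℝ)
    (h : ∀ x y : Fin κ, x ≠ y → ∑ φ, w φ * (if φ x = φ y then 1 else 0) ≤ η) (hη : 0 ≤ η) :
    ∑ φ, w φ * (if Function.Injective φ then 0 else 1) ≤ (κ : ℝ) ^ 2 * η := by
  classical
  calc ∑ φ, w φ * (if Function.Injective φ then 0 else 1)
      ≤ ∑ φ, w φ * ∑ x : Fin κ, ∑ y : Fin κ,
          (if x ≠ y then (if φ x = φ y then (1 : ℝ) else 0) else 0) :=
        Finset.sum_le_sum fun φ _ => mul_le_mul_of_nonneg_left (card_pairs κ φ) (hw φ)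
    _ = ∑ x : Fin κ, ∑ y : Fin κ, ∑ φ, w φ *
          (if x ≠ y then (if φ x = φ y then (1 : ℝ) else 0) else 0) := by
        simp only [Finset.mul_sum]
        rw [Finset.sum_comm]
        refine Finset.sum_congr rfl fun x _ => ?_
        rw [Finset.sum_comm]
    _ ≤ ∑ x : Fin κ, ∑ y : Fin κ, η := by
        refine Finset.sum_le_sum fun x _ => Finset.sum_le_sum fun y _ => ?_
        by_cases hxy : x ≠ y
        · simp only [if_pos hxy]
          exact h x y hxy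
        · simp only [if_neg hxy, mul_zero, Finset.sum_const_zero]
          exact hη
    _ = (κ : ℝ) ^ 2 * η := by
        rw [Finset.sum_const, Finset.sum_const, Finset.card_univ, Fintype.card_fin]
        simp only [nsmul_eq_mul]
        ring

/-- averaging -/
private theorem average {ι : Type} [Fintype ι] (w F : ι → ℝ) (good : ι → Prop)
    (hw : ∀ φ, 0 ≤ w φ) (hF : ∀ φ, 0 ≤ F φ) (hsum : ∑ φ, w φ = 1) (β : ℝ) (hβ0 : 0 ≤ β)
    (hβ : β ≤ 1 / 2) (bd : ι → ℝ) (hbd0 : ∀ φ, good φ → bd φ = 0)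
    (hbd1 : ∀ φ, ¬ good φ → bd φ = 1) (hbad : ∑ φ, w φ * bd φ ≤ β) :
    ∃ φ, good φ ∧ 0 < w φ ∧ F φ ≤ (∑ φ, w φ * F φ) * Real.exp (2 * β) := by
  classical
  set S : ℝ := ∑ φ, w φ * F φ with hS
  have hS0 : 0 ≤ S := Finset.sum_nonneg fun φ _ => mul_nonneg (hw φ) (hF φ)
  set G : Finset ι := Finset.univ.filter good with hG
  have hWG : 1 - β ≤ ∑ φ ∈ G, w φ := by
    have h1 : ∑ φ, w φ = ∑ φ ∈ G, w φ + ∑ φ, w φ * bd φ := by
      rw [hG, Finset.sum_filter, ← Finset.sum_add_distrib]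
      refine Finset.sum_congr rfl fun φ _ => ?_
      split_ifs with hφ
      · rw [hbd0 φ hφ, mul_zero, add_zero]
      · rw [hbd1 φ hφ, mul_one, zero_add]
    rw [hsum] at h1
    linarith
  have he : 1 ≤ Real.exp (2 * β) * (1 - β) := by
    have h1 := Real.add_one_le_exp (2 * β)
    nlinarith
  by_contra hcon
  push Not at hcon
  have hex : ∃ φ ∈ G, 0 < w φ := by
    by_contra h
    push Not at h
    have : ∑ φ ∈ G, w φ ≤ 0 := Finset.sum_nonpos h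
    linarith
  have h1 : ∑ φ ∈ G, w φ * (S * Real.exp (2 * β)) < ∑ φ ∈ G, w φ * F φ := by
    obtain ⟨φ0, hφ0, hw0⟩ := hex
    refine Finset.sum_lt_sum ?_ ⟨φ0, hφ0, ?_⟩
    · intro φ hφ
      rcases (hw φ).eq_or_lt with h0 | h0
      · rw [← h0, zero_mul, zero_mul]
      · exact mul_le_mul_of_nonneg_left (hcon φ (Finset.mem_filter.1 hφ).2 h0).le (hw φ)
    · exact mul_lt_mul_of_pos_left (hcon φ0 (Finset.mem_filter.1 hφ0).2 hw0) hw0
  have h2 : ∑ φ ∈ G, w φ * F φ ≤ S :=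
    Finset.sum_le_univ_sum_of_nonneg fun φ => mul_nonneg (hw φ) (hF φ)
  rw [← Finset.sum_mul] at h1
  have h3 : S ≤ (∑ φ ∈ G, w φ) * (S * Real.exp (2 * β)) := by
    have h4 : (1 - β) * (S * Real.exp (2 * β)) ≤ (∑ φ ∈ G, w φ) * (S * Real.exp (2 * β)) :=
      mul_le_mul_of_nonneg_right hWG (mul_nonneg hS0 (Real.exp_pos _).le)
    have h5 : S * 1 ≤ S * (Real.exp (2 * β) * (1 - β)) := mul_le_mul_of_nonneg_left he hS0
    nlinarith
  linarith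

omit [Fintype V] in
private theorem ext_im (κ : ℕ) (u : V) (φ : Fin κ → V) :
    (range κ).image (RobT.ext κ u φ) = univ.image φ := by
  ext v
  rw [Finset.mem_image, Finset.mem_image]
  constructor
  · rintro ⟨x, hx, rfl⟩
    have hx' : x < κ := Finset.mem_range.1 hx
    refine ⟨⟨x, hx'⟩, Finset.mem_univ _, ?_⟩
    unfold RobT.ext
    rw [dif_pos hx']
  · rintro ⟨x, _, rfl⟩
    refine ⟨(x : ℕ), Finset.mem_range.2 x.2, ?_⟩
    unfold RobT.ext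
    rw [dif_pos x.2]

private theorem Pot_new (F : Finset (V → ℝ)) (lam : ℝ) (A : Finset V) (Uf U' : V → ℝ)
    (δ : ℝ) (h1 : ∀ v, Uf v < 1) (h2 : ∀ v, U' v < 1) {κ : ℕ} (φ : Fin κ → V)
    (hφ : Function.Injective φ) (hA : ∀ x, φ x ∈ A) :
    Pot F lam (om (A \ univ.image φ) U') δ = PI F lam A Uf U' δ φ := by
  unfold Pot PI
  refine Finset.sum_congr rfl fun f _ => Finset.sum_congr rfl fun b _ => ?_
  rw [Df_new f A Uf U' h1 h2 φ hφ hA]

end Aux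

theorem step (C Cf ρ E ε₀ : ℝ) (K l : ℕ) (hC : 1 ≤ C) (hCf : 1 ≤ Cf) (hρ : 0 < ρ)
    (hρ1 : ρ ≤ 1) (hE : 0 ≤ E) (hε₀ : 0 ≤ ε₀) :
    ∃ (B : ℝ) (n₀ : ℕ), 0 ≤ B ∧ ∀ (V : Type) [Fintype V] [DecidableEq V] (R : V → V → Prop)
      (ℓ : ℕ) (c : ℝ) (S : ℕ → Finset V) (Q : ℕ → ℕ → V → V → ℝ) (F : Finset (V → ℝ)),
      n₀ ≤ Fintype.card V → KE R ℓ S c C Q → (Fintype.card V : ℝ) / 2 ≤ (S 0).card →
      (∀ f ∈ F, ∀ v, 0 ≤ f v) → (∀ f ∈ F, ∀ v, f v ≤ Cf / Fintype.card V) →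
      (∀ f ∈ F, ∑ v, f v ≤ Cf) →
      ∀ (A : Finset V) (Uf : V → ℝ) (δ : ℝ), (∀ v, 0 ≤ Uf v) → 0 ≤ δ →
      SK ℓ S (fun v => 2 * C * om A Uf v / Fintype.card V) (qw Q (om A Uf)) →
      WP ℓ S (om A Uf) (qw Q (om A Uf)) l (2 * C) (ε₀ + E * δ) →
      ∀ (κ : ℕ) (par a ld : ℕ → ℕ) (a₀ : ℕ), 0 < κ → κ ≤ K →
      (∀ x, 0 < x → x < κ → par x < x) → (∀ x, x < κ → a x ≤ ℓ) → a₀ ≤ ℓ → a₀ ≠ a 0 →
      (∀ x, 0 < x → x < κ → a (par x) ≠ a x) → ld 0 = 1 →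
      (∀ x, 0 < x → x < κ → ld x = ld (par x) + 1) →
      (∀ v, Uf v + ∑ x ∈ range κ, Un S (a x) v ≤ 1 - ρ) → ∀ u ∈ S a₀,
      ∃ φ : ℕ → V, (∀ x, x < κ → φ x ∈ A) ∧ Set.InjOn φ (Set.Iio κ) ∧
        (∀ x, x < κ → φ x ∈ S (a x)) ∧ Arc R (decide (a₀ < a 0)) u (φ 0) ∧
        (∀ x, 0 < x → x < κ → Arc R (decide (a (par x) < a x)) (φ (par x)) (φ x)) ∧
        Pot F (√(Fintype.card V)) (om (A \ (range κ).image φ)
            (fun v => Uf v + ∑ x ∈ range κ, Un S (a x) v))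
          (δ + Cf / (ρ ^ 2 * Fintype.card V) *
            (2 * C * ((range κ).filter fun x => ld x < l).card + κ * (ε₀ + E * δ))) ≤
        Pot F (√(Fintype.card V)) (om A Uf) δ * Real.exp (B / Fintype.card V) := by
  have hC0 : 0 ≤ C := by linarith
  have hCf0 : 0 ≤ Cf := by linarith
  refine ⟨9 * K ^ 2 * Cf ^ 2 / ρ ^ 4 + 4 * C * K ^ 2 / ρ,
    ⌈(3 * K * Cf / ρ ^ 2) ^ 2⌉₊ + ⌈4 * C * K ^ 2 / ρ⌉₊ + 1, by positivity, ?_⟩
  intro V _ _ R ℓ c S Q F hn hQ hM hF0 hF1 hF2 A Uf δ hU hδ hSK hWP κ par a ld a₀ hκ hκK hpar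
    ha ha₀ h0 hne hld0 hld hU' u hu
  have hn' : (((⌈(3 * K * Cf / ρ ^ 2) ^ 2⌉₊ + ⌈4 * C * K ^ 2 / ρ⌉₊ + 1 : ℕ) : ℕ) : ℝ) ≤
      (Fintype.card V : ℝ) := by exact_mod_cast hn
  push_cast at hn'
  have c2 := Nat.le_ceil ((3 * K * Cf / ρ ^ 2) ^ 2)
  have c3 := Nat.le_ceil (4 * C * K ^ 2 / ρ)
  have p2 : (0 : ℝ) ≤ (⌈(3 * K * Cf / ρ ^ 2) ^ 2⌉₊ : ℝ) := Nat.cast_nonneg _
  have p3 : (0 : ℝ) ≤ (⌈4 * C * K ^ 2 / ρ⌉₊ : ℝ) := Nat.cast_nonneg _
  set n : ℝ := (Fintype.card V : ℝ) with hndef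
  have hnpos : 0 < n := by linarith
  have hcard : 0 < Fintype.card V := by
    have : (0 : ℝ) < (Fintype.card V : ℝ) := hnpos
    exact_mod_cast this
  have hn2 : 3 * K * Cf / ρ ^ 2 ≤ √n := by
    refine Real.le_sqrt_of_sq_le ?_
    linarith
  have hn3 : 4 * C * K ^ 2 ≤ ρ * n := by
    have : 4 * C * K ^ 2 / ρ ≤ n := by linarith
    rw [div_le_iff₀ hρ] at this
    linarith
  have hK1 : (κ : ℝ) ≤ K := by exact_mod_cast hκK
  have hK0 : (0 : ℝ) ≤ K := Nat.cast_nonneg _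
  have hκ0 : (0 : ℝ) ≤ κ := Nat.cast_nonneg _
  have hUn : ∀ b v, 0 ≤ Un S b v := by
    intro b v
    unfold Un
    split_ifs
    · positivity
    · exact le_rfl
  have hUfρ : ∀ v, Uf v ≤ 1 - ρ := by
    intro v
    have h1 : 0 ≤ ∑ x ∈ range κ, Un S (a x) v := Finset.sum_nonneg fun x _ => hUn _ _
    have h2 := hU' v
    linarith
  have hom : ∀ v, om A Uf v ≤ 1 / ρ := by
    intro v
    unfold om
    split_ifs
    · refine one_div_le_one_div_of_le hρ ?_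
      have h1 := hUfρ v
      linarith
    · positivity
  set U' : V → ℝ := fun v => Uf v + ∑ x ∈ range κ, Un S (a x) v with hU'def
  set e : ℝ := Cf / (ρ ^ 2 * n) *
      (2 * C * ((range κ).filter fun x => ld x < l).card + κ * (ε₀ + E * δ)) with he
  set W : (Fin κ → V) → ℝ :=
    Wq (fun x => qw Q (om A Uf) (pa a₀ par a x) (a x)) κ par u with hW
  have hB : ∀ v, (fun v => 2 * C * om A Uf v / n) v ≤ 2 * C / (ρ * n) := by
    intro v
    show 2 * C * om A Uf v / n ≤ 2 * C / (ρ * n)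
    rw [div_le_div_iff₀ hnpos (mul_pos hρ hnpos)]
    have h1 := hom v
    rw [le_div_iff₀ hρ] at h1
    have h2 : 2 * C * om A Uf v * (ρ * n) = 2 * C * n * (om A Uf v * ρ) := by ring
    rw [h2]
    have h3 : 2 * C * n * (om A Uf v * ρ) ≤ 2 * C * n * 1 :=
      mul_le_mul_of_nonneg_left h1 (by positivity)
    linarith
  have hQK : QK (fun x => qw Q (om A Uf) (pa a₀ par a x) (a x)) κ par (fun x => S (a x)) u
      (2 * C / (ρ * n)) :=
    typed_QK hSK hB κ par a a₀ hpar ha ha₀ hκ h0 hne u hu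
  have hWnn : ∀ φ, 0 ≤ W φ := fun φ => Wq_nn hQK φ
  have hWsum : ∑ φ, W φ = 1 := Wq_sum hQK
  -- the mean of the potentials
  have hlb : √n * (3 * κ * Cf / (ρ ^ 2 * n)) ≤ 1 := by
    have h1 : √n * √n = n := Real.mul_self_sqrt hnpos.le
    have h2 : 0 < √n := Real.sqrt_pos.2 hnpos
    have h3 : √n * (3 * κ * Cf / (ρ ^ 2 * n)) = (3 * κ * Cf / ρ ^ 2) / √n := by
      field_simp
      rw [Real.sq_sqrt hnpos.le]
    rw [h3, div_le_one h2]
    refine le_trans ?_ hn2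
    gcongr
  have hmean : ∑ φ : Fin κ → V, W φ * PI F (√n) A Uf U' (δ + e) φ ≤
      Pot F (√n) (om A Uf) δ * Real.exp (9 * K ^ 2 * Cf ^ 2 / (ρ ^ 4 * n)) := by
    unfold PI Pot
    rw [swap2, Finset.sum_mul]
    refine Finset.sum_le_sum fun f hf => ?_
    rw [Finset.sum_mul]
    refine Finset.sum_le_sum fun b _ => ?_
    have hg : (if b then (1 : ℝ) else -1) = 1 ∨ (if b then (1 : ℝ) else -1) = -1 := by
      cases b
      · right
        rfl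
      · left
        rfl
    have h1 := exp_moment (G := qw Q (om A Uf)) (C₂ := 2 * C) (e := ε₀ + E * δ) (l := l)
      hcard (by positivity) (by positivity) hρ hρ1 hCf0 A Uf hSK hWP hM f (hF0 f hf) (hF1 f hf)
      (hF2 f hf) hU κ par a ld a₀ hκ hpar ha ha₀ h0 hne hld0 hld hU' u hu
      (if b then (1 : ℝ) else -1) (√n) hg (Real.sqrt_nonneg _) hlb
    rw [← hndef, ← he] at h1
    have h2 : ∀ φ : Fin κ → V, W φ *
        Real.exp (√n * ((if b then (1 : ℝ) else -1) * (Df f (om A Uf) + Lam f A Uf U' φ) -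
          (δ + e))) =
        (W φ * Real.exp (√n * ((if b then (1 : ℝ) else -1) *
          (Df f (om A Uf) + Lam f A Uf U' φ)))) * Real.exp (-(√n * (δ + e))) := by
      intro φ
      rw [mul_assoc, ← Real.exp_add]
      congr 2
      ring
    rw [Finset.sum_congr rfl fun φ _ => h2 φ, ← Finset.sum_mul]
    refine le_trans (mul_le_mul_of_nonneg_right h1 (Real.exp_pos _).le) ?_
    rw [← Real.exp_add, ← Real.exp_add]
    apply Real.exp_le_exp.2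
    have h3 : (√n * (3 * κ * Cf / (ρ ^ 2 * n))) ^ 2 ≤ 9 * K ^ 2 * Cf ^ 2 / (ρ ^ 4 * n) := by
      have h4 : (√n * (3 * κ * Cf / (ρ ^ 2 * n))) ^ 2 = 9 * κ ^ 2 * Cf ^ 2 / (ρ ^ 4 * n) := by
        rw [mul_pow, Real.sq_sqrt hnpos.le]
        field_simp
        ring
      rw [h4]
      gcongr
    have h5 : √n * ((if b then (1 : ℝ) else -1) * Df f (om A Uf) + e) +
        (√n * (3 * κ * Cf / (ρ ^ 2 * n))) ^ 2 + -(√n * (δ + e)) =
        √n * ((if b then (1 : ℝ) else -1) * Df f (om A Uf) - δ) +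
        (√n * (3 * κ * Cf / (ρ ^ 2 * n))) ^ 2 := by ring
    rw [h5]
    linarith
  -- collisions
  have hβ0 : 0 ≤ 2 * C * K ^ 2 / (ρ * n) := by positivity
  have hβ : 2 * C * K ^ 2 / (ρ * n) ≤ 1 / 2 := by
    rw [div_le_iff₀ (mul_pos hρ hnpos)]
    linarith
  have hbad : ∑ φ : Fin κ → V, W φ * (if Function.Injective φ then (0 : ℝ) else 1) ≤
      2 * C * K ^ 2 / (ρ * n) := by
    have h1 := bad_weight κ W hWnn (2 * C / (ρ * n)) (fun x y hxy => Wq_coll hQK x y hxy)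
      (by positivity)
    have h2 : (κ : ℝ) ^ 2 * (2 * C / (ρ * n)) ≤ 2 * C * K ^ 2 / (ρ * n) := by
      have h4 : (κ : ℝ) ^ 2 ≤ K ^ 2 := pow_le_pow_left₀ (Nat.cast_nonneg _) hK1 2
      calc (κ : ℝ) ^ 2 * (2 * C / (ρ * n)) ≤ K ^ 2 * (2 * C / (ρ * n)) :=
            mul_le_mul_of_nonneg_right h4 (by positivity)
        _ = 2 * C * K ^ 2 / (ρ * n) := by ring
    exact h1.trans h2
  obtain ⟨φ, hφi, hφw, hφF⟩ := average W (fun φ => PI F (√n) A Uf U' (δ + e) φ)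
    Function.Injective hWnn (fun φ => PI_nn F (√n) A Uf U' (δ + e) φ) hWsum _ hβ0 hβ
    (fun φ => if Function.Injective φ then (0 : ℝ) else 1) (fun φ hφ => if_pos hφ)
    (fun φ hφ => if_neg hφ) hbad
  have hsup : ∀ x : Fin κ, qw Q (om A Uf) (pa a₀ par a x) (a x) (RobT.prv κ par u φ x) (φ x) ≠ 0 :=
    fun x => Wq_supp φ hφw.ne' x
  have hφA : ∀ x, φ x ∈ A := by
    intro x
    by_contra hx
    refine hsup x ?_
    unfold qw om
    rw [if_neg hx, mul_zero, zero_div]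
  have hQne : ∀ x : Fin κ, Q (pa a₀ par a x) (a x) (RobT.prv κ par u φ x) (φ x) ≠ 0 := by
    intro x hx
    refine hsup x ?_
    unfold qw
    rw [hx, zero_mul, zero_div]
  have hext : ∀ x (hx : x < κ), RobT.ext κ u φ x = φ ⟨x, hx⟩ := by
    intro x hx
    unfold RobT.ext
    rw [dif_pos hx]
  have hlt : ∀ v, Uf v < 1 := fun v => by
    have := hUfρ v
    linarith
  have hlt' : ∀ v, U' v < 1 := fun v => by
    have := hU' v
    have h1 : U' v ≤ 1 - ρ := this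
    linarith
  refine ⟨RobT.ext κ u φ, ?_, ?_, ?_, ?_, ?_, ?_⟩
  · intro x hx
    rw [hext x hx]
    exact hφA _
  · intro x hx y hy hxy
    rw [hext x hx, hext y hy] at hxy
    exact Fin.mk.inj_iff.1 (hφi hxy)
  · intro x hx
    rw [hext x hx]
    exact (hQ.sup _ _ _ _ (hQne ⟨x, hx⟩)).2.1
  · rw [hext 0 hκ]
    have h1 := (hQ.sup _ _ _ _ (hQne ⟨0, hκ⟩)).2.2
    have h2 : pa a₀ par a ((⟨0, hκ⟩ : Fin κ) : ℕ) = a₀ := if_pos rfl
    have h3 : RobT.prv κ par u φ ⟨0, hκ⟩ = u := if_pos rfl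
    rw [h2, h3] at h1
    exact h1
  · intro x hx0 hx
    rw [hext x hx]
    have h1 := (hQ.sup _ _ _ _ (hQne ⟨x, hx⟩)).2.2
    have h2 : pa a₀ par a ((⟨x, hx⟩ : Fin κ) : ℕ) = a (par x) := if_neg (by
      show x ≠ 0
      omega)
    have h3 : RobT.prv κ par u φ ⟨x, hx⟩ = RobT.ext κ u φ (par x) := if_neg (by
      show x ≠ 0
      omega)
    rw [h2, h3] at h1
    exact h1
  · rw [ext_im, Pot_new F (√n) A Uf U' (δ + e) hlt hlt' φ hφi hφA]
    refine hφF.trans ?_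
    refine le_trans (mul_le_mul_of_nonneg_right hmean (Real.exp_pos _).le) ?_
    rw [mul_assoc, ← Real.exp_add]
    apply le_of_eq
    congr 2
    field_simp
    ring

end Pool.Agent.Lib.TourE
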