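import Pool.Agent.Lib.TourE.Wb

/-!
# Tf: the test functions (about 150 lines)

`Cf = (l + 2) (ℓ + 1)^(l+3) + C²` (anything large enough).  The lists of length `< l` with letters
`≤ ℓ`: the finset `W` = union over `k < l` of the image of `g : Fin k → Fin (ℓ+1)` under
`g ↦ List.ofFn (fun i => (g i : ℕ))`; at most `l (ℓ+1)^l` elements; `Wd ℓ a w` implies that all
letters of `w` are `≤ ℓ`, so `w ∈ W` if `|w| < l`.
`F` = the union of the image of `(a, b, u) ∈ [0,ℓ]² × V` restricted to `a ≠ b`, `u ∈ S a` under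
`fun v => Q a b u v`, and the image of the `(a, w, b, u, v) ∈ [0,ℓ] × W × [0,ℓ] × V × V` with
`Wd ℓ a w`, `w ≠ []`, `lst a w ≠ b`, `u ∈ S a` under `fun x => n (wk Q a w (pt u) x * Q (lst a w)
b x v)`
(`Finset.image`, classical decidability; `card_image_le`).  Cardinality at most
`(ℓ+1)² n + (ℓ+1)² l (ℓ+1)^l n² ≤ Cf n²`.
BOUNDS (`n = |V| ≥ 1`).  Rows: `0 ≤ Q ≤ C/n ≤ C²/n`, sum `1`.  Words: `wk Q a w (pt u) x ≤ C/n`
(`wk_le`, `KE_SK`), so the values are `≤ n (C/n)(C/n) = C²/n`, and the sum over `x` is at most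
`n (C/n) ∑_x wk … x = C ≤ C²` (`wk_sum`).
-/

namespace Pool.Agent.Lib.TourE

open Finset
open Pool.Agent.Lib.RobT (IsTour Arc eN Nb RT)

private theorem tf_letters {ℓ : ℕ} : ∀ (w : List ℕ) (a : ℕ), Wd ℓ a w → ∀ x ∈ w, x ≤ ℓ := by
  intro w
  induction w with
  | nil =>
    intro a _ x hx
    simp at hx
  | cons b w ih =>
    intro a h x hx
    obtain ⟨_, _, h3⟩ := h
    rcases List.mem_cons.1 hx with rfl | hx
    · exact (Wd_le h3).1
    · exact ih b h3 x hx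

private theorem tf_words (ℓ l : ℕ) : ∃ W : Finset (List ℕ), ∀ w : List ℕ, w.length < l →
    (∀ x ∈ w, x ≤ ℓ) → w ∈ W := by
  classical
  refine ⟨(range l).biUnion fun k => (univ : Finset (Fin k → Fin (ℓ + 1))).image
    fun g => List.ofFn fun i => (g i : ℕ), fun w hl hw => ?_⟩
  rw [mem_biUnion]
  refine ⟨w.length, mem_range.2 hl, ?_⟩
  rw [mem_image]
  refine ⟨fun i => ⟨w.get i, Nat.lt_succ_of_le (hw _ (List.get_mem w i))⟩, mem_univ _, ?_⟩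
  exact List.ofFn_get w

theorem exists_tests (ℓ l : ℕ) (C : ℝ) (hC : 1 ≤ C) :
    ∃ Cf : ℝ, 1 ≤ Cf ∧ ∀ (V : Type) [Fintype V] [DecidableEq V] (R : V → V → Prop) (c : ℝ)
      (S : ℕ → Finset V) (Q : ℕ → ℕ → V → V → ℝ), 0 < Fintype.card V → KE R ℓ S c C Q →
      ∃ F : Finset (V → ℝ), Tst ℓ S Q l Cf F := by
  classical
  obtain ⟨W, hW⟩ := tf_words ℓ l
  have hCC : C ≤ C ^ 2 := by nlinarith
  have hL0 : (0 : ℝ) ≤ ((ℓ : ℝ) + 1) ^ 2 := by positivity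
  have hW0 : (0 : ℝ) ≤ ((ℓ : ℝ) + 1) ^ 2 * W.card := by positivity
  refine ⟨((ℓ : ℝ) + 1) ^ 2 + ((ℓ : ℝ) + 1) ^ 2 * W.card + C ^ 2, by nlinarith, ?_⟩
  intro V _ _ R c S Q hn hQ
  have hSK := KE_SK hQ
  have hn1 : (1 : ℝ) ≤ (Fintype.card V : ℝ) := by exact_mod_cast hn
  have hn0 : (0 : ℝ) < (Fintype.card V : ℝ) := by linarith
  set n : ℝ := (Fintype.card V : ℝ) with hndef
  set Cf : ℝ := ((ℓ : ℝ) + 1) ^ 2 + ((ℓ : ℝ) + 1) ^ 2 * W.card + C ^ 2 with hCf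
  have hCf2 : C ^ 2 ≤ Cf := by rw [hCf]; linarith
  have hCf1 : C ≤ Cf := hCC.trans hCf2
  have hC0 : 0 ≤ C := by linarith
  have hpt0 : ∀ u v : V, 0 ≤ RobT.pt u v := by
    intro u v
    unfold RobT.pt
    split_ifs
    · exact zero_le_one
    · exact le_rfl
  have hpts : ∀ u v : V, RobT.pt u v ≠ 0 → v = u := by
    intro u v h
    by_contra hne
    apply h
    unfold RobT.pt
    rw [if_neg hne]
  have hpt1 : ∀ u : V, ∑ v, RobT.pt u v = 1 := by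
    intro u
    unfold RobT.pt
    rw [Finset.sum_ite_eq' univ u]
    simp
  let I1 : Finset (ℕ × ℕ × V) := ((range (ℓ + 1)) ×ˢ (range (ℓ + 1)) ×ˢ (univ : Finset V)).filter
    fun p => p.1 ≠ p.2.1 ∧ p.2.2 ∈ S p.1
  let I2 : Finset (ℕ × List ℕ × ℕ × V × V) :=
    ((range (ℓ + 1)) ×ˢ W ×ˢ (range (ℓ + 1)) ×ˢ (univ : Finset V) ×ˢ (univ : Finset V)).filter
    fun p => Wd ℓ p.1 p.2.1 ∧ p.2.1 ≠ [] ∧ lst p.1 p.2.1 ≠ p.2.2.1 ∧ p.2.2.2.1 ∈ S p.1
  let f1 : ℕ × ℕ × V → V → ℝ := fun p v => Q p.1 p.2.1 p.2.2 v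
  let f2 : ℕ × List ℕ × ℕ × V × V → V → ℝ := fun p x =>
    n * (wk Q p.1 p.2.1 (RobT.pt p.2.2.2.1) x * Q (lst p.1 p.2.1) p.2.2.1 x p.2.2.2.2)
  have hI1 : ∀ p ∈ I1, p.1 ≤ ℓ ∧ p.2.1 ≤ ℓ ∧ p.1 ≠ p.2.1 ∧ p.2.2 ∈ S p.1 := by
    intro p hp
    simp only [I1, mem_filter, mem_product, mem_range, mem_univ, and_true] at hp
    exact ⟨Nat.lt_succ_iff.1 hp.1.1, Nat.lt_succ_iff.1 hp.1.2, hp.2.1, hp.2.2⟩
  have hI2 : ∀ p ∈ I2, Wd ℓ p.1 p.2.1 ∧ p.2.1 ≠ [] ∧ p.2.2.2.1 ∈ S p.1 := by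
    intro p hp
    simp only [I2, mem_filter, mem_product, mem_range, mem_univ, and_true] at hp
    exact ⟨hp.2.1, hp.2.2.1, hp.2.2.2.2⟩
  have hc1 : ((I1.image f1).card : ℝ) ≤ ((ℓ : ℝ) + 1) ^ 2 * n := by
    have h1 : (I1.image f1).card ≤ (ℓ + 1) * ((ℓ + 1) * Fintype.card V) := by
      refine card_image_le.trans ((card_filter_le _ _).trans ?_)
      rw [card_product, card_product, card_range, card_univ]
    have h2 : ((I1.image f1).card : ℝ) ≤ (((ℓ + 1) * ((ℓ + 1) * Fintype.card V) : ℕ) : ℝ) := by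
      exact_mod_cast h1
    refine h2.trans (le_of_eq ?_)
    push_cast
    rw [hndef]
    ring
  have hc2 : ((I2.image f2).card : ℝ) ≤ ((ℓ : ℝ) + 1) ^ 2 * W.card * n ^ 2 := by
    have h1 : (I2.image f2).card ≤ (ℓ + 1) * (W.card * ((ℓ + 1) * (Fintype.card V *
        Fintype.card V))) := by
      refine card_image_le.trans ((card_filter_le _ _).trans ?_)
      rw [card_product, card_product, card_product, card_product, card_range, card_univ]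
    have h2 : ((I2.image f2).card : ℝ) ≤ (((ℓ + 1) * (W.card * ((ℓ + 1) * (Fintype.card V *
        Fintype.card V))) : ℕ) : ℝ) := by
      exact_mod_cast h1
    refine h2.trans (le_of_eq ?_)
    push_cast
    rw [hndef]
    ring
  have hwle : ∀ (a : ℕ) (w : List ℕ), Wd ℓ a w → w ≠ [] → ∀ u ∈ S a, ∀ x,
      wk Q a w (RobT.pt u) x ≤ C / n := by
    intro a w hw hne u hu x
    refine wk_le hSK a w hw hne (RobT.pt u) (hpt0 u) ?_ (hpt1 u) x
    intro v hv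
    rw [hpts u v hv]
    exact hu
  have hwsum : ∀ (a : ℕ) (w : List ℕ), Wd ℓ a w → ∀ u ∈ S a,
      ∑ x, wk Q a w (RobT.pt u) x = 1 := by
    intro a w hw u hu
    rw [wk_sum hSK a w hw (RobT.pt u) ?_, hpt1]
    intro v hv
    rw [hpts u v hv]
    exact hu
  have hw0 : ∀ (a : ℕ) (w : List ℕ) (u x : V), 0 ≤ wk Q a w (RobT.pt u) x := by
    intro a w u x
    exact wk_nn hSK a w (RobT.pt u) (hpt0 u) x
  refine ⟨I1.image f1 ∪ I2.image f2, ?_⟩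
  have hmem : ∀ f ∈ I1.image f1 ∪ I2.image f2, (∃ p ∈ I1, f = f1 p) ∨ ∃ p ∈ I2, f = f2 p := by
    intro f hf
    rcases mem_union.1 hf with h | h
    · obtain ⟨p, hp, rfl⟩ := mem_image.1 h
      exact Or.inl ⟨p, hp, rfl⟩
    · obtain ⟨p, hp, rfl⟩ := mem_image.1 h
      exact Or.inr ⟨p, hp, rfl⟩
  refine ⟨?_, ?_, ?_, ?_, ?_, ?_⟩
  · have h1 : ((I1.image f1 ∪ I2.image f2).card : ℝ) ≤ (I1.image f1).card + (I2.image f2).card := by
      exact_mod_cast card_union_le _ _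
    have h2 : ((ℓ : ℝ) + 1) ^ 2 * n ≤ ((ℓ : ℝ) + 1) ^ 2 * n ^ 2 :=
      mul_le_mul_of_nonneg_left (by nlinarith) hL0
    have h3 : 0 ≤ C ^ 2 * n ^ 2 := by positivity
    have h4 : Cf * n ^ 2 = ((ℓ : ℝ) + 1) ^ 2 * n ^ 2 + ((ℓ : ℝ) + 1) ^ 2 * W.card * n ^ 2 +
        C ^ 2 * n ^ 2 := by
      rw [hCf]
      ring
    rw [h4]
    linarith
  · intro f hf v
    rcases hmem f hf with ⟨p, _, rfl⟩ | ⟨p, _, rfl⟩
    · exact hQ.nn _ _ _ _
    · exact mul_nonneg hn0.le (mul_nonneg (hw0 _ _ _ _) (hQ.nn _ _ _ _))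
  · intro f hf v
    rcases hmem f hf with ⟨p, hp, rfl⟩ | ⟨p, hp, rfl⟩
    · exact (hQ.up _ _ _ _).trans (div_le_div_of_nonneg_right hCf1 hn0.le)
    · obtain ⟨h1, h2, h3⟩ := hI2 p hp
      have h4 : wk Q p.1 p.2.1 (RobT.pt p.2.2.2.1) v * Q (lst p.1 p.2.1) p.2.2.1 v p.2.2.2.2 ≤
          C / n * (C / n) :=
        mul_le_mul (hwle _ _ h1 h2 _ h3 v) (hQ.up _ _ _ _) (hQ.nn _ _ _ _) (by positivity)
      have h5 : n * (C / n * (C / n)) = C ^ 2 / n := by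
        field_simp
      calc f2 p v ≤ n * (C / n * (C / n)) := mul_le_mul_of_nonneg_left h4 hn0.le
        _ = C ^ 2 / n := h5
        _ ≤ Cf / n := div_le_div_of_nonneg_right hCf2 hn0.le
  · intro f hf
    rcases hmem f hf with ⟨p, hp, rfl⟩ | ⟨p, hp, rfl⟩
    · obtain ⟨h1, h2, h3, h4⟩ := hI1 p hp
      have h5 : ∑ v, f1 p v = 1 := hQ.row _ _ h1 h2 h3 _ h4
      rw [h5]
      linarith
    · obtain ⟨h1, h2, h3⟩ := hI2 p hp
      have h4 : ∑ v, f2 p v ≤ ∑ v, n * (wk Q p.1 p.2.1 (RobT.pt p.2.2.2.1) v * (C / n)) := by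
        refine sum_le_sum fun v _ => ?_
        exact mul_le_mul_of_nonneg_left
          (mul_le_mul_of_nonneg_left (hQ.up _ _ _ _) (hw0 _ _ _ _)) hn0.le
      have h5 : ∑ v, n * (wk Q p.1 p.2.1 (RobT.pt p.2.2.2.1) v * (C / n)) = C := by
        have h6 : ∀ v, n * (wk Q p.1 p.2.1 (RobT.pt p.2.2.2.1) v * (C / n)) =
            C * wk Q p.1 p.2.1 (RobT.pt p.2.2.2.1) v := by
          intro v
          field_simp
        rw [sum_congr rfl fun v _ => h6 v, ← mul_sum, hwsum _ _ h1 _ h3, mul_one]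
      rw [h5] at h4
      exact h4.trans hCf1
  · intro a b ha hb hab u hu
    refine mem_union_left _ (mem_image.2 ⟨(a, b, u), ?_, rfl⟩)
    simp only [I1, mem_filter, mem_product, mem_range, mem_univ, and_true]
    exact ⟨⟨Nat.lt_succ_of_le ha, Nat.lt_succ_of_le hb⟩, hab, hu⟩
  · intro a w b hw hne hlen hb hlb u hu v
    refine mem_union_right _ (mem_image.2 ⟨(a, w, b, u, v), ?_, rfl⟩)
    simp only [I2, mem_filter, mem_product, mem_range, mem_univ, and_true]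
    exact ⟨⟨Nat.lt_succ_of_le (Wd_le hw).1, hW w hlen (tf_letters w a hw),
      Nat.lt_succ_of_le hb⟩, hw, hne, hlb, hu⟩

end Pool.Agent.Lib.TourE
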