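import Pool.Agent.Lib.TourE.Wb

/-!
# Wo: the walk in a quasirandom weight (about 250 lines)

`n = |V| > 0`.
`ms_bd`: `Df (Q a b u) ω = ∑ v, Q a b u v (ω v - 1) = ms Q ω a b u - 1` (`KE.row`), so
`|ms Q ω a b u - 1| ≤ δ'` for `u ∈ S a`, `a ≠ b`, `a, b ≤ ℓ` (`Tst.row`).
`qw_SK`: entries `≥ 0`; for valid `a, b` and `u ∈ S a`: `ms ≥ 3/4`, so
`qw ≤ (C/n) ω v/(3/4) ≤ 2 C ω v/n`; otherwise `Q a b u v = 0` (`KE.off`, `KE.sup`) and `qw = 0`.
Rows: `∑ v, Q a b u v ω v/ms = 1`.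
`walk_approx`: `E₁ = 2 C`, `E_{k+1} = 2 E_k + 2 C + 3` (increasing, `≥ 0`), `E = E_l`.  Induction on
the length `k ≥ 1` of words (written as `w ++ [b]`), the bound with `E_k`.
`k = 1`: `qw Q ω a b u v - Q a b u v ω v = Q a b u v ω v (1/ms - 1)` and
`|1/ms - 1| ≤ δ'/(1 - δ') ≤ 2 δ'`; `Q ≤ C/n`.
`k → k+1 ≤ l`: `μ x = wk (qw Q ω) a w (pt u) x`, `p x = wk Q a w (pt u) x`, `d = lst a w`, `m x =
ms Q
ω d b x`.  For `v ∉ S b` all terms vanish (`Q d b x v = 0`).  For `v ∈ S b`: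
`|wk (qw Q ω) a (w ++ [b]) (pt u) v - wk Q a (w ++ [b]) (pt u) v ω v|`
`= ω v |∑ x, μ x Q d b x v/m x - ∑ x, p x Q d b x v|`, at most `ω v` times
(T1) `∑ x, |μ x - p x ω x| Q d b x v/m x ≤ (E_k δ'/n) (4/3) ∑ x, ω x Q d b x v`, and
  `∑ x, ω x Q d b x v = ∑ x, Q b d v x ω x = ms Q ω b d v ≤ 5/4` (`KE.sym`, `ms_bd`), total
  `≤ 2 E_k δ'/n` (only `x ∈ S d` matter, `m x ≥ 3/4`), plus
(T2) `∑ x, p x ω x Q d b x v |1/m x - 1| ≤ 2 δ' ∑ x, p x ω x Q d b x v ≤ 2 δ' (C/n + δ'/n)`: by (T3)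
  `∑ x, p x ω x Q d b x v ≤ ∑ x, p x Q d b x v + δ'/n` and `∑ x, p x Q d b x v ≤ C/n`, plus
(T3) `|∑ x, p x Q d b x v (ω x - 1)| = |Df f ω|/n ≤ δ'/n` for `f x = n (p x Q d b x v) ∈ F`
  (`Tst.wrd`, `0 < |w| < l`).
Sum: `(2 E_k + 2 (C + 1) + 1) δ'/n`.
-/

namespace Pool.Agent.Lib.TourE

open Finset
open Pool.Agent.Lib.RobT (IsTour Arc eN Nb RT)

theorem ms_bd {V : Type} [Fintype V] [DecidableEq V] {R : V → V → Prop} {ℓ l : ℕ}
    {S : ℕ → Finset V} {c C Cf : ℝ} {Q : ℕ → ℕ → V → V → ℝ} {F : Finset (V → ℝ)}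
    (hQ : KE R ℓ S c C Q) (hF : Tst ℓ S Q l Cf F) {ω : V → ℝ} {δ' : ℝ} (hq : QR F ω δ')
    (a b : ℕ) (ha : a ≤ ℓ) (hb : b ≤ ℓ) (hab : a ≠ b) (u : V) (hu : u ∈ S a) :
    |ms Q ω a b u - 1| ≤ δ' := by
  have h1 := hq _ (hF.row a b ha hb hab u hu)
  have h2 : Df (fun v => Q a b u v) ω = ms Q ω a b u - 1 := by
    unfold Df ms
    simp only [mul_sub, mul_one, Finset.sum_sub_distrib, hQ.row a b ha hb hab u hu]
  rwa [h2] at h1

private theorem wo_ms {V : Type} [Fintype V] [DecidableEq V] {R : V → V → Prop} {ℓ l : ℕ}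
    {S : ℕ → Finset V} {c C Cf : ℝ} {Q : ℕ → ℕ → V → V → ℝ} {F : Finset (V → ℝ)}
    (hQ : KE R ℓ S c C Q) (hF : Tst ℓ S Q l Cf F) {ω : V → ℝ} {δ' : ℝ} (hδ : δ' ≤ 1 / 4)
    (hq : QR F ω δ') (a b : ℕ) (ha : a ≤ ℓ) (hb : b ≤ ℓ) (hab : a ≠ b) (u : V)
    (hu : u ∈ S a) : 3 / 4 ≤ ms Q ω a b u ∧ ms Q ω a b u ≤ 5 / 4 := by
  have h1 := abs_le.mp (ms_bd hQ hF hq a b ha hb hab u hu)
  constructor <;> linarith [h1.1, h1.2]

private theorem wo_valid {V : Type} [Fintype V] {R : V → V → Prop} {ℓ : ℕ}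
    {S : ℕ → Finset V} {c C : ℝ} {Q : ℕ → ℕ → V → V → ℝ} (hQ : KE R ℓ S c C Q) {a b : ℕ}
    {u v : V} (h : Q a b u v ≠ 0) : (a ≤ ℓ ∧ b ≤ ℓ ∧ a ≠ b) ∧ u ∈ S a ∧ v ∈ S b := by
  refine ⟨?_, (hQ.sup a b u v h).1, (hQ.sup a b u v h).2.1⟩
  by_contra h'
  exact h (hQ.off a b u v h')

private theorem wo_msnn {V : Type} [Fintype V] {R : V → V → Prop} {ℓ : ℕ}
    {S : ℕ → Finset V} {c C : ℝ} {Q : ℕ → ℕ → V → V → ℝ} (hQ : KE R ℓ S c C Q) {ω : V → ℝ}
    (hω : ∀ v, 0 ≤ ω v) (a b : ℕ) (u : V) : 0 ≤ ms Q ω a b u :=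
  Finset.sum_nonneg fun v _ => mul_nonneg (hQ.nn a b u v) (hω v)

/-- division by the mass -/
private theorem wo_q1 {V : Type} [Fintype V] [DecidableEq V] {R : V → V → Prop} {ℓ l : ℕ}
    {S : ℕ → Finset V} {c C Cf : ℝ} {Q : ℕ → ℕ → V → V → ℝ} {F : Finset (V → ℝ)}
    (hQ : KE R ℓ S c C Q) (hF : Tst ℓ S Q l Cf F) {ω : V → ℝ} {δ' : ℝ} (hδ : δ' ≤ 1 / 4)
    (hq : QR F ω δ') (a b : ℕ) (u v : V) :
    Q a b u v / ms Q ω a b u ≤ 4 / 3 * Q a b u v := by
  by_cases h : Q a b u v = 0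
  · rw [h, zero_div, mul_zero]
  · obtain ⟨⟨h1, h2, h3⟩, h4, h5⟩ := wo_valid hQ h
    have h6 := (wo_ms hQ hF hδ hq a b h1 h2 h3 u h4).1
    rw [div_le_iff₀ (by linarith)]
    have h7 := hQ.nn a b u v
    nlinarith

private theorem wo_q2 {V : Type} [Fintype V] [DecidableEq V] {R : V → V → Prop} {ℓ l : ℕ}
    {S : ℕ → Finset V} {c C Cf : ℝ} {Q : ℕ → ℕ → V → V → ℝ} {F : Finset (V → ℝ)}
    (hQ : KE R ℓ S c C Q) (hF : Tst ℓ S Q l Cf F) {ω : V → ℝ} {δ' : ℝ} (hδ0 : 0 ≤ δ')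
    (hδ : δ' ≤ 1 / 4) (hq : QR F ω δ') (a b : ℕ) (u v : V) :
    |Q a b u v / ms Q ω a b u - Q a b u v| ≤ 2 * δ' * Q a b u v := by
  by_cases h : Q a b u v = 0
  · rw [h, zero_div, mul_zero, sub_zero, abs_zero]
  · obtain ⟨⟨h1, h2, h3⟩, h4, h5⟩ := wo_valid hQ h
    have h6 := (wo_ms hQ hF hδ hq a b h1 h2 h3 u h4).1
    have h7 := hQ.nn a b u v
    have h8 := ms_bd hQ hF hq a b h1 h2 h3 u h4
    have hpos : 0 < ms Q ω a b u := by linarith
    have e : Q a b u v / ms Q ω a b u - Q a b u v =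
        Q a b u v / ms Q ω a b u * (1 - ms Q ω a b u) := by
      field_simp
    rw [e, abs_mul, abs_of_nonneg (div_nonneg h7 hpos.le), abs_sub_comm]
    have h9 := wo_q1 hQ hF hδ hq a b u v
    calc Q a b u v / ms Q ω a b u * |ms Q ω a b u - 1| ≤ (4 / 3 * Q a b u v) * δ' :=
          mul_le_mul h9 h8 (abs_nonneg _) (by linarith)
      _ ≤ 2 * δ' * Q a b u v := by nlinarith [mul_nonneg h7 hδ0]

theorem qw_SK {V : Type} [Fintype V] [DecidableEq V] {R : V → V → Prop} {ℓ l : ℕ}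
    {S : ℕ → Finset V} {c C Cf : ℝ} {Q : ℕ → ℕ → V → V → ℝ} {F : Finset (V → ℝ)}
    (hQ : KE R ℓ S c C Q) (hC : 0 ≤ C) (hF : Tst ℓ S Q l Cf F) {ω : V → ℝ}
    (hω : ∀ v, 0 ≤ ω v) {δ' : ℝ} (hδ : δ' ≤ 1 / 4) (hq : QR F ω δ') :
    SK ℓ S (fun v => 2 * C * ω v / Fintype.card V) (qw Q ω) := by
  refine ⟨?_, ?_, ?_, ?_⟩
  · intro a b u v
    exact div_nonneg (mul_nonneg (hQ.nn a b u v) (hω v)) (wo_msnn hQ hω a b u)
  · intro a b u v
    have h1 := wo_q1 hQ hF hδ hq a b u v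
    have h2 := hQ.up a b u v
    have h3 := hQ.nn a b u v
    have hn : (0 : ℝ) ≤ Fintype.card V := Nat.cast_nonneg _
    have h5 : 0 ≤ C / Fintype.card V := div_nonneg hC hn
    have e : qw Q ω a b u v = Q a b u v / ms Q ω a b u * ω v := by
      unfold qw
      ring
    have e2 : 2 * C * ω v / Fintype.card V = 2 * (C / Fintype.card V) * ω v := by ring
    rw [e, e2]
    refine mul_le_mul_of_nonneg_right ?_ (hω v)
    linarith
  · intro a b u v h
    have h1 : Q a b u v ≠ 0 := by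
      intro h0
      apply h
      unfold qw
      rw [h0, zero_mul, zero_div]
    exact (wo_valid hQ h1).2
  · intro a b ha hb hab u hu
    have h1 := (wo_ms hQ hF hδ hq a b ha hb hab u hu).1
    unfold qw
    rw [← Finset.sum_div]
    have h2 : (∑ v, Q a b u v * ω v) = ms Q ω a b u := rfl
    rw [h2]
    exact div_self (by linarith)

private noncomputable def woE (C : ℝ) : ℕ → ℝ
  | 0 => 2 * C
  | k + 1 => 2 * woE C k + 2 * C + 3

private theorem woE_nn {C : ℝ} (hC : 1 ≤ C) (k : ℕ) : 0 ≤ woE C k := by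
  induction k with
  | zero => show 0 ≤ 2 * C; linarith
  | succ k ih => show 0 ≤ 2 * woE C k + 2 * C + 3; linarith

private theorem woE_mono {C : ℝ} (hC : 1 ≤ C) : Monotone (woE C) := by
  refine monotone_nat_of_le_succ fun k => ?_
  show woE C k ≤ 2 * woE C k + 2 * C + 3
  linarith [woE_nn hC k]

private theorem wo_one {V : Type} [Fintype V] [DecidableEq V] (G : ℕ → ℕ → V → V → ℝ)
    (a b : ℕ) (u v : V) : wk G a [b] (RobT.pt u) v = G a b u v := by
  show ∑ x, RobT.pt u x * G a b x v = G a b u v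
  unfold RobT.pt
  simp

private theorem wo_pt {V : Type} [Fintype V] [DecidableEq V] (u : V) :
    (∀ v, 0 ≤ RobT.pt u v) ∧ ∑ v, RobT.pt u v = 1 ∧ ∀ v, RobT.pt u v ≠ 0 → v = u := by
  unfold RobT.pt
  refine ⟨fun v => ?_, ?_, fun v hv => ?_⟩
  · split_ifs
    · exact zero_le_one
    · exact le_rfl
  · simp
  · by_contra h
    rw [if_neg h] at hv
    exact hv rfl

private theorem wo_main {C : ℝ} (hC : 1 ≤ C) {V : Type} [Fintype V] [DecidableEq V]
    {R : V → V → Prop} {ℓ l : ℕ} {c Cf : ℝ} {S : ℕ → Finset V} {Q : ℕ → ℕ → V → V → ℝ}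
    {F : Finset (V → ℝ)} (hn : 0 < Fintype.card V) (hQ : KE R ℓ S c C Q)
    (hF : Tst ℓ S Q l Cf F) {ω : V → ℝ} {δ' : ℝ} (hω : ∀ v, 0 ≤ ω v) (hδ0 : 0 ≤ δ')
    (hδ : δ' ≤ 1 / 4) (hq : QR F ω δ') (a : ℕ) (k : ℕ) :
    ∀ w : List ℕ, w.length = k + 1 → Wd ℓ a w → w.length ≤ l → ∀ u ∈ S a, ∀ v,
      |wk (qw Q ω) a w (RobT.pt u) v - wk Q a w (RobT.pt u) v * ω v| ≤
        woE C k * δ' * ω v / Fintype.card V := by
  have hnR : (0 : ℝ) < Fintype.card V := by exact_mod_cast hn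
  induction k with
  | zero =>
    intro w hw hW hl u hu v
    obtain ⟨b, rfl⟩ := List.length_eq_one_iff.mp hw
    rw [wo_one, wo_one]
    have e : qw Q ω a b u v - Q a b u v * ω v =
        (Q a b u v / ms Q ω a b u - Q a b u v) * ω v := by
      unfold qw
      ring
    rw [e, abs_mul, abs_of_nonneg (hω v)]
    have h1 := wo_q2 hQ hF hδ0 hδ hq a b u v
    have h2 := hQ.up a b u v
    have e2 : woE C 0 * δ' * ω v / Fintype.card V =
        2 * δ' * (C / Fintype.card V) * ω v := by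
      show 2 * C * δ' * ω v / Fintype.card V = _
      ring
    rw [e2]
    refine mul_le_mul_of_nonneg_right ?_ (hω v)
    refine h1.trans (mul_le_mul_of_nonneg_left h2 (by linarith))
  | succ k ih =>
    intro w hw hW hl u hu v
    obtain ⟨w', b, rfl⟩ : ∃ w' b, w = w' ++ [b] := by
      rcases List.eq_nil_or_concat' w with h | h
      · rw [h] at hw
        simp at hw
      · exact h
    have hw' : w'.length = k + 1 := by
      rw [List.length_append, List.length_singleton] at hw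
      omega
    have hne : w' ≠ [] := by
      intro h
      rw [h] at hw'
      simp at hw'
    have hl' : w'.length < l := by
      rw [List.length_append, List.length_singleton] at hl
      omega
    obtain ⟨hW1, hW2⟩ := (Wd_append ℓ a w' [b]).mp hW
    obtain ⟨hd, hdb, hb⟩ : lst a w' ≤ ℓ ∧ lst a w' ≠ b ∧ b ≤ ℓ := hW2
    have ih' := ih w' hw' hW1 hl'.le u hu
    obtain ⟨hp0, hp1, hp2⟩ := wo_pt u
    have hps : ∀ v, RobT.pt u v ≠ 0 → v ∈ S a := fun x hx => by rw [hp2 x hx]; exact hu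
    have hSK := KE_SK hQ
    have hpn : ∀ x, 0 ≤ wk Q a w' (RobT.pt u) x := wk_nn hSK a w' _ hp0
    have hT := hq _ (hF.wrd a w' b hW1 hne hl' hb hdb u hu v)
    have hwk := wk_le hSK a (w' ++ [b]) hW (by simp) _ hp0 hps hp1 v
    rw [wk_snoc, wk_snoc]
    rw [wk_snoc] at hwk
    generalize hD : lst a w' = d at *
    generalize hμ : (fun x => wk (qw Q ω) a w' (RobT.pt u) x) = μ
    have hμ' : ∀ x, wk (qw Q ω) a w' (RobT.pt u) x = μ x := fun x => congrFun hμ x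
    generalize hp : (fun x => wk Q a w' (RobT.pt u) x) = p
    have hp' : ∀ x, wk Q a w' (RobT.pt u) x = p x := fun x => congrFun hp x
    simp only [hμ', hp'] at ih' hpn hT hwk ⊢
    -- the three sums
    have hT3 : |∑ x, p x * Q d b x v * (ω x - 1)| ≤ δ' / Fintype.card V := by
      have e : Df (fun x => (Fintype.card V : ℝ) * (p x * Q d b x v)) ω =
          Fintype.card V * ∑ x, p x * Q d b x v * (ω x - 1) := by
        unfold Df
        rw [Finset.mul_sum]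
        refine Finset.sum_congr rfl fun x _ => ?_
        ring
      rw [e, abs_mul, abs_of_pos hnR] at hT
      rw [le_div_iff₀ hnR]
      linarith
    have hsum : ∑ x, ω x * Q d b x v ≤ 5 / 4 := by
      by_cases hv : v ∈ S b
      · have h1 := (wo_ms hQ hF hδ hq b d hb hd (Ne.symm hdb) v hv).2
        have e : ∑ x, ω x * Q d b x v = ms Q ω b d v := by
          unfold ms
          refine Finset.sum_congr rfl fun x _ => ?_
          rw [hQ.sym d b x v, mul_comm]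
        rw [e]
        exact h1
      · rw [Finset.sum_eq_zero]
        · norm_num
        · intro x _
          have : Q d b x v = 0 := by
            by_contra h
            exact hv (wo_valid hQ h).2.2
          rw [this, mul_zero]
    have hT1 : |∑ x, (μ x - p x * ω x) * (Q d b x v / ms Q ω d b x)| ≤
        2 * woE C k * δ' / Fintype.card V := by
      calc |∑ x, (μ x - p x * ω x) * (Q d b x v / ms Q ω d b x)|
          ≤ ∑ x, |(μ x - p x * ω x) * (Q d b x v / ms Q ω d b x)| :=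
            Finset.abs_sum_le_sum_abs _ _
        _ ≤ ∑ x, (woE C k * δ' * ω x / Fintype.card V) * (4 / 3 * Q d b x v) := by
            refine Finset.sum_le_sum fun x _ => ?_
            rw [abs_mul, abs_of_nonneg (div_nonneg (hQ.nn d b x v) (wo_msnn hQ hω d b x))]
            refine mul_le_mul (ih' x) (wo_q1 hQ hF hδ hq d b x v)
              (div_nonneg (hQ.nn d b x v) (wo_msnn hQ hω d b x)) ?_
            exact div_nonneg (mul_nonneg (mul_nonneg (woE_nn hC k) hδ0) (hω x)) hnR.le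
        _ = (4 / 3 * (woE C k * δ' / Fintype.card V)) * ∑ x, ω x * Q d b x v := by
            rw [Finset.mul_sum]
            refine Finset.sum_congr rfl fun x _ => ?_
            ring
        _ ≤ (4 / 3 * (woE C k * δ' / Fintype.card V)) * (5 / 4) := by
            refine mul_le_mul_of_nonneg_left hsum ?_
            have := div_nonneg (mul_nonneg (woE_nn hC k) hδ0) hnR.le
            linarith
        _ ≤ 2 * woE C k * δ' / Fintype.card V := by
            have h := div_nonneg (mul_nonneg (woE_nn hC k) hδ0) hnR.le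
            have e : 2 * woE C k * δ' / Fintype.card V =
                2 * (woE C k * δ' / Fintype.card V) := by ring
            rw [e]
            linarith
    have hpq : ∑ x, p x * ω x * Q d b x v ≤ (C + 1) / Fintype.card V := by
      have e : ∑ x, p x * ω x * Q d b x v =
          ∑ x, p x * Q d b x v + ∑ x, p x * Q d b x v * (ω x - 1) := by
        rw [← Finset.sum_add_distrib]
        refine Finset.sum_congr rfl fun x _ => ?_
        ring
      rw [e]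
      have h1 := (abs_le.mp hT3).2
      have h2 : δ' / Fintype.card V ≤ 1 / Fintype.card V :=
        div_le_div_of_nonneg_right (by linarith) hnR.le
      have e2 : (C + 1) / (Fintype.card V : ℝ) =
          C / Fintype.card V + 1 / Fintype.card V := by ring
      rw [e2]
      linarith
    have hT2 : |∑ x, p x * ω x * (Q d b x v / ms Q ω d b x - Q d b x v)| ≤
        2 * δ' * ((C + 1) / Fintype.card V) := by
      calc |∑ x, p x * ω x * (Q d b x v / ms Q ω d b x - Q d b x v)|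
          ≤ ∑ x, |p x * ω x * (Q d b x v / ms Q ω d b x - Q d b x v)| :=
            Finset.abs_sum_le_sum_abs _ _
        _ ≤ ∑ x, p x * ω x * (2 * δ' * Q d b x v) := by
            refine Finset.sum_le_sum fun x _ => ?_
            rw [abs_mul, abs_of_nonneg (mul_nonneg (hpn x) (hω x))]
            exact mul_le_mul_of_nonneg_left (wo_q2 hQ hF hδ0 hδ hq d b x v)
              (mul_nonneg (hpn x) (hω x))
        _ = 2 * δ' * ∑ x, p x * ω x * Q d b x v := by
            rw [Finset.mul_sum]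
            refine Finset.sum_congr rfl fun x _ => ?_
            ring
        _ ≤ 2 * δ' * ((C + 1) / Fintype.card V) :=
            mul_le_mul_of_nonneg_left hpq (by linarith)
    have key : ∑ x, μ x * qw Q ω d b x v - (∑ x, p x * Q d b x v) * ω v =
        ω v * (∑ x, (μ x - p x * ω x) * (Q d b x v / ms Q ω d b x) +
          ∑ x, p x * ω x * (Q d b x v / ms Q ω d b x - Q d b x v) +
          ∑ x, p x * Q d b x v * (ω x - 1)) := by
      rw [← Finset.sum_add_distrib, ← Finset.sum_add_distrib, Finset.sum_mul,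
        ← Finset.sum_sub_distrib, Finset.mul_sum]
      refine Finset.sum_congr rfl fun x _ => ?_
      unfold qw
      ring
    rw [key, abs_mul, abs_of_nonneg (hω v)]
    have e3 : woE C (k + 1) * δ' * ω v / Fintype.card V =
        ω v * (2 * woE C k * δ' / Fintype.card V + 2 * δ' * ((C + 1) / Fintype.card V) +
          δ' / Fintype.card V) := by
      show (2 * woE C k + 2 * C + 3) * δ' * ω v / Fintype.card V = _
      ring
    rw [e3]
    refine mul_le_mul_of_nonneg_left ?_ (hω v)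
    refine (abs_add_le _ _).trans (add_le_add ((abs_add_le _ _).trans (add_le_add hT1 hT2)) hT3)

theorem walk_approx (C : ℝ) (l : ℕ) (hC : 1 ≤ C) :
    ∃ E : ℝ, 0 ≤ E ∧ ∀ (V : Type) [Fintype V] [DecidableEq V] (R : V → V → Prop) (ℓ : ℕ) (c Cf : ℝ)
      (S : ℕ → Finset V) (Q : ℕ → ℕ → V → V → ℝ) (F : Finset (V → ℝ)), 0 < Fintype.card V →
      KE R ℓ S c C Q → Tst ℓ S Q l Cf F → ∀ (ω : V → ℝ) (δ' : ℝ), (∀ v, 0 ≤ ω v) → 0 ≤ δ' →
      δ' ≤ 1 / 4 → QR F ω δ' → ∀ (a : ℕ) (w : List ℕ), Wd ℓ a w → w ≠ [] → w.length ≤ l →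
      ∀ u ∈ S a, ∀ v,
      |wk (qw Q ω) a w (RobT.pt u) v - wk Q a w (RobT.pt u) v * ω v| ≤
        E * δ' * ω v / Fintype.card V := by
  refine ⟨woE C l, woE_nn hC l, ?_⟩
  intro V _ _ R ℓ c Cf S Q F hn hQ hF ω δ' hω hδ0 hδ hq a w hW hne hl u hu v
  obtain ⟨k, hk⟩ : ∃ k, w.length = k + 1 :=
    Nat.exists_eq_succ_of_ne_zero (by simpa using hne)
  refine (wo_main hC hn hQ hF hω hδ0 hδ hq a k w hk hW hl u hu v).trans ?_
  have h1 : woE C k ≤ woE C l := woE_mono hC (by omega)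
  have hnR : (0 : ℝ) ≤ Fintype.card V := Nat.cast_nonneg _
  refine div_le_div_of_nonneg_right ?_ hnR
  exact mul_le_mul_of_nonneg_right (mul_le_mul_of_nonneg_right h1 hδ0) (hω v)

end Pool.Agent.Lib.TourE
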