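import Pool.Agent.Lib.TourE.Wd
import Pool.Agent.Lib.TourE.Wo

/-!
# Wm: mixing of the walk in a quasirandom weight (about 300 lines)

`C = 2/δ`.  `L, c₁` from `doeblin`, `E` from `walk_approx C L`, `ν = min (1/4) (c₁/(2 (E + 1)))`, so
`E ν ≤ c₁/2`, `Cm = 16 C (1 + 5 L)/c₁ + 8`.  Given `ε₀`: `j` with
`2 C (9/4) (1 - c₁/8)^j ≤ ε₀`, `l = L j + 1`.
`n = |V|`, `M = |S 0| = |S a| ≥ n/2`, `G = qw Q ω`, `SK` from `qw_SK`; `δ = δ'` below is the
quasirandomness, `δ' ≤ ν ≤ 1/4`.  `π_a v = ω v Un S a v`.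
(1) `z_a := ∑ v, π_a v ∈ [1 - δ', 1 + δ']` for `a ≤ ℓ` if there is `b ≤ ℓ`, `b ≠ a`: it is
  `(1/M) ∑_{v ∈ S a} ω v = (1/M) ∑_v ω v ∑_{u ∈ S b} Q b a u v = (1/M) ∑_{u ∈ S b} ms Q ω b a u`
  (`∑_{u ∈ S b} Q b a u v = ∑_u Q a b v u = 1` for `v ∈ S a`, `0` otherwise; `ms_bd`).
(2) one step: for valid `a, b` and `v ∈ S b`: `∑ u, π_a u G a b u v
  = (ω v/M) ∑_{u ∈ S a} ω u Q a b u v/ms Q ω a b u`, and `∑ u, ω u Q a b u v = ms Q ω b a v`; so
  it is
  `π_b v` times a number in `[(1-δ')/(1+δ'), (1+δ')/(1-δ')] ⊆ [1 - 4δ', 1 + 4δ']`; for `v ∉ S b`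
  both
  are `0`.  So `|∑ u, π_a u G a b u v - π_b v| ≤ 4 δ' π_b v`, and the sum over `v` is `≤ 5 δ'`.
(3) Doeblin for `G`: for words of length `L`, `u ∈ S a`, `v ∈ S (lst a w)`:
  `wk G a w (pt u) v ≥ wk Q a w (pt u) v ω v - E δ' ω v/n ≥ (c₁ - E ν) ω v/n ≥ (c₁/2) ω v/n`.
(4) contraction: `σ` supported on `S a`, `|∑ v, σ v| ≤ δ'`, `w` valid of length `L ≥ 1`,
  `θ v = (c₁/2) ω v/n` for `v ∈ S (lst a w)`, `0` otherwise; `t = ∑ v, θ v = (c₁/2)(M/n) z ∈
  [c₁/8, 1]`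
  (`z` from (1), applied to the last letter, which is `≠` the letter before).
  `wk G a w σ v = ∑ u, σ u (wk G a w (pt u) v - θ v) + (∑ u, σ u) θ v`, so
  `∑ v, |wk G a w σ v| ≤ (1 - t) ∑ u, |σ u| + δ' t ≤ (1 - c₁/8) ∑ u, |σ u| + δ'`.
(5) `e_w = wk G a w (pt u) - π_{lst a w}` for valid `w`: supported on `S (lst a w)`, sum
  `1 - z ∈ [-δ', δ']`, and `∑ v, |e_{w ++ w'} v| ≤ ∑ v, |wk G (lst a w) w' e_w v| + 5 |w'| δ'`
  (induction on `w'`: `e_{w ++ [b]} = (one step of e_w) + (one step of π - π_b)`, (2), `wk_l1`).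
  So with (4) for `|w'| = L`: `‖e_{w ++ w'}‖ ≤ (1 - c₁/8) ‖e_w‖ + (1 + 5 L) δ'`.
  `‖e_[]‖ ≤ 1 + z_a ≤ 9/4`.  So `‖e_w‖ ≤ (9/4)(1 - c₁/8)^j + (1 + 5 L) δ' (8/c₁)` if `|w| = L j`
  (geometric series).
(6) `|w| = L j`, `w ++ [b]`: `|wk G a (w ++ [b]) (pt u) v - π_b v| ≤ ∑ x, |e_w x| G (lst a w) b x
v +
  4 δ' π_b v ≤ ‖e_w‖ 2 C ω v/n + 8 δ' ω v/n ≤ (ε₀ + Cm δ') ω v/n` (`π_b v ≤ ω v/M ≤ 2 ω v/n`).
(7) words with `|w| ≥ l`: `w = w₀ ++ w₁`, `|w₁| = l`: `wk G a w (pt u) v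
  = ∑ x, (wk G a w₀ (pt u) x) wk G (lst a w₀) w₁ (pt x) v`, a convex combination over
  `x ∈ S (lst a w₀)`; so the bound holds for `w`.
(8) words with `1 ≤ |w| < l`: `0 ≤ wk ≤ 2 C ω v/n` (`wk_le`) and `0 ≤ ω v Un ≤ 2 ω v/n ≤ 2 C ω v/n`.
-/

namespace Pool.Agent.Lib.TourE

open Finset
open Pool.Agent.Lib.RobT (IsTour Arc eN Nb RT)

section aux

variable {V : Type} [Fintype V] [DecidableEq V] {R : V → V → Prop} {ℓ L : ℕ}
  {S : ℕ → Finset V} {c C Cf : ℝ} {Q : ℕ → ℕ → V → V → ℝ} {F : Finset (V → ℝ)}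
  {ω : V → ℝ} {δ' : ℝ}

private theorem pt_nn (u v : V) : 0 ≤ RobT.pt u v := by
  unfold RobT.pt
  split_ifs <;> norm_num

private theorem pt_sum (u : V) : ∑ v, RobT.pt u v = 1 := by
  simp [RobT.pt]

private theorem pt_supp (u v : V) (h : RobT.pt u v ≠ 0) : v = u := by
  unfold RobT.pt at h
  by_contra hne
  rw [if_neg hne] at h
  exact h rfl

private theorem col_sum (hQ : KE R ℓ S c C Q) (a b : ℕ) (ha : a ≤ ℓ) (hb : b ≤ ℓ)
    (hab : a ≠ b) (v : V) (hv : v ∈ S b) : ∑ u, Q a b u v = 1 := by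
  simp only [hQ.sym a b]
  exact hQ.row b a hb ha (Ne.symm hab) v hv

private theorem z_bd (hQ : KE R ℓ S c C Q) (hF : Tst ℓ S Q L Cf F) (hq : QR F ω δ')
    (hM : 0 < (S 0).card) (heq : ∀ a, a ≤ ℓ → (S a).card = (S 0).card) (hℓ : 1 ≤ ℓ)
    (a : ℕ) (ha : a ≤ ℓ) : |∑ v, ω v * Un S a v - 1| ≤ δ' := by
  obtain ⟨b, hb, hab⟩ : ∃ b, b ≤ ℓ ∧ b ≠ a := by
    by_cases h : a = 0
    · exact ⟨1, hℓ, by omega⟩
    · exact ⟨0, Nat.zero_le _, fun h' => h h'.symm⟩
  have hM' : (0 : ℝ) < (S 0).card := by exact_mod_cast hM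
  have e1 : ∑ v, ω v * Un S a v = (1 / ((S 0).card : ℝ)) * ∑ u ∈ S b, ms Q ω b a u := by
    have e2 : ∀ v, ω v * Un S a v = (1 / ((S 0).card : ℝ)) * ∑ u, Q b a u v * ω v := by
      intro v
      by_cases hv : v ∈ S a
      · rw [← Finset.sum_mul, col_sum hQ b a hb ha hab v hv]
        unfold Un
        rw [if_pos hv]
        ring
      · have h0 : ∀ u, Q b a u v = 0 := by
          intro u
          by_contra h
          exact hv (hQ.sup b a u v h).2.1
        unfold Un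
        rw [if_neg hv]
        simp [h0]
    simp only [e2]
    rw [← Finset.mul_sum, Finset.sum_comm]
    congr 1
    symm
    apply Finset.sum_subset (Finset.subset_univ _)
    intro u _ hu
    unfold ms
    apply Finset.sum_eq_zero
    intro v _
    have h0 : Q b a u v = 0 := by
      by_contra h
      exact hu (hQ.sup b a u v h).1
    rw [h0, zero_mul]
  have e3 : ∑ v, ω v * Un S a v - 1 =
      (1 / ((S 0).card : ℝ)) * ∑ u ∈ S b, (ms Q ω b a u - 1) := by
    rw [e1, Finset.sum_sub_distrib, Finset.sum_const, nsmul_eq_mul, heq b hb]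
    field_simp
  rw [e3, abs_mul, abs_of_nonneg (by positivity : (0 : ℝ) ≤ 1 / ((S 0).card : ℝ))]
  have e4 : |∑ u ∈ S b, (ms Q ω b a u - 1)| ≤ (S 0).card * δ' := by
    refine (Finset.abs_sum_le_sum_abs _ _).trans ?_
    calc ∑ u ∈ S b, |ms Q ω b a u - 1| ≤ ∑ u ∈ S b, δ' :=
          Finset.sum_le_sum fun u hu => ms_bd hQ hF hq b a hb ha hab u hu
      _ = (S 0).card * δ' := by
          rw [Finset.sum_const, nsmul_eq_mul, heq b hb]
  calc 1 / ((S 0).card : ℝ) * |∑ u ∈ S b, (ms Q ω b a u - 1)|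
      ≤ 1 / ((S 0).card : ℝ) * ((S 0).card * δ') :=
        mul_le_mul_of_nonneg_left e4 (by positivity)
    _ = δ' := by field_simp

private theorem one_step (hQ : KE R ℓ S c C Q) (hF : Tst ℓ S Q L Cf F) (hq : QR F ω δ')
    (hω : ∀ v, 0 ≤ ω v) (hδ0 : 0 ≤ δ') (hδ : δ' ≤ 1 / 4) (a b : ℕ)
    (ha : a ≤ ℓ) (hb : b ≤ ℓ) (hab : a ≠ b) (v : V) :
    |∑ u, ω u * Un S a u * qw Q ω a b u v - ω v * Un S b v| ≤ 4 * δ' * (ω v * Un S b v) := by
  by_cases hv : v ∈ S b
  · have hm := ms_bd hQ hF hq b a hb ha (Ne.symm hab) v hv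
    rw [abs_le] at hm
    have eU : Un S b v = 1 / ((S 0).card : ℝ) := by
      unfold Un
      rw [if_pos hv]
    have e1 : ∑ u, ω u * Un S a u * qw Q ω a b u v =
        (ω v * Un S b v) * ∑ u, Q a b u v * ω u / ms Q ω a b u := by
      rw [Finset.mul_sum]
      refine Finset.sum_congr rfl fun u _ => ?_
      unfold qw
      by_cases hu : u ∈ S a
      · have : Un S a u = 1 / ((S 0).card : ℝ) := by
          unfold Un
          rw [if_pos hu]
        rw [this, eU]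
        ring
      · have h0 : Q a b u v = 0 := by
          by_contra h
          exact hu (hQ.sup a b u v h).1
        simp [h0]
    have e2 : ∑ u, Q a b u v * ω u = ms Q ω b a v := by
      unfold ms
      exact Finset.sum_congr rfl fun u _ => by rw [hQ.sym a b u v]
    have up : ∑ u, Q a b u v * ω u / ms Q ω a b u ≤ ms Q ω b a v / (1 - δ') := by
      rw [← e2, Finset.sum_div]
      refine Finset.sum_le_sum fun u _ => ?_
      by_cases h0 : Q a b u v = 0
      · simp [h0]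
      · have hu := (hQ.sup a b u v h0).1
        have h1 := ms_bd hQ hF hq a b ha hb hab u hu
        rw [abs_le] at h1
        exact div_le_div_of_nonneg_left (mul_nonneg (hQ.nn _ _ _ _) (hω u)) (by linarith)
          (by linarith)
    have lo : ms Q ω b a v / (1 + δ') ≤ ∑ u, Q a b u v * ω u / ms Q ω a b u := by
      rw [← e2, Finset.sum_div]
      refine Finset.sum_le_sum fun u _ => ?_
      by_cases h0 : Q a b u v = 0
      · simp [h0]
      · have hu := (hQ.sup a b u v h0).1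
        have h1 := ms_bd hQ hF hq a b ha hb hab u hu
        rw [abs_le] at h1
        exact div_le_div_of_nonneg_left (mul_nonneg (hQ.nn _ _ _ _) (hω u)) (by linarith)
          (by linarith)
    have up2 : ms Q ω b a v / (1 - δ') ≤ 1 + 4 * δ' := by
      rw [div_le_iff₀ (by linarith)]
      nlinarith
    have lo2 : 1 - 4 * δ' ≤ ms Q ω b a v / (1 + δ') := by
      rw [le_div_iff₀ (by linarith)]
      nlinarith
    rw [e1]
    set s := ∑ u, Q a b u v * ω u / ms Q ω a b u with hs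
    have hp : 0 ≤ ω v * Un S b v := by
      rw [eU]
      exact mul_nonneg (hω v) (by positivity)
    have e3 : ω v * Un S b v * s - ω v * Un S b v = (ω v * Un S b v) * (s - 1) := by ring
    rw [e3, abs_mul, abs_of_nonneg hp]
    have h4 : |s - 1| ≤ 4 * δ' := by
      rw [abs_le]
      constructor <;> linarith
    calc ω v * Un S b v * |s - 1| ≤ ω v * Un S b v * (4 * δ') :=
          mul_le_mul_of_nonneg_left h4 hp
      _ = _ := by ring
  · have eU : Un S b v = 0 := by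
      unfold Un
      rw [if_neg hv]
    have h0 : ∀ u, qw Q ω a b u v = 0 := by
      intro u
      have : Q a b u v = 0 := by
        by_contra h
        exact hv (hQ.sup a b u v h).2.1
      unfold qw
      rw [this]
      simp
    simp [eU, h0]

private theorem un_nn (a : ℕ) (v : V) : 0 ≤ Un S a v := by
  unfold Un
  split_ifs
  · positivity
  · exact le_rfl

private theorem one_step_l1 (hQ : KE R ℓ S c C Q) (hF : Tst ℓ S Q L Cf F) (hq : QR F ω δ')
    (hω : ∀ v, 0 ≤ ω v) (hδ0 : 0 ≤ δ') (hδ : δ' ≤ 1 / 4)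
    (hM : 0 < (S 0).card) (heq : ∀ a, a ≤ ℓ → (S a).card = (S 0).card) (hℓ : 1 ≤ ℓ)
    (a b : ℕ) (ha : a ≤ ℓ) (hb : b ≤ ℓ) (hab : a ≠ b) :
    ∑ v, |∑ u, ω u * Un S a u * qw Q ω a b u v - ω v * Un S b v| ≤ 5 * δ' := by
  have h1 := z_bd hQ hF hq hM heq hℓ b hb
  rw [abs_le] at h1
  calc ∑ v, |∑ u, ω u * Un S a u * qw Q ω a b u v - ω v * Un S b v|
      ≤ ∑ v, 4 * δ' * (ω v * Un S b v) :=
        Finset.sum_le_sum fun v _ => one_step hQ hF hq hω hδ0 hδ a b ha hb hab v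
    _ = 4 * δ' * ∑ v, ω v * Un S b v := by rw [Finset.mul_sum]
    _ ≤ 4 * δ' * (5 / 4) := mul_le_mul_of_nonneg_left (by linarith) (by linarith)
    _ = 5 * δ' := by ring

private theorem wk_pi (hQ : KE R ℓ S c C Q) (hC : 0 ≤ C) (hF : Tst ℓ S Q L Cf F)
    (hq : QR F ω δ') (hω : ∀ v, 0 ≤ ω v) (hδ0 : 0 ≤ δ') (hδ : δ' ≤ 1 / 4)
    (hM : 0 < (S 0).card) (heq : ∀ a, a ≤ ℓ → (S a).card = (S 0).card) (hℓ : 1 ≤ ℓ)
    (w : List ℕ) : ∀ a, Wd ℓ a w →
    ∑ v, |wk (qw Q ω) a w (fun v => ω v * Un S a v) v - ω v * Un S (lst a w) v| ≤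
      5 * δ' * w.length := by
  have hSK := qw_SK hQ hC hF hω hδ hq
  induction w with
  | nil =>
    intro a _
    simp [wk, lst]
  | cons b w ih =>
    intro a hw
    obtain ⟨ha, hab, hw'⟩ := hw
    have hb : b ≤ ℓ := (Wd_le hw').1
    have e : ∀ v, wk (qw Q ω) a (b :: w) (fun v => ω v * Un S a v) v -
        ω v * Un S (lst a (b :: w)) v =
        wk (qw Q ω) b w (fun x => (∑ u, ω u * Un S a u * qw Q ω a b u x) - ω x * Un S b x) v +
          (wk (qw Q ω) b w (fun v => ω v * Un S b v) v - ω v * Un S (lst b w) v) := by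
      intro v
      rw [wk_sub (qw Q ω) b w (fun x => ∑ u, ω u * Un S a u * qw Q ω a b u x)
        (fun x => ω x * Un S b x) v]
      show wk (qw Q ω) b w (fun x => ∑ u, ω u * Un S a u * qw Q ω a b u x) v -
        ω v * Un S (lst b w) v = _
      ring
    calc ∑ v, |wk (qw Q ω) a (b :: w) (fun v => ω v * Un S a v) v -
          ω v * Un S (lst a (b :: w)) v|
        ≤ ∑ v, (|wk (qw Q ω) b w
              (fun x => (∑ u, ω u * Un S a u * qw Q ω a b u x) - ω x * Un S b x) v| +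
            |wk (qw Q ω) b w (fun v => ω v * Un S b v) v - ω v * Un S (lst b w) v|) :=
          Finset.sum_le_sum fun v _ => by
            rw [e]
            exact abs_add_le _ _
      _ = _ := Finset.sum_add_distrib
      _ ≤ 5 * δ' + 5 * δ' * w.length := by
          refine add_le_add ?_ (ih b hw')
          exact (wk_l1 hSK b w hw' _).trans
            (one_step_l1 hQ hF hq hω hδ0 hδ hM heq hℓ a b ha hb hab)
      _ = 5 * δ' * (b :: w).length := by
          rw [List.length_cons]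
          push_cast
          ring

private theorem contract (hQ : KE R ℓ S c C Q) (hC : 0 ≤ C) (hF : Tst ℓ S Q L Cf F)
    (hq : QR F ω δ') (hω : ∀ v, 0 ≤ ω v) (hδ0 : 0 ≤ δ') (hδ : δ' ≤ 1 / 4)
    (hN : 0 < Fintype.card V)
    (hM2 : (Fintype.card V : ℝ) / 2 ≤ (S 0).card)
    (heq : ∀ a, a ≤ ℓ → (S a).card = (S 0).card) (hℓ : 1 ≤ ℓ) {c₁ : ℝ} (hc0 : 0 < c₁)
    (hc1 : c₁ ≤ 1) (a : ℕ) (w : List ℕ) (hw : Wd ℓ a w)
    (hd : ∀ u ∈ S a, ∀ v ∈ S (lst a w), c₁ / 2 * ω v / Fintype.card V ≤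
      wk (qw Q ω) a w (RobT.pt u) v) (σ : V → ℝ) (hσ : ∀ v, σ v ≠ 0 → v ∈ S a)
    (hσ1 : |∑ v, σ v| ≤ δ') :
    ∑ v, |wk (qw Q ω) a w σ v| ≤ (1 - c₁ / 8) * ∑ v, |σ v| + δ' := by
  have hSK := qw_SK hQ hC hF hω hδ hq
  have hn0 : (0 : ℝ) < Fintype.card V := by exact_mod_cast hN
  have hM0 : (0 : ℝ) < (S 0).card := by linarith
  have hMpos : 0 < (S 0).card := by exact_mod_cast hM0
  have hz := z_bd hQ hF hq hMpos heq hℓ (lst a w) (Wd_le hw).2
  rw [abs_le] at hz
  have hMN : ((S 0).card : ℝ) ≤ Fintype.card V := by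
    exact_mod_cast Finset.card_le_univ _
  set k := c₁ / 2 * ((S 0).card / Fintype.card V : ℝ) with hk
  have hk0 : 0 ≤ k := by positivity
  have hkl : c₁ / 4 ≤ k := by
    rw [hk]
    have : (1 : ℝ) / 2 ≤ (S 0).card / Fintype.card V := by
      rw [le_div_iff₀ hn0]
      linarith
    nlinarith
  have hku : k ≤ 1 / 2 := by
    rw [hk]
    have : ((S 0).card : ℝ) / Fintype.card V ≤ 1 := (div_le_one hn0).2 hMN
    nlinarith
  set θ : V → ℝ := fun v => k * (ω v * Un S (lst a w) v) with hθ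
  have hθs : ∑ v, θ v = k * ∑ v, ω v * Un S (lst a w) v := by
    rw [hθ, Finset.mul_sum]
  set z := ∑ v, ω v * Un S (lst a w) v with hz'
  have hθl : ∀ u ∈ S a, ∀ v, 0 ≤ wk (qw Q ω) a w (RobT.pt u) v - θ v := by
    intro u hu v
    by_cases hv : v ∈ S (lst a w)
    · have h1 := hd u hu v hv
      have : θ v = c₁ / 2 * ω v / Fintype.card V := by
        simp only [hθ, hk, Un, if_pos hv]
        field_simp
      rw [this]
      linarith
    · have : θ v = 0 := by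
        simp only [hθ, Un, if_neg hv]
        ring
      rw [this, sub_zero]
      exact wk_nn hSK a w _ (pt_nn u) v
  have e : ∀ v, wk (qw Q ω) a w σ v =
      ∑ u, σ u * (wk (qw Q ω) a w (RobT.pt u) v - θ v) + (∑ u, σ u) * θ v := by
    intro v
    rw [wk_lin]
    simp only [mul_sub, Finset.sum_sub_distrib]
    rw [← Finset.sum_mul]
    ring
  have hθ0 : ∀ v, 0 ≤ θ v := fun v => mul_nonneg hk0 (mul_nonneg (hω v) (un_nn _ v))
  calc ∑ v, |wk (qw Q ω) a w σ v|
      ≤ ∑ v, (∑ u, |σ u| * (wk (qw Q ω) a w (RobT.pt u) v - θ v) + δ' * θ v) := by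
        refine Finset.sum_le_sum fun v _ => ?_
        rw [e]
        refine (abs_add_le _ _).trans (add_le_add ?_ ?_)
        · refine (Finset.abs_sum_le_sum_abs _ _).trans (Finset.sum_le_sum fun u _ => ?_)
          rw [abs_mul]
          by_cases hu : σ u = 0
          · simp [hu]
          · rw [abs_of_nonneg (hθl u (hσ u hu) v)]
        · rw [abs_mul, abs_of_nonneg (hθ0 v)]
          exact mul_le_mul_of_nonneg_right hσ1 (hθ0 v)
    _ = ∑ u, |σ u| * ∑ v, (wk (qw Q ω) a w (RobT.pt u) v - θ v) + δ' * ∑ v, θ v := by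
        rw [Finset.sum_add_distrib, Finset.sum_comm, ← Finset.mul_sum]
        congr 1
        exact Finset.sum_congr rfl fun u _ => by rw [Finset.mul_sum]
    _ = ∑ u, |σ u| * (1 - k * z) + δ' * (k * z) := by
        rw [hθs]
        congr 1
        refine Finset.sum_congr rfl fun u _ => ?_
        by_cases hu : σ u = 0
        · simp [hu]
        · rw [Finset.sum_sub_distrib, hθs, wk_sum hSK a w hw _ (fun v hv => by
            rw [pt_supp u v hv]
            exact hσ u hu), pt_sum]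
    _ ≤ (1 - c₁ / 8) * ∑ v, |σ v| + δ' := by
        rw [← Finset.sum_mul]
        have h1 : c₁ / 8 ≤ k * z := by nlinarith
        have h2 : k * z ≤ 1 := by nlinarith
        have h3 : 0 ≤ ∑ v, |σ v| := Finset.sum_nonneg fun v _ => abs_nonneg _
        have h4 : (∑ v, |σ v|) * (1 - k * z) ≤ (∑ v, |σ v|) * (1 - c₁ / 8) :=
          mul_le_mul_of_nonneg_left (by linarith) h3
        have h5 : δ' * (k * z) ≤ δ' := by nlinarith
        linarith

private theorem iter (hQ : KE R ℓ S c C Q) (hC : 0 ≤ C) (hF : Tst ℓ S Q L Cf F)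
    (hq : QR F ω δ') (hω : ∀ v, 0 ≤ ω v) (hδ0 : 0 ≤ δ') (hδ : δ' ≤ 1 / 4)
    (hN : 0 < Fintype.card V)
    (hM2 : (Fintype.card V : ℝ) / 2 ≤ (S 0).card)
    (heq : ∀ a, a ≤ ℓ → (S a).card = (S 0).card) (hℓ : 1 ≤ ℓ) {c₁ : ℝ} (hc0 : 0 < c₁)
    (hc1 : c₁ ≤ 1) (l₁ : ℕ)
    (hd : ∀ (a : ℕ) (w : List ℕ), Wd ℓ a w → w.length = l₁ → ∀ u ∈ S a, ∀ v ∈ S (lst a w),
      c₁ / 2 * ω v / Fintype.card V ≤ wk (qw Q ω) a w (RobT.pt u) v) (t : ℕ) :
    ∀ (a : ℕ) (w : List ℕ), Wd ℓ a w → w.length = t * l₁ → ∀ μ : V → ℝ,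
      (∀ v, μ v ≠ 0 → v ∈ S a) → ∑ v, μ v = 1 →
      ∑ v, |wk (qw Q ω) a w μ v - ω v * Un S (lst a w) v| ≤
        (1 - c₁ / 8) ^ t * ∑ v, |μ v - ω v * Un S a v| + (1 + 5 * l₁) * δ' * (8 / c₁) := by
  have hSK := qw_SK hQ hC hF hω hδ hq
  have hn0 : (0 : ℝ) < Fintype.card V := by exact_mod_cast hN
  have hM0 : (0 : ℝ) < (S 0).card := by linarith
  have hMpos : 0 < (S 0).card := by exact_mod_cast hM0
  induction t with
  | zero =>
    intro a w _ hw μ _ _
    have hw0 : w = [] := List.length_eq_zero_iff.1 (by simpa using hw)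
    subst hw0
    have : 0 ≤ (1 + 5 * (l₁ : ℝ)) * δ' * (8 / c₁) := by positivity
    simp only [wk, lst, pow_zero, one_mul]
    linarith
  | succ t ih =>
    intro a w hWd hw μ hμs hμ
    have hlen : t * l₁ ≤ w.length := by
      rw [hw]
      exact Nat.mul_le_mul_right _ (Nat.le_succ t)
    have hsplit := List.take_append_drop (t * l₁) w
    have h1 : (w.take (t * l₁)).length = t * l₁ := by
      rw [List.length_take]
      exact min_eq_left hlen
    have h2 : (w.drop (t * l₁)).length = l₁ := by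
      rw [List.length_drop, hw, Nat.succ_mul]
      omega
    generalize w.take (t * l₁) = w₁ at *
    generalize w.drop (t * l₁) = w₂ at *
    rw [← hsplit, Wd_append] at hWd
    obtain ⟨hW1, hW2⟩ := hWd
    have ih1 := ih a w₁ hW1 h1 μ hμs hμ
    rw [← hsplit, wk_append, lst_append]
    have hμ' : ∑ v, wk (qw Q ω) a w₁ μ v = 1 := (wk_sum hSK a w₁ hW1 μ hμs).trans hμ
    have hμ's : ∀ v, wk (qw Q ω) a w₁ μ v ≠ 0 → v ∈ S (lst a w₁) :=
      fun v hv => wk_sup hSK a w₁ μ hμs v hv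
    generalize wk (qw Q ω) a w₁ μ = μ' at *
    generalize lst a w₁ = b at *
    have hb : b ≤ ℓ := (Wd_le hW2).1
    have hz := z_bd hQ hF hq hMpos heq hℓ b hb
    have hσs : ∀ v, μ' v - ω v * Un S b v ≠ 0 → v ∈ S b := by
      intro v hv
      by_contra h
      apply hv
      have e1 : μ' v = 0 := by
        by_contra h'
        exact h (hμ's v h')
      rw [e1]
      unfold Un
      rw [if_neg h]
      ring
    have hσ1 : |∑ v, (μ' v - ω v * Un S b v)| ≤ δ' := by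
      rw [Finset.sum_sub_distrib, hμ', abs_sub_comm]
      exact hz
    have hcon := contract hQ hC hF hq hω hδ0 hδ hN hM2 heq hℓ hc0 hc1 b w₂ hW2
      (hd b w₂ hW2 h2) (fun v => μ' v - ω v * Un S b v) hσs hσ1
    have hun := wk_pi hQ hC hF hq hω hδ0 hδ hMpos heq hℓ w₂ b hW2
    rw [h2] at hun
    have hstep : ∑ v, |wk (qw Q ω) b w₂ μ' v - ω v * Un S (lst b w₂) v| ≤
        (1 - c₁ / 8) * ∑ v, |μ' v - ω v * Un S b v| + (1 + 5 * l₁) * δ' := by
      calc ∑ v, |wk (qw Q ω) b w₂ μ' v - ω v * Un S (lst b w₂) v|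
          ≤ ∑ v, (|wk (qw Q ω) b w₂ (fun x => μ' x - ω x * Un S b x) v| +
              |wk (qw Q ω) b w₂ (fun v => ω v * Un S b v) v - ω v * Un S (lst b w₂) v|) := by
            refine Finset.sum_le_sum fun v _ => ?_
            have : wk (qw Q ω) b w₂ μ' v - ω v * Un S (lst b w₂) v =
                wk (qw Q ω) b w₂ (fun x => μ' x - ω x * Un S b x) v +
                  (wk (qw Q ω) b w₂ (fun v => ω v * Un S b v) v -
                    ω v * Un S (lst b w₂) v) := by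
              rw [wk_sub (qw Q ω) b w₂ μ' (fun x => ω x * Un S b x) v]
              ring
            rw [this]
            exact abs_add_le _ _
        _ = _ := Finset.sum_add_distrib
        _ ≤ (1 - c₁ / 8) * ∑ v, |μ' v - ω v * Un S b v| + δ' + 5 * δ' * l₁ :=
            add_le_add hcon hun
        _ = _ := by ring
    have hmul : (1 - c₁ / 8) * ∑ v, |μ' v - ω v * Un S b v| ≤
        (1 - c₁ / 8) * ((1 - c₁ / 8) ^ t * ∑ v, |μ v - ω v * Un S a v| +
          (1 + 5 * l₁) * δ' * (8 / c₁)) :=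
      mul_le_mul_of_nonneg_left ih1 (by linarith)
    refine hstep.trans ((add_le_add_left hmul _).trans (le_of_eq ?_))
    field_simp
    ring

end aux

theorem mixing (δ : ℝ) (hδ : 0 < δ) (hδ1 : δ ≤ 1) :
    ∃ (L : ℕ) (ν Cm : ℝ), 0 < ν ∧ ν ≤ 1 / 4 ∧ 0 ≤ Cm ∧ ∀ ε₀ : ℝ, 0 < ε₀ → ∃ l : ℕ,
      ∀ (V : Type) [Fintype V] [DecidableEq V] (R : V → V → Prop) (ℓ : ℕ) (η Cf : ℝ)
      (S : ℕ → Finset V) (K : Finset V) (r : V) (Q : ℕ → ℕ → V → V → ℝ) (F : Finset (V → ℝ)),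
      0 < Fintype.card V → Lay R ℓ δ η S K r → KE R ℓ S δ (2 / δ) Q → Tst ℓ S Q L Cf F →
      (Fintype.card V : ℝ) / 2 ≤ (S 0).card → ∀ (ω : V → ℝ) (δ' : ℝ), (∀ v, 0 ≤ ω v) →
      0 ≤ δ' → δ' ≤ ν → QR F ω δ' →
      WP ℓ S ω (qw Q ω) l (2 * (2 / δ)) (ε₀ + Cm * δ') := by
  set C := 2 / δ with hCd
  have hC1 : 1 ≤ C := by
    rw [hCd, le_div_iff₀ hδ]
    linarith
  have hC0 : 0 ≤ C := by linarith
  obtain ⟨L, c₁, hL1, hc0, hc1, hdo⟩ := doeblin δ hδ hδ1
  obtain ⟨E, hE0, happ⟩ := walk_approx C L hC1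
  set ν := min (1 / 4) (c₁ / (2 * (E + 1))) with hν
  have hν0 : 0 < ν := lt_min (by norm_num) (by positivity)
  have hν4 : ν ≤ 1 / 4 := min_le_left _ _
  have hνE : E * ν ≤ c₁ / 2 := by
    have h1 : ν ≤ c₁ / (2 * (E + 1)) := min_le_right _ _
    rw [le_div_iff₀ (by positivity)] at h1
    nlinarith
  refine ⟨L, ν, 16 * C * (1 + 5 * L) / c₁ + 8, hν0, hν4, by positivity, fun ε₀ hε => ?_⟩
  obtain ⟨j, hj⟩ := exists_pow_lt_of_lt_one (show 0 < ε₀ / (2 * C * (9 / 4)) by positivity)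
    (show 1 - c₁ / 8 < 1 by linarith)
  refine ⟨j * L + 1, ?_⟩
  intro V _ _ R ℓ η Cf S K r Q F hN hLay hQ hF hM2 ω δ' hω hδ0 hδν hq
  have hδ4 : δ' ≤ 1 / 4 := hδν.trans hν4
  have hSK := qw_SK hQ hC0 hF hω hδ4 hq
  have hn0 : (0 : ℝ) < Fintype.card V := by exact_mod_cast hN
  have hM0 : (0 : ℝ) < (S 0).card := by linarith
  have hMpos : 0 < (S 0).card := by exact_mod_cast hM0
  have hUle : ∀ a v, Un S a v ≤ 2 / Fintype.card V := by
    intro a v
    unfold Un
    split_ifs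
    · rw [div_le_div_iff₀ hM0 hn0]
      linarith
    · positivity
  have hωU : ∀ a v, ω v * Un S a v ≤ 2 * ω v / Fintype.card V := by
    intro a v
    calc ω v * Un S a v ≤ ω v * (2 / Fintype.card V) :=
          mul_le_mul_of_nonneg_left (hUle a v) (hω v)
      _ = _ := by ring
  intro a w hw hne u hu v
  have hpts : ∀ v, RobT.pt u v ≠ 0 → v ∈ S a := fun v hv => by
    rw [pt_supp u v hv]
    exact hu
  have hℓ : 1 ≤ ℓ := by
    cases w with
    | nil => exact absurd rfl hne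
    | cons b w =>
      obtain ⟨h1, h2, h3⟩ := hw
      have := (Wd_le h3).1
      omega
  by_cases hlen : j * L + 1 ≤ w.length
  · rw [if_pos hlen]
    have hd : ∀ (a : ℕ) (w : List ℕ), Wd ℓ a w → w.length = L → ∀ u ∈ S a,
        ∀ v ∈ S (lst a w),
        c₁ / 2 * ω v / Fintype.card V ≤ wk (qw Q ω) a w (RobT.pt u) v := by
      intro a w hw hwL u hu v hv
      have hne : w ≠ [] := by
        rintro rfl
        simp at hwL
        omega
      have h1 := hdo V R ℓ η S K r C Q hN hLay hQ a w hw hwL u hu v hv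
      have h2 := happ V R ℓ δ Cf S Q F hN hQ hF ω δ' hω hδ0 hδ4 hq a w hw hne hwL.le u hu v
      rw [abs_le] at h2
      have h3 : c₁ / Fintype.card V * ω v ≤ wk Q a w (RobT.pt u) v * ω v :=
        mul_le_mul_of_nonneg_right h1 (hω v)
      have h4 : E * δ' * ω v / Fintype.card V ≤ c₁ / 2 * ω v / Fintype.card V := by
        apply div_le_div_of_nonneg_right _ hn0.le
        apply mul_le_mul_of_nonneg_right _ (hω v)
        exact (mul_le_mul_of_nonneg_left hδν hE0).trans hνE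
      have h5 : c₁ / Fintype.card V * ω v = c₁ / 2 * ω v / Fintype.card V +
          c₁ / 2 * ω v / Fintype.card V := by ring
      linarith [h2.1]
    rcases List.eq_nil_or_concat w with hnil | ⟨w', b, hws⟩
    · exact absurd hnil hne
    rw [List.concat_eq_append] at hws
    have hlen' : j * L ≤ w'.length := by
      rw [hws, List.length_append, List.length_singleton] at hlen
      omega
    have hsplit := List.take_append_drop (w'.length - j * L) w'
    have h2 : (w'.drop (w'.length - j * L)).length = j * L := by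
      rw [List.length_drop]
      omega
    generalize w'.take (w'.length - j * L) = w₀ at *
    generalize w'.drop (w'.length - j * L) = w₁ at *
    rw [hws, ← hsplit, Wd_append, Wd_append] at hw
    obtain ⟨⟨hW0, hW1⟩, hWb⟩ := hw
    rw [lst_append] at hWb
    have hwk : wk (qw Q ω) a w (RobT.pt u) v =
        ∑ x, wk (qw Q ω) (lst a w₀) w₁ (wk (qw Q ω) a w₀ (RobT.pt u)) x *
          qw Q ω (lst (lst a w₀) w₁) b x v := by
      rw [hws, wk_snoc, ← hsplit, wk_append, lst_append]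
    have hlst : lst a w = b := by
      rw [hws, lst_append]
      rfl
    have hμ1 : ∑ v, wk (qw Q ω) a w₀ (RobT.pt u) v = 1 :=
      (wk_sum hSK a w₀ hW0 _ hpts).trans (pt_sum u)
    have hμ0 : ∀ v, 0 ≤ wk (qw Q ω) a w₀ (RobT.pt u) v :=
      fun v => wk_nn hSK a w₀ _ (pt_nn u) v
    have hμs : ∀ v, wk (qw Q ω) a w₀ (RobT.pt u) v ≠ 0 → v ∈ S (lst a w₀) :=
      fun v hv => wk_sup hSK a w₀ _ hpts v hv
    rw [hwk, hlst]
    generalize wk (qw Q ω) a w₀ (RobT.pt u) = μ at *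
    generalize lst a w₀ = d at *
    have hd' : d ≤ ℓ := (Wd_le hW1).1
    have hit := iter hQ hC0 hF hq hω hδ0 hδ4 hN hM2 hLay.eqc hℓ hc0 hc1 L hd j d w₁ hW1 h2 μ
      hμs hμ1
    have hz := z_bd hQ hF hq hMpos hLay.eqc hℓ d hd'
    rw [abs_le] at hz
    have hdist : ∑ v, |μ v - ω v * Un S d v| ≤ 9 / 4 := by
      calc ∑ v, |μ v - ω v * Un S d v| ≤ ∑ v, (μ v + ω v * Un S d v) := by
            refine Finset.sum_le_sum fun v _ => ?_
            rw [abs_le]
            have h1 := hμ0 v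
            have h2 := mul_nonneg (hω v) (un_nn (S := S) d v)
            constructor <;> linarith
        _ ≤ 9 / 4 := by
            rw [Finset.sum_add_distrib, hμ1]
            linarith
    generalize wk (qw Q ω) d w₁ μ = μ' at *
    generalize lst d w₁ = e at *
    obtain ⟨he, heb, hb⟩ := hWb
    have hb' : b ≤ ℓ := hb
    have hpow : 0 ≤ (1 - c₁ / 8) ^ j := pow_nonneg (by linarith) j
    have hit2 : ∑ v, |μ' v - ω v * Un S e v| ≤
        9 / 4 * (1 - c₁ / 8) ^ j + (1 + 5 * L) * δ' * (8 / c₁) := by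
      have := mul_le_mul_of_nonneg_left hdist hpow
      linarith
    have hst : |∑ x, μ' x * qw Q ω e b x v - ∑ x, ω x * Un S e x * qw Q ω e b x v| ≤
        (∑ x, |μ' x - ω x * Un S e x|) * (2 * C * ω v / Fintype.card V) := by
      have e1 : ∑ x, μ' x * qw Q ω e b x v - ∑ x, ω x * Un S e x * qw Q ω e b x v =
          ∑ x, (μ' x - ω x * Un S e x) * qw Q ω e b x v := by
        rw [← Finset.sum_sub_distrib]
        exact Finset.sum_congr rfl fun x _ => by ring
      rw [e1, Finset.sum_mul]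
      refine (Finset.abs_sum_le_sum_abs _ _).trans (Finset.sum_le_sum fun x _ => ?_)
      rw [abs_mul, abs_of_nonneg (hSK.nn e b x v)]
      exact mul_le_mul_of_nonneg_left (hSK.up e b x v) (abs_nonneg _)
    have hun := one_step hQ hF hq hω hδ0 hδ4 e b he hb' heb v
    have htri := abs_sub_le (∑ x, μ' x * qw Q ω e b x v)
      (∑ x, ω x * Un S e x * qw Q ω e b x v) (ω v * Un S b v)
    have hfac : (∑ x, |μ' x - ω x * Un S e x|) * (2 * C * ω v / Fintype.card V) ≤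
        (9 / 4 * (1 - c₁ / 8) ^ j + (1 + 5 * L) * δ' * (8 / c₁)) *
          (2 * C * ω v / Fintype.card V) :=
      mul_le_mul_of_nonneg_right hit2
        (div_nonneg (mul_nonneg (by positivity) (hω v)) hn0.le)
    have h8 : 4 * δ' * (ω v * Un S b v) ≤ 4 * δ' * (2 * ω v / Fintype.card V) :=
      mul_le_mul_of_nonneg_left (hωU b v) (by linarith)
    have ht4 : 2 * C * (9 / 4) * (1 - c₁ / 8) ^ j ≤ ε₀ := by
      have := (lt_div_iff₀ (show 0 < 2 * C * (9 / 4) by positivity)).1 hj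
      linarith
    have hωN : 0 ≤ ω v / Fintype.card V := div_nonneg (hω v) hn0.le
    calc |∑ x, μ' x * qw Q ω e b x v - ω v * Un S b v|
        ≤ (9 / 4 * (1 - c₁ / 8) ^ j + (1 + 5 * L) * δ' * (8 / c₁)) *
          (2 * C * ω v / Fintype.card V) + 4 * δ' * (2 * ω v / Fintype.card V) := by
          linarith
      _ = (2 * C * (9 / 4) * (1 - c₁ / 8) ^ j + (16 * C * (1 + 5 * L) / c₁ + 8) * δ') *
          (ω v / Fintype.card V) := by
          field_simp
          ring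
      _ ≤ (ε₀ + (16 * C * (1 + 5 * L) / c₁ + 8) * δ') * (ω v / Fintype.card V) :=
          mul_le_mul_of_nonneg_right (by linarith) hωN
      _ = _ := by ring
  · rw [if_neg hlen]
    have h1 := wk_nn hSK a w _ (pt_nn u) v
    have h2 := wk_le hSK a w hw hne _ (pt_nn u) hpts (pt_sum u) v
    have h3 := hωU (lst a w) v
    have h4 : 0 ≤ ω v * Un S (lst a w) v := mul_nonneg (hω v) (un_nn _ v)
    have h5 : 2 * ω v / Fintype.card V ≤ 2 * C * ω v / Fintype.card V := by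
      apply div_le_div_of_nonneg_right _ hn0.le
      apply mul_le_mul_of_nonneg_right _ (hω v)
      linarith
    rw [abs_le]
    constructor <;> linarith

end Pool.Agent.Lib.TourE
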