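import Pool.Agent.Lib.TourE.La
import Pool.Agent.Lib.TourE.Ke
import Pool.Agent.Lib.TourE.Wm
import Pool.Agent.Lib.TourE.Tf
import Pool.Agent.Lib.TourE.Ss
import Pool.Agent.Lib.TourE.Sc
import Pool.Agent.Lib.RobT.Sp
import Pool.Agent.Lib.RobT.Sl

/-!
# Sn: embedding a graded tree with linear slack

The process of RobT/Sn.lean with the weight `om A Uf`, `A` = the unused vertices, `Uf v` = the sum of
`Un S (a i) v` over the embedded `i ≠ 0`.
-/

namespace Pool.Agent.Lib.TourE

open Finset
open Pool.Agent.Lib.RobT (IsTour Arc eN Nb RT)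

private theorem pot_mono {V : Type} [Fintype V] (F : Finset (V → ℝ)) {lam : ℝ} (hl : 0 ≤ lam)
    (ω : V → ℝ) {δ δ' : ℝ} (h : δ ≤ δ') : Pot F lam ω δ' ≤ Pot F lam ω δ := by
  unfold Pot
  refine sum_le_sum fun f _ => sum_le_sum fun b _ => Real.exp_le_exp.2 ?_
  apply mul_le_mul_of_nonneg_left _ hl
  linarith

private theorem qr_of_pot {V : Type} [Fintype V] (F : Finset (V → ℝ)) {lam : ℝ} (hl : 0 < lam)
    (ω : V → ℝ) {δ : ℝ} (h : Pot F lam ω δ < 1) : QR F ω δ := by
  intro f hf
  have key : ∀ b : Bool,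
      Real.exp (lam * ((if b then 1 else -1) * Df f ω - δ)) < 1 := by
    intro b
    refine lt_of_le_of_lt ?_ h
    unfold Pot
    calc Real.exp (lam * ((if b then 1 else -1) * Df f ω - δ))
        ≤ ∑ b : Bool, Real.exp (lam * ((if b then 1 else -1) * Df f ω - δ)) :=
          single_le_sum (f := fun b : Bool =>
            Real.exp (lam * ((if b then 1 else -1) * Df f ω - δ)))
            (fun i _ => (Real.exp_pos _).le) (mem_univ b)
      _ ≤ _ :=
          single_le_sum (f := fun f : V → ℝ => ∑ b : Bool,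
            Real.exp (lam * ((if b then 1 else -1) * Df f ω - δ)))
            (fun i _ => sum_nonneg fun k _ => (Real.exp_pos _).le) hf
  have k0 : ∀ t : ℝ, Real.exp (lam * t) < 1 → t < 0 := by
    intro t ht
    by_contra hcon
    push Not at hcon
    exact absurd (Real.one_le_exp (mul_nonneg hl.le hcon)) (not_le.2 ht)
  have k1 := k0 _ (key true)
  have k2 := k0 _ (key false)
  simp only [if_true, one_mul] at k1
  simp only [Bool.false_eq_true, if_false, neg_mul, one_mul] at k2
  rw [abs_le]
  constructor <;> linarith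

private theorem pot_init {V : Type} [Fintype V] [DecidableEq V] {F : Finset (V → ℝ)} {Cf : ℝ}
    (hcard : (F.card : ℝ) ≤ Cf * (Fintype.card V : ℝ) ^ 2)
    (h0 : ∀ f ∈ F, ∀ v, 0 ≤ f v) (h1 : ∀ f ∈ F, ∀ v, f v ≤ Cf / Fintype.card V) (u₀ : V)
    (b : ℝ) :
    Pot F (√(Fintype.card V)) (om (univ \ {u₀}) fun _ => 0) b ≤
      2 * Cf * (Fintype.card V : ℝ) ^ 2 *
        Real.exp (√(Fintype.card V) * (Cf / Fintype.card V - b)) := by
  have hD : ∀ f ∈ F, |Df f (om (univ \ {u₀}) fun _ => 0)| ≤ Cf / Fintype.card V := by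
    intro f hf
    have e : Df f (om (univ \ {u₀}) fun _ => 0) = - f u₀ := by
      unfold Df
      have : ∀ v, f v * (om (univ \ {u₀}) (fun _ => 0) v - 1) =
          if v = u₀ then - f u₀ else 0 := by
        intro v
        unfold om
        by_cases hv : v = u₀
        · subst hv
          simp
        · simp [hv]
      simp only [this]
      simp
    rw [e, abs_neg, abs_of_nonneg (h0 f hf u₀)]
    exact h1 f hf u₀
  unfold Pot
  calc _ ≤ ∑ f ∈ F, ∑ g : Bool,
        Real.exp (√(Fintype.card V) * (Cf / Fintype.card V - b)) := by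
        refine sum_le_sum fun f hf => sum_le_sum fun g _ => Real.exp_le_exp.2 ?_
        apply mul_le_mul_of_nonneg_left _ (Real.sqrt_nonneg _)
        have := abs_le.1 (hD f hf)
        cases g
        · simp only [Bool.false_eq_true, if_false, neg_mul, one_mul]
          linarith
        · simp only [if_true, one_mul]
          linarith
    _ = F.card * (2 * Real.exp (√(Fintype.card V) * (Cf / Fintype.card V - b))) := by
        simp only [sum_const, card_univ, Fintype.card_bool, nsmul_eq_mul]
        push_cast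
        ring
    _ ≤ Cf * (Fintype.card V : ℝ) ^ 2 *
        (2 * Real.exp (√(Fintype.card V) * (Cf / Fintype.card V - b))) :=
        mul_le_mul_of_nonneg_right hcard (by positivity)
    _ = _ := by ring

private def Bs (N : ℕ) (rt : ℕ → ℕ) (j : ℕ) : Finset ℕ :=
  (range N).filter fun i => i = 0 ∨ rt i < j

private def Bp (N : ℕ) (rt : ℕ → ℕ) (j : ℕ) : Finset ℕ :=
  (range N).filter fun i => 0 < i ∧ rt i < j

private def zs (N : ℕ) (rt ld : ℕ → ℕ) (l j : ℕ) : ℕ :=
  ((range N).filter fun i => 0 < i ∧ rt i < j ∧ ld i < l).card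

private def rs (N : ℕ) (rt : ℕ → ℕ) (j : ℕ) : ℕ :=
  ((range N).filter fun i => 0 < i ∧ rt i = i ∧ i < j).card

private theorem zs_le {N : ℕ} {rt ld : ℕ → ℕ}
    (h1 : ∀ i, 0 < i → i < N → 0 < rt i ∧ rt i ≤ i ∧ rt (rt i) = rt i) {l L : ℕ}
    (h5 : ∀ j, ((range N).filter fun i => 0 < i ∧ rt i = j ∧ ld i < l).card ≤ L) (j : ℕ) :
    zs N rt ld l j ≤ rs N rt j * L := by
  unfold zs rs
  have hsub : ((range N).filter fun i => 0 < i ∧ rt i < j ∧ ld i < l) ⊆
      ((range N).filter fun i => 0 < i ∧ rt i = i ∧ i < j).biUnion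
        fun q => (range N).filter fun i => 0 < i ∧ rt i = q ∧ ld i < l := by
    intro i hi
    simp only [mem_filter, mem_range, mem_biUnion] at hi ⊢
    obtain ⟨hiN, hi0, hij, hil⟩ := hi
    obtain ⟨a1, a2, a3⟩ := h1 i hi0 hiN
    exact ⟨rt i, ⟨by omega, a1, a3, hij⟩, hiN, hi0, rfl, hil⟩
  refine (card_le_card hsub).trans ?_
  exact card_biUnion_le_card_mul _ _ _ fun q _ => h5 q

private theorem un_nn {V : Type} [DecidableEq V] (S : ℕ → Finset V) (a : ℕ) (v : V) :
    0 ≤ Un S a v := by
  unfold Un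
  split_ifs
  · positivity
  · exact le_rfl

private theorem un_le {V : Type} [DecidableEq V] (S : ℕ → Finset V) (a : ℕ) (v : V) :
    Un S a v ≤ 1 / ((S 0).card : ℝ) := by
  unfold Un
  split_ifs
  · exact le_rfl
  · positivity

open Classical in
private theorem process {V : Type} [Fintype V] {R : V → V → Prop}
    {F : Finset (V → ℝ)} {S : ℕ → Finset V} {ℓ : ℕ} {ρ k₁ C₂ Cm ε₀ B ν M0 : ℝ}
    (hk₁ : 0 ≤ k₁) (hC : 0 ≤ C₂) (hCm : 0 ≤ Cm)
    (hε : 0 ≤ ε₀) (hB : 0 ≤ B) (hn : 2 ≤ Fintype.card V) {K l k L Δ : ℕ} (u₀ : V)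
    (hDle : ∀ x y : ℝ, 0 ≤ x → 0 ≤ y → x ≤ Fintype.card V →
      k * y ≤ 2 * Fintype.card V * L → Dd k₁ C₂ Cm ε₀ (Fintype.card V) x y ≤ ν)
    (hM00 : 0 ≤ M0) (hM0 : M0 * Real.exp B < 1)
    (hinit : Pot F (√(Fintype.card V)) (om (univ \ {u₀}) fun _ => 0)
      (Dd k₁ C₂ Cm ε₀ (Fintype.card V) 0 0) ≤ M0)
    (hstep : ∀ (A : Finset V) (Uf : V → ℝ) (δ : ℝ), (∀ v, 0 ≤ Uf v) → 0 ≤ δ → δ ≤ ν →
      QR F (om A Uf) δ → ∀ (κ : ℕ) (par a ld : ℕ → ℕ) (a₀ : ℕ), 0 < κ → κ ≤ K →
      (∀ x, 0 < x → x < κ → par x < x) → (∀ x, x < κ → a x ≤ ℓ) → a₀ ≤ ℓ → a₀ ≠ a 0 →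
      (∀ x, 0 < x → x < κ → a (par x) ≠ a x) → ld 0 = 1 →
      (∀ x, 0 < x → x < κ → ld x = ld (par x) + 1) →
      (∀ v, Uf v + ∑ x ∈ range κ, Un S (a x) v ≤ 1 - ρ) → ∀ u ∈ S a₀,
      ∃ φ : ℕ → V, (∀ x, x < κ → φ x ∈ A) ∧ Set.InjOn φ (Set.Iio κ) ∧
        (∀ x, x < κ → φ x ∈ S (a x)) ∧ Arc R (decide (a₀ < a 0)) u (φ 0) ∧
        (∀ x, 0 < x → x < κ → Arc R (decide (a (par x) < a x)) (φ (par x)) (φ x)) ∧
        Pot F (√(Fintype.card V)) (om (A \ (range κ).image φ)
            (fun v => Uf v + ∑ x ∈ range κ, Un S (a x) v))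
          (δ + k₁ / Fintype.card V *
            (C₂ * ((range κ).filter fun x => ld x < l).card + κ * (ε₀ + Cm * δ))) ≤
        Pot F (√(Fintype.card V)) (om A Uf) δ * Real.exp (B / Fintype.card V))
    (N : ℕ) (par a : ℕ → ℕ) (hN1 : 1 ≤ N) (hNn : (N : ℝ) ≤ Fintype.card V)
    (hNM : (N : ℝ) * (1 / ((S 0).card : ℝ)) ≤ 1 - ρ)
    (hpar : ∀ i, 0 < i → i < N → par i < i)
    (hle : ∀ i, i < N → a i ≤ ℓ) (hne : ∀ i, 0 < i → i < N → a (par i) ≠ a i)
    (hu₀ : u₀ ∈ S (a 0))
    (rt ld : ℕ → ℕ)
    (h1 : ∀ i, 0 < i → i < N → 0 < rt i ∧ rt i ≤ i ∧ rt (rt i) = rt i)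
    (h2 : ∀ i, 0 < i → i < N → rt i = i → ld i = 1)
    (h3 : ∀ i, 0 < i → i < N → rt i ≠ i →
        0 < par i ∧ rt (par i) = rt i ∧ ld i = ld (par i) + 1)
    (h4 : ∀ j, ((range N).filter fun i => 0 < i ∧ rt i = j).card ≤ K)
    (h5 : ∀ j, ((range N).filter fun i => 0 < i ∧ rt i = j ∧ ld i < l).card ≤ L)
    (h6 : k * ((range N).filter fun i => 0 < i ∧ rt i = i).card ≤ N + k * Δ)
    (hkΔ : k * Δ ≤ Fintype.card V) (j : ℕ) (hj : 1 ≤ j) (hjN : j ≤ N) :
    ∃ φ : ℕ → V, φ 0 = u₀ ∧ Set.InjOn φ (Bs N rt j) ∧ (∀ i ∈ Bs N rt j, φ i ∈ S (a i)) ∧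
      (∀ i, 0 < i → i < N → rt i < j → Arc R (decide (a (par i) < a i)) (φ (par i)) (φ i)) ∧
      Pot F (√(Fintype.card V)) (om (univ \ (Bs N rt j).image φ)
          (fun v => ∑ i ∈ Bp N rt j, Un S (a i) v))
        (Dd k₁ C₂ Cm ε₀ (Fintype.card V) ((Bs N rt j).card - 1 : ℕ) (zs N rt ld l j)) ≤
        M0 * Real.exp (B * rs N rt j / Fintype.card V) := by
  have hn0 : (0 : ℝ) < Fintype.card V := by
    have : (2 : ℝ) ≤ Fintype.card V := by exact_mod_cast hn
    linarith
  induction j, hj using Nat.le_induction with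
  | base =>
    have hB1 : Bs N rt 1 = {0} := by
      ext i
      simp only [Bs, mem_filter, mem_range, mem_singleton]
      constructor
      · rintro ⟨hi, rfl | h⟩
        · rfl
        · by_contra h0
          have := (h1 i (by omega) hi).1
          omega
      · rintro rfl
        exact ⟨by omega, Or.inl rfl⟩
    have hBp1 : Bp N rt 1 = ∅ := by
      ext i
      simp only [Bp, mem_filter, mem_range, notMem_empty, iff_false]
      rintro ⟨a1, a2, a3⟩
      have := (h1 i a2 a1).1
      omega
    have hz1 : zs N rt ld l 1 = 0 := by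
      unfold zs
      rw [card_eq_zero, filter_eq_empty_iff]
      rintro i hi ⟨hi0, hi1, -⟩
      have := (h1 i hi0 (mem_range.1 hi)).1
      omega
    refine ⟨fun _ => u₀, rfl, ?_, ?_, ?_, ?_⟩
    · rw [hB1]
      simp
    · intro i hi
      rw [hB1, mem_singleton] at hi
      rw [hi]
      exact hu₀
    · intro i hi0 hiN hi1
      have := (h1 i hi0 hiN).1
      omega
    · rw [hB1, hz1, hBp1]
      simp only [image_singleton, card_singleton, Nat.sub_self, Nat.cast_zero, sum_empty]
      refine hinit.trans ?_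
      have : 1 ≤ Real.exp (B * rs N rt 1 / Fintype.card V) :=
        Real.one_le_exp (by positivity)
      nlinarith
  | succ j hj ih =>
    obtain ⟨φ, f1, f2, fS, f3, f4⟩ := ih (by omega)
    by_cases hrt : rt j = j
    · -- a new piece
      obtain ⟨κ, e, e', p, q1, q2, q3, q4, q5, q6⟩ := RobT.local_number N par rt hpar h1
        (fun i a b c => ⟨(h3 i a b c).1, (h3 i a b c).2.1⟩) j (by omega) (by omega) hrt
      have hj0 : 0 < j := by omega
      have hjN' : j < N := by omega
      set δ := Dd k₁ C₂ Cm ε₀ (Fintype.card V) ((Bs N rt j).card - 1 : ℕ) (zs N rt ld l j)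
        with hδ
      have hB0 : 0 ∈ Bs N rt j := by
        simp only [Bs, mem_filter, mem_range]
        exact ⟨by omega, Or.inl trivial⟩
      have hBpos : 0 < (Bs N rt j).card := card_pos.2 ⟨0, hB0⟩
      have hBN : (Bs N rt j).card ≤ N := by
        refine (card_le_card (filter_subset _ _)).trans ?_
        simp
      have hrsle : k * rs N rt j ≤ N + k * Δ := by
        refine le_trans (Nat.mul_le_mul_left k ?_) h6
        unfold rs
        apply card_le_card
        intro i hi
        simp only [mem_filter] at hi ⊢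
        exact ⟨hi.1, hi.2.1, hi.2.2.1⟩
      have hδ0 : 0 ≤ δ := Dd_nn hk₁ hC hε hn0 (Nat.cast_nonneg _) (Nat.cast_nonneg _)
      have hδν : δ ≤ ν := by
        apply hDle
        · exact Nat.cast_nonneg _
        · exact Nat.cast_nonneg _
        · have : (Bs N rt j).card - 1 ≤ N := by omega
          have h7 : (((Bs N rt j).card - 1 : ℕ) : ℝ) ≤ N := by exact_mod_cast this
          linarith
        · have h7 := zs_le h1 h5 j
          have h8 : k * zs N rt ld l j ≤ (N + k * Δ) * L := by
            calc k * zs N rt ld l j ≤ k * (rs N rt j * L) := Nat.mul_le_mul_left k h7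
              _ = k * rs N rt j * L := by ring
              _ ≤ (N + k * Δ) * L := Nat.mul_le_mul_right L hrsle
          have h9 : ((k * zs N rt ld l j : ℕ) : ℝ) ≤ ((N + k * Δ) * L : ℕ) := by
            exact_mod_cast h8
          push_cast at h9
          have h10 : ((k : ℝ) * Δ) ≤ Fintype.card V := by exact_mod_cast hkΔ
          have h11 : ((N : ℝ) + k * Δ) * L ≤ (2 * Fintype.card V) * L := by
            apply mul_le_mul_of_nonneg_right _ (Nat.cast_nonneg _)
            linarith
          linarith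
      have hPot1 : Pot F (√(Fintype.card V)) (om (univ \ (Bs N rt j).image φ)
          (fun v => ∑ i ∈ Bp N rt j, Un S (a i) v)) δ < 1 := by
        refine lt_of_le_of_lt (f4.trans ?_) hM0
        apply mul_le_mul_of_nonneg_left _ hM00
        apply Real.exp_le_exp.2
        rw [div_le_iff₀ hn0]
        apply mul_le_mul_of_nonneg_left _ hB
        have h7 : rs N rt j ≤ N := by
          unfold rs
          refine (card_le_card (filter_subset _ _)).trans ?_
          simp
        have h8 : (rs N rt j : ℝ) ≤ N := by exact_mod_cast h7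
        linarith
      have hQR := qr_of_pot F (Real.sqrt_pos.2 hn0) _ hPot1
      have hκK : κ ≤ K := by
        rw [q2]
        exact h4 j
      set T := (range N).filter fun i => 0 < i ∧ rt i = j with hT
      have hBpu : Bp N rt (j + 1) = Bp N rt j ∪ T := by
        ext i
        simp only [Bp, hT, mem_union, mem_filter, mem_range]
        constructor
        · rintro ⟨a, b, c⟩
          rcases Nat.lt_succ_iff_lt_or_eq.1 c with c | c
          · exact Or.inl ⟨a, b, c⟩
          · exact Or.inr ⟨a, b, c⟩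
        · rintro (⟨a, b, c⟩ | ⟨a, b, c⟩)
          · exact ⟨a, b, by omega⟩
          · exact ⟨a, b, by omega⟩
      have hdisjp : Disjoint (Bp N rt j) T := by
        rw [Finset.disjoint_left]
        intro i hi hi'
        simp only [Bp, hT, mem_filter, mem_range] at hi hi'
        omega
      have hsumT : ∀ g : ℕ → ℝ, ∑ x ∈ range κ, g (e x) = ∑ i ∈ T, g i := by
        intro g
        refine sum_bij (fun x _ => e x) ?_ ?_ ?_ ?_
        · intro x hx
          obtain ⟨b4, b5, b6, b7⟩ := q4 x (mem_range.1 hx)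
          simp only [hT, mem_filter, mem_range]
          exact ⟨b5, b4, b6⟩
        · intro x hx y hy hxy
          have b7 := (q4 x (mem_range.1 hx)).2.2.2
          have b8 := (q4 y (mem_range.1 hy)).2.2.2
          rw [← b7, ← b8, hxy]
        · intro i hi
          simp only [hT, mem_filter, mem_range] at hi
          obtain ⟨c1, c2⟩ := q5 i hi.2.1 hi.1 hi.2.2
          exact ⟨e' i, mem_range.2 c1, c2⟩
        · intro x _
          rfl
      have hUnew : ∀ v, (∑ i ∈ Bp N rt j, Un S (a i) v) +
          ∑ x ∈ range κ, Un S (a (e x)) v = ∑ i ∈ Bp N rt (j + 1), Un S (a i) v := by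
        intro v
        rw [hBpu, sum_union hdisjp, hsumT fun i => Un S (a i) v]
      have hUle : ∀ v, (∑ i ∈ Bp N rt (j + 1), Un S (a i) v) ≤ 1 - ρ := by
        intro v
        refine le_trans ?_ hNM
        calc (∑ i ∈ Bp N rt (j + 1), Un S (a i) v)
            ≤ ∑ i ∈ Bp N rt (j + 1), 1 / ((S 0).card : ℝ) := sum_le_sum fun i _ => un_le S _ v
          _ = (Bp N rt (j + 1)).card * (1 / ((S 0).card : ℝ)) := by
              rw [sum_const, nsmul_eq_mul]
          _ ≤ N * (1 / ((S 0).card : ℝ)) := by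
              apply mul_le_mul_of_nonneg_right _ (by positivity)
              have : (Bp N rt (j + 1)).card ≤ N := by
                refine (card_le_card (filter_subset _ _)).trans ?_
                simp
              exact_mod_cast this
      have hparN : par j < N := (hpar j hj0 hjN').trans hjN'
      have hpjB : par j ∈ Bs N rt j := by
        simp only [Bs, mem_filter, mem_range]
        refine ⟨hparN, ?_⟩
        by_cases hp0 : par j = 0
        · exact Or.inl hp0
        · right
          have := (h1 (par j) (by omega) hparN).2.1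
          have := hpar j hj0 hjN'
          omega
      obtain ⟨g, g1, g2, gS, g3, g4, g5⟩ := hstep (univ \ (Bs N rt j).image φ)
        (fun v => ∑ i ∈ Bp N rt j, Un S (a i) v) δ
        (fun v => sum_nonneg fun i _ => un_nn S _ v) hδ0 hδν
        hQR κ p (fun x => a (e x)) (fun x => ld (e x)) (a (par j)) q1 hκK
        (fun x a b => (q6 x a b).1)
        (fun x hx => hle _ (q4 x hx).2.1) (hle _ hparN)
        (by
          simp only [q3]
          exact hne j hj0 hjN')
        (by
          intro x a b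
          obtain ⟨b1, b2, b3⟩ := q6 x a b
          obtain ⟨b4, b5, b6, b7⟩ := q4 x b
          simp only [b2]
          exact hne (e x) b4 b5)
        (by simp only [q3]; exact h2 j hj0 hjN' hrt)
        (by
          intro x a b
          obtain ⟨b1, b2, b3⟩ := q6 x a b
          obtain ⟨b4, b5, b6, b7⟩ := q4 x b
          simp only [b2]
          exact (h3 (e x) b4 b5 b3).2.2)
        (fun v => by
          rw [hUnew]
          exact hUle v)
        (φ (par j)) (fS _ hpjB)
      -- the new map
      let φ' : ℕ → V := fun i => if 0 < i ∧ i < N ∧ rt i = j then g (e' i) else φ i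
      have hφ'old : ∀ i, ¬ (0 < i ∧ i < N ∧ rt i = j) → φ' i = φ i := fun i hi => if_neg hi
      have hφ'new : ∀ i, 0 < i → i < N → rt i = j → φ' i = g (e' i) :=
        fun i a b c => if_pos ⟨a, b, c⟩
      have hBold : ∀ i ∈ Bs N rt j, φ' i = φ i := by
        intro i hi
        apply hφ'old
        rintro ⟨a, b, c⟩
        simp only [Bs, mem_filter, mem_range] at hi
        rcases hi.2 with h | h
        · omega
        · omega
      have hBu : Bs N rt (j + 1) = Bs N rt j ∪ T := by
        ext i
        simp only [Bs, hT, mem_union, mem_filter, mem_range]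
        constructor
        · rintro ⟨a, b⟩
          by_cases h0 : i = 0
          · exact Or.inl ⟨a, Or.inl h0⟩
          · rcases b with b | b
            · exact absurd b h0
            · rcases Nat.lt_succ_iff_lt_or_eq.1 b with b | b
              · exact Or.inl ⟨a, Or.inr b⟩
              · exact Or.inr ⟨a, by omega, b⟩
        · rintro (⟨a, b⟩ | ⟨a, b, c⟩)
          · exact ⟨a, b.imp id (fun h => by omega)⟩
          · exact ⟨a, Or.inr (by omega)⟩
      have hdisj : Disjoint (Bs N rt j) T := by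
        rw [Finset.disjoint_left]
        intro i hi hi'
        simp only [Bs, hT, mem_filter, mem_range] at hi hi'
        rcases hi.2 with h | h
        · omega
        · omega
      have hTcard : T.card = κ := q2.symm
      have hBc : (Bs N rt (j + 1)).card = (Bs N rt j).card + κ := by
        rw [hBu, card_union_of_disjoint hdisj, hTcard]
      have himT : T.image φ' = (range κ).image g := by
        ext v
        simp only [mem_image, hT, mem_filter, mem_range]
        constructor
        · rintro ⟨i, ⟨a, b, c⟩, rfl⟩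
          exact ⟨e' i, (q5 i b a c).1, (hφ'new i b a c).symm⟩
        · rintro ⟨x, hx, rfl⟩
          obtain ⟨b4, b5, b6, b7⟩ := q4 x hx
          exact ⟨e x, ⟨b5, b4, b6⟩, by rw [hφ'new _ b4 b5 b6, b7]⟩
      have himB : (Bs N rt (j + 1)).image φ' = (Bs N rt j).image φ ∪ (range κ).image g := by
        rw [hBu, image_union, himT]
        congr 1
        exact image_congr fun i hi => hBold i (by exact_mod_cast hi)
      have hzs : zs N rt ld l (j + 1) = zs N rt ld l j +
          ((range κ).filter fun x => ld (e x) < l).card := by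
        have e1 : ((range N).filter fun i => 0 < i ∧ rt i < j + 1 ∧ ld i < l) =
            ((range N).filter fun i => 0 < i ∧ rt i < j ∧ ld i < l) ∪
            (((range κ).filter fun x => ld (e x) < l).image e) := by
          ext i
          simp only [mem_union, mem_filter, mem_range, mem_image]
          constructor
          · rintro ⟨a, b, c, d⟩
            rcases Nat.lt_succ_iff_lt_or_eq.1 c with c | c
            · exact Or.inl ⟨a, b, c, d⟩
            · right
              obtain ⟨c1, c2⟩ := q5 i b a c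
              exact ⟨e' i, ⟨c1, by rw [c2]; exact d⟩, c2⟩
          · rintro (⟨a, b, c, d⟩ | ⟨x, ⟨a, b⟩, rfl⟩)
            · exact ⟨a, b, by omega, d⟩
            · obtain ⟨b4, b5, b6, b7⟩ := q4 x a
              exact ⟨b5, b4, by omega, b⟩
        unfold zs
        rw [e1, card_union_of_disjoint, card_image_of_injOn]
        · intro x hx y hy hxy
          simp only [coe_filter, mem_range, Set.mem_ofPred_eq] at hx hy
          have b7 := (q4 x hx.1).2.2.2
          have b8 := (q4 y hy.1).2.2.2
          rw [← b7, ← b8, hxy]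
        · rw [Finset.disjoint_left]
          intro i hi hi'
          simp only [mem_filter, mem_range, mem_image] at hi hi'
          obtain ⟨x, ⟨a, b⟩, rfl⟩ := hi'
          have := (q4 x a).2.2.1
          omega
      have hrs : rs N rt (j + 1) = rs N rt j + 1 := by
        have e1 : ((range N).filter fun i => 0 < i ∧ rt i = i ∧ i < j + 1) =
            insert j ((range N).filter fun i => 0 < i ∧ rt i = i ∧ i < j) := by
          ext i
          simp only [mem_insert, mem_filter, mem_range]
          constructor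
          · rintro ⟨a, b, c, d⟩
            by_cases h : i = j
            · exact Or.inl h
            · exact Or.inr ⟨a, b, c, by omega⟩
          · rintro (rfl | ⟨a, b, c, d⟩)
            · exact ⟨hjN', hj0, hrt, by omega⟩
            · exact ⟨a, b, c, by omega⟩
        unfold rs
        rw [e1, card_insert_of_notMem]
        simp
      refine ⟨φ', ?_, ?_, ?_, ?_, ?_⟩
      · rw [hφ'old 0 (by omega), f1]
      · -- injectivity
        have key : ∀ i ∈ Bs N rt j, ∀ i' ∈ T, φ' i ≠ φ' i' := by
          intro i hi i' hi' heq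
          have c1 : φ' i ∈ (Bs N rt j).image φ := by
            rw [hBold i hi]
            exact mem_image_of_mem _ hi
          have c2 : φ' i' ∈ (range κ).image g := by
            rw [← himT]
            exact mem_image_of_mem _ hi'
          obtain ⟨x, hx, hx'⟩ := mem_image.1 c2
          have c3 := g1 x (mem_range.1 hx)
          rw [hx', ← heq] at c3
          exact (mem_sdiff.1 c3).2 c1
        rw [hBu]
        intro a ha b hb hab
        simp only [coe_union, Set.mem_union, mem_coe] at ha hb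
        rcases ha with ha | ha <;> rcases hb with hb | hb
        · rw [hBold a ha, hBold b hb] at hab
          exact f2 ha hb hab
        · exact absurd hab (key a ha b hb)
        · exact absurd hab.symm (key b hb a ha)
        · simp only [hT, mem_filter, mem_range] at ha hb
          rw [hφ'new a ha.2.1 ha.1 ha.2.2, hφ'new b hb.2.1 hb.1 hb.2.2] at hab
          have d1 := q5 a ha.2.1 ha.1 ha.2.2
          have d2 := q5 b hb.2.1 hb.1 hb.2.2
          have d3 := g2 (Set.mem_Iio.2 d1.1) (Set.mem_Iio.2 d2.1) hab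
          rw [← d1.2, ← d2.2, d3]
      · -- layers
        intro i hi
        rw [hBu, mem_union] at hi
        rcases hi with hi | hi
        · rw [hBold i hi]
          exact fS i hi
        · simp only [hT, mem_filter, mem_range] at hi
          rw [hφ'new i hi.2.1 hi.1 hi.2.2]
          have d1 := q5 i hi.2.1 hi.1 hi.2.2
          have := gS _ d1.1
          simp only [d1.2] at this
          exact this
      · -- arcs
        intro i hi0 hiN hij
        have hparmem : rt i < j → par i ∈ Bs N rt j := by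
          intro hlt
          simp only [Bs, mem_filter, mem_range]
          refine ⟨(hpar i hi0 hiN).trans hiN, ?_⟩
          by_cases hp0 : par i = 0
          · exact Or.inl hp0
          · right
            by_cases hri : rt i = i
            · have := (h1 (par i) (by omega) ((hpar i hi0 hiN).trans hiN)).2.1
              have := hpar i hi0 hiN
              omega
            · rw [(h3 i hi0 hiN hri).2.1]
              exact hlt
        rcases Nat.lt_succ_iff_lt_or_eq.1 hij with hlt | heq
        · have c1 : i ∈ Bs N rt j := by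
            simp only [Bs, mem_filter, mem_range]
            exact ⟨hiN, Or.inr hlt⟩
          rw [hBold i c1, hBold _ (hparmem hlt)]
          exact f3 i hi0 hiN hlt
        · obtain ⟨c1, c2⟩ := q5 i hi0 hiN heq
          by_cases hx0 : e' i = 0
          · have hij' : i = j := by
              rw [← c2, hx0, q3]
            subst hij'
            rw [hφ'new i hi0 hiN heq, hBold _ hpjB, hx0]
            simp only [q3] at g3
            exact g3
          · obtain ⟨d1, d2, d3⟩ := q6 (e' i) (by omega) c1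
            rw [c2] at d2 d3
            obtain ⟨b4, b5, b6, b7⟩ := q4 (p (e' i)) (d1.trans c1)
            rw [d2] at b4 b5 b6 b7
            rw [hφ'new i hi0 hiN heq, hφ'new (par i) b4 b5 b6, b7]
            have := g4 (e' i) (by omega) c1
            simp only [c2, d2] at this
            exact this
      · -- potential
        have e1 : (univ : Finset V) \ (Bs N rt (j + 1)).image φ' =
            (univ \ (Bs N rt j).image φ) \ (range κ).image g := by
          rw [himB, sdiff_sdiff_left]
          rfl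
        have e0 : (fun v => ∑ i ∈ Bp N rt (j + 1), Un S (a i) v) =
            fun v => (∑ i ∈ Bp N rt j, Un S (a i) v) + ∑ x ∈ range κ, Un S (a (e x)) v :=
          funext fun v => (hUnew v).symm
        rw [e1, e0]
        have e2 : Dd k₁ C₂ Cm ε₀ (Fintype.card V) ((Bs N rt (j + 1)).card - 1 : ℕ)
            (zs N rt ld l (j + 1)) = Dd k₁ C₂ Cm ε₀ (Fintype.card V)
              (((Bs N rt j).card - 1 : ℕ) + (κ : ℝ))
              ((zs N rt ld l j : ℝ) + ((range κ).filter fun x => ld (e x) < l).card) := by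
          rw [hzs, hBc]
          congr 1
          · rw [show (Bs N rt j).card + κ - 1 = ((Bs N rt j).card - 1) + κ by omega]
            push_cast
            ring
          · push_cast
            ring
        rw [e2]
        have e3 := Dd_step (n := (Fintype.card V : ℝ)) (k₁ := k₁) (C₂ := C₂) (Cm := Cm)
          (ε₀ := ε₀) hk₁ hC hCm hε hn0
          (x := (((Bs N rt j).card - 1 : ℕ) : ℝ)) (y := (zs N rt ld l j : ℝ)) (κ := (κ : ℝ))
          (z := (((range κ).filter fun x => ld (e x) < l).card : ℝ)) (Nat.cast_nonneg _)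
          (Nat.cast_nonneg _) (Nat.cast_nonneg _) (Nat.cast_nonneg _)
        refine (pot_mono F (Real.sqrt_nonneg _) _ e3).trans ?_
        refine g5.trans ?_
        refine (mul_le_mul_of_nonneg_right f4 (Real.exp_pos _).le).trans ?_
        rw [mul_assoc, ← Real.exp_add, hrs]
        apply le_of_eq
        congr 2
        push_cast
        field_simp
    · -- nothing new
      have hno : ∀ i, 0 < i → i < N → rt i ≠ j := by
        intro i hi0 hiN h
        have := (h1 i hi0 hiN).2.2
        rw [h] at this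
        exact hrt this
      have hBeq : Bs N rt (j + 1) = Bs N rt j := by
        unfold Bs
        apply filter_congr
        intro i hi
        have hiN := mem_range.1 hi
        constructor
        · rintro (h | h)
          · exact Or.inl h
          · by_cases h0 : i = 0
            · exact Or.inl h0
            · have := hno i (by omega) hiN
              exact Or.inr (by omega)
        · rintro (h | h)
          · exact Or.inl h
          · exact Or.inr (by omega)
      have hBpeq : Bp N rt (j + 1) = Bp N rt j := by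
        unfold Bp
        apply filter_congr
        intro i hi
        have hiN := mem_range.1 hi
        constructor
        · rintro ⟨a, b⟩
          have := hno i a hiN
          exact ⟨a, by omega⟩
        · rintro ⟨a, b⟩
          exact ⟨a, by omega⟩
      have hzeq : zs N rt ld l (j + 1) = zs N rt ld l j := by
        unfold zs
        congr 1
        apply filter_congr
        intro i hi
        have hiN := mem_range.1 hi
        constructor
        · rintro ⟨a, b, c⟩
          have := hno i a hiN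
          exact ⟨a, by omega, c⟩
        · rintro ⟨a, b, c⟩
          exact ⟨a, by omega, c⟩
      have hreq : rs N rt (j + 1) = rs N rt j := by
        unfold rs
        congr 1
        apply filter_congr
        intro i hi
        have hiN := mem_range.1 hi
        constructor
        · rintro ⟨a, b, c⟩
          have := hno i a hiN
          exact ⟨a, b, by omega⟩
        · rintro ⟨a, b, c⟩
          exact ⟨a, b, by omega⟩
      refine ⟨φ, f1, ?_, ?_, ?_, ?_⟩
      · rw [hBeq]
        exact f2
      · rw [hBeq]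
        exact fS
      · intro i hi0 hiN h
        have := hno i hi0 hiN
        exact f3 i hi0 hiN (by omega)
      · rw [hBeq, hzeq, hreq, hBpeq]
        exact f4

private theorem ev_consts (Cf B E₀ ν : ℝ) (hC : 0 ≤ Cf) (hν : 0 < ν)
    (n₁ n₂ kΔ : ℕ) : ∃ n₀ : ℕ, ∀ n : ℕ, n₀ ≤ n → n₁ ≤ n ∧ n₂ ≤ n ∧ 2 ≤ n ∧
      E₀ * (1 / √(√(n : ℝ))) ≤ ν / 3 ∧ kΔ ≤ n ∧
      2 * Cf * (n : ℝ) ^ 2 * Real.exp (√(n : ℝ) * (Cf / n - 1 / √(√(n : ℝ)))) *
        Real.exp B < 1 := by
  have h2 : Filter.Tendsto (fun n : ℕ => √(√(n : ℝ))) Filter.atTop Filter.atTop :=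
    Real.tendsto_sqrt_atTop.comp (Real.tendsto_sqrt_atTop.comp tendsto_natCast_atTop_atTop)
  have h3 : Filter.Tendsto (fun n : ℕ => E₀ * (1 / √(√(n : ℝ)))) Filter.atTop (nhds 0) := by
    have h4 := (tendsto_inv_atTop_zero.comp h2).const_mul E₀
    rw [mul_zero] at h4
    refine h4.congr fun n => ?_
    simp
  have e3 : ∀ᶠ n : ℕ in Filter.atTop, E₀ * (1 / √(√(n : ℝ))) ≤ ν / 3 :=
    (h3.eventually (gt_mem_nhds (show (0 : ℝ) < ν / 3 by positivity))).mono
      fun n hn => le_of_lt hn
  have all := (Filter.eventually_ge_atTop n₁).and ((Filter.eventually_ge_atTop n₂).and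
    ((Filter.eventually_ge_atTop 2).and
    (e3.and ((Filter.eventually_ge_atTop kΔ).and (ev_exp Cf B hC)))))
  obtain ⟨n₀, h⟩ := Filter.eventually_atTop.1 all
  exact ⟨n₀, fun n hn => h n hn⟩

/-- Graded trees with at most `(1 - ρ) |V|` vertices: the root can be any vertex outside a small
exceptional set. -/
theorem near_spanning (ρ : ℝ) (ℓ Δ : ℕ) (hρ : 0 < ρ) :
    ∃ n₀ : ℕ, ∀ (V : Type) [Fintype V] [DecidableEq V] (R : V → V → Prop),
      n₀ ≤ Fintype.card V → IsTour R → ∃ X : Finset V, (X.card : ℝ) ≤ ρ * Fintype.card V ∧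
      ∀ (N : ℕ) (par a : ℕ → ℕ), (N : ℝ) ≤ (1 - ρ) * Fintype.card V →
      GT ℓ N Δ par a → ∀ u₀, u₀ ∉ X →
      ∃ φ : ℕ → V, φ 0 = u₀ ∧ Set.InjOn φ (Set.Iio N) ∧
        ∀ i, 0 < i → i < N → Arc R (decide (a (par i) < a i)) (φ (par i)) (φ i) := by
  classical
  set ρ₁ := min ρ 1 with hρ₁
  have hρ10 : 0 < ρ₁ := lt_min hρ one_pos
  have hρ11 : ρ₁ ≤ 1 := min_le_right _ _
  have hρ1ρ : ρ₁ ≤ ρ := min_le_left _ _
  set ρ₂ := ρ₁ / 2 with hρ₂
  have hρ20 : 0 < ρ₂ := by positivity
  obtain ⟨δ, n₁, hδ, hδ1, hlay⟩ := layers ℓ ρ₂ hρ20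
  have hδ1' : δ ≤ 1 := hδ1.trans (by norm_num)
  set C := 2 / δ with hC
  have hC1 : 1 ≤ C := by
    rw [hC, le_div_iff₀ hδ]
    linarith
  obtain ⟨Lw, ν, Cm, hν0, hν4, hCm, hmix⟩ := mixing δ hδ hδ1'
  obtain ⟨Cf, hCf, htest⟩ := exists_tests ℓ Lw C hC1
  set k₁ := Cf / ρ₂ ^ 2 with hk₁
  have hk₁0 : 0 < k₁ := by positivity
  set E₀ := Real.exp (k₁ * Cm) with hE₀
  have hE0 : 0 < E₀ := Real.exp_pos _
  set ε₀ := ν / (3 * E₀ * k₁) with hε₀
  have hε0 : 0 < ε₀ := by positivity
  obtain ⟨l, hmix⟩ := hmix ε₀ hε0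
  set L := (Δ + 1) ^ l with hL
  obtain ⟨k, hk⟩ := exists_nat_ge (max 1 (6 * E₀ * k₁ * (2 * C) * (L : ℕ) / ν))
  have hk1 : (1 : ℝ) ≤ k := (le_max_left _ _).trans hk
  have hk1' : 1 ≤ k := by exact_mod_cast hk1
  have hk2 : 6 * E₀ * k₁ * (2 * C) * (L : ℕ) ≤ ν * k := by
    have := (le_max_right _ _).trans hk
    rw [div_le_iff₀ hν0] at this
    linarith
  set K := (Δ + 1) ^ k with hK
  obtain ⟨B, n₂, hB, hstep⟩ := step C Cf ρ₂ Cm ε₀ K l hC1 hCf hρ20 (by linarith) hCm hε0.le
  obtain ⟨n₀, hn₀⟩ := ev_consts Cf B E₀ ν (by linarith) hν0 n₁ n₂ (k * Δ)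
  refine ⟨n₀, ?_⟩
  intro V _ dV R hn hR
  obtain ⟨a1, a2, a3, a4, a5, a6⟩ := hn₀ _ hn
  have hdec : dV = fun a b => Classical.propDecidable (a = b) := Subsingleton.elim _ _
  subst hdec
  have hn2 : (2 : ℝ) ≤ Fintype.card V := by exact_mod_cast a3
  have hn0 : (0 : ℝ) < Fintype.card V := by linarith
  have hnpos : 0 < Fintype.card V := by omega
  obtain ⟨S, Kc, r, hLay⟩ := hlay V R a1 hR
  obtain ⟨Q, hQ⟩ := exists_KE hLay hδ hδ1' hnpos
  obtain ⟨F, hF⟩ := htest V R δ S Q hnpos hQ
  have hKc : ((Kcᶜ).card : ℝ) = Fintype.card V - Kc.card := by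
    rw [card_compl, Nat.cast_sub (card_le_univ Kc)]
  have hS0 : (1 - ρ₂) * Fintype.card V ≤ ((S 0).card : ℝ) := by
    have h1 := hLay.small
    rw [hKc] at h1
    have h2 : (Kc.card : ℝ) ≤ (S 0).card := by
      exact_mod_cast card_le_card (hLay.core 0 (Nat.zero_le _))
    linarith
  have hM2 : (Fintype.card V : ℝ) / 2 ≤ (S 0).card := by
    refine le_trans ?_ hS0
    have : ρ₂ ≤ 1 / 2 := by
      rw [hρ₂]
      linarith
    nlinarith
  have hS0pos : (0 : ℝ) < (S 0).card := by linarith
  refine ⟨Kcᶜ, ?_, ?_⟩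
  · refine hLay.small.trans ?_
    apply mul_le_mul_of_nonneg_right _ hn0.le
    rw [hρ₂]
    linarith
  intro N par a hN hGT u₀ hu₀
  have hu₀K : u₀ ∈ Kc := by
    by_contra h
    exact hu₀ (mem_compl.2 h)
  rcases Nat.eq_zero_or_pos N with hN0 | hN1
  · subst hN0
    refine ⟨fun _ => u₀, rfl, ?_, ?_⟩
    · intro a ha
      simp at ha
    · intro i _ hi
      omega
  have hN' : (N : ℝ) ≤ (1 - ρ₁) * Fintype.card V := by
    refine hN.trans ?_
    apply mul_le_mul_of_nonneg_right _ hn0.le
    linarith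
  obtain ⟨rt, ld, b1, b2, b3, b4, b5, b6⟩ := RobT.pieces Δ k N par hGT.rt hk1'
  set M0 := 2 * Cf * (Fintype.card V : ℝ) ^ 2 *
    Real.exp (√(Fintype.card V) * (Cf / Fintype.card V - 1 / √(√(Fintype.card V)))) with hM0
  have hinit : Pot F (√(Fintype.card V)) (om (univ \ {u₀}) fun _ => 0)
      (Dd k₁ (2 * C) Cm ε₀ (Fintype.card V) 0 0) ≤ M0 := by
    have : Dd k₁ (2 * C) Cm ε₀ (Fintype.card V) 0 0 = 1 / √(√(Fintype.card V)) := by
      unfold Dd
      simp
    rw [this]
    exact pot_init hF.card hF.nn hF.up u₀ _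
  obtain ⟨φ, f1, f2, fS, f3, f4⟩ := process (R := R) (F := F) (S := S) (ℓ := ℓ) (ρ := ρ₂)
    (k₁ := k₁) (C₂ := 2 * C) (Cm := Cm)
    (ε₀ := ε₀) (B := B) (ν := ν) (M0 := M0) hk₁0.le (by positivity) hCm hε0.le hB a3
    (K := K) (l := l) (k := k) (L := L) (Δ := Δ) u₀
    (fun x y hx hy hxn hyn => Dd_le hk₁0 (by positivity) hCm hε0.le hn0 (by linarith)
      (by
        rw [← hE₀, hε₀]
        apply le_of_eq
        field_simp)
      hk2 a4 hx hy hxn hyn)
    (by positivity) a6 hinit
    (fun A Uf δ' hU hδ0 hδν hQR κ par' a' ld' a₀ e1 e2 e3 e4 e5 e6 e7 e8 e9 e10 u hu => by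
      have hUlt : ∀ v, Uf v < 1 := by
        intro v
        have h := e10 v
        have h' : 0 ≤ ∑ x ∈ range κ, Un S (a' x) v := sum_nonneg fun i _ => un_nn S _ v
        linarith
      have hω : ∀ v, 0 ≤ om A Uf v := by
        intro v
        unfold om
        split_ifs
        · have := hUlt v
          exact div_nonneg zero_le_one (by linarith)
        · exact le_rfl
      have hSK := qw_SK hQ (by linarith) hF hω (hδν.trans hν4) hQR
      have hWP := hmix V R ℓ ρ₂ Cf S Kc r Q F hnpos hLay hQ hF hM2 (om A Uf) δ' hω hδ0 hδν hQR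
      obtain ⟨φ, g1, g2, g3, g4, g5, g6⟩ := hstep V R ℓ δ S Q F a2 hQ hM2 hF.nn hF.up hF.sum
        A Uf δ' hU hδ0 hSK hWP κ par' a' ld' a₀ e1 e2 e3 e4 e5 e6 e7 e8 e9 e10 u hu
      refine ⟨φ, g1, g2, g3, g4, g5, ?_⟩
      have e : Cf / (ρ₂ ^ 2 * (Fintype.card V : ℝ)) = k₁ / Fintype.card V := by
        rw [hk₁]
        field_simp
      rw [e] at g6
      exact g6)
    N par a hN1 (by
      refine hN'.trans ?_
      nlinarith)
    (by
      rw [mul_one_div, div_le_iff₀ hS0pos]
      refine hN'.trans ?_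
      have h1 : (1 - ρ₂) * ((1 - ρ₂) * Fintype.card V) ≤ (1 - ρ₂) * (S 0).card := by
        apply mul_le_mul_of_nonneg_left hS0
        rw [hρ₂]
        linarith
      refine le_trans ?_ h1
      have h2 : (1 - ρ₁) ≤ (1 - ρ₂) * (1 - ρ₂) := by
        rw [hρ₂]
        nlinarith
      have h3 := mul_le_mul_of_nonneg_right h2 hn0.le
      linarith)
    hGT.rt.lt hGT.le hGT.ne (hLay.core _ (hGT.le 0 hN1) hu₀K) rt ld b1 b2 b3 b4
    (fun j => b5 j l) b6 a5 N hN1 le_rfl
  refine ⟨φ, f1, ?_, ?_⟩
  · intro a ha b hb hab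
    have hmem : ∀ i, i < N → i ∈ Bs N rt N := by
      intro i hi
      simp only [Bs, mem_filter, mem_range]
      refine ⟨hi, ?_⟩
      by_cases h0 : i = 0
      · exact Or.inl h0
      · exact Or.inr (lt_of_le_of_lt (b1 i (by omega) hi).2.1 hi)
    exact f2 (by exact_mod_cast hmem a (Set.mem_Iio.1 ha))
      (by exact_mod_cast hmem b (Set.mem_Iio.1 hb)) hab
  · intro i hi0 hiN
    exact f3 i hi0 hiN (lt_of_le_of_lt (b1 i hi0 hiN).2.1 hiN)

end Pool.Agent.Lib.TourE
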