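import Pool.Agent.Lib.TourE.Defs

/-!
# Sw: random maps with independent steps (about 220 lines)

Compare RobT/Sw.lean (`Wt_nn, Wt_sum, Wt_marg, Wt_coll, Wt_pos`); here the kernels `q x` are
arbitrary.  `T x` is a set which contains the support of `q x u`, the row sums are `1` for
`u ∈ T (par x)` (for `x = 0`: for the vertex `u₀`).
`Wq_supp`: a product is nonzero iff all factors are.  So `Wq … φ ≠ 0` implies `φ x ∈ T x`, hence
`prv κ par u₀ φ x ∈ T (par x)` for `x > 0`, and `prv κ par u₀ φ 0 = u₀`.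
`Wq_step` (the main lemma): let `H : (Fin κ → V) → ℝ` depend only on the coordinates `≤ x`.  Then
`∑ φ, Wq φ H φ = ∑ φ, Wq φ (∑ v, q x (prv κ par u₀ φ x) v H (Function.update φ x v))`.
Proof: first `x` the last coordinate (`κ = x + 1`): split `φ` into the restriction and the last
value
(`Fin.snocEquiv`/`Fin.consEquiv`, as in RobT/Sw.lean; `prv` of a coordinate `y ≤ x` depends only on
coordinates `< y`), and use that the row sum is `1` whenever the product of the other factors is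
nonzero.  General `κ`: induction on `κ`; the last coordinate `y > x` can be summed out of
`∑ φ, Wq φ H' φ` for every `H'` which does not depend on it (row sum `1` again), for both sides.
`Wq_sum`: sum out the coordinates one after the other.
`Wq_coll`: for `x < y` (as elements of `Fin κ`) apply `Wq_step` for `y`, `H φ = 1` if `φ x = φ y`:
the inner sum is `q y (prv …) (φ x) ≤ B`.
-/

namespace Pool.Agent.Lib.TourE

open Finset
open Pool.Agent.Lib.RobT (IsTour Arc eN Nb RT)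

/-- The probability of the map `φ`. -/
def Wq {V : Type} (q : ℕ → V → V → ℝ) (κ : ℕ) (par : ℕ → ℕ) (u₀ : V) (φ : Fin κ → V) : ℝ :=
  ∏ x : Fin κ, q x (RobT.prv κ par u₀ φ x) (φ x)

/-- The conditions on the kernels. -/
structure QK {V : Type} [Fintype V] (q : ℕ → V → V → ℝ) (κ : ℕ) (par : ℕ → ℕ)
    (T : ℕ → Finset V) (u₀ : V) (B : ℝ) : Prop where
  lt : ∀ x, 0 < x → x < κ → par x < x
  nn : ∀ x u v, 0 ≤ q x u v
  up : ∀ x u v, q x u v ≤ B
  sup : ∀ x u v, q x u v ≠ 0 → v ∈ T x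
  row0 : ∑ v, q 0 u₀ v = 1
  row : ∀ x, 0 < x → x < κ → ∀ u ∈ T (par x), ∑ v, q x u v = 1

private theorem Sw_ext_lt {V : Type} (κ : ℕ) (u : V) (φ : Fin κ → V) (i : ℕ) (h : i < κ) :
    RobT.ext κ u φ i = φ ⟨i, h⟩ := by
  unfold RobT.ext
  rw [dif_pos h]

private theorem Sw_ext_snoc {V : Type} (κ : ℕ) (u : V) (φ : Fin κ → V) (v : V) (i : ℕ)
    (h : i < κ) :
    RobT.ext (κ + 1) u (Fin.snoc φ v : Fin (κ + 1) → V) i = RobT.ext κ u φ i := by
  rw [Sw_ext_lt κ u φ i h, Sw_ext_lt (κ + 1) u _ i (by omega)]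
  have e : (⟨i, by omega⟩ : Fin (κ + 1)) = Fin.castSucc ⟨i, h⟩ := rfl
  rw [e, Fin.snoc_castSucc]

private def Sw_pl {V : Type} (κ : ℕ) (par : ℕ → ℕ) (u : V) (φ : Fin κ → V) : V :=
  if κ = 0 then u else RobT.ext κ u φ (par κ)

private theorem Sw_prv_cast {V : Type} (κ : ℕ) (par : ℕ → ℕ) (u : V) (φ : Fin κ → V) (v : V)
    (hpar : ∀ x, 0 < x → x < κ + 1 → par x < x) (x : Fin κ) :
    RobT.prv (κ + 1) par u (Fin.snoc φ v : Fin (κ + 1) → V) x.castSucc =
      RobT.prv κ par u φ x := by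
  unfold RobT.prv
  rw [Fin.val_castSucc]
  by_cases h : (x : ℕ) = 0
  · rw [if_pos h, if_pos h]
  · rw [if_neg h, if_neg h]
    refine Sw_ext_snoc κ u φ v _ ?_
    have h1 := hpar x (by omega) (by omega)
    omega

private theorem Sw_prv_last {V : Type} (κ : ℕ) (par : ℕ → ℕ) (u : V) (φ : Fin κ → V) (v : V)
    (hpar : ∀ x, 0 < x → x < κ + 1 → par x < x) :
    RobT.prv (κ + 1) par u (Fin.snoc φ v : Fin (κ + 1) → V) (Fin.last κ) =
      Sw_pl κ par u φ := by
  unfold RobT.prv Sw_pl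
  rw [Fin.val_last]
  by_cases h : κ = 0
  · rw [if_pos h, if_pos h]
  · rw [if_neg h, if_neg h]
    refine Sw_ext_snoc κ u φ v _ ?_
    exact hpar κ (by omega) (by omega)

private theorem Sw_snoc {V : Type} (q : ℕ → V → V → ℝ) (κ : ℕ) (par : ℕ → ℕ)
    (hpar : ∀ x, 0 < x → x < κ + 1 → par x < x) (u : V) (φ : Fin κ → V) (v : V) :
    Wq q (κ + 1) par u (Fin.snoc φ v : Fin (κ + 1) → V) =
      Wq q κ par u φ * q κ (Sw_pl κ par u φ) v := by
  unfold Wq
  rw [Fin.prod_univ_castSucc]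
  congr 1
  · refine Finset.prod_congr rfl fun x _ => ?_
    rw [Sw_prv_cast κ par u φ v hpar x, Fin.snoc_castSucc, Fin.val_castSucc]
  · rw [Sw_prv_last κ par u φ v hpar, Fin.snoc_last, Fin.val_last]

private theorem Sw_sum_snoc {V : Type} [Fintype V] [DecidableEq V] (κ : ℕ)
    (f : (Fin (κ + 1) → V) → ℝ) :
    ∑ φ : Fin (κ + 1) → V, f φ =
      ∑ φ : Fin κ → V, ∑ v : V, f (Fin.snoc φ v : Fin (κ + 1) → V) := by
  rw [← Equiv.sum_comp (Fin.snocEquiv (fun _ => V)), Fintype.sum_prod_type_right]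
  rfl

private theorem Sw_stp {V : Type} [Fintype V] [DecidableEq V] (q : ℕ → V → V → ℝ) (κ : ℕ)
    (par : ℕ → ℕ) (hpar : ∀ x, 0 < x → x < κ + 1 → par x < x) (u : V)
    (G : (Fin (κ + 1) → V) → ℝ) :
    ∑ φ : Fin (κ + 1) → V, Wq q (κ + 1) par u φ * G φ =
      ∑ φ : Fin κ → V, Wq q κ par u φ *
        ∑ v : V, q κ (Sw_pl κ par u φ) v * G (Fin.snoc φ v : Fin (κ + 1) → V) := by
  rw [Sw_sum_snoc]
  refine Finset.sum_congr rfl fun φ _ => ?_
  rw [Finset.mul_sum]
  refine Finset.sum_congr rfl fun v _ => ?_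
  rw [Sw_snoc q κ par hpar u φ v, mul_assoc]

private theorem Sw_mono {V : Type} [Fintype V] {q : ℕ → V → V → ℝ} {κ : ℕ} {par : ℕ → ℕ}
    {T : ℕ → Finset V} {u₀ : V} {B : ℝ} (h : QK q (κ + 1) par T u₀ B) :
    QK q κ par T u₀ B :=
  ⟨fun x h0 hx => h.lt x h0 (by omega), h.nn, h.up, h.sup, h.row0,
    fun x h0 hx => h.row x h0 (by omega)⟩

private theorem Sw_supp {V : Type} {q : ℕ → V → V → ℝ} {κ : ℕ} {par : ℕ → ℕ} {u₀ : V}
    (φ : Fin κ → V) (hφ : Wq q κ par u₀ φ ≠ 0) (x : Fin κ) :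
    q x (RobT.prv κ par u₀ φ x) (φ x) ≠ 0 := by
  unfold Wq at hφ
  exact Finset.prod_ne_zero_iff.1 hφ x (Finset.mem_univ x)

private theorem Sw_const {V : Type} [Fintype V] [DecidableEq V] {q : ℕ → V → V → ℝ} {κ : ℕ}
    {par : ℕ → ℕ} {T : ℕ → Finset V} {u₀ : V} {B : ℝ} (h : QK q (κ + 1) par T u₀ B)
    (G : (Fin (κ + 1) → V) → ℝ)
    (F : (Fin κ → V) → ℝ) (hG : ∀ φ v, G (Fin.snoc φ v : Fin (κ + 1) → V) = F φ) :
    ∑ φ : Fin (κ + 1) → V, Wq q (κ + 1) par u₀ φ * G φ =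
      ∑ φ : Fin κ → V, Wq q κ par u₀ φ * F φ := by
  rw [Sw_stp q κ par h.lt u₀ G]
  refine Finset.sum_congr rfl fun φ _ => ?_
  by_cases hφ : Wq q κ par u₀ φ = 0
  · rw [hφ, zero_mul, zero_mul]
  congr 1
  simp only [hG]
  rw [← Finset.sum_mul]
  have hrow : ∑ v, q κ (Sw_pl κ par u₀ φ) v = 1 := by
    unfold Sw_pl
    by_cases hκ : κ = 0
    · subst hκ
      rw [if_pos rfl]
      exact h.row0
    · rw [if_neg hκ]
      have hp : par κ < κ := h.lt κ (by omega) (by omega)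
      rw [Sw_ext_lt κ u₀ φ _ hp]
      refine h.row κ (by omega) (by omega) _ ?_
      exact h.sup _ _ _ (Sw_supp φ hφ ⟨par κ, hp⟩)
  rw [hrow, one_mul]

section

variable {V : Type} [Fintype V] [DecidableEq V] {q : ℕ → V → V → ℝ} {κ : ℕ} {par : ℕ → ℕ}
  {T : ℕ → Finset V} {u₀ : V} {B : ℝ}

theorem Wq_nn (h : QK q κ par T u₀ B) (φ : Fin κ → V) : 0 ≤ Wq q κ par u₀ φ := by
  exact Finset.prod_nonneg fun _ _ => h.nn _ _ _

theorem Wq_supp (φ : Fin κ → V) (hφ : Wq q κ par u₀ φ ≠ 0) (x : Fin κ) :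
    q x (RobT.prv κ par u₀ φ x) (φ x) ≠ 0 := by
  exact Sw_supp φ hφ x

theorem Wq_sum (h : QK q κ par T u₀ B) : ∑ φ : Fin κ → V, Wq q κ par u₀ φ = 1 := by
  induction κ with
  | zero =>
    unfold Wq
    simp
  | succ κ ih =>
    have h1 := Sw_const h (fun _ => 1) (fun _ => 1) (fun _ _ => rfl)
    simp only [mul_one] at h1
    rw [h1]
    exact ih (Sw_mono h)

theorem Wq_step (h : QK q κ par T u₀ B) (x : Fin κ) (g : V → ℝ) :
    ∑ φ : Fin κ → V, Wq q κ par u₀ φ * g (φ x) =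
      ∑ φ : Fin κ → V, Wq q κ par u₀ φ * ∑ v, q x (RobT.prv κ par u₀ φ x) v * g v := by
  induction κ with
  | zero => exact x.elim0
  | succ κ ih =>
    refine Fin.lastCases ?_ (fun x' => ?_) x
    · rw [Sw_stp q κ par h.lt u₀ (fun φ => g (φ (Fin.last κ)))]
      simp only [Fin.snoc_last]
      symm
      refine Sw_const h _ (fun φ => ∑ v, q κ (Sw_pl κ par u₀ φ) v * g v) (fun φ v => ?_)
      rw [Sw_prv_last κ par u₀ φ v h.lt, Fin.val_last]
    · rw [Sw_const h (fun φ => g (φ x'.castSucc)) (fun φ => g (φ x'))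
        (fun φ v => by rw [Fin.snoc_castSucc]), ih (Sw_mono h) x']
      symm
      refine Sw_const h _ (fun φ => ∑ v, q x' (RobT.prv κ par u₀ φ x') v * g v)
        (fun φ v => ?_)
      rw [Sw_prv_cast κ par u₀ φ v h.lt x', Fin.val_castSucc]

theorem Wq_coll (h : QK q κ par T u₀ B) (x y : Fin κ) (hxy : x ≠ y) :
    ∑ φ : Fin κ → V, Wq q κ par u₀ φ * (if φ x = φ y then 1 else 0) ≤ B := by
  induction κ with
  | zero => exact x.elim0
  | succ κ ih =>
    have key : ∀ x' : Fin κ, ∑ φ : Fin (κ + 1) → V, Wq q (κ + 1) par u₀ φ *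
        (if φ x'.castSucc = φ (Fin.last κ) then 1 else 0) ≤ B := by
      intro x'
      rw [Sw_stp q κ par h.lt u₀
        (fun φ => if φ x'.castSucc = φ (Fin.last κ) then 1 else 0)]
      simp only [Fin.snoc_last, Fin.snoc_castSucc]
      have e : ∀ φ : Fin κ → V, ∑ v, q κ (Sw_pl κ par u₀ φ) v * (if φ x' = v then 1 else 0) =
          q κ (Sw_pl κ par u₀ φ) (φ x') := by
        intro φ
        simp
      simp only [e]
      calc ∑ φ : Fin κ → V, Wq q κ par u₀ φ * q κ (Sw_pl κ par u₀ φ) (φ x')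
          ≤ ∑ φ : Fin κ → V, Wq q κ par u₀ φ * B :=
            Finset.sum_le_sum fun φ _ => mul_le_mul_of_nonneg_left
              (h.up _ _ _) (Wq_nn (Sw_mono h) φ)
        _ = B := by
            rw [← Finset.sum_mul, Wq_sum (Sw_mono h), one_mul]
    rcases Fin.eq_castSucc_or_eq_last x with ⟨x', rfl⟩ | rfl
    · rcases Fin.eq_castSucc_or_eq_last y with ⟨y', rfl⟩ | rfl
      · have h1 := ih (Sw_mono h) x' y' (fun e => hxy (by rw [e]))
        refine le_trans (le_of_eq ?_) h1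
        exact Sw_const h
          (fun φ => if φ x'.castSucc = φ y'.castSucc then 1 else 0)
          (fun φ => if φ x' = φ y' then 1 else 0)
          (fun φ v => by rw [Fin.snoc_castSucc, Fin.snoc_castSucc])
      · exact key x'
    · rcases Fin.eq_castSucc_or_eq_last y with ⟨y', rfl⟩ | rfl
      · have h1 := key y'
        refine le_trans (le_of_eq ?_) h1
        refine Finset.sum_congr rfl fun φ _ => ?_
        simp only [eq_comm]
      · exact absurd rfl hxy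

end

end Pool.Agent.Lib.TourE
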