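import Pool.Agent.Lib.TourE.Defs

/-!
# Xp: expansion between layers (about 150 lines)

`n = |V| > 0`, `M = |S 0|`.  `Y = S b \ Xp R S β a b X`.  If `Y = ∅` then `Xp … = S b`.  Let `Y ≠
∅`.
CASE `a < b` (`Arc R true u v` is `R u v`).  `bad` = the `z ∈ X` with more than `δ n` outneighbours
in `Y`: `δ n |bad| ≤ e(X, Y) = ∑_{y ∈ Y} #{x ∈ X | R x y} ≤ β n |Y| ≤ β n²`, so
`|bad| ≤ (β/δ) n ≤ min (δ n) (τ n/2)`.  `Z = X \ bad` is nonempty, as `|X| ≥ τ n > τ n/2`.
`Lay.gap` for `Z`, `Y` (`y ∈ Y` has fewer than `β n ≤ δ n` inneighbours in `X`):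
`|Z| + |Y| ≤ M - 4 δ n`.  So `|Xp| = M - |Y| ≥ |Z| + 4 δ n ≥ |X| - δ n + 4 δ n ≥ |X| + δ n`.
CASE `b < a` (`Arc R false u v` is `R v u`): the same with the arcs from `Y ⊆ S b` to `X ⊆ S a`;
`bad` = the `x ∈ X` with more than `δ n` inneighbours in `Y`; `Lay.gap` for the pair `b < a`, with
`Z := Y` and `Y := X \ bad`.
-/

/-!
# Xp: expansion between layers

`Y = S b \ Xp R S β a b X`.  The vertices of `X` with many neighbours in `Y` are few (double
counting); `Lay.gap` for the rest of `X` and `Y`.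
-/

namespace Pool.Agent.Lib.TourE

open Finset
open Pool.Agent.Lib.RobT (IsTour Arc eN Nb RT)

open Classical in
/-- The vertices of the layer `b` with many neighbours (of the right direction) in `X`. -/
noncomputable def Xp {V : Type} [Fintype V] (R : V → V → Prop) (S : ℕ → Finset V) (β : ℝ)
    (a b : ℕ) (X : Finset V) : Finset V :=
  (S b).filter fun v => β * (Fintype.card V : ℝ) ≤
    ((X.filter fun u => Arc R (decide (a < b)) u v).card : ℝ)

open Classical in
private lemma xp_aux {V : Type} [Fintype V] (T : V → V → Prop) (X Y : Finset V)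
    {δ β τ n : ℝ} (hn : n = (Fintype.card V : ℝ)) (hn0 : 0 < n) (hδ : 0 < δ) (hβ0 : 0 < β)
    (hτ : 0 < τ) (hβ1 : β ≤ δ * δ) (hβ2 : 2 * β ≤ δ * τ) (hX : τ * n ≤ X.card)
    (hδ1 : δ ≤ 1)
    (hY : ∀ y ∈ Y, ((X.filter fun x => T x y).card : ℝ) ≤ β * n) :
    ∃ Z : Finset V, Z ⊆ X ∧ Z.Nonempty ∧ (X.card : ℝ) - δ * n ≤ Z.card ∧
      (∀ z ∈ Z, ((Y.filter fun y => T z y).card : ℝ) ≤ δ * n) ∧
      (∀ y ∈ Y, ((Z.filter fun z => T z y).card : ℝ) ≤ δ * n) := by
  have hYn : (Y.card : ℝ) ≤ n := by
    rw [hn]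
    exact_mod_cast Finset.card_le_univ Y
  set bad := X.filter fun x => ¬ ((Y.filter fun y => T x y).card : ℝ) ≤ δ * n with hbad
  have hdc : ∑ x ∈ X, ((Y.filter fun y => T x y).card : ℝ) =
      ∑ y ∈ Y, ((X.filter fun x => T x y).card : ℝ) := by
    have := Finset.sum_card_bipartiteAbove_eq_sum_card_bipartiteBelow (s := X) (t := Y) T
    unfold Finset.bipartiteAbove Finset.bipartiteBelow at this
    exact_mod_cast this
  have h1 : δ * n * bad.card ≤ β * n * n := by
    have e1 : (bad.card : ℝ) * (δ * n) ≤ ∑ x ∈ bad, ((Y.filter fun y => T x y).card : ℝ) := by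
      rw [← nsmul_eq_mul]
      refine Finset.card_nsmul_le_sum _ _ _ fun x hx => ?_
      exact le_of_lt (not_le.1 (Finset.mem_filter.1 hx).2)
    have e2 : ∑ x ∈ bad, ((Y.filter fun y => T x y).card : ℝ) ≤
        ∑ x ∈ X, ((Y.filter fun y => T x y).card : ℝ) :=
      Finset.sum_le_sum_of_subset_of_nonneg (Finset.filter_subset _ _)
        fun _ _ _ => Nat.cast_nonneg _
    have e3 : ∑ y ∈ Y, ((X.filter fun x => T x y).card : ℝ) ≤ Y.card * (β * n) := by
      rw [← nsmul_eq_mul]
      exact Finset.sum_le_card_nsmul _ _ _ hY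
    have e4 : (Y.card : ℝ) * (β * n) ≤ n * (β * n) :=
      mul_le_mul_of_nonneg_right hYn (by positivity)
    rw [← hdc] at e3
    linarith
  have h2 : δ * (bad.card : ℝ) ≤ β * n := by
    have : (δ * bad.card) * n ≤ (β * n) * n := by linarith
    exact le_of_mul_le_mul_right this hn0
  have h3 : (bad.card : ℝ) ≤ δ * n := by
    have e1 : δ * (bad.card : ℝ) ≤ δ * (δ * n) := by
      have := mul_le_mul_of_nonneg_right hβ1 hn0.le
      linarith
    exact le_of_mul_le_mul_left e1 hδ
  have h4 : (bad.card : ℝ) ≤ τ * n / 2 := by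
    have e1 : δ * (bad.card : ℝ) ≤ δ * (τ * n / 2) := by
      have := mul_le_mul_of_nonneg_right hβ2 hn0.le
      linarith
    exact le_of_mul_le_mul_left e1 hδ
  have h5 : ((X.filter fun x => ((Y.filter fun y => T x y).card : ℝ) ≤ δ * n).card : ℝ) +
      bad.card = X.card := by
    exact_mod_cast Finset.card_filter_add_card_filter_not (s := X)
      (fun x => ((Y.filter fun y => T x y).card : ℝ) ≤ δ * n)
  refine ⟨X.filter fun x => ((Y.filter fun y => T x y).card : ℝ) ≤ δ * n,
    Finset.filter_subset _ _, ?_, by linarith, fun z hz => (Finset.mem_filter.1 hz).2, ?_⟩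
  · rw [← Finset.card_pos]
    have : (0 : ℝ) < (X.filter fun x => ((Y.filter fun y => T x y).card : ℝ) ≤ δ * n).card := by
      have : 0 < τ * n := mul_pos hτ hn0
      linarith
    exact_mod_cast this
  · intro y hy
    have e1 := hY y hy
    have e2 : (((X.filter fun x => ((Y.filter fun y => T x y).card : ℝ) ≤ δ * n).filter
        fun z => T z y).card : ℝ) ≤ (X.filter fun x => T x y).card := by
      exact_mod_cast Finset.card_le_card
        (Finset.filter_subset_filter _ (Finset.filter_subset _ _))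
    have e3 : β * n ≤ δ * n := by
      refine mul_le_mul_of_nonneg_right ?_ hn0.le
      nlinarith
    linarith

theorem expand {V : Type} [Fintype V] [DecidableEq V] {R : V → V → Prop} {ℓ : ℕ} {δ η : ℝ}
    {S : ℕ → Finset V} {K : Finset V} {r : V} (hL : Lay R ℓ δ η S K r) (hδ : 0 < δ)
    (hδ1 : δ ≤ 1) (hN : 0 < Fintype.card V) {β τ : ℝ} (hτ : 0 < τ) (hβ0 : 0 < β)
    (hβ1 : β ≤ δ * δ) (hβ2 : 2 * β ≤ δ * τ) (a b : ℕ) (ha : a ≤ ℓ) (hb : b ≤ ℓ) (hab : a ≠ b)
    (X : Finset V) (hX : X ⊆ S a) (hXc : τ * Fintype.card V ≤ X.card) :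
    (X.card : ℝ) + δ * Fintype.card V ≤ (Xp R S β a b X).card ∨ Xp R S β a b X = S b := by
  classical
  have hn0 : (0 : ℝ) < (Fintype.card V : ℝ) := by exact_mod_cast hN
  have hsub : Xp R S β a b X ⊆ S b := Finset.filter_subset _ _
  set Y := S b \ Xp R S β a b X with hYdef
  have hYS : Y ⊆ S b := Finset.sdiff_subset
  have hYy : ∀ y ∈ Y, ((X.filter fun x => Arc R (decide (a < b)) x y).card : ℝ) ≤
      β * (Fintype.card V : ℝ) := by
    intro y hy
    rw [hYdef, Finset.mem_sdiff] at hy
    by_contra hcon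
    push Not at hcon
    refine hy.2 (Finset.mem_filter.2 ⟨hy.1, le_trans hcon.le (le_of_eq ?_)⟩)
    congr!
  by_cases hYe : Y = ∅
  · right
    exact Finset.Subset.antisymm hsub (Finset.sdiff_eq_empty_iff_subset.1 hYe)
  · left
    have hYne : Y.Nonempty := Finset.nonempty_iff_ne_empty.2 hYe
    obtain ⟨Z, hZX, hZn, hZc, hZ1, hZ2⟩ := xp_aux (Arc R (decide (a < b))) X Y rfl hn0 hδ hβ0 hτ
      hβ1 hβ2 hXc hδ1 (fun y hy => by
        refine le_trans (le_of_eq ?_) (hYy y hy)
        congr!)
    have hcard : (Y.card : ℝ) + (Xp R S β a b X).card = (S 0).card := by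
      rw [← hL.eqc b hb, hYdef]
      exact_mod_cast Finset.card_sdiff_add_card_eq_card hsub
    have hkey : (Z.card : ℝ) + Y.card ≤ (S 0).card - 4 * δ * Fintype.card V := by
      rcases Nat.lt_or_gt_of_ne hab with h | h
      · have hd : decide (a < b) = true := decide_eq_true h
        refine hL.gap a b h hb Z (hZX.trans hX) Y hYS hZn hYne ?_ ?_
        · intro z hz
          refine le_trans (le_of_eq ?_) (hZ1 z hz)
          congr 2
          refine Finset.filter_congr fun y _ => ?_
          rw [hd]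
          unfold Arc
          simp
        · intro y hy
          refine le_trans (le_of_eq ?_) (hZ2 y hy)
          congr 2
          refine Finset.filter_congr fun z _ => ?_
          rw [hd]
          unfold Arc
          simp
      · have hd : decide (a < b) = false := decide_eq_false (not_lt.2 (le_of_lt h))
        rw [add_comm]
        refine hL.gap b a h ha Y hYS Z (hZX.trans hX) hYne hZn ?_ ?_
        · intro y hy
          refine le_trans (le_of_eq ?_) (hZ2 y hy)
          congr 2
          refine Finset.filter_congr fun z _ => ?_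
          rw [hd]
          unfold Arc
          simp
        · intro z hz
          refine le_trans (le_of_eq ?_) (hZ1 z hz)
          congr 2
          refine Finset.filter_congr fun y _ => ?_
          rw [hd]
          unfold Arc
          simp
    have : 0 < δ * (Fintype.card V : ℝ) := mul_pos hδ hn0
    linarith

end Pool.Agent.Lib.TourE
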