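import Pool.Agent.Lib.TourE.Wb
import Pool.Agent.Lib.TourE.Xp

/-!
# Wd: Doeblin condition for the kernels (about 180 lines)

`τ = 4 δ`, `β = δ * δ` (so `β ≤ δ * δ` and `2 β ≤ δ τ`).
`l = ⌈1/δ⌉ + 2`, `c₁ = δ (δ β)^(l-1)` (or anything positive and at most this, at most `1`).
`n = |V|`, `u ∈ S a`, `w = b₁ :: …`, `w` has length `l`.  By induction on the length `k ≥ 1` of
prefixes (write a word as `w' ++ [b]`, `wk_snoc`): there is a set `X_k ⊆ S b_k` with
`wk Q a (b₁ … b_k) (pt u) v ≥ δ (δ β)^(k-1)/n` for all `v ∈ X_k` and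
`4 δ n + (k-1) δ n ≤ |X_k|` or `X_k = S b_k`.
`k = 1`: `X₁ = {v ∈ S b₁ | Arc R (decide (a < b₁)) u v}`: `Lay.deg`, `KE.lo`
(`wk Q a [b₁] (pt u) v = Q a b₁ u v`).
`k → k+1`: `X_{k+1} = Xp R S β b_k b_{k+1} X_k`.  For `v ∈ X_{k+1}`: at least `β n` vertices
`x ∈ X_k` have `Arc … x v`, so the mass is at least
`β n · (δ (δ β)^(k-1)/n) · (δ/n) = δ (δ β)^k/n`.
`|X_k| ≥ 4 δ n = τ n` (also if `X_k = S b_k`, which contains the set of `Lay.deg`); by `expand`
either
`X_{k+1} = S b_{k+1}` or `|X_{k+1}| ≥ |X_k| + δ n`; in the latter case `X_k = S b_k` is impossible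
(`|X_{k+1}| ≤ |S b_{k+1}| = |S b_k|`, `n > 0`).
`k = l`: `4 δ n + (l-1) δ n > n` (`l - 1 ≥ 1/δ`), so `X_l = S b_l = S (lst a w)`.
-/

namespace Pool.Agent.Lib.TourE

open Finset
open Pool.Agent.Lib.RobT (IsTour Arc eN Nb RT)

private theorem wd_core {V : Type} [Fintype V] [DecidableEq V] {R : V → V → Prop} {ℓ : ℕ}
    {δ η C : ℝ} {S : ℕ → Finset V} {K : Finset V} {r : V} {Q : ℕ → ℕ → V → V → ℝ}
    (hδ : 0 < δ) (hδ1 : δ ≤ 1) (hN : 0 < Fintype.card V) (hL : Lay R ℓ δ η S K r)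
    (hQ : KE R ℓ S δ C Q) (a : ℕ) (u : V) (hu : u ∈ S a) :
    ∀ (k : ℕ) (w : List ℕ), w.length = k + 1 → Wd ℓ a w → ∃ X : Finset V,
      X ⊆ S (lst a w) ∧
      (∀ v ∈ X, δ * (δ * (δ * δ)) ^ k / Fintype.card V ≤ wk Q a w (RobT.pt u) v) ∧
      4 * δ * Fintype.card V ≤ (X.card : ℝ) ∧
      (X = S (lst a w) ∨ 4 * δ * Fintype.card V + k * (δ * Fintype.card V) ≤ (X.card : ℝ)) := by
  classical
  have hNR : (0 : ℝ) < Fintype.card V := by exact_mod_cast hN
  have hδN : 0 < δ * Fintype.card V := mul_pos hδ hNR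
  intro k
  induction k with
  | zero =>
    intro w hw hWd
    obtain ⟨b, rfl⟩ := List.length_eq_one_iff.1 hw
    obtain ⟨ha, hab, hb⟩ := hWd
    have hb' : b ≤ ℓ := hb
    have hlst : lst a [b] = b := rfl
    rw [hlst]
    have hd := hL.deg a b ha hb' hab u hu
    refine ⟨(S b).filter fun v => Arc R (decide (a < b)) u v, Finset.filter_subset _ _, ?_, hd,
      Or.inr ?_⟩
    · intro v hv
      obtain ⟨hv1, hv2⟩ := Finset.mem_filter.1 hv
      have h1 := hQ.lo a b ha hb' hab u hu v hv1 hv2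
      have h2 : wk Q a [b] (RobT.pt u) v = Q a b u v := by
        simp [wk, RobT.pt]
      rw [h2, pow_zero, mul_one]
      exact h1
    · rw [Nat.cast_zero, zero_mul, add_zero]
      exact hd
  | succ k ih =>
    intro w hw hWd
    rcases List.eq_nil_or_concat w with rfl | ⟨w1, b', rfl⟩
    · simp at hw
    · rw [List.concat_eq_append] at hw hWd ⊢
      have hw1 : w1.length = k + 1 := by
        rw [List.length_append, List.length_singleton] at hw
        omega
      obtain ⟨hWd1, hWd2⟩ := (Wd_append ℓ a w1 [b']).1 hWd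
      obtain ⟨hb, hbb, hb'⟩ := hWd2
      have hb'' : b' ≤ ℓ := hb'
      obtain ⟨X, hXS, hXlo, hX4, hXor⟩ := ih w1 hw1 hWd1
      have hlst : lst a (w1 ++ [b']) = b' := by
        rw [lst_append]
        rfl
      rw [hlst]
      have hcard : (S (lst a w1)).card = (S b').card := by
        rw [hL.eqc _ hb, hL.eqc _ hb'']
      have hex := expand hL hδ hδ1 hN (τ := 4 * δ) (β := δ * δ) (by linarith)
        (mul_pos hδ hδ) le_rfl (by nlinarith) (lst a w1) b' hb hb'' hbb X hXS hX4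
      have hsub : Xp R S (δ * δ) (lst a w1) b' X ⊆ S b' := Finset.filter_subset _ _
      have hcX : (X.card : ℝ) ≤ (S b').card := by
        rw [← hcard]
        exact_mod_cast Finset.card_le_card hXS
      have hcX' : ((Xp R S (δ * δ) (lst a w1) b' X).card : ℝ) ≤ (S b').card := by
        exact_mod_cast Finset.card_le_card hsub
      refine ⟨Xp R S (δ * δ) (lst a w1) b' X, hsub, ?_, ?_, ?_⟩
      · intro v hv
        obtain ⟨hv1, hv2⟩ := Finset.mem_filter.1 hv
        rw [wk_snoc]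
        have hnn : ∀ x, 0 ≤ wk Q a w1 (RobT.pt u) x := by
          refine wk_nn (KE_SK hQ) a w1 _ fun x => ?_
          unfold RobT.pt
          split_ifs <;> norm_num
        have h1 : ∑ x ∈ X.filter fun x => Arc R (decide (lst a w1 < b')) x v,
            (δ * (δ * (δ * δ)) ^ k / Fintype.card V) * (δ / Fintype.card V) ≤
            ∑ x ∈ X.filter fun x => Arc R (decide (lst a w1 < b')) x v,
              wk Q a w1 (RobT.pt u) x * Q (lst a w1) b' x v := by
          refine Finset.sum_le_sum fun x hx => ?_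
          obtain ⟨hx1, hx2⟩ := Finset.mem_filter.1 hx
          refine mul_le_mul (hXlo x hx1) (hQ.lo _ _ hb hb'' hbb x (hXS hx1) v hv1 hx2)
            (by positivity) (hnn x)
        have h2 : ∑ x ∈ X.filter fun x => Arc R (decide (lst a w1 < b')) x v,
              wk Q a w1 (RobT.pt u) x * Q (lst a w1) b' x v ≤
            ∑ x, wk Q a w1 (RobT.pt u) x * Q (lst a w1) b' x v :=
          Finset.sum_le_sum_of_subset_of_nonneg (Finset.subset_univ _)
            fun x _ _ => mul_nonneg (hnn x) (hQ.nn _ _ _ _)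
        rw [Finset.sum_const, nsmul_eq_mul] at h1
        have h3 : δ * δ * (Fintype.card V : ℝ) *
            ((δ * (δ * (δ * δ)) ^ k / Fintype.card V) * (δ / Fintype.card V)) ≤
            ((X.filter fun x => Arc R (decide (lst a w1 < b')) x v).card : ℝ) *
            ((δ * (δ * (δ * δ)) ^ k / Fintype.card V) * (δ / Fintype.card V)) := by
          refine mul_le_mul_of_nonneg_right hv2 (by positivity)
        have h4 : δ * (δ * (δ * δ)) ^ (k + 1) / (Fintype.card V : ℝ) =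
            δ * δ * (Fintype.card V : ℝ) *
            ((δ * (δ * (δ * δ)) ^ k / Fintype.card V) * (δ / Fintype.card V)) := by
          field_simp
          ring
        rw [h4]
        exact (h3.trans h1).trans h2
      · rcases hex with h | h
        · linarith
        · rw [h]
          linarith
      · rcases hex with h | h
        · rcases hXor with h' | h'
          · exfalso
            have : (X.card : ℝ) = (S b').card := by rw [h', hcard]
            linarith
          · right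
            push_cast
            nlinarith
        · exact Or.inl h

theorem doeblin (δ : ℝ) (hδ : 0 < δ) (hδ1 : δ ≤ 1) :
    ∃ (l : ℕ) (c₁ : ℝ), 1 ≤ l ∧ 0 < c₁ ∧ c₁ ≤ 1 ∧ ∀ (V : Type) [Fintype V] [DecidableEq V]
      (R : V → V → Prop) (ℓ : ℕ) (η : ℝ) (S : ℕ → Finset V) (K : Finset V) (r : V) (C : ℝ)
      (Q : ℕ → ℕ → V → V → ℝ), 0 < Fintype.card V → Lay R ℓ δ η S K r → KE R ℓ S δ C Q →
      ∀ (a : ℕ) (w : List ℕ), Wd ℓ a w → w.length = l → ∀ u ∈ S a, ∀ v ∈ S (lst a w),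
      c₁ / Fintype.card V ≤ wk Q a w (RobT.pt u) v := by
  have hβ : 0 < δ * (δ * δ) := mul_pos hδ (mul_pos hδ hδ)
  have hδδ : δ * δ ≤ 1 := by nlinarith
  have hβ1 : δ * (δ * δ) ≤ 1 := by nlinarith [mul_pos hδ hδ]
  refine ⟨⌈1 / δ⌉₊ + 2, δ * (δ * (δ * δ)) ^ (⌈1 / δ⌉₊ + 1), by omega,
    mul_pos hδ (pow_pos hβ _), ?_, ?_⟩
  · have h1 : (δ * (δ * δ)) ^ (⌈1 / δ⌉₊ + 1) ≤ 1 := pow_le_one₀ hβ.le hβ1
    have h2 : 0 < (δ * (δ * δ)) ^ (⌈1 / δ⌉₊ + 1) := pow_pos hβ _
    nlinarith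
  · intro V _ _ R ℓ η S K r C Q hN hL hQ a w hWd hlen u hu v hv
    obtain ⟨X, hXS, hXlo, -, hXor⟩ := wd_core hδ hδ1 hN hL hQ a u hu (⌈1 / δ⌉₊ + 1) w hlen hWd
    have hNR : (0 : ℝ) < Fintype.card V := by exact_mod_cast hN
    rcases hXor with h | h
    · exact hXlo v (by rw [h]; exact hv)
    · exfalso
      have h1 : (X.card : ℝ) ≤ Fintype.card V := by exact_mod_cast Finset.card_le_univ X
      have h2 : 1 / δ ≤ (⌈1 / δ⌉₊ : ℝ) := Nat.le_ceil _
      have h3 : 1 ≤ (⌈1 / δ⌉₊ : ℝ) * δ := by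
        rwa [div_le_iff₀ hδ] at h2
      push_cast at h
      nlinarith [mul_pos hδ hNR]

end Pool.Agent.Lib.TourE
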